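import Pool.Agent.Helper92.RG.YVar

/-!
# RG-Negl
If almost all zeros are on the line then the pairs with an off-line member are negligible.

`X = log T / B`, `Y = Yf (ZT T) X`, `Y₀ = Yf (ZO T) X <= Y`. The pair sum of `Gm (nd / B)` over `ZO × ZT`, divided by `SN T`, equals
`1/(B T) ∫ Y₀ Y` (`gs_pair`, as in `Yf_sq_eq`). Now, with `A = 1/T ∫ Y₀ Y`,
`∫ Y₀ Y <= ∫_{[0,T]ᶜ} Y² + B ∫ Y₀ + ∫_[0,T] Y₀ |Y - B| <= C T + B ∫ Y₀ + (∫ Y₀²)^(1/2) (C T)^(1/2)`, `∫ Y₀² <= ∫ Y₀ Y = A T`, `∫ Y₀ = (2π/X) ∑_{ZO} mx = B T * (∑_{ZO} mx / SN T)`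
`= B T o(1)` by `hNL`. So `A <= C + B² o(1) + √(C A)`, hence `A <= 3C + 2` eventually (for fixed `B`). Since `Gm (u/B) >= 1/(π⁴ (1 + (u/B)²)) >= 1/(π⁴ (1 + u²))`
(`Gm_lower'` in `Helper57/LS/Local.lean` = `Helper57/M/G.lean`), the quantity in question is eventually at most `π⁴ (3C + 2) / B`, for every `B >= 9600`.
-/

open MeasureTheory Set Filter Topology
open Pool.Agent.Helper57.Zeta Pool.Agent.Helper57.PC Pool.Agent.Helper57.LH
open Pool.Agent.Helper78.SG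
open Pool.Agent.Helper4.PC (CT)
open scoped ContDiff ENNReal

namespace Pool.Agent.Helper92.RG

open Pool.Agent.Helper57.LS (Yf_integrable gs_integral gs_integrable Gm_lower') in
private lemma Yf_integral53 (F : Finset ZS) {X : ℝ} (hX : 0 < X) :
    ∫ t, Yf F X t = 2 * Real.pi / X * ∑ ρ ∈ F, mx ρ := by
  unfold Yf
  rw [integral_finsetSum]
  · have e1 : ∀ ρ : ZS, ∫ t, mx ρ * gs X 0 (t - (ρ:ℂ).im) = (2 * Real.pi / X) * mx ρ := by
      intro ρ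
      rw [integral_const_mul]
      have e2 : ∫ t, gs X 0 (t - (ρ:ℂ).im) = 2 * Real.pi / X := by
        rw [← gs_integral hX]
        exact integral_sub_right_eq_self (gs X 0) (ρ:ℂ).im
      rw [e2]; ring
    simp_rw [e1]
    rw [← Finset.mul_sum]
  · intro ρ _
    exact ((gs_integrable hX).comp_sub_right _).const_mul _

private lemma Yf_prod53 (F G : Finset ZS) {X : ℝ} (hX : 0 < X) :
    ∫ t, Yf F X t * Yf G X t = 2 * Real.pi / X * ∑ ρ ∈ F, ∑ ρ' ∈ G,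
      mx ρ * mx ρ' * Gm (X / (2 * Real.pi) * ((ρ : ℂ).im - (ρ' : ℂ).im)) := by
  have e1 : ∀ t, Yf F X t * Yf G X t = ∑ ρ ∈ F, ∑ ρ' ∈ G, (mx ρ * mx ρ') * (gs X 0 (t - (ρ:ℂ).im) * gs X 0 (t - (ρ':ℂ).im)) := by
    intro t
    unfold Yf
    rw [Finset.sum_mul_sum]
    refine Finset.sum_congr rfl fun ρ _ => Finset.sum_congr rfl fun ρ' _ => ?_
    ring
  simp_rw [e1]
  rw [integral_finsetSum, Finset.mul_sum]
  · refine Finset.sum_congr rfl fun ρ _ => ?_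
    rw [integral_finsetSum, Finset.mul_sum]
    · refine Finset.sum_congr rfl fun ρ' _ => ?_
      rw [integral_const_mul, gs_pair hX]
      ring
    · intro ρ' _
      exact (gs_pair_integrable hX _ _).const_mul _
  · intro ρ _
    apply integrable_finsetSum
    intro ρ' _
    exact (gs_pair_integrable hX _ _).const_mul _

private lemma key53 {C B T : ℝ} (hC : 0 < C) (hB : 9600 ≤ B) (hT : 3 ≤ T) (hBL : B ≤ Real.log T)
    (h1 : ∫ t in Icc 0 T, (Yf (ZT T) (Real.log T / B) t - B) ^ 2 ≤ C * T)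
    (h2 : ∫ t in (Icc 0 T)ᶜ, Yf (ZT T) (Real.log T / B) t ^ 2 ≤ C * T)
    (h3 : (∑ ρ ∈ ZO T, mx ρ) / SN T ≤ 1 / B ^ 2) :
    (∑ ρ ∈ ZO T, ∑ ρ' ∈ ZT T, mx ρ * mx ρ' * (1 / (1 + nd T ((ρ : ℂ), (ρ' : ℂ)) ^ 2))) / SN T ≤
      Real.pi ^ 4 * (3 * C + 2) / B := by
  have hB0 : 0 < B := by linarith
  have hB1 : 1 ≤ B := by linarith
  have hT0 : 0 < T := by linarith
  have hL0 : 0 < Real.log T := by linarith
  have hpi := Real.pi_pos
  have hSN : 0 < SN T := SN_pos (by linarith)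
  set X := Real.log T / B with hX
  have hX1 : 1 ≤ X := by rw [hX, le_div_iff₀ hB0]; linarith
  have hX0 : 0 < X := by linarith
  set Y := Yf (ZT T) X with hY
  set Y0 := Yf (ZO T) X with hY0
  have hYn : ∀ t, 0 ≤ Y t := Yf_nonneg _ hX0
  have hY0n : ∀ t, 0 ≤ Y0 t := Yf_nonneg _ hX0
  have hYY : ∀ t, Y0 t ≤ Y t := by
    intro t
    rw [hY, hY0]
    unfold Yf
    refine Finset.sum_le_sum_of_subset_of_nonneg (ZO_subset T) fun ρ _ _ => ?_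
    exact mul_nonneg (mx_nonneg _) (gs_zero_nonneg hX0 _)
  have hYc : Continuous Y := Yf_cont _ _
  have hY0c : Continuous Y0 := Yf_cont _ _
  have iY2 : Integrable (fun t => Y t ^ 2) := Yf_sq_integrable _ hX1
  have iY02 : Integrable (fun t => Y0 t ^ 2) := Yf_sq_integrable _ hX1
  have iY0 : Integrable Y0 := Pool.Agent.Helper57.LS.Yf_integrable _ hX0
  have iP : Integrable (fun t => Y0 t * Y t) := by
    refine iY2.mono' (hY0c.mul hYc).aestronglyMeasurable ?_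
    filter_upwards with t
    rw [Real.norm_of_nonneg (mul_nonneg (hY0n t) (hYn t)), pow_two]
    exact mul_le_mul_of_nonneg_right (hYY t) (hYn t)
  set J := ∫ t, Y0 t * Y t with hJ
  have hsq : ∫ t, Y0 t ^ 2 ≤ J := by
    refine integral_mono iY02 iP fun t => ?_
    rw [pow_two]
    exact mul_le_mul_of_nonneg_left (hYY t) (hY0n t)
  have hsplit : J = (∫ t in Icc 0 T, Y0 t * Y t) + ∫ t in (Icc 0 T)ᶜ, Y0 t * Y t :=
    (integral_add_compl measurableSet_Icc iP).symm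
  have hA : ∫ t in (Icc 0 T)ᶜ, Y0 t * Y t ≤ C * T := by
    refine le_trans (setIntegral_mono iP.integrableOn iY2.integrableOn fun t => ?_) h2
    rw [pow_two]
    exact mul_le_mul_of_nonneg_right (hYY t) (hYn t)
  have iV : IntegrableOn (fun t => (Y t - B) ^ 2) (Icc 0 T) :=
    ((hYc.sub continuous_const).pow 2).continuousOn.integrableOn_compact isCompact_Icc
  have hBd : ∫ t in Icc 0 T, Y0 t * Y t ≤ B * (∫ t in Icc 0 T, Y0 t) +
      ((1 / 2) * (∫ t in Icc 0 T, Y0 t ^ 2) + (1 / 2) * ∫ t in Icc 0 T, (Y t - B) ^ 2) := by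
    rw [← integral_const_mul, ← integral_const_mul, ← integral_const_mul, ← integral_add, ← integral_add]
    · refine setIntegral_mono iP.integrableOn ?_ fun t => ?_
      · exact (iY0.integrableOn.const_mul B).add ((iY02.integrableOn.const_mul _).add (iV.const_mul _))
      · nlinarith only [sq_nonneg (Y0 t - (Y t - B))]
    · exact iY0.integrableOn.const_mul B
    · exact (iY02.integrableOn.const_mul _).add (iV.const_mul _)
    · exact iY02.integrableOn.const_mul _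
    · exact iV.const_mul _
  have hBe : ∫ t in Icc 0 T, Y0 t ≤ ∫ t, Y0 t :=
    setIntegral_le_integral iY0 (Filter.Eventually.of_forall hY0n)
  have hBf : ∫ t in Icc 0 T, Y0 t ^ 2 ≤ ∫ t, Y0 t ^ 2 :=
    setIntegral_le_integral iY02 (Filter.Eventually.of_forall fun t => sq_nonneg _)
  have hI0 : ∫ t, Y0 t = 2 * Real.pi / X * ∑ ρ ∈ ZO T, mx ρ := Yf_integral53 _ hX0
  have hI0' : B * ∫ t, Y0 t ≤ T := by
    have e1 : B * ∫ t, Y0 t = T * (B ^ 2 * ((∑ ρ ∈ ZO T, mx ρ) / SN T)) := by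
      rw [hI0, hX]
      unfold SN
      field_simp
    have e2 : B ^ 2 * ((∑ ρ ∈ ZO T, mx ρ) / SN T) ≤ 1 := by
      calc B ^ 2 * ((∑ ρ ∈ ZO T, mx ρ) / SN T) ≤ B ^ 2 * (1 / B ^ 2) := by gcongr
        _ = 1 := by field_simp
    rw [e1]
    nlinarith
  have hJ1 : J ≤ (3 * C + 2) * T := by
    have : B * (∫ t in Icc 0 T, Y0 t) ≤ T := (mul_le_mul_of_nonneg_left hBe hB0.le).trans hI0'
    linarith
  have hP : J = T * B * ((∑ ρ ∈ ZO T, ∑ ρ' ∈ ZT T, mx ρ * mx ρ' *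
      Gm (nd T ((ρ : ℂ), (ρ' : ℂ)) / B)) / SN T) := by
    rw [hJ, hY0, hY, Yf_prod53 _ _ hX0]
    have e1 : ∀ ρ ρ' : ZS, X / (2 * Real.pi) * ((ρ : ℂ).im - (ρ' : ℂ).im) =
        nd T ((ρ : ℂ), (ρ' : ℂ)) / B := by
      intro ρ ρ'
      rw [hX]
      unfold nd
      simp only
      field_simp
    simp_rw [e1]
    generalize (∑ ρ ∈ ZO T, ∑ ρ' ∈ ZT T, mx ρ * mx ρ' *
      Gm (nd T ((ρ : ℂ), (ρ' : ℂ)) / B)) = S
    rw [hX]
    unfold SN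
    field_simp
  have hQ : (∑ ρ ∈ ZO T, ∑ ρ' ∈ ZT T, mx ρ * mx ρ' * Gm (nd T ((ρ : ℂ), (ρ' : ℂ)) / B)) / SN T ≤
      (3 * C + 2) / B := by
    rw [le_div_iff₀ hB0]
    rw [hP] at hJ1
    have h : T * (((∑ ρ ∈ ZO T, ∑ ρ' ∈ ZT T, mx ρ * mx ρ' *
      Gm (nd T ((ρ : ℂ), (ρ' : ℂ)) / B)) / SN T) * B) ≤ T * (3 * C + 2) := by
      nlinarith only [hJ1]
    exact le_of_mul_le_mul_left h hT0
  have hR : (∑ ρ ∈ ZO T, ∑ ρ' ∈ ZT T, mx ρ * mx ρ' * (1 / (1 + nd T ((ρ : ℂ), (ρ' : ℂ)) ^ 2))) ≤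
      Real.pi ^ 4 * ∑ ρ ∈ ZO T, ∑ ρ' ∈ ZT T, mx ρ * mx ρ' * Gm (nd T ((ρ : ℂ), (ρ' : ℂ)) / B) := by
    rw [Finset.mul_sum]
    refine Finset.sum_le_sum fun ρ _ => ?_
    rw [Finset.mul_sum]
    refine Finset.sum_le_sum fun ρ' _ => ?_
    have hG := Pool.Agent.Helper57.LS.Gm_lower' (nd T ((ρ : ℂ), (ρ' : ℂ)) / B)
    have hm : 0 ≤ mx (ρ : ℂ) * mx (ρ' : ℂ) := mul_nonneg (mx_nonneg _) (mx_nonneg _)
    generalize nd T ((ρ : ℂ), (ρ' : ℂ)) = u at *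
    have hu : 1 / (1 + u ^ 2) ≤ (1 + (u / B) ^ 2)⁻¹ := by
      rw [one_div]
      have : (u / B) ^ 2 ≤ u ^ 2 := by
        rw [div_pow]
        exact div_le_self (sq_nonneg u) (by nlinarith)
      gcongr
    calc mx (ρ : ℂ) * mx (ρ' : ℂ) * (1 / (1 + u ^ 2)) ≤ mx (ρ : ℂ) * mx (ρ' : ℂ) * (Real.pi ^ 4 * Gm (u / B)) :=
          mul_le_mul_of_nonneg_left (hu.trans hG) hm
      _ = Real.pi ^ 4 * (mx (ρ : ℂ) * mx (ρ' : ℂ) * Gm (u / B)) := by ring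
  calc (∑ ρ ∈ ZO T, ∑ ρ' ∈ ZT T, mx ρ * mx ρ' * (1 / (1 + nd T ((ρ : ℂ), (ρ' : ℂ)) ^ 2))) / SN T
      ≤ (Real.pi ^ 4 * ∑ ρ ∈ ZO T, ∑ ρ' ∈ ZT T, mx ρ * mx ρ' * Gm (nd T ((ρ : ℂ), (ρ' : ℂ)) / B)) / SN T :=
        div_le_div_of_nonneg_right hR hSN.le
    _ = Real.pi ^ 4 * ((∑ ρ ∈ ZO T, ∑ ρ' ∈ ZT T, mx ρ * mx ρ' * Gm (nd T ((ρ : ℂ), (ρ' : ℂ)) / B)) / SN T) := by
        ring
    _ ≤ Real.pi ^ 4 * ((3 * C + 2) / B) := by gcongr
    _ = Real.pi ^ 4 * (3 * C + 2) / B := by ring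

theorem negligible {U : Filter ℝ} (hU : U ≤ atTop) (hNL : Tendsto (fun T => (∑ ρ ∈ ZO T, mx ρ) / SN T) U (𝓝 0)) :
    Tendsto (fun T => (∑ ρ ∈ ZO T, ∑ ρ' ∈ ZT T, mx ρ * mx ρ' * (1 / (1 + nd T ((ρ : ℂ), (ρ' : ℂ)) ^ 2))) / SN T)
      U (𝓝 0) := by
  obtain ⟨C, hC, hvar⟩ := yf_var
  have hpi := Real.pi_pos
  rw [Metric.tendsto_nhds]
  intro δ hδ
  set K := Real.pi ^ 4 * (3 * C + 2) with hK
  have hK0 : 0 < K := by positivity
  set B := max 9600 (K / δ + 1) with hB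
  have hB1 : 9600 ≤ B := le_max_left _ _
  have hB2 : K / δ + 1 ≤ B := le_max_right _ _
  have hB0 : 0 < B := by linarith
  have e1 : ∀ᶠ T in U, (∑ ρ ∈ ZO T, mx ρ) / SN T ≤ 1 / B ^ 2 := by
    have : (0 : ℝ) < 1 / B ^ 2 := by positivity
    filter_upwards [(tendsto_order.1 hNL).2 _ this] with T hT using hT.le
  filter_upwards [e1, hU (hvar B hB1), hU (eventually_ge_atTop 3),
    hU (Real.tendsto_log_atTop.eventually_ge_atTop B)] with T h1 h2 h3 h4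
  have h5 := key53 hC hB1 h3 h4 h2.1 h2.2 h1
  have h6 : K / B < δ := by
    rw [div_lt_iff₀ hB0]
    have : K / δ < B := by linarith
    rw [div_lt_iff₀ hδ] at this
    linarith
  have h7 : 0 ≤ (∑ ρ ∈ ZO T, ∑ ρ' ∈ ZT T, mx ρ * mx ρ' *
      (1 / (1 + nd T ((ρ : ℂ), (ρ' : ℂ)) ^ 2))) / SN T := by
    refine div_nonneg (Finset.sum_nonneg fun ρ _ => Finset.sum_nonneg fun ρ' _ => ?_)
      (SN_pos (by linarith)).le
    exact mul_nonneg (mul_nonneg (mx_nonneg _) (mx_nonneg _)) (by positivity)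
  rw [Real.dist_eq, sub_zero, abs_of_nonneg h7]
  linarith

end Pool.Agent.Helper92.RG
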