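import Pool.Agent.Helper92.RG.Brid
import Pool.Agent.Helper92.RG.Negl
import Pool.Agent.Helper78.SG.ExpMoment
import Pool.Agent.Helper78.SG.Iso

/-!
# RG-Conv: the converse directions
-/

open MeasureTheory Set Filter Topology
open Pool.Agent.Helper57.Zeta Pool.Agent.Helper57.PC Pool.Agent.Helper57.LH
open Pool.Agent.Helper78.SG
open Pool.Agent.Helper4.PC (CT)
open scoped ContDiff ENNReal

namespace Pool.Agent.Helper92.RG

theorem SN_eq' (T : ℝ) : SN T = T * Real.log T / (2 * Real.pi) := rfl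

theorem refl_ne {ρ : ZS} (h : (ρ : ℂ).re ≠ 1 / 2) : refl ρ ≠ ρ := by
  intro hh
  have h1 := refl_re ρ
  rw [hh] at h1
  apply h
  linarith

theorem refl_mem {T : ℝ} {ρ : ZS} (h : ρ ∈ ZT T) : refl ρ ∈ ZT T := by
  rw [mem_ZT] at h ⊢
  rw [refl_im]
  exact h

/-- diagonal mass: off-line zeros are counted twice -/
theorem diag_off {T : ℝ} (hT : 1 < T) : NT T + ∑ ρ ∈ ZO T, mx ρ ≤ pairCount T 0 0 := by
  classical
  rw [pairCount_PF hT, PF_ind T _ 0 0 hT, ← sum_ZT_mx]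
  have e : ∑ ρ ∈ ZO T, mx (ρ : ℂ) = ∑ ρ ∈ ZT T, if (ρ : ℂ).re ≠ 1 / 2 then mx (ρ : ℂ) else 0 := by
    unfold ZO
    rw [Finset.sum_filter]
  rw [e, ← Finset.sum_add_distrib]
  refine Finset.sum_le_sum fun ρ hρ => ?_
  have hn : ∀ ρ' : ZS, 0 ≤ mx ρ * mx ρ' * (Icc (0:ℝ) 0).indicator 1 (nd T ((ρ : ℂ), (ρ' : ℂ))) := by
    intro ρ'
    refine mul_nonneg (mul_nonneg (mx_nonneg _) (mx_nonneg _)) ?_
    apply indicator_nonneg
    intro x _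
    exact zero_le_one
  have h1 := mx_one_le ρ
  have hd : mx ρ * mx ρ * (Icc (0:ℝ) 0).indicator 1 (nd T ((ρ : ℂ), (ρ : ℂ))) = mx ρ * mx ρ := by
    have : nd T ((ρ : ℂ), (ρ : ℂ)) ∈ Icc (0:ℝ) 0 := by
      unfold nd
      simp
    rw [indicator_of_mem this, Pi.one_apply, mul_one]
  by_cases h : (ρ : ℂ).re ≠ 1 / 2
  · rw [if_pos h]
    have hr : mx ρ * mx (refl ρ) * (Icc (0:ℝ) 0).indicator 1 (nd T ((ρ : ℂ), (refl ρ : ℂ))) = mx ρ * mx ρ := by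
      have : nd T ((ρ : ℂ), (refl ρ : ℂ)) ∈ Icc (0:ℝ) 0 := by
        unfold nd
        simp only
        rw [refl_im]
        simp
      rw [indicator_of_mem this, Pi.one_apply, mul_one, refl_mx]
    have hsub : ({ρ, refl ρ} : Finset ZS) ⊆ ZT T := by
      intro x hx
      rw [Finset.mem_insert, Finset.mem_singleton] at hx
      rcases hx with rfl | rfl
      · exact hρ
      · exact refl_mem hρ
    calc mx ρ + mx ρ ≤ mx ρ * mx ρ + mx ρ * mx ρ := by nlinarith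
      _ = ∑ ρ' ∈ ({ρ, refl ρ} : Finset ZS), mx ρ * mx ρ' * (Icc (0:ℝ) 0).indicator 1 (nd T ((ρ : ℂ), (ρ' : ℂ))) := by
        rw [Finset.sum_pair (refl_ne h).symm, hd, hr]
      _ ≤ _ := Finset.sum_le_sum_of_subset_of_nonneg hsub fun ρ' _ _ => hn ρ'
  · rw [if_neg h, add_zero]
    calc mx ρ ≤ mx ρ * mx ρ := by nlinarith
      _ = mx ρ * mx ρ * (Icc (0:ℝ) 0).indicator 1 (nd T ((ρ : ℂ), (ρ : ℂ))) := hd.symm
      _ ≤ _ := Finset.single_le_sum (f := fun ρ' : ZS => mx ρ * mx ρ' * (Icc (0:ℝ) 0).indicator 1 (nd T ((ρ : ℂ), (ρ' : ℂ))))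
        (fun ρ' _ => hn ρ') hρ

theorem nl_of_law {l : Filter ℝ} (hl : l ≤ atTop) (h : Tendsto (fun T => pairCount T 0 0 / SN T) l (𝓝 1)) :
    Tendsto (fun T => (∑ ρ ∈ ZO T, mx ρ) / SN T) l (𝓝 0) := by
  have h1 := h.sub (NT_ratio.mono_left hl)
  rw [sub_self] at h1
  refine tendsto_of_tendsto_of_tendsto_of_le_of_le' tendsto_const_nhds h1 ?_ ?_
  · filter_upwards [hl (eventually_gt_atTop 1)] with T hT
    exact div_nonneg (Finset.sum_nonneg fun ρ _ => mx_nonneg _) (SN_pos hT).le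
  · filter_upwards [hl (eventually_gt_atTop 1)] with T hT
    rw [← sub_div]
    have := SN_pos hT
    have := diag_off hT
    gcongr
    linarith

/-- the ratio of critical zeros -/
theorem crit_of_nl {l : Filter ℝ} (hl : l ≤ atTop) (h : Tendsto (fun T => (∑ ρ ∈ ZO T, mx ρ) / SN T) l (𝓝 0)) :
    Tendsto (fun T : ℝ => (∑ᶠ ρ ∈ {ρ : ℂ | ρ ∈ zerosUpTo T ∧ ρ.re = 1 / 2}, (mult ρ : ℝ)) /
      (T * Real.log T / (2 * Real.pi))) l (𝓝 1) := by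
  classical
  have h1 := (NT_ratio.mono_left hl).sub h
  rw [sub_zero] at h1
  refine h1.congr fun T => ?_
  rw [crit_sum, off_sum, ← SN_eq']
  ring

/-- removing the off-line zeros -/
theorem pf_diff {T : ℝ} (hT : 1 < T) {φ : ℝ → ℝ} {K : ℝ} (h0 : ∀ u, 0 ≤ φ u) (hK : ∀ u, φ u ≤ K * (1 / (1 + u ^ 2))) :
    PF T (ZT T) φ - PF T (ZC T) φ ≤
      2 * K * ((∑ ρ ∈ ZO T, ∑ ρ' ∈ ZT T, mx ρ * mx ρ' * (1 / (1 + nd T ((ρ : ℂ), (ρ' : ℂ)) ^ 2))) / SN T) := by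
  classical
  unfold PF
  have hS := SN_pos hT
  rw [← sub_div, ← mul_div_assoc]
  gcongr
  have e : ∀ f : ZS → ℝ, ∑ ρ ∈ ZT T, f ρ = ∑ ρ ∈ ZC T, f ρ + ∑ ρ ∈ ZO T, f ρ := by
    intro f
    unfold ZC ZO
    exact (Finset.sum_filter_add_sum_filter_not _ _ _).symm
  have hm : ∀ ρ ρ' : ZS, 0 ≤ mx ρ * mx ρ' := fun ρ ρ' => mul_nonneg (mx_nonneg _) (mx_nonneg _)
  have a1 : ∑ ρ ∈ ZT T, ∑ ρ' ∈ ZT T, mx ρ * mx ρ' * φ (nd T ((ρ : ℂ), (ρ' : ℂ))) =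
      ∑ ρ ∈ ZC T, ∑ ρ' ∈ ZC T, mx ρ * mx ρ' * φ (nd T ((ρ : ℂ), (ρ' : ℂ))) +
      (∑ ρ ∈ ZC T, ∑ ρ' ∈ ZO T, mx ρ * mx ρ' * φ (nd T ((ρ : ℂ), (ρ' : ℂ))) +
      ∑ ρ ∈ ZO T, ∑ ρ' ∈ ZT T, mx ρ * mx ρ' * φ (nd T ((ρ : ℂ), (ρ' : ℂ)))) := by
    rw [e (fun ρ => ∑ ρ' ∈ ZT T, mx ρ * mx ρ' * φ (nd T ((ρ : ℂ), (ρ' : ℂ)))), ← add_assoc, ← Finset.sum_add_distrib]
    congr 1
    refine Finset.sum_congr rfl fun ρ _ => ?_
    rw [e (fun ρ' => mx ρ * mx ρ' * φ (nd T ((ρ : ℂ), (ρ' : ℂ))))]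
  set N := ∑ ρ ∈ ZO T, ∑ ρ' ∈ ZT T, mx ρ * mx ρ' * (1 / (1 + nd T ((ρ : ℂ), (ρ' : ℂ)) ^ 2)) with hN
  have a2 : ∑ ρ ∈ ZO T, ∑ ρ' ∈ ZT T, mx ρ * mx ρ' * φ (nd T ((ρ : ℂ), (ρ' : ℂ))) ≤ K * N := by
    rw [hN, Finset.mul_sum]
    refine Finset.sum_le_sum fun ρ _ => ?_
    rw [Finset.mul_sum]
    refine Finset.sum_le_sum fun ρ' _ => ?_
    have := mul_le_mul_of_nonneg_left (hK (nd T ((ρ : ℂ), (ρ' : ℂ)))) (hm ρ ρ')
    linarith
  have a3 : ∑ ρ ∈ ZC T, ∑ ρ' ∈ ZO T, mx ρ * mx ρ' * φ (nd T ((ρ : ℂ), (ρ' : ℂ))) ≤ K * N := by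
    rw [Finset.sum_comm, hN, Finset.mul_sum]
    refine Finset.sum_le_sum fun ρ _ => ?_
    rw [Finset.mul_sum]
    have b1 : ∀ ρ' : ZS, mx ρ' * mx ρ * φ (nd T ((ρ' : ℂ), (ρ : ℂ))) ≤ K * (mx ρ * mx ρ' * (1 / (1 + nd T ((ρ : ℂ), (ρ' : ℂ)) ^ 2))) := by
      intro ρ'
      have hnd : nd T ((ρ' : ℂ), (ρ : ℂ)) = - nd T ((ρ : ℂ), (ρ' : ℂ)) := by unfold nd; simp only; ring
      have b2 := mul_le_mul_of_nonneg_left (hK (nd T ((ρ' : ℂ), (ρ : ℂ)))) (hm ρ' ρ)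
      rw [hnd, neg_sq] at b2
      rw [hnd]
      nlinarith
    calc ∑ ρ' ∈ ZC T, mx ρ' * mx ρ * φ (nd T ((ρ' : ℂ), (ρ : ℂ)))
        ≤ ∑ ρ' ∈ ZT T, mx ρ' * mx ρ * φ (nd T ((ρ' : ℂ), (ρ : ℂ))) :=
          Finset.sum_le_sum_of_subset_of_nonneg (ZC_subset T) fun ρ' _ _ => mul_nonneg (hm ρ' ρ) (h0 _)
      _ ≤ _ := Finset.sum_le_sum fun ρ' _ => b1 ρ'
  linarith

/-- the law gives the lower bound for the critical pairs -/
theorem crit_of_law {l : Filter ℝ} (hl : l ≤ atTop) (h : Law l) {α β : ℝ} (hα : 0 < α) (hαβ : α < β) {δ : ℝ} (hδ : 0 < δ) :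
    ∀ᶠ T : ℝ in l, ((∫ u in α..β, pcDensity u) - δ) * (T * Real.log T / (2 * Real.pi)) ≤ critPairCount T α β := by
  have h0 := h 0 0 le_rfl
  simp only [intervalIntegral.integral_same, le_refl, and_self, if_true, zero_add] at h0
  have hNL := nl_of_law hl h0
  have hneg := negligible hl hNL
  have h1 := h α β hαβ.le
  rw [if_neg (fun hh => absurd hh.1 (not_le.mpr hα)), add_zero] at h1
  have h2 := hneg.const_mul (2 * (1 + β ^ 2))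
  rw [mul_zero] at h2
  filter_upwards [h1.eventually (lt_mem_nhds (sub_lt_self _ (half_pos hδ))), h2.eventually (gt_mem_nhds (half_pos hδ)),
    hl (eventually_gt_atTop 1)] with T hT hT2 hT1
  have hS := SN_pos hT1
  have hd := pf_diff (T := T) hT1 (φ := (Icc α β).indicator 1) (K := 1 + β ^ 2)
    (fun u => by
      apply indicator_nonneg
      intro x _
      exact zero_le_one)
    (fun u => by
      by_cases hu : u ∈ Icc α β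
      · rw [indicator_of_mem hu, Pi.one_apply, mul_one_div, le_div_iff₀ (by positivity), one_mul]
        have : u ^ 2 ≤ β ^ 2 := by
          have h3 : 0 ≤ u := hα.le.trans hu.1
          have := hu.2
          gcongr
        linarith
      · rw [indicator_of_notMem hu]
        positivity)
  rw [critPairCount_PF hT1, ← SN_eq', mul_comm]
  rw [pairCount_PF hT1, ← SN_eq', mul_div_cancel_left₀ _ hS.ne'] at hT
  apply mul_le_mul_of_nonneg_left _ hS.le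
  linarith

end Pool.Agent.Helper92.RG
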