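import Mathlib

/-!
# RG-MLe
Comparison of measures on open sets, and a subtraction lemma (general; no zeta).

1. `le_of_integral`: for `K ⊆ S` compact and `K ⊆ V ⊆ S` open with `ν V` close to `ν K` (outer regularity), Urysohn gives `φ` with
   `1_K <= φ <= 1_V`, so `μ K <= ν V`; hence `μ K <= ν K`; inner regularity gives `μ A <= ν A` for Borel `A ⊆ S`.
2. `le_sym`: split a measurable set `A ∩ S` into the parts in `Ioi 0`, `{0}`, `Iio 0`; the last one is the image of a subset of `S ∩ Ioi 0`
   under `x ↦ -x`.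
3. `exists_add`: `μ <= ν` and both are sigma-finite, so `μ` has a density `g <= 1` with respect to `ν`; `ρ` has density `1 - g`
   (or use `Measure.sub`).
-/

open MeasureTheory Set Filter Topology
open scoped ENNReal

namespace Pool.Agent.Helper92.RG

theorem le_of_integral {S : Set ℝ} (hS : IsOpen S) {μ ν : Measure ℝ} [IsFiniteMeasureOnCompacts μ] [IsFiniteMeasureOnCompacts ν]
    (h : ∀ φ : ℝ → ℝ, Continuous φ → HasCompactSupport φ → tsupport φ ⊆ S → (∀ x, 0 ≤ φ x) →
      ∫ x, φ x ∂μ ≤ ∫ x, φ x ∂ν) :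
    μ.restrict S ≤ ν.restrict S := by
  have hcomp : ∀ K : Set ℝ, IsCompact K → K ⊆ S → μ K ≤ ν K := by
    intro K hK hKS
    refine le_of_forall_gt fun r hr => ?_
    obtain ⟨V, hKV, hVo, hVr⟩ := K.exists_isOpen_lt_of_lt r hr
    obtain ⟨φ, hφ1, hφc, hφs, hφ⟩ := exists_continuousMap_one_of_isCompact_subset_isOpen hK
      (hVo.inter hS) (subset_inter hKV hKS)
    have h0 : ∀ x, 0 ≤ φ x := fun x => (hφ x).1
    have hle := h φ φ.continuous hφc (hφs.trans inter_subset_right) h0
    have hiμ : Integrable φ μ := φ.continuous.integrable_of_hasCompactSupport hφc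
    have hiν : Integrable φ ν := φ.continuous.integrable_of_hasCompactSupport hφc
    have h1 : μ K ≤ ENNReal.ofReal (∫ x, φ x ∂μ) := by
      rw [ofReal_integral_eq_lintegral_ofReal hiμ (Eventually.of_forall h0)]
      rw [← setLIntegral_one K, ← lintegral_indicator hK.measurableSet]
      refine lintegral_mono fun x => ?_
      by_cases hx : x ∈ K
      · rw [indicator_of_mem hx, hφ1 hx]
        simp
      · rw [indicator_of_notMem hx]
        exact zero_le
    have h2 : ENNReal.ofReal (∫ x, φ x ∂ν) ≤ ν V := by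
      rw [ofReal_integral_eq_lintegral_ofReal hiν (Eventually.of_forall h0)]
      rw [← setLIntegral_one V, ← lintegral_indicator hVo.measurableSet]
      refine lintegral_mono fun x => ?_
      by_cases hx : x ∈ V
      · rw [indicator_of_mem hx]
        exact ENNReal.ofReal_le_one.2 (hφ x).2
      · rw [indicator_of_notMem hx]
        have h3 : x ∉ tsupport φ := fun hx' => hx (hφs hx').1
        rw [image_eq_zero_of_notMem_tsupport h3]
        simp
    exact lt_of_le_of_lt (h1.trans ((ENNReal.ofReal_le_ofReal hle).trans h2)) hVr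
  rw [Measure.le_iff]
  intro A hA
  rw [Measure.restrict_apply hA, Measure.restrict_apply hA]
  rw [(hA.inter hS.measurableSet).measure_eq_iSup_isCompact (μ := μ)]
  refine iSup₂_le fun K hK => iSup_le fun hKc => ?_
  exact (hcomp K hKc (hK.trans inter_subset_right)).trans (measure_mono hK)

theorem le_sym {S : Set ℝ} (hS : MeasurableSet S) (hsym : ∀ x, x ∈ S → -x ∈ S) {μ ν : Measure ℝ}
    (hμ : μ.map (fun x => -x) = μ) (hν : ν.map (fun x => -x) = ν) (h0 : μ (S ∩ {0}) ≤ ν (S ∩ {0}))
    (h : μ.restrict (S ∩ Ioi 0) ≤ ν.restrict (S ∩ Ioi 0)) : μ.restrict S ≤ ν.restrict S := by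
  have hneg : Measurable (fun x : ℝ => -x) := measurable_neg
  rw [Measure.le_iff]
  intro A hA
  rw [Measure.restrict_apply hA, Measure.restrict_apply hA]
  have hdec : ∀ m : Measure ℝ, m.map (fun x => -x) = m → m (A ∩ S) =
      m (A ∩ S ∩ Ioi 0) + (m (A ∩ S ∩ {0}) + m ((fun x : ℝ => -x) ⁻¹' A ∩ (S ∩ Ioi 0))) := by
    intro m hm
    have hAS := hA.inter hS
    rw [← measure_inter_add_sdiff (A ∩ S) (measurableSet_Ioi (a := (0 : ℝ)))]
    congr 1
    rw [← measure_inter_add_sdiff ((A ∩ S) \ Ioi 0) (measurableSet_singleton (0 : ℝ))]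
    congr 1
    · congr 1
      ext x
      constructor
      · rintro ⟨⟨h1, -⟩, h2⟩
        exact ⟨h1, h2⟩
      · rintro ⟨h1, h2⟩
        refine ⟨⟨h1, ?_⟩, h2⟩
        rw [mem_singleton_iff.1 h2]
        exact fun h3 => lt_irrefl _ (mem_Ioi.1 h3)
    · conv_lhs => rw [← hm]
      rw [Measure.map_apply hneg ((hAS.diff measurableSet_Ioi).diff
        (measurableSet_singleton (0 : ℝ)))]
      congr 1
      ext x
      constructor
      · rintro ⟨⟨⟨h1, h2⟩, h3⟩, h4⟩
        refine ⟨h1, ?_, ?_⟩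
        · have h5 := hsym _ h2
          rwa [neg_neg] at h5
        · rw [mem_Ioi]
          have h5 : ¬ 0 < -x := h3
          have h6 : ¬ -x = 0 := h4
          rcases lt_trichotomy x 0 with h7 | h7 | h7
          · exact absurd (neg_pos.2 h7) h5
          · exact absurd (neg_eq_zero.2 h7) h6
          · exact h7
      · rintro ⟨h1, h2, h3⟩
        have h4 : 0 < x := h3
        refine ⟨⟨⟨h1, hsym _ h2⟩, fun h5 => ?_⟩, fun h5 => ?_⟩
        · have h6 : 0 < -x := h5
          linarith
        · have h6 : -x = 0 := h5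
          linarith
  rw [hdec μ hμ, hdec ν hν]
  have hIoi : ∀ A' : Set ℝ, MeasurableSet A' → μ (A' ∩ (S ∩ Ioi 0)) ≤ ν (A' ∩ (S ∩ Ioi 0)) := by
    intro A' hA'
    have h1 := (Measure.le_iff.1 h) A' hA'
    rwa [Measure.restrict_apply hA', Measure.restrict_apply hA'] at h1
  refine add_le_add ?_ (add_le_add ?_ (hIoi _ (hneg hA)))
  · rw [inter_assoc]
    exact hIoi A hA
  · by_cases h1 : (0 : ℝ) ∈ A
    · have h2 : A ∩ S ∩ {0} = S ∩ {0} := by
        ext x
        constructor
        · rintro ⟨⟨-, h3⟩, h4⟩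
          exact ⟨h3, h4⟩
        · rintro ⟨h3, h4⟩
          refine ⟨⟨?_, h3⟩, h4⟩
          rw [mem_singleton_iff.1 h4]
          exact h1
      rw [h2]
      exact h0
    · have h2 : A ∩ S ∩ {0} = ∅ := by
        ext x
        constructor
        · rintro ⟨⟨h3, -⟩, h4⟩
          rw [mem_singleton_iff.1 h4] at h3
          exact absurd h3 h1
        · intro h3
          exact absurd h3 (notMem_empty x)
      rw [h2, measure_empty]
      exact zero_le

theorem exists_add {μ ν : Measure ℝ} [SigmaFinite μ] [SigmaFinite ν] (h : μ ≤ ν) : ∃ ρ : Measure ℝ, ν = μ + ρ := by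
  have hac : μ ≪ ν := Measure.absolutelyContinuous_of_le h
  have h1 : ν.withDensity (μ.rnDeriv ν) = μ := Measure.withDensity_rnDeriv_eq μ ν hac
  have h2 : μ.rnDeriv ν ≤ᵐ[ν] 1 := Measure.rnDeriv_le_one_of_le h
  refine ⟨ν.withDensity (fun x => 1 - μ.rnDeriv ν x), ?_⟩
  have h3 : ν.withDensity (μ.rnDeriv ν + fun x => 1 - μ.rnDeriv ν x) = ν := by
    have h4 : (μ.rnDeriv ν + fun x => 1 - μ.rnDeriv ν x) =ᵐ[ν] 1 := by
      filter_upwards [h2] with x hx
      exact add_tsub_cancel_of_le hx
    rw [withDensity_congr_ae h4, withDensity_one]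
  rw [withDensity_add_left (Measure.measurable_rnDeriv μ ν), h1] at h3
  exact h3.symm

end Pool.Agent.Helper92.RG
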