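import Pool.Agent.Helper92.RG.Basic

/-!
# RG-Pred
The prediction. `sc u = (sin πu/πu)²` (continuous), `sc_FT`: `∫ sc x * cos (2 π v x) dx = tri v = max 0 (1 - |v|)` (`Helper57/M/E.lean`),
`sc_integral`. Fourier inversion for `r` smooth even compactly supported: `∫ CT r u du = r 0`.

1. `ct_decay`: iterated integration by parts (or the Schwartz class); `ct_cont`: dominated convergence.
2. `pred`: `∫ CT r u * Fc u du = ∫ CT r - ∫ CT r * sc = r 0 - ∫ r y * tri y dy` (Fubini) and `tri y = 1 - |y|` on the support;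
   `CT r 0 = ∫ r`.
3. `pred_kap`: `r = f.h ^ 2`, `kap0 h = h 0 ^ 2 + 2 ∫_0^(1/2) y h y ^ 2` and evenness.
-/

open MeasureTheory Set Filter Topology
open Pool.Agent.Helper57.Zeta Pool.Agent.Helper57.PC Pool.Agent.Helper57.LH
open Pool.Agent.Helper78.SG
open Pool.Agent.Helper4.PC (CT)
open scoped ContDiff ENNReal

namespace Pool.Agent.Helper92.RG

private theorem bump_cs {θ : ℝ} {r : ℝ → ℝ} (hr : Bump θ r) : HasCompactSupport r := by
  obtain ⟨θ', h0, _, hs⟩ := hr.supp
  apply HasCompactSupport.intro (isCompact_Icc (a := -θ') (b := θ'))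
  intro x hx
  apply hs
  by_contra h
  push Not at h
  exact hx (abs_le.mp h.le)

private theorem bump_int {θ : ℝ} {r : ℝ → ℝ} (hr : Bump θ r) : Integrable r :=
  hr.smooth.continuous.integrable_of_hasCompactSupport (bump_cs hr)

open scoped FourierTransform in
theorem ct_decay {θ : ℝ} {r : ℝ → ℝ} (hr : Bump θ r) (k : ℕ) : ∃ M : ℝ, 0 < M ∧ ∀ u, |CT r u| ≤ M / (1 + |u|) ^ k := by
  have h1 : HasCompactSupport (fun x => (r x : ℂ)) :=
    (bump_cs hr).comp_left (g := fun x : ℝ => (x : ℂ)) Complex.ofReal_zero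
  have h2 : ContDiff ℝ ∞ (fun x => (r x : ℂ)) := Complex.ofRealCLM.contDiff.comp hr.smooth
  let f : SchwartzMap ℝ ℂ := h1.toSchwartzMap h2
  have hf : ∀ u, ((𝓕 f : SchwartzMap ℝ ℂ) u) = (CT r u : ℂ) := by
    intro u
    rw [SchwartzMap.fourier_coe]
    exact Helper4.PC.fourier_eq_CT (bump_int hr) hr.even u
  set S := 2 ^ k * ((Finset.Iic (k, 0)).sup fun m => SchwartzMap.seminorm ℝ m.1 m.2) (𝓕 f : SchwartzMap ℝ ℂ) with hS
  have h3 : ∀ u, (1 + |u|) ^ k * |CT r u| ≤ S := by
    intro u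
    have h4 := SchwartzMap.one_add_le_sup_seminorm_apply (𝕜 := ℝ) (m := (k, 0)) (k := k) (n := 0)
      le_rfl le_rfl (𝓕 f : SchwartzMap ℝ ℂ) u
    rw [norm_iteratedFDeriv_zero, hf u, Complex.norm_real] at h4
    exact h4
  have hS0 : 0 ≤ S := le_trans (by positivity) (h3 0)
  refine ⟨S + 1, by linarith, fun u => ?_⟩
  rw [le_div_iff₀ (by positivity), mul_comm]
  linarith [h3 u]

theorem ct_decay2 {θ : ℝ} {r : ℝ → ℝ} (hr : Bump θ r) : ∃ M : ℝ, ∀ u, |CT r u| ≤ M / (1 + u ^ 2) := by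
  obtain ⟨M, hM, h⟩ := ct_decay hr 2
  refine ⟨M, fun u => (h u).trans ?_⟩
  apply div_le_div_of_nonneg_left hM.le (by positivity)
  have : u ^ 2 = |u| ^ 2 := (sq_abs u).symm
  rw [this]
  nlinarith [abs_nonneg u]

theorem ct_cont {θ : ℝ} {r : ℝ → ℝ} (hr : Bump θ r) : Continuous (CT r) :=
  Helper4.PC.CT_cont (bump_int hr)

private theorem ct_integrable {θ : ℝ} {r : ℝ → ℝ} (hr : Bump θ r) : Integrable (CT r) := by
  obtain ⟨M, h⟩ := ct_decay2 hr
  refine (integrable_inv_one_add_sq.const_mul M).mono' (ct_cont hr).aestronglyMeasurable ?_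
  filter_upwards with u
  rw [Real.norm_eq_abs]
  exact (h u).trans (le_of_eq (div_eq_mul_inv _ _))

open Pool.Agent.Helper57.LS (tri sc_FT) in
theorem pred {r : ℝ → ℝ} (hr : Bump 1 r) : CT r 0 + ∫ u, CT r u * Fc u = r 0 + ∫ y, |y| * r y := by
  have hri := bump_int hr
  have hci := ct_integrable hr
  have hscb : ∀ u, ‖sc u‖ ≤ 1 := fun u => by
    rw [Real.norm_eq_abs, abs_of_nonneg (sc_nonneg u)]
    exact sc_le_one u
  have hcs : Integrable (fun u => CT r u * sc u) := by
    refine hci.norm.mono' (hci.aestronglyMeasurable.mul sc_cont.aestronglyMeasurable) ?_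
    filter_upwards with u
    rw [norm_mul]
    exact mul_le_of_le_one_right (norm_nonneg _) (hscb u)
  have h1 : ∫ u, CT r u * Fc u = (∫ u, CT r u) - ∫ u, CT r u * sc u := by
    rw [← integral_sub hci hcs]
    congr 1; funext u
    unfold Fc
    ring
  have h2 : ∫ u, CT r u = r 0 := by
    have h3 := Helper4.PC.CT_CT hr.smooth.continuous hri hr.even hci 0
    rw [← h3]
    unfold Helper4.PC.CT
    simp
  have h4 : ∫ u, CT r u * sc u = ∫ y, r y * tri y := by
    have h5 := Helper4.PC.CT_mul_CT hri sc_integrable 0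
    have h6 : CT (fun ξ => r ξ * CT sc ξ) 0 = ∫ y, r y * tri y := by
      have h7 : ∀ ξ, CT sc ξ = tri ξ := fun ξ => sc_FT ξ
      show (∫ ξ, (r ξ * CT sc ξ) * Real.cos (2 * Real.pi * 0 * ξ)) = _
      congr 1; funext ξ
      rw [h7]
      simp
    rw [h6] at h5
    rw [h5]
    have h8 : ∀ s, CT r (0 - s) = CT r s := fun s => by rw [zero_sub]; exact Helper4.PC.CT_even r s
    have h9 : ∀ s, CT r (-0 - s) = CT r s := fun s => by rw [neg_zero]; exact h8 s
    simp_rw [h8, h9]
    have h10 : (fun s => sc s * CT r s) = fun u => CT r u * sc u := by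
      funext s; ring
    rw [h10]
    ring
  have h11 : Integrable (fun y => |y| * r y) :=
    (continuous_abs.mul hr.smooth.continuous).integrable_of_hasCompactSupport
      ((bump_cs hr).mul_left)
  have h12 : ∫ y, r y * tri y = (∫ y, r y) - ∫ y, |y| * r y := by
    rw [← integral_sub hri h11]
    congr 1; funext y
    rcases le_total 1 |y| with h | h
    · obtain ⟨θ', _, h14, hs⟩ := hr.supp
      rw [hs y (by linarith)]
      ring
    · have : tri y = 1 - |y| := by
        unfold tri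
        exact max_eq_right (by linarith)
      rw [this]
      ring
  have h13 : CT r 0 = ∫ y, r y := by
    show (∫ ξ, r ξ * Real.cos (2 * Real.pi * 0 * ξ)) = _
    simp
  rw [h1, h2, h4, h12, h13]
  ring

theorem pred_kap (f : TF) :
    CT (fun y => f.h y ^ 2) 0 + ∫ u, CT (fun y => f.h y ^ 2) u * Fc u = kap0 f.h := by
  have hb : Bump 1 (fun y => f.h y ^ 2) := by
    refine ⟨f.smooth.pow 2, fun x => by rw [f.even], f.th, f.th0, by linarith [f.th1], fun x hx => ?_⟩
    rw [f.supp x hx]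
    ring
  rw [pred hb]
  unfold kap0
  congr 1
  have h1 : ∫ y, |y| * f.h y ^ 2 = ∫ y, (fun z : ℝ => z * f.h z ^ 2) |y| := by
    congr 1; funext y
    simp only
    rcases abs_choice y with h | h
    · rw [h]
    · rw [h, f.even]
  have h2 := integral_comp_abs (f := fun z : ℝ => z * f.h z ^ 2)
  rw [h1]
  refine h2.trans ?_
  congr 1
  rw [intervalIntegral.integral_of_le (by norm_num)]
  apply setIntegral_eq_of_subset_of_forall_sdiff_eq_zero measurableSet_Ioi
  · intro x hx
    exact hx.1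
  · intro x hx
    have hx0 : 0 < x := hx.1
    have hx1 : ¬ (0 < x ∧ x ≤ 1 / 2) := hx.2
    have hx2 : 1 / 2 < x := by
      by_contra hc
      exact hx1 ⟨hx0, not_lt.mp hc⟩
    have h3 := f.supp x (by rw [abs_of_pos hx0]; linarith [f.th1])
    rw [h3]
    ring

end Pool.Agent.Helper92.RG
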