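import Pool.Agent.Helper92.RG.Kex
import Pool.Agent.Helper92.RG.Pred
import Pool.Agent.Helper92.RG.MLe

/-!
# RG-ConcP
Conclusion from a sign pattern and the law at a sequence of scales. `E = μ - GUE` (formally). `Q u = P.eval (u²)`, `G₋ = {Q < 0}`, `G₊ = {Q > 0}` (open, symmetric; `0 ∉ G₊`
by `hP0`), `m = P.natDegree`. Let `r` be from `exists_kernel θ`, `k = CT r >= 0`, `k 0 > 0`.

1. On the complement of `G₊` the measure `GUE` is at most `μ` (`hlow`, `hatom`, `{Q = 0}` is finite), on `G₊` it is at least `μ` (`hup`). So (`exists_add`)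
   `μ + ρ₂ = GUE + ρ₁` with `ρ₁` living on `{Q <= 0}` and `ρ₂` on `{Q > 0}`.
2. `∫ Q u k (u/B) dρ₁ - ∫ Q u k (u/B) dρ₂ -> 0` for `B = B n`: write `P = ∑ c_i X^i`, `u^(2i) k (u/B) = B^(2i) CT r_i (u/B)` with
   `r_i` a bump (`bump_poly` for `X^i`), and use `hlaw` for `r_i`. The first integral is `<= 0`, so the second tends to `0` and Fatou gives `ρ₂ = 0`.
3. `hlaw` for `r` and Fatou give `ρ₁ = 0`.
-/

open MeasureTheory Set Filter Topology
open Pool.Agent.Helper57.Zeta Pool.Agent.Helper57.PC Pool.Agent.Helper57.LH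
open Pool.Agent.Helper78.SG
open Pool.Agent.Helper4.PC (CT)
open scoped ContDiff ENNReal

namespace Pool.Agent.Helper92.RG

theorem h86_Fc_cont : Continuous Fc := by
  unfold Fc
  exact continuous_const.sub sc_cont

theorem h86_Fc_nonneg (u : ℝ) : 0 ≤ Fc u := by
  unfold Fc
  have := sc_le_one u
  linarith

theorem h86_Fc_le (u : ℝ) : Fc u ≤ 1 := by
  unfold Fc
  have := sc_nonneg u
  linarith

/-- continuous and `O(1/(1+u²))` -/
def h86T (f : ℝ → ℝ) : Prop := Continuous f ∧ ∃ M : ℝ, ∀ u, |f u| ≤ M / (1 + u ^ 2)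

theorem h86T_int {f : ℝ → ℝ} (hf : h86T f) : Integrable (fun u => f u * Fc u) := by
  obtain ⟨hc, M, hM⟩ := hf
  have h1 : Integrable (fun u : ℝ => M * (1 + u ^ 2)⁻¹) := integrable_inv_one_add_sq.const_mul M
  refine h1.mono' (hc.mul h86_Fc_cont).aestronglyMeasurable ?_
  filter_upwards with u
  rw [norm_mul, Real.norm_eq_abs, Real.norm_eq_abs, abs_of_nonneg (h86_Fc_nonneg u)]
  calc |f u| * Fc u ≤ |f u| * 1 := mul_le_mul_of_nonneg_left (h86_Fc_le u) (abs_nonneg _)
    _ ≤ M * (1 + u ^ 2)⁻¹ := by rw [mul_one]; exact (hM u).trans_eq (div_eq_mul_inv _ _)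

theorem h86_meas_Fc : Measurable (fun u => ENNReal.ofReal (Fc u)) := h86_Fc_cont.measurable.ennreal_ofReal

theorem h86_gue_int {f : ℝ → ℝ} (hf : h86T f) :
    Integrable f GUE ∧ ∫ u, f u ∂GUE = f 0 + ∫ u, f u * Fc u := by
  have e : (fun u => (ENNReal.ofReal (Fc u)).toReal • f u) = fun u => f u * Fc u := by
    funext u
    rw [ENNReal.toReal_ofReal (h86_Fc_nonneg u), smul_eq_mul, mul_comm]
  have hD : Integrable f (DM Fc) := by
    unfold DM
    rw [integrable_withDensity_iff_integrable_smul' h86_meas_Fc (by simp)]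
    rw [e]
    exact h86T_int hf
  have hd : Integrable f (Measure.dirac 0) := integrable_dirac (by simp)
  refine ⟨by unfold GUE; exact hd.add_measure hD, ?_⟩
  unfold GUE
  rw [integral_add_measure hd hD, integral_dirac]
  congr 1
  unfold DM
  rw [integral_withDensity_eq_integral_toReal_smul h86_meas_Fc (by simp)]
  rw [← e]

theorem h86T_ct {θ : ℝ} {r : ℝ → ℝ} (hr : Bump θ r) {B : ℝ} (hB : 1 ≤ B) : h86T (fun u => CT r (u / B)) := by
  obtain ⟨M, hM⟩ := ct_decay2 hr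
  refine ⟨(ct_cont hr).comp (continuous_id.div_const B), M * B ^ 2, fun u => ?_⟩
  have hB0 : 0 < B := by linarith
  have hM0 : 0 ≤ M := by
    have := (abs_nonneg _).trans (hM 0)
    simpa using this
  refine (hM (u / B)).trans ?_
  rw [div_le_div_iff₀ (by positivity) (by positivity)]
  have : (1 + u ^ 2) ≤ B ^ 2 * (1 + (u / B) ^ 2) := by
    rw [div_pow, mul_add, mul_div_cancel₀ _ (by positivity)]
    nlinarith
  calc M * (1 + u ^ 2) ≤ M * (B ^ 2 * (1 + (u / B) ^ 2)) := mul_le_mul_of_nonneg_left this hM0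
    _ = _ := by ring

theorem h86T_const_mul {f : ℝ → ℝ} (hf : h86T f) (c : ℝ) : h86T (fun u => c * f u) := by
  obtain ⟨hc, M, hM⟩ := hf
  refine ⟨hc.const_mul c |>.congr (by simp), |c| * M, fun u => ?_⟩
  rw [abs_mul, mul_div_assoc]
  exact mul_le_mul_of_nonneg_left (hM u) (abs_nonneg _)

/-- Fatou -/
theorem h86_fatou {ρ : Measure ℝ} {g : ℕ → ℝ → ℝ} {g₀ : ℝ → ℝ} (hg : ∀ n, Continuous (g n)) (hg₀ : Continuous g₀)
    (h0 : ∀ n, ∀ᵐ u ∂ρ, 0 ≤ g n u) (hi : ∀ n, Integrable (g n) ρ)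
    (hlim : Tendsto (fun n => ∫ u, g n u ∂ρ) atTop (𝓝 0))
    (hp : ∀ u, Tendsto (fun n => g n u) atTop (𝓝 (g₀ u))) : ∀ᵐ u ∂ρ, g₀ u ≤ 0 := by
  have h1 : ∫⁻ u, liminf (fun n => ENNReal.ofReal (g n u)) atTop ∂ρ ≤
      liminf (fun n => ∫⁻ u, ENNReal.ofReal (g n u) ∂ρ) atTop :=
    lintegral_liminf_le (fun n => (hg n).measurable.ennreal_ofReal)
  have h2 : (fun n => ∫⁻ u, ENNReal.ofReal (g n u) ∂ρ) = fun n => ENNReal.ofReal (∫ u, g n u ∂ρ) := by
    funext n
    exact (ofReal_integral_eq_lintegral_ofReal (hi n) (h0 n)).symm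
  have h3 : Tendsto (fun n => ENNReal.ofReal (∫ u, g n u ∂ρ)) atTop (𝓝 0) := by
    have := (ENNReal.continuous_ofReal.tendsto 0).comp hlim
    rw [ENNReal.ofReal_zero] at this
    exact this
  rw [h2, h3.liminf_eq] at h1
  have h4 : ∀ u, liminf (fun n => ENNReal.ofReal (g n u)) atTop = ENNReal.ofReal (g₀ u) :=
    fun u => ((ENNReal.continuous_ofReal.tendsto _).comp (hp u)).liminf_eq
  simp only [h4] at h1
  have h5 : ∫⁻ u, ENNReal.ofReal (g₀ u) ∂ρ = 0 := le_antisymm h1 bot_le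
  rw [lintegral_eq_zero_iff hg₀.measurable.ennreal_ofReal] at h5
  filter_upwards [h5] with u hu
  simpa using hu

theorem h86_finite (P : Polynomial ℝ) (hP : P ≠ 0) : ({u : ℝ | P.eval (u ^ 2) = 0}).Finite := by
  have h : Polynomial.expand ℝ 2 P ≠ 0 := by
    rw [Ne, Polynomial.expand_eq_zero (by norm_num)]
    exact hP
  refine (Polynomial.finite_setOf_isRoot h).subset fun u hu => ?_
  simp only [mem_setOf_eq, Polynomial.IsRoot.def, Polynomial.expand_eval]
  exact hu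

theorem h86_qcont (P : Polynomial ℝ) : Continuous fun u : ℝ => P.eval (u ^ 2) :=
  P.continuous.comp (continuous_pow 2)

theorem h86_gue_le {μ : Measure ℝ} (hatom : Measure.dirac 0 ≤ μ) (P : Polynomial ℝ) (hP : P ≠ 0)
    (hlow : (DM Fc).restrict {u | P.eval (u ^ 2) < 0} ≤ μ.restrict {u | P.eval (u ^ 2) < 0}) :
    GUE.restrict {u | 0 < P.eval (u ^ 2)}ᶜ ≤ μ.restrict {u | 0 < P.eval (u ^ 2)}ᶜ := by
  have hGm : MeasurableSet {u : ℝ | 0 < P.eval (u ^ 2)} := (isOpen_lt continuous_const (h86_qcont P)).measurableSet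
  have hLm : MeasurableSet {u : ℝ | P.eval (u ^ 2) < 0} := (isOpen_lt (h86_qcont P) continuous_const).measurableSet
  set N : Set ℝ := {u : ℝ | P.eval (u ^ 2) = 0} ∪ {0} with hN
  have hNf : N.Finite := (h86_finite P hP).union (finite_singleton 0)
  have hNm : MeasurableSet N := hNf.measurableSet
  have hN0 : DM Fc N = 0 := by
    unfold DM
    rw [withDensity_apply _ hNm, Measure.restrict_eq_zero.mpr (hNf.measure_zero volume)]
    simp
  refine Measure.le_iff.mpr fun s hs => ?_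
  rw [Measure.restrict_apply hs, Measure.restrict_apply hs]
  set A := s ∩ {u : ℝ | 0 < P.eval (u ^ 2)}ᶜ with hA
  have hAm : MeasurableSet A := hs.inter hGm.compl
  have h1 : Measure.dirac (0 : ℝ) A ≤ μ (A ∩ {0}) := by
    have : Measure.dirac (0 : ℝ) A = Measure.dirac (0 : ℝ) (A ∩ {0}) := by
      rw [Measure.dirac_apply' _ hAm, Measure.dirac_apply' _ (hAm.inter (measurableSet_singleton 0))]
      by_cases h : (0 : ℝ) ∈ A <;> simp [indicator, h]
    rw [this]
    exact hatom _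
  have h2 : DM Fc A ≤ μ (A \ N) := by
    have e1 : DM Fc A = DM Fc (A \ N) := by
      rw [measure_diff_null hN0]
    rw [e1]
    have hsub : A \ N ⊆ {u : ℝ | P.eval (u ^ 2) < 0} := by
      rintro u ⟨⟨-, hu⟩, huN⟩
      simp only [mem_compl_iff, mem_setOf_eq, not_lt] at hu
      have : P.eval (u ^ 2) ≠ 0 := fun h => huN (Or.inl h)
      exact lt_of_le_of_ne hu this
    have := hlow (A \ N)
    rwa [Measure.restrict_apply (hAm.diff hNm), Measure.restrict_apply (hAm.diff hNm),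
      inter_eq_self_of_subset_left hsub] at this
  calc GUE A = Measure.dirac 0 A + DM Fc A := by unfold GUE; rfl
    _ ≤ μ (A ∩ {0}) + μ (A \ N) := add_le_add h1 h2
    _ = μ ((A ∩ {0}) ∪ (A \ N)) := by
        rw [measure_union _ (hAm.diff hNm)]
        rw [Set.disjoint_left]
        rintro x ⟨-, hx⟩ ⟨-, hx'⟩
        exact hx' (Or.inr hx)
    _ ≤ μ A := measure_mono (union_subset inter_subset_left diff_subset)

theorem h86_le_gue {μ : Measure ℝ} (P : Polynomial ℝ)
    (hup : μ.restrict {u | 0 < P.eval (u ^ 2)} ≤ (DM Fc).restrict {u | 0 < P.eval (u ^ 2)}) :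
    μ.restrict {u | 0 < P.eval (u ^ 2)} ≤ GUE.restrict {u | 0 < P.eval (u ^ 2)} := by
  refine hup.trans (Measure.restrict_mono' ?_ ?_)
  · exact ae_of_all _ fun _ h => h
  · unfold GUE
    exact Measure.le_add_left le_rfl

instance h86_lf : IsLocallyFiniteMeasure (DM Fc) := by
  unfold DM
  exact IsLocallyFiniteMeasure.withDensity_ofReal h86_Fc_cont

instance h86_sf : SigmaFinite GUE := by
  unfold GUE
  infer_instance

theorem h86_last {μ ρ : Measure ℝ} [IsFiniteMeasureOnCompacts μ]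
    (hint : ∀ f : ℝ → ℝ, h86T f → Integrable f μ) (hμ : μ = GUE + ρ)
    {θ : ℝ} {r : ℝ → ℝ} (hr : Bump θ r) (hr0 : ∀ u, 0 ≤ CT r u) (hr1 : 0 < CT r 0) (B : ℕ → ℝ)
    (hB : Tendsto B atTop atTop) (hB1 : ∀ n, 1 ≤ B n)
    (hlaw : Tendsto (fun n => (∫ u, CT r (u / B n) ∂μ) - CT r 0 - ∫ u, CT r (u / B n) * Fc u) atTop (𝓝 0)) :
    μ = GUE := by
  have hT : ∀ n, h86T (fun u => CT r (u / B n)) := fun n => h86T_ct hr (hB1 n)
  have hρ : ∀ f, h86T f → Integrable f ρ := fun f hf =>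
    (hint f hf).mono_measure (by rw [hμ]; exact Measure.le_add_left le_rfl)
  have h1 : ∀ n, (∫ u, CT r (u / B n) ∂μ) - CT r 0 - (∫ u, CT r (u / B n) * Fc u) = ∫ u, CT r (u / B n) ∂ρ := by
    intro n
    obtain ⟨i1, i2⟩ := h86_gue_int (hT n)
    conv_lhs => rw [hμ]
    rw [integral_add_measure i1 (hρ _ (hT n)), i2, zero_div]
    ring
  simp only [h1] at hlaw
  have h2 := h86_fatou (ρ := ρ) (g := fun n u => CT r (u / B n)) (g₀ := fun _ => CT r 0) (fun n => (hT n).1)
    continuous_const (fun n => ae_of_all _ fun u => hr0 _) (fun n => hρ _ (hT n)) hlaw ?_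
  · have h3 : ρ = 0 := by
      rw [← Measure.measure_univ_eq_zero]
      have : ∀ᵐ u ∂ρ, False := by
        filter_upwards [h2] with u hu
        linarith
      simpa [ae_iff] using this
    rw [hμ, h3, add_zero]
  · intro u
    have h4 : Tendsto (fun n => u / B n) atTop (𝓝 0) := hB.const_div_atTop u
    exact ((ct_cont hr).tendsto 0).comp h4

theorem conc_poly {μ : Measure ℝ} [IsFiniteMeasureOnCompacts μ]
    (hint : ∀ f : ℝ → ℝ, Continuous f → (∃ M : ℝ, ∀ u, |f u| ≤ M / (1 + u ^ 2)) → Integrable f μ)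
    (hatom : Measure.dirac 0 ≤ μ) (P : Polynomial ℝ) (hP : P ≠ 0) (hP0 : P.eval 0 ≤ 0)
    (hlow : (DM Fc).restrict {u | P.eval (u ^ 2) < 0} ≤ μ.restrict {u | P.eval (u ^ 2) < 0})
    (hup : μ.restrict {u | 0 < P.eval (u ^ 2)} ≤ (DM Fc).restrict {u | 0 < P.eval (u ^ 2)})
    {θ : ℝ} (hθ : 0 < θ) (B : ℕ → ℝ) (hB : Tendsto B atTop atTop) (hB1 : ∀ n, 1 ≤ B n)
    (hlaw : ∀ r : ℝ → ℝ, Bump θ r → Tendsto (fun n => B n ^ (2 * P.natDegree) *
      ((∫ u, CT r (u / B n) ∂μ) - CT r 0 - ∫ u, CT r (u / B n) * Fc u)) atTop (𝓝 0)) :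
    μ = GUE := by
  have hGm : MeasurableSet {u : ℝ | 0 < P.eval (u ^ 2)} := (isOpen_lt continuous_const (h86_qcont P)).measurableSet
  set G : Set ℝ := {u : ℝ | 0 < P.eval (u ^ 2)} with hG
  obtain ⟨ρ₁, h1⟩ := exists_add (h86_gue_le hatom P hP hlow)
  obtain ⟨ρ₂, h2⟩ := exists_add (h86_le_gue P hup)
  rw [← hG] at h1 h2
  obtain ⟨r, hr, -, hr0, hr1⟩ := exists_kernel hθ
  have key : μ + ρ₂ = GUE + ρ₁ := by
    calc μ + ρ₂ = (μ.restrict G + μ.restrict Gᶜ) + ρ₂ := by rw [Measure.restrict_add_restrict_compl hGm]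
      _ = (μ.restrict G + ρ₂) + μ.restrict Gᶜ := by rw [add_assoc, add_assoc, add_comm (μ.restrict Gᶜ)]
      _ = (GUE.restrict G + GUE.restrict Gᶜ) + ρ₁ := by rw [← h2, h1, add_assoc]
      _ = GUE + ρ₁ := by rw [Measure.restrict_add_restrict_compl hGm]
  have hρ₁G : ρ₁ G = 0 := by
    have := congrArg (fun ν : Measure ℝ => ν G) h1
    simp only [Measure.restrict_apply hGm, inter_compl_self, measure_empty, Measure.coe_add, Pi.add_apply] at this
    simpa using this.symm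
  have hρ₂G : ρ₂ Gᶜ = 0 := by
    have := congrArg (fun ν : Measure ℝ => ν Gᶜ) h2
    simp only [Measure.restrict_apply hGm.compl, compl_inter_self, measure_empty, Measure.coe_add, Pi.add_apply] at this
    simpa using this.symm
  have hint' : ∀ f : ℝ → ℝ, h86T f → Integrable f μ := fun f hf => hint f hf.1 hf.2
  have hi1 : ∀ f : ℝ → ℝ, h86T f → Integrable f ρ₁ := fun f hf =>
    (hint' f hf).mono_measure ((Measure.le_add_left le_rfl).trans (h1 ▸ Measure.restrict_le_self))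
  have hi2 : ∀ f : ℝ → ℝ, h86T f → Integrable f ρ₂ := fun f hf =>
    (h86_gue_int hf).1.mono_measure ((Measure.le_add_left le_rfl).trans (h2 ▸ Measure.restrict_le_self))
  have hE : ∀ f : ℝ → ℝ, h86T f →
      (∫ u, f u ∂μ) - f 0 - (∫ u, f u * Fc u) = (∫ u, f u ∂ρ₁) - ∫ u, f u ∂ρ₂ := by
    intro f hf
    have : ∫ u, f u ∂(μ + ρ₂) = ∫ u, f u ∂(GUE + ρ₁) := by rw [key]
    rw [integral_add_measure (hint' f hf) (hi2 f hf), integral_add_measure (h86_gue_int hf).1 (hi1 f hf),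
      (h86_gue_int hf).2] at this
    linarith
  -- the weighted law
  set m := P.natDegree with hm
  choose r' hr' hr'e using fun i : ℕ => bump_poly hr (Polynomial.X ^ i)
  have hW : ∀ n u, P.eval (u ^ 2) * CT r (u / B n) =
      ∑ i ∈ Finset.range (m + 1), (P.coeff i * B n ^ (2 * i)) * CT (r' i) (u / B n) := by
    intro n u
    have hBn : B n ≠ 0 := by have := hB1 n; positivity
    rw [Polynomial.eval_eq_sum_range, Finset.sum_mul]
    refine Finset.sum_congr rfl fun i _ => ?_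
    rw [hr'e i]
    simp only [Polynomial.eval_pow, Polynomial.eval_X]
    rw [div_pow, div_pow, ← pow_mul]
    field_simp
    ring
  have hTi : ∀ n i, h86T (fun u => CT (r' i) (u / B n)) := fun n i => h86T_ct (hr' i) (hB1 n)
  have hTW : ∀ n, h86T (fun u => P.eval (u ^ 2) * CT r (u / B n)) := by
    intro n
    obtain ⟨r2, hr2, he2⟩ := bump_poly hr (P.comp (Polynomial.C (B n ^ 2) * Polynomial.X))
    have hBn : B n ≠ 0 := by have := hB1 n; positivity
    have : (fun u => P.eval (u ^ 2) * CT r (u / B n)) = fun u => CT r2 (u / B n) := by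
      funext u
      rw [he2]
      congr 1
      rw [Polynomial.eval_comp]
      simp only [Polynomial.eval_mul, Polynomial.eval_C, Polynomial.eval_X]
      congr 1
      rw [div_pow]
      field_simp
    rw [this]
    exact h86T_ct hr2 (hB1 n)
  have hlim : Tendsto (fun n => (∫ u, P.eval (u ^ 2) * CT r (u / B n) ∂ρ₁) -
      ∫ u, P.eval (u ^ 2) * CT r (u / B n) ∂ρ₂) atTop (𝓝 0) := by
    have e : ∀ n, (∫ u, P.eval (u ^ 2) * CT r (u / B n) ∂ρ₁) - (∫ u, P.eval (u ^ 2) * CT r (u / B n) ∂ρ₂) =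
        ∑ i ∈ Finset.range (m + 1), P.coeff i * (B n ^ (2 * i) * ((∫ u, CT (r' i) (u / B n) ∂μ) - CT (r' i) 0 -
          ∫ u, CT (r' i) (u / B n) * Fc u)) := by
      intro n
      have e1 : ∀ ρ : Measure ℝ, (∀ f : ℝ → ℝ, h86T f → Integrable f ρ) →
          ∫ u, P.eval (u ^ 2) * CT r (u / B n) ∂ρ =
          ∑ i ∈ Finset.range (m + 1), (P.coeff i * B n ^ (2 * i)) * ∫ u, CT (r' i) (u / B n) ∂ρ := by
        intro ρ hρ
        simp only [hW n]
        rw [integral_finset_sum _ fun i _ => (hρ _ (hTi n i)).const_mul _]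
        refine Finset.sum_congr rfl fun i _ => ?_
        rw [integral_const_mul]
      rw [e1 ρ₁ hi1, e1 ρ₂ hi2, ← Finset.sum_sub_distrib]
      refine Finset.sum_congr rfl fun i _ => ?_
      have h3 := hE _ (hTi n i)
      simp only [zero_div] at h3
      rw [h3]
      ring
    simp only [e]
    rw [show (𝓝 (0 : ℝ)) = 𝓝 (∑ i ∈ Finset.range (m + 1), P.coeff i * 0) by simp]
    refine tendsto_finset_sum _ fun i hi => Tendsto.const_mul _ ?_
    have hi' : i ≤ m := Nat.lt_succ_iff.mp (Finset.mem_range.mp hi)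
    refine squeeze_zero_norm (a := fun n => ‖B n ^ (2 * m) * ((∫ u, CT (r' i) (u / B n) ∂μ) - CT (r' i) 0 -
          ∫ u, CT (r' i) (u / B n) * Fc u)‖) (fun n => ?_) ?_
    · rw [norm_mul, norm_mul]
      refine mul_le_mul_of_nonneg_right ?_ (norm_nonneg _)
      have hBn : 0 ≤ B n := by linarith [hB1 n]
      rw [Real.norm_eq_abs, Real.norm_eq_abs, abs_of_nonneg (pow_nonneg hBn _), abs_of_nonneg (pow_nonneg hBn _)]
      exact pow_le_pow_right₀ (hB1 n) (by omega)
    · simpa using (hlaw (r' i) (hr' i)).norm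
  have hae1 : ∀ᵐ u ∂ρ₁, u ∉ G := by
    rw [ae_iff]
    simpa using hρ₁G
  have hae2 : ∀ᵐ u ∂ρ₂, u ∈ G := by
    rw [ae_iff]
    exact hρ₂G
  have hlim2 : Tendsto (fun n => ∫ u, P.eval (u ^ 2) * CT r (u / B n) ∂ρ₂) atTop (𝓝 0) := by
    refine squeeze_zero (fun n => ?_) (fun n => ?_) (by simpa using hlim.neg)
    · refine integral_nonneg_of_ae ?_
      filter_upwards [hae2] with u hu
      exact mul_nonneg (le_of_lt hu) (hr0 _)
    · have : ∫ u, P.eval (u ^ 2) * CT r (u / B n) ∂ρ₁ ≤ 0 := by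
        refine integral_nonpos_of_ae ?_
        filter_upwards [hae1] with u hu
        have hu' : P.eval (u ^ 2) ≤ 0 := not_lt.mp hu
        exact mul_nonpos_of_nonpos_of_nonneg hu' (hr0 _)
      linarith
  have h3 := h86_fatou (ρ := ρ₂) (g := fun n u => P.eval (u ^ 2) * CT r (u / B n))
    (g₀ := fun u => P.eval (u ^ 2) * CT r 0) (fun n => (hTW n).1) ((h86_qcont P).mul continuous_const)
    (fun n => by
      filter_upwards [hae2] with u hu
      exact mul_nonneg (le_of_lt hu) (hr0 _)) (fun n => hi2 _ (hTW n)) hlim2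
    (fun u => by
      refine Tendsto.const_mul _ ?_
      have h4 : Tendsto (fun n => u / B n) atTop (𝓝 0) := hB.const_div_atTop u
      exact ((ct_cont hr).tendsto 0).comp h4)
  have h4 : ρ₂ = 0 := by
    rw [← Measure.measure_univ_eq_zero]
    have : ∀ᵐ u ∂ρ₂, False := by
      filter_upwards [h3, hae2] with u hu hu2
      have : 0 < P.eval (u ^ 2) * CT r 0 := mul_pos hu2 hr1
      linarith
    simpa [ae_iff] using this
  rw [h4, add_zero] at key
  refine h86_last hint' key hr hr0 hr1 B hB hB1 ?_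
  refine squeeze_zero_norm (a := fun n => ‖B n ^ (2 * m) * ((∫ u, CT r (u / B n) ∂μ) - CT r 0 -
          ∫ u, CT r (u / B n) * Fc u)‖) (fun n => ?_) ?_
  · rw [norm_mul]
    have h5 : (1 : ℝ) ≤ ‖B n ^ (2 * m)‖ := by
      have hBn : 0 ≤ B n := by linarith [hB1 n]
      rw [Real.norm_eq_abs, abs_of_nonneg (pow_nonneg hBn _)]
      exact one_le_pow₀ (hB1 n)
    exact le_mul_of_one_le_left (norm_nonneg _) h5
  · simpa using (hlaw r hr).norm

end Pool.Agent.Helper92.RG
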