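import Pool.Agent.Helper92.RG.Kex
import Pool.Agent.Helper92.RG.Pred
import Pool.Agent.Helper92.RG.ConcP

/-!
# RG-Cum
A one-sided comparison of the measures of the symmetric intervals, together with the second order law, implies equality. The kernel has a transform
which decreases on the half line: `CT r` has derivative `-u g u` with `g >= 0`, so `B² ∫ CT r (u/B) dμ = ∫ s g (s/B) μ(-s,s) ds` over `s > 0`.
-/

open MeasureTheory Set Filter Topology
open Pool.Agent.Helper57.Zeta Pool.Agent.Helper57.PC Pool.Agent.Helper57.LH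
open Pool.Agent.Helper78.SG
open Pool.Agent.Helper4.PC (CT)
open scoped ContDiff ENNReal

namespace Pool.Agent.Helper92.RG

/-- `v ↦ ∫_0^1 t^k φ (v t) dt` -/
noncomputable def had92 (k : ℕ) (φ : ℝ → ℝ) (v : ℝ) : ℝ := ∫ t in (0:ℝ)..1, t ^ k * φ (v * t)

theorem had92_deriv {k : ℕ} {φ : ℝ → ℝ} (hφ : ContDiff ℝ ∞ φ) (v : ℝ) :
    HasDerivAt (had92 k φ) (had92 (k + 1) (deriv φ) v) v := by
  have hd : Differentiable ℝ φ := (contDiff_infty_iff_deriv.1 hφ).1
  have hs1 : ContDiff ℝ ∞ (deriv φ) := (contDiff_infty_iff_deriv.1 hφ).2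
  have hc := hφ.continuous
  have hc1 := hs1.continuous
  obtain ⟨M, hM⟩ := (isCompact_Icc (a := -(|v| + 1)) (b := |v| + 1)).exists_bound_of_continuousOn hc1.continuousOn
  have key := intervalIntegral.hasDerivAt_integral_of_dominated_loc_of_deriv_le (μ := volume) (a := 0) (b := 1)
    (F := fun v t => t ^ k * φ (v * t)) (F' := fun v t => t ^ (k + 1) * deriv φ (v * t)) (x₀ := v)
    (s := Metric.ball v 1) (bound := fun _ => M) (Metric.ball_mem_nhds v one_pos) ?_ ?_ ?_ ?_ ?_ ?_
  · exact key.2
  · filter_upwards with x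
    exact (by fun_prop : Continuous fun t => t ^ k * φ (x * t)).aestronglyMeasurable
  · exact (by fun_prop : Continuous fun t => t ^ k * φ (v * t)).intervalIntegrable _ _
  · exact (by fun_prop : Continuous fun t => t ^ (k + 1) * deriv φ (v * t)).aestronglyMeasurable
  · filter_upwards with t ht x hx
    rw [uIoc_of_le zero_le_one] at ht
    rw [Metric.mem_ball, Real.dist_eq] at hx
    have h1 : |x * t| ≤ |v| + 1 := by
      rw [abs_mul, abs_of_pos ht.1]
      have h2 : |x| ≤ |v| + 1 := by
        have := abs_sub_abs_le_abs_sub x v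
        linarith
      have h3 := mul_le_mul h2 ht.2 ht.1.le (by positivity)
      linarith
    have h4 := hM (x * t) (abs_le.1 h1)
    rw [norm_mul]
    have h5 : ‖t ^ (k + 1)‖ ≤ 1 := by
      rw [Real.norm_eq_abs, abs_of_nonneg (pow_nonneg ht.1.le _)]
      exact pow_le_one₀ ht.1.le ht.2
    calc ‖t ^ (k + 1)‖ * ‖deriv φ (x * t)‖ ≤ 1 * M := mul_le_mul h5 h4 (norm_nonneg _) zero_le_one
      _ = M := one_mul _
  · exact intervalIntegrable_const
  · filter_upwards with t _ x _
    have h1 : HasDerivAt (fun x => φ (x * t)) (deriv φ (x * t) * t) x := by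
      have h2 : HasDerivAt (fun x : ℝ => x * t) t x := by simpa using (hasDerivAt_id x).mul_const t
      exact (hd (x * t)).hasDerivAt.comp x h2
    have h3 := h1.const_mul (t ^ k)
    rw [show t ^ (k + 1) * deriv φ (x * t) = t ^ k * (deriv φ (x * t) * t) by ring]
    exact h3

theorem had92_smooth (k : ℕ) {φ : ℝ → ℝ} (hφ : ContDiff ℝ ∞ φ) : ContDiff ℝ ∞ (had92 k φ) := by
  have h : ∀ n : ℕ, ∀ (k : ℕ) (φ : ℝ → ℝ), ContDiff ℝ ∞ φ → ContDiff ℝ n (had92 k φ) := by
    intro n
    induction n with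
    | zero =>
      intro k φ hφ
      have : Differentiable ℝ (had92 k φ) := fun v => (had92_deriv hφ v).differentiableAt
      exact contDiff_zero.2 this.continuous
    | succ n ih =>
      intro k φ hφ
      have hd : deriv (had92 k φ) = had92 (k + 1) (deriv φ) := funext fun v => (had92_deriv hφ v).deriv
      have := (contDiff_succ_iff_deriv (𝕜 := ℝ) (n := (n : WithTop ℕ∞)) (f := had92 k φ)).2
        ⟨fun v => (had92_deriv hφ v).differentiableAt, by simp, by
          rw [hd]; exact ih (k + 1) (deriv φ) (contDiff_infty_iff_deriv.1 hφ).2⟩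
      exact_mod_cast this
  exact contDiff_infty.2 fun n => h n k φ hφ

/-- `∫_0^1 q'' (v t) dt = q' v / v` -/
theorem had92_eq {q : ℝ → ℝ} (hq : ContDiff ℝ ∞ q) (h0 : deriv q 0 = 0) (v : ℝ) :
    v * had92 0 (deriv (deriv q)) v = deriv q v := by
  have hs1 : ContDiff ℝ ∞ (deriv q) := (contDiff_infty_iff_deriv.1 hq).2
  have hd1 : Differentiable ℝ (deriv q) := (contDiff_infty_iff_deriv.1 hs1).1
  have hs2 : ContDiff ℝ ∞ (deriv (deriv q)) := (contDiff_infty_iff_deriv.1 hs1).2
  unfold had92
  simp only [pow_zero, one_mul]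
  rw [← intervalIntegral.integral_const_mul]
  have h1 : ∀ t ∈ uIcc (0:ℝ) 1, HasDerivAt (fun t => deriv q (v * t)) (v * deriv (deriv q) (v * t)) t := by
    intro t _
    have h2 : HasDerivAt (fun t : ℝ => v * t) v t := by simpa using (hasDerivAt_id t).const_mul v
    have h3 := (hd1 (v * t)).hasDerivAt.comp t h2
    rw [mul_comm]
    exact h3
  rw [intervalIntegral.integral_eq_sub_of_hasDerivAt h1]
  · simp [h0]
  · have := hs2.continuous
    exact (by fun_prop : Continuous fun t => v * deriv (deriv q) (v * t)).intervalIntegrable _ _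


/-- A kernel whose transform decreases on the half line: `CT r` has derivative `-u g u`, `g >= 0`, `g 0 > 0`. -/
theorem mono_kernel {θ : ℝ} (hθ : 0 < θ) : ∃ r g : ℝ → ℝ, Bump θ r ∧ Continuous g ∧ (∀ u, 0 ≤ g u) ∧ 0 < g 0 ∧
    ∀ u, HasDerivAt (CT r) (-(u * g u)) u := by
  obtain ⟨q, hq, -, hq0, hq1⟩ := exists_kernel hθ
  have hs1 : ContDiff ℝ ∞ (deriv q) := (contDiff_infty_iff_deriv.1 hq.smooth).2
  have hd0 : Differentiable ℝ q := (contDiff_infty_iff_deriv.1 hq.smooth).1
  have hodd : ∀ x, deriv q (-x) = -deriv q x := by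
    intro x
    have h1 : (fun y => q (-y)) = q := funext hq.even
    have h2 := deriv_comp_neg q x
    rw [h1] at h2
    linarith
  have h00 : deriv q 0 = 0 := by
    have := hodd 0
    rw [neg_zero] at this
    linarith
  obtain ⟨a, ha0, ha1, ha⟩ := hq.supp
  have hcs : HasCompactSupport q := kex_cs hq
  have hdz : ∀ x, a < |x| → deriv q x = 0 := by
    intro x hx
    have h1 : q =ᶠ[𝓝 x] fun _ => 0 := by
      have : ∀ᶠ y in 𝓝 x, a < |y| := (continuous_abs.tendsto x).eventually (lt_mem_nhds hx)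
      filter_upwards [this] with y hy
      exact ha y hy.le
    rw [h1.deriv_eq]
    simp
  set W : ℝ → ℝ := had92 0 (deriv (deriv q)) with hW
  have hWs : ContDiff ℝ ∞ W := had92_smooth 0 (contDiff_infty_iff_deriv.1 hs1).2
  have hWe : ∀ v, v * W v = deriv q v := fun v => had92_eq hq.smooth h00 v
  have hWz : ∀ x, (a + θ) / 2 ≤ |x| → W x = 0 := by
    intro x hx
    have h1 : a < |x| := by linarith
    have h2 := hWe x
    rw [hdz x h1] at h2
    have h3 : x ≠ 0 := by
      intro h
      rw [h, abs_zero] at h1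
      linarith
    exact (mul_eq_zero.1 h2).resolve_left h3
  have hWev : ∀ x, W (-x) = W x := by
    intro x
    rcases eq_or_ne x 0 with h | h
    · rw [h, neg_zero]
    · have h1 := hWe (-x)
      rw [hodd, ← hWe x] at h1
      have h2 : x * (W (-x) - W x) = 0 := by linarith
      have h3 := (mul_eq_zero.1 h2).resolve_left h
      linarith
  have hWc : Continuous W := hWs.continuous
  have hWcs : HasCompactSupport W := kex_supp hWz
  set c : ℝ := 1 / (4 * Real.pi ^ 2) with hc
  refine ⟨fun x => (-c) * W x, CT q, ⟨contDiff_const.mul hWs, fun x => by rw [hWev], (a + θ) / 2, by linarith, by linarith,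
    fun x hx => by rw [hWz x hx, mul_zero]⟩, ct_cont hq, hq0, hq1, ?_⟩
  intro u
  have hcosd : ∀ u v : ℝ, HasDerivAt (fun u => (-c) * W v * Real.cos (2 * Real.pi * u * v))
      ((-c) * W v * (-(Real.sin (2 * Real.pi * u * v)) * (2 * Real.pi * v))) u := by
    intro u v
    have h1 : HasDerivAt (fun u : ℝ => 2 * Real.pi * u * v) (2 * Real.pi * v) u := by
      have := ((hasDerivAt_id u).const_mul (2 * Real.pi)).mul_const v
      simpa using this
    exact ((Real.hasDerivAt_cos _).comp u h1).const_mul _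
  have key := hasDerivAt_integral_of_dominated_loc_of_deriv_le (μ := volume) (𝕜 := ℝ)
    (F := fun u v => (-c) * W v * Real.cos (2 * Real.pi * u * v))
    (F' := fun u v => (-c) * W v * (-(Real.sin (2 * Real.pi * u * v)) * (2 * Real.pi * v))) (x₀ := u)
    (s := univ) (bound := fun v => |c * W v * (2 * Real.pi * v)|) univ_mem ?_ ?_ ?_ ?_ ?_ ?_
  · have h1 := key.2
    have h2 : (∫ v, (-c) * W v * (-(Real.sin (2 * Real.pi * u * v)) * (2 * Real.pi * v))) = -(u * CT q u) := by
      have e1 : (fun v => (-c) * W v * (-(Real.sin (2 * Real.pi * u * v)) * (2 * Real.pi * v))) =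
          fun v => (1 / (2 * Real.pi)) * (deriv q v * Real.sin (2 * Real.pi * u * v)) := by
        funext v
        rw [← hWe v, hc]
        have := Real.pi_pos
        field_simp
        ring
      rw [e1, integral_const_mul]
      have e2 : ∫ v, deriv q v * Real.sin (2 * Real.pi * u * v) =
          -∫ v, q v * (Real.cos (2 * Real.pi * u * v) * (2 * Real.pi * u)) := by
        have hsd : ∀ v, HasDerivAt (fun v => Real.sin (2 * Real.pi * u * v)) (Real.cos (2 * Real.pi * u * v) * (2 * Real.pi * u)) v := by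
          intro v
          have h1 : HasDerivAt (fun v : ℝ => 2 * Real.pi * u * v) (2 * Real.pi * u) v := by
            simpa using (hasDerivAt_id v).const_mul (2 * Real.pi * u)
          exact (Real.hasDerivAt_sin _).comp v h1
        have i1 : Integrable (fun v => deriv q v * Real.sin (2 * Real.pi * u * v)) := by
          refine Continuous.integrable_of_hasCompactSupport ?_ ?_
          · have := hs1.continuous
            fun_prop
          · exact hcs.deriv.mul_right
        have i2 : Integrable (fun v => q v * (Real.cos (2 * Real.pi * u * v) * (2 * Real.pi * u))) := by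
          refine Continuous.integrable_of_hasCompactSupport ?_ ?_
          · have := hq.smooth.continuous
            fun_prop
          · exact hcs.mul_right
        have i3 : Integrable (fun v => q v * Real.sin (2 * Real.pi * u * v)) := by
          refine Continuous.integrable_of_hasCompactSupport ?_ ?_
          · have := hq.smooth.continuous
            fun_prop
          · exact hcs.mul_right
        have := integral_mul_deriv_eq_deriv_mul_of_integrable (u := q) (v := fun v => Real.sin (2 * Real.pi * u * v))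
          (u' := deriv q) (v' := fun v => Real.cos (2 * Real.pi * u * v) * (2 * Real.pi * u))
          (fun v _ => (hd0 v).hasDerivAt) (fun v _ => hsd v) i2 i1 i3
        linarith
      rw [e2]
      unfold CT
      have e3 : (fun v => q v * (Real.cos (2 * Real.pi * u * v) * (2 * Real.pi * u))) =
          fun v => (2 * Real.pi * u) * (q v * Real.cos (2 * Real.pi * u * v)) := by
        funext v
        ring
      rw [e3, integral_const_mul]
      have := Real.pi_pos
      field_simp
    rw [h2] at h1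
    exact h1
  · filter_upwards with x
    exact (by fun_prop : Continuous fun v => (-c) * W v * Real.cos (2 * Real.pi * x * v)).aestronglyMeasurable
  · refine Continuous.integrable_of_hasCompactSupport (by fun_prop) ?_
    exact (hWcs.mul_left (f := fun _ => (-c))).mul_right
  · exact (by fun_prop : Continuous fun v => (-c) * W v * (-(Real.sin (2 * Real.pi * u * v)) * (2 * Real.pi * v))).aestronglyMeasurable
  · filter_upwards with v x _
    have h1 := Real.abs_sin_le_one (2 * Real.pi * x * v)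
    rw [Real.norm_eq_abs, show (-c) * W v * (-(Real.sin (2 * Real.pi * x * v)) * (2 * Real.pi * v)) =
      (c * W v * (2 * Real.pi * v)) * Real.sin (2 * Real.pi * x * v) by ring, abs_mul]
    exact mul_le_of_le_one_right (abs_nonneg _) h1
  · refine Continuous.integrable_of_hasCompactSupport (by fun_prop) ?_
    apply HasCompactSupport.intro (isCompact_Icc (a := -((a + θ) / 2)) (b := (a + θ) / 2))
    intro x hx
    rw [hWz x]
    · simp
    · by_contra hc
      push Not at hc
      exact hx ⟨(abs_lt.1 hc).1.le, (abs_lt.1 hc).2.le⟩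
  · filter_upwards with v x _
    exact hcosd x v



theorem cum_mono92 (μ : Measure ℝ) : Monotone fun s : ℝ => μ (Ioo (-s) s) := fun a b hab =>
  measure_mono (Ioo_subset_Ioo (by linarith) hab)

/-- Symmetric measures are determined by the symmetric intervals. -/
theorem cum_ext92 {μ ν : Measure ℝ} [IsFiniteMeasureOnCompacts μ] [IsFiniteMeasureOnCompacts ν]
    (hμ : μ.map (fun x => -x) = μ) (hν : ν.map (fun x => -x) = ν)
    (h : ∀ s : ℝ, 0 < s → μ (Ioo (-s) s) = ν (Ioo (-s) s)) : μ = ν := by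
  have hpre : ∀ a b : ℝ, a < b → (fun x : ℝ => |x|) ⁻¹' (Ico a b) = if b ≤ 0 then ∅ else if a ≤ 0 then Ioo (-b) b
      else Ioo (-b) b \ Ioo (-a) a := by
    intro a b hab
    split_ifs with h1 h2
    · ext x
      simp only [mem_preimage, mem_Ico, mem_empty_iff_false, iff_false, not_and, not_lt]
      intro _
      exact h1.trans (abs_nonneg x)
    · ext x
      simp only [mem_preimage, mem_Ico, mem_Ioo]
      rw [← abs_lt]
      exact ⟨fun h => h.2, fun h => ⟨h2.trans (abs_nonneg x), h⟩⟩
    · ext x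
      simp only [mem_preimage, mem_Ico, mem_Ioo, Set.mem_sdiff]
      rw [← abs_lt, ← abs_lt, not_lt]
      exact and_comm
  have hfin : ∀ (m : Measure ℝ) [IsFiniteMeasureOnCompacts m] (a b : ℝ), m (Ioo a b) ≠ (⊤ : ℝ≥0∞) := by
    intro m _ a b
    exact ((measure_mono Ioo_subset_Icc_self).trans_lt isCompact_Icc.measure_lt_top).ne
  have hmabs : Measurable (fun x : ℝ => |x|) := measurable_abs
  have hval : ∀ (m : Measure ℝ) [IsFiniteMeasureOnCompacts m] (a b : ℝ), a < b → (m.map (fun x : ℝ => |x|)) (Ico a b) =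
      if b ≤ 0 then 0 else if a ≤ 0 then m (Ioo (-b) b) else m (Ioo (-b) b) - m (Ioo (-a) a) := by
    intro m _ a b hab
    rw [Measure.map_apply hmabs measurableSet_Ico, hpre a b hab]
    split_ifs with h1 h2
    · exact measure_empty
    · rfl
    · rw [measure_sdiff (Ioo_subset_Ioo (by linarith) hab.le) measurableSet_Ioo.nullMeasurableSet (hfin m _ _)]
  have hmap : μ.map (fun x : ℝ => |x|) = ν.map (fun x : ℝ => |x|) := by
    refine Measure.ext_of_Ico' _ _ (fun a b hab => ?_) (fun a b hab => ?_)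
    · rw [hval μ a b hab]
      split_ifs with h1 h2
      · exact ENNReal.zero_ne_top
      · exact hfin μ _ _
      · exact (tsub_le_self.trans_lt (lt_top_iff_ne_top.2 (hfin μ _ _))).ne
    · rw [hval μ a b hab, hval ν a b hab]
      split_ifs with h1 h2
      · rfl
      · exact h b (not_le.1 h1)
      · rw [h b (not_le.1 h1), h a (not_le.1 h2)]
  have hneg : Measurable (fun x : ℝ => -x) := measurable_neg
  -- values on subsets of the positive half line
  have hpos : ∀ (m : Measure ℝ), m.map (fun x => -x) = m → ∀ A : Set ℝ, MeasurableSet A →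
      (m.map (fun x : ℝ => |x|)) (A ∩ Ioi 0) = m (A ∩ Ioi 0) + m (A ∩ Ioi 0) := by
    intro m hm A hA
    have hAm := hA.inter (measurableSet_Ioi (a := (0:ℝ)))
    rw [Measure.map_apply hmabs hAm]
    have e : (fun x : ℝ => |x|) ⁻¹' (A ∩ Ioi 0) = (A ∩ Ioi 0) ∪ (fun x : ℝ => -x) ⁻¹' (A ∩ Ioi 0) := by
      ext x
      simp only [mem_preimage, mem_inter_iff, mem_Ioi, mem_union]
      rcases lt_trichotomy x 0 with hx | hx | hx
      · rw [abs_of_neg hx]
        constructor
        · intro h; exact Or.inr h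
        · rintro (h | h)
          · linarith [h.2]
          · exact h
      · subst hx
        simp
      · rw [abs_of_pos hx]
        constructor
        · intro h; exact Or.inl h
        · rintro (h | h)
          · exact h
          · linarith [h.2]
    have hdis : Disjoint (A ∩ Ioi 0) ((fun x : ℝ => -x) ⁻¹' (A ∩ Ioi 0)) := by
      rw [Set.disjoint_left]
      rintro x ⟨_, hx⟩ ⟨_, hy⟩
      simp only [mem_Ioi] at hx hy
      linarith
    rw [e, measure_union hdis (hneg hAm), ← Measure.map_apply hneg hAm, hm]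
  have hpos2 : ∀ A : Set ℝ, MeasurableSet A → μ (A ∩ Ioi 0) = ν (A ∩ Ioi 0) := by
    intro A hA
    have h1 := hpos μ hμ A hA
    have h2 := hpos ν hν A hA
    rw [hmap, h2] at h1
    rw [← two_mul, ← two_mul] at h1
    exact ((ENNReal.mul_right_inj two_ne_zero ENNReal.ofNat_ne_top).1 h1).symm
  have hzero : μ {0} = ν {0} := by
    have e : (fun x : ℝ => |x|) ⁻¹' {0} = {0} := by
      ext x
      simp
    have h1 : (μ.map (fun x : ℝ => |x|)) {0} = (ν.map (fun x : ℝ => |x|)) {0} := by rw [hmap]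
    rwa [Measure.map_apply hmabs (measurableSet_singleton _), Measure.map_apply hmabs (measurableSet_singleton _), e] at h1
  ext A hA
  have hdec : ∀ (m : Measure ℝ), m.map (fun x => -x) = m → m A = m (A ∩ Ioi 0) + (m (A ∩ {0}) + m ((fun x : ℝ => -x) ⁻¹' A ∩ Ioi 0)) := by
    intro m hm
    have e : A = (A ∩ Ioi 0) ∪ ((A ∩ {0}) ∪ (A ∩ Iio 0)) := by
      rw [← inter_union_distrib_left, ← inter_union_distrib_left]
      ext x
      simp only [mem_inter_iff, mem_union, mem_Ioi, mem_singleton_iff, mem_Iio]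
      constructor
      · intro h
        refine ⟨h, ?_⟩
        rcases lt_trichotomy x 0 with hx | hx | hx
        · exact Or.inr (Or.inr hx)
        · exact Or.inr (Or.inl hx)
        · exact Or.inl hx
      · exact fun h => h.1
    conv_lhs => rw [e]
    rw [measure_union, measure_union]
    · congr 2
      have e2 : (fun x : ℝ => -x) ⁻¹' A ∩ Ioi 0 = (fun x : ℝ => -x) ⁻¹' (A ∩ Iio 0) := by
        ext x
        simp
      rw [e2, ← Measure.map_apply hneg (hA.inter measurableSet_Iio), hm]
    · rw [Set.disjoint_left]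
      rintro x ⟨_, hx⟩ ⟨_, hy⟩
      simp only [mem_singleton_iff, mem_Iio] at hx hy
      linarith
    · exact hA.inter measurableSet_Iio
    · rw [Set.disjoint_left]
      rintro x ⟨_, hx⟩ (⟨_, hy⟩ | ⟨_, hy⟩)
      · simp only [mem_singleton_iff, mem_Ioi] at hx hy
        linarith
      · simp only [mem_Iio, mem_Ioi] at hx hy
        linarith
    · exact (hA.inter (measurableSet_singleton _)).union (hA.inter measurableSet_Iio)
  rw [hdec μ hμ, hdec ν hν, hpos2 A hA, hpos2 _ (hneg hA)]
  congr 2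
  by_cases h0 : (0:ℝ) ∈ A
  · rw [inter_eq_right.2 (singleton_subset_iff.2 h0), hzero]
  · rw [inter_singleton_eq_empty.2 h0, measure_empty, measure_empty]

/-- The measure of a symmetric open interval is the supremum over smaller ones. -/
theorem cum_sup92 {μ : Measure ℝ} {s : ℝ} {C : ℝ≥0∞} (hs : 0 < s)
    (h : ∀ t : ℝ, 0 < t → t < s → μ (Ioo (-t) t) ≤ C) : μ (Ioo (-s) s) ≤ C := by
  have hU : Ioo (-s) s = ⋃ n : ℕ, Ioo (-(s - s / (n + 2))) (s - s / (n + 2)) := by
    ext x
    simp only [mem_iUnion, mem_Ioo]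
    constructor
    · rintro ⟨h1, h2⟩
      have h3 : 0 < s - |x| := by
        rw [sub_pos, abs_lt]
        exact ⟨h1, h2⟩
      obtain ⟨n, hn⟩ := exists_nat_gt (s / (s - |x|))
      have h4 : |x| < s - s / (n + 2) := by
        have h5 : s / ((n:ℝ) + 2) < s - |x| := by
          rw [div_lt_iff₀ (by positivity)]
          rw [div_lt_iff₀ h3] at hn
          nlinarith
        linarith
      rw [abs_lt] at h4
      exact ⟨n, h4⟩
    · rintro ⟨n, h1, h2⟩
      have : 0 < s / ((n:ℝ) + 2) := by positivity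
      constructor <;> linarith
  have hmono : Monotone fun n : ℕ => Ioo (-(s - s / ((n:ℝ) + 2))) (s - s / ((n:ℝ) + 2)) := by
    intro m n hmn
    have h1 : s / ((n:ℝ) + 2) ≤ s / ((m:ℝ) + 2) := by
      have : (m:ℝ) ≤ n := by exact_mod_cast hmn
      gcongr
    exact Ioo_subset_Ioo (by linarith) (by linarith)
  rw [hU, hmono.measure_iUnion]
  refine iSup_le fun n => ?_
  have h2 : 0 < s / ((n:ℝ) + 2) := by positivity
  have h3 : s / ((n:ℝ) + 2) < s := div_lt_self hs (by linarith [(Nat.cast_nonneg n : (0:ℝ) ≤ n)])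
  exact h _ (by linarith) (by linarith)

/-- From almost everywhere to everywhere. -/
theorem cum_ae92 {μ ν : Measure ℝ} (h : ∀ᵐ s ∂(volume.restrict (Ioi (0:ℝ))), μ (Ioo (-s) s) ≤ ν (Ioo (-s) s)) :
    ∀ s : ℝ, 0 < s → μ (Ioo (-s) s) ≤ ν (Ioo (-s) s) := by
  intro s hs
  have hex : ∀ a b : ℝ, 0 ≤ a → a < b → ∃ t ∈ Ioo a b, μ (Ioo (-t) t) ≤ ν (Ioo (-t) t) := by
    intro a b ha hab
    by_contra hc
    push Not at hc
    have h1 : (volume.restrict (Ioi (0:ℝ))) (Ioo a b) = 0 := by
      refine measure_mono_null ?_ (ae_iff.1 h)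
      intro t ht
      exact not_le.2 (hc t ht)
    have h2 : Ioo a b ∩ Ioi 0 = Ioo a b := inter_eq_left.2 (fun x hx => lt_of_le_of_lt ha hx.1)
    rw [Measure.restrict_apply measurableSet_Ioo, h2, Real.volume_Ioo] at h1
    rw [ENNReal.ofReal_eq_zero] at h1
    linarith
  refine cum_sup92 hs fun t ht hts => ?_
  obtain ⟨x, hx, hx2⟩ := hex t s ht.le hts
  exact (cum_mono92 μ hx.1.le).trans (hx2.trans (cum_mono92 ν hx.2.le))

theorem ct_even92 (r : ℝ → ℝ) (u : ℝ) : CT r (-u) = CT r u := by
  unfold CT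
  congr 1
  funext ξ
  rw [show 2 * Real.pi * -u * ξ = -(2 * Real.pi * u * ξ) by ring, Real.cos_neg]

theorem ct_tendsto92 {θ : ℝ} {r : ℝ → ℝ} (hr : Bump θ r) : Tendsto (CT r) atTop (𝓝 0) := by
  obtain ⟨M, hM⟩ := ct_decay2 hr
  have h1 : Tendsto (fun u : ℝ => M / (1 + u ^ 2)) atTop (𝓝 0) := by
    refine Tendsto.const_div_atTop ?_ M
    exact tendsto_atTop_add_const_left _ _ (tendsto_pow_atTop two_ne_zero)
  exact squeeze_zero_norm hM h1

section Layer
variable {θ : ℝ} {r g : ℝ → ℝ} (hr : Bump θ r) (hg : Continuous g) (hg0 : ∀ u, 0 ≤ g u)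
  (hd : ∀ u, HasDerivAt (CT r) (-(u * g u)) u)
include hr hg hg0 hd

theorem layer_pt92 {B : ℝ} (hB : 0 < B) {u : ℝ} (hu : 0 ≤ u) :
    IntegrableOn (fun s => s * g (s / B)) (Ioi u) ∧ B ^ 2 * CT r (u / B) = ∫ s in Ioi u, s * g (s / B) := by
  have hder : ∀ s : ℝ, HasDerivAt (fun s => B ^ 2 * CT r (s / B)) (-(s * g (s / B))) s := by
    intro s
    have h1 : HasDerivAt (fun s : ℝ => s / B) (1 / B) s := (hasDerivAt_id s).div_const B
    have h2 := ((hd (s / B)).comp s h1).const_mul (B ^ 2)
    have hB' : B ≠ 0 := hB.ne'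
    have e : -(s * g (s / B)) = B ^ 2 * (-(s / B * g (s / B)) * (1 / B)) := by
      generalize g (s / B) = y
      field_simp
    rw [e]
    exact h2
  have hneg : ∀ s ∈ Ioi u, -(s * g (s / B)) ≤ 0 := by
    intro s hs
    have hs' : 0 ≤ s := hu.trans (le_of_lt hs)
    have := mul_nonneg hs' (hg0 (s / B))
    linarith
  have hlim : Tendsto (fun s => B ^ 2 * CT r (s / B)) atTop (𝓝 0) := by
    have h1 : Tendsto (fun s : ℝ => s / B) atTop atTop := tendsto_id.atTop_div_const hB
    have h2 := ((ct_tendsto92 hr).comp h1).const_mul (B ^ 2)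
    rw [mul_zero] at h2
    exact h2
  have h1 := integrableOn_Ioi_deriv_of_nonpos' (a := u) (fun s _ => hder s) hneg hlim
  have h2 := integral_Ioi_of_hasDerivAt_of_nonpos' (a := u) (fun s _ => hder s) hneg hlim
  refine ⟨?_, ?_⟩
  · have := h1.neg
    simpa using this
  · rw [integral_neg] at h2
    linarith

theorem ct_nonneg92 (u : ℝ) : 0 ≤ CT r u := by
  have h : ∀ u : ℝ, 0 ≤ u → 0 ≤ CT r u := by
    intro u hu
    obtain ⟨_, h2⟩ := layer_pt92 hr hg hg0 hd one_pos hu
    rw [div_one, one_pow, one_mul] at h2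
    rw [h2]
    refine setIntegral_nonneg measurableSet_Ioi fun s hs => ?_
    exact mul_nonneg (hu.trans (le_of_lt hs)) (hg0 _)
  rcases le_total 0 u with h1 | h1
  · exact h u h1
  · rw [← ct_even92]
    exact h _ (by linarith)

theorem layer92 {B : ℝ} (hB : 0 < B) (μ : Measure ℝ) [SFinite μ] :
    ∫⁻ u, ENNReal.ofReal (B ^ 2 * CT r (u / B)) ∂μ =
      ∫⁻ s in Ioi 0, ENNReal.ofReal (s * g (s / B)) * μ (Ioo (-s) s) := by
  have h1 : ∀ u : ℝ, ENNReal.ofReal (B ^ 2 * CT r (u / B)) =
      ∫⁻ s in Ioi 0, (Ioo (-s) s).indicator (fun _ => ENNReal.ofReal (s * g (s / B))) u := by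
    intro u
    obtain ⟨hi, he⟩ := layer_pt92 hr hg hg0 hd hB (abs_nonneg u)
    have e1 : CT r (u / B) = CT r (|u| / B) := by
      rcases le_total 0 u with h | h
      · rw [abs_of_nonneg h]
      · rw [abs_of_nonpos h, neg_div, ct_even92]
    rw [e1, he, ofReal_integral_eq_lintegral_ofReal hi]
    · have e2 : Ioi |u| = Ioi |u| ∩ Ioi 0 := (inter_eq_left.2 fun x hx => lt_of_le_of_lt (abs_nonneg u) hx).symm
      rw [e2, ← Measure.restrict_restrict measurableSet_Ioi, ← lintegral_indicator measurableSet_Ioi]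
      refine lintegral_congr fun s => ?_
      by_cases hs : |u| < s
      · rw [indicator_of_mem (show s ∈ Ioi |u| from hs), indicator_of_mem (show u ∈ Ioo (-s) s from abs_lt.1 hs)]
      · rw [indicator_of_notMem (show s ∉ Ioi |u| from hs), indicator_of_notMem (show u ∉ Ioo (-s) s from fun h => hs (abs_lt.2 h))]
    · filter_upwards [ae_restrict_mem measurableSet_Ioi] with s hs
      exact mul_nonneg ((abs_nonneg u).trans (le_of_lt hs)) (hg0 _)
  simp only [h1]
  rw [lintegral_lintegral_swap]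
  · refine lintegral_congr fun s => ?_
    rw [lintegral_indicator_const measurableSet_Ioo]
  · apply Measurable.aemeasurable
    have h2 : MeasurableSet {p : ℝ × ℝ | p.1 ∈ Ioo (-p.2) p.2} := by
      have : {p : ℝ × ℝ | p.1 ∈ Ioo (-p.2) p.2} = {p : ℝ × ℝ | -p.2 < p.1} ∩ {p | p.1 < p.2} := by
        ext p; rfl
      rw [this]
      exact (measurableSet_lt measurable_snd.neg measurable_fst).inter (measurableSet_lt measurable_fst measurable_snd)
    have h3 : Measurable fun p : ℝ × ℝ => ENNReal.ofReal (p.2 * g (p.2 / B)) := by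
      have : Continuous fun p : ℝ × ℝ => p.2 * g (p.2 / B) := by fun_prop
      exact this.measurable.ennreal_ofReal
    exact h3.indicator h2

end Layer

theorem cum_core92 {θ : ℝ} {r g : ℝ → ℝ} (hr : Bump θ r) (hg : Continuous g) (hg0 : ∀ u, 0 ≤ g u) (hg1 : 0 < g 0)
    (hd : ∀ u, HasDerivAt (CT r) (-(u * g u)) u) {μ ν : Measure ℝ} [IsFiniteMeasureOnCompacts μ] [IsFiniteMeasureOnCompacts ν]
    (hμi : ∀ f : ℝ → ℝ, h86T f → Integrable f μ) (hνi : ∀ f : ℝ → ℝ, h86T f → Integrable f ν)
    (hle : ∀ s : ℝ, 0 < s → ν (Ioo (-s) s) ≤ μ (Ioo (-s) s))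
    (B : ℕ → ℝ) (hB : Tendsto B atTop atTop) (hB1 : ∀ n, 1 ≤ B n)
    (hlaw : Tendsto (fun n => B n ^ 2 * ((∫ u, CT r (u / B n) ∂μ) - ∫ u, CT r (u / B n) ∂ν)) atTop (𝓝 0)) :
    ∀ s : ℝ, 0 < s → μ (Ioo (-s) s) = ν (Ioo (-s) s) := by
  have hfin : ∀ (m : Measure ℝ) [IsFiniteMeasureOnCompacts m] (a b : ℝ), m (Ioo a b) ≠ (⊤ : ℝ≥0∞) := by
    intro m _ a b
    exact ((measure_mono Ioo_subset_Icc_self).trans_lt isCompact_Icc.measure_lt_top).ne
  have hCT := ct_nonneg92 hr hg hg0 hd
  set h : ℕ → ℝ → ℝ≥0∞ := fun n s => ENNReal.ofReal (s * g (s / B n)) with hh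
  set d : ℝ → ℝ≥0∞ := fun s => μ (Ioo (-s) s) - ν (Ioo (-s) s) with hdd
  have hhm : ∀ n, Measurable (h n) := by
    intro n
    have : Continuous fun s : ℝ => s * g (s / B n) := by fun_prop
    exact this.measurable.ennreal_ofReal
  have hdm : Measurable d := (cum_mono92 μ).measurable.sub (cum_mono92 ν).measurable
  have key : ∀ n, ∫⁻ s in Ioi 0, h n s * d s = ENNReal.ofReal (B n ^ 2 * ((∫ u, CT r (u / B n) ∂μ) - ∫ u, CT r (u / B n) ∂ν)) := by
    intro n
    have hBn : 0 < B n := by linarith [hB1 n]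
    have i1 := (hμi _ (h86T_ct hr (hB1 n))).const_mul (B n ^ 2)
    have i2 := (hνi _ (h86T_ct hr (hB1 n))).const_mul (B n ^ 2)
    have e1 := layer92 hr hg hg0 hd hBn μ
    have e2 := layer92 hr hg hg0 hd hBn ν
    rw [← ofReal_integral_eq_lintegral_ofReal i1 (ae_of_all _ fun u => mul_nonneg (by positivity) (hCT _)),
      integral_const_mul] at e1
    rw [← ofReal_integral_eq_lintegral_ofReal i2 (ae_of_all _ fun u => mul_nonneg (by positivity) (hCT _)),
      integral_const_mul] at e2
    have e3 : ∫⁻ s in Ioi 0, h n s * μ (Ioo (-s) s) = (∫⁻ s in Ioi 0, h n s * ν (Ioo (-s) s)) + ∫⁻ s in Ioi 0, h n s * d s := by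
      have hm1 : Measurable fun s => h n s * ν (Ioo (-s) s) := (hhm n).mul (cum_mono92 ν).measurable
      rw [← lintegral_add_left hm1]
      refine setLIntegral_congr_fun measurableSet_Ioi fun s hs => ?_
      simp only [hdd]
      rw [← mul_add, add_tsub_cancel_of_le (hle s hs)]
    rw [← e1, ← e2] at e3
    rw [mul_sub, ENNReal.ofReal_sub _ (mul_nonneg (by positivity) (integral_nonneg fun u => hCT _)), e3]
    rw [ENNReal.add_sub_cancel_left ENNReal.ofReal_ne_top]
  have hlim : Tendsto (fun n => ∫⁻ s in Ioi 0, h n s * d s) atTop (𝓝 0) := by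
    simp only [key]
    have := (ENNReal.continuous_ofReal.tendsto 0).comp hlaw
    rw [ENNReal.ofReal_zero] at this
    exact this
  have hF : ∫⁻ s in Ioi 0, liminf (fun n => h n s * d s) atTop ≤ liminf (fun n => ∫⁻ s in Ioi 0, h n s * d s) atTop :=
    lintegral_liminf_le (fun n => (hhm n).mul hdm)
  rw [hlim.liminf_eq] at hF
  have hl : ∀ s : ℝ, liminf (fun n => h n s * d s) atTop = ENNReal.ofReal (s * g 0) * d s := by
    intro s
    refine Tendsto.liminf_eq ?_
    have h1 : Tendsto (fun n => s * g (s / B n)) atTop (𝓝 (s * g 0)) := by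
      have h2 : Tendsto (fun n => s / B n) atTop (𝓝 0) := hB.const_div_atTop s
      exact ((hg.tendsto 0).comp h2).const_mul s
    have h3 := (ENNReal.continuous_ofReal.tendsto _).comp h1
    have hdne : d s ≠ (⊤ : ℝ≥0∞) := (tsub_le_self.trans_lt (lt_top_iff_ne_top.2 (hfin μ _ _))).ne
    exact ENNReal.Tendsto.mul_const h3 (Or.inr hdne)
  simp only [hl] at hF
  have hz : ∫⁻ s in Ioi 0, ENNReal.ofReal (s * g 0) * d s = 0 := le_antisymm hF bot_le
  have hm0 : Measurable fun s : ℝ => ENNReal.ofReal (s * g 0) := by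
    have : Continuous fun s : ℝ => s * g 0 := by fun_prop
    exact this.measurable.ennreal_ofReal
  have hm2 : Measurable fun s => ENNReal.ofReal (s * g 0) * d s := hm0.mul hdm
  rw [lintegral_eq_zero_iff hm2] at hz
  have hae : ∀ᵐ s ∂(volume.restrict (Ioi (0:ℝ))), μ (Ioo (-s) s) ≤ ν (Ioo (-s) s) := by
    filter_upwards [hz, ae_restrict_mem measurableSet_Ioi] with s hs hs0
    have hs1 : ENNReal.ofReal (s * g 0) * d s = 0 := hs
    have hs2 : 0 < ENNReal.ofReal (s * g 0) := ENNReal.ofReal_pos.2 (mul_pos hs0 hg1)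
    have hs3 := (mul_eq_zero.1 hs1).resolve_left hs2.ne'
    exact tsub_eq_zero_iff_le.1 hs3
  intro s hs
  exact le_antisymm (cum_ae92 hae s hs) (hle s hs)

end Pool.Agent.Helper92.RG
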