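import Pool.Agent.Helper92.RG.Main
import Pool.Agent.Helper92.RG.Cum

/-!
# RG-CumMain
One-sided bounds for the symmetric windows `[-β,β]` imply the law.
-/

open MeasureTheory Set Filter Topology
open Pool.Agent.Helper57.Zeta Pool.Agent.Helper57.PC Pool.Agent.Helper57.LH
open Pool.Agent.Helper78.SG
open Pool.Agent.Helper4.PC (CT)
open scoped ContDiff ENNReal

namespace Pool.Agent.Helper92.RG

theorem win_low92 {U : Filter ℝ} [U.NeBot] (hU : U ≤ atTop) {F : ℝ → Finset ZS} {μ : Measure ℝ}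
    (hμ : IsLim U F μ) {c : ℝ} {α β : ℝ}
    (h : ∀ δ : ℝ, 0 < δ → ∀ᶠ T in U, c - δ ≤ PF T (F T) ((Icc α β).indicator 1)) :
    ENNReal.ofReal c ≤ μ (Icc α β) := by
  have := hμ.1
  refine le_of_forall_gt fun r hr => ?_
  obtain ⟨V, hKV, hVo, hVr⟩ := (Icc α β).exists_isOpen_lt_of_lt r hr
  obtain ⟨φ, hφ1, hφc, hφs, hφ⟩ := exists_continuousMap_one_of_isCompact_subset_isOpen
    (isCompact_Icc (a := α) (b := β)) hVo hKV
  have h0 : ∀ x, 0 ≤ φ x := fun x => (hφ x).1
  have hiμ : Integrable φ μ := φ.continuous.integrable_of_hasCompactSupport hφc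
  have h2 : ENNReal.ofReal (∫ x, φ x ∂μ) ≤ μ V := by
    rw [ofReal_integral_eq_lintegral_ofReal hiμ (Eventually.of_forall h0)]
    rw [← setLIntegral_one V, ← lintegral_indicator hVo.measurableSet]
    refine lintegral_mono fun x => ?_
    by_cases hx : x ∈ V
    · rw [indicator_of_mem hx]
      exact ENNReal.ofReal_le_one.2 (hφ x).2
    · rw [indicator_of_notMem hx]
      have h3 : x ∉ tsupport φ := fun hx' => hx (hφs hx')
      rw [image_eq_zero_of_notMem_tsupport h3]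
      simp
  have hM : ∃ M : ℝ, ∀ u, |φ u| ≤ M / (1 + u ^ 2) := by
    obtain ⟨R, hR⟩ := (show IsCompact (tsupport φ) from hφc).isBounded.subset_closedBall 0
    refine ⟨1 + R ^ 2, fun u => ?_⟩
    have hp : 0 < 1 + u ^ 2 := by positivity
    rw [le_div_iff₀ hp]
    by_cases hu : u ∈ tsupport φ
    · have h3 := hR hu
      rw [mem_closedBall_zero_iff, Real.norm_eq_abs] at h3
      have h4 : u ^ 2 ≤ R ^ 2 := by
        rw [← sq_abs u]
        exact pow_le_pow_left₀ (abs_nonneg u) h3 2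
      have h5 : |φ u| ≤ 1 := by rw [abs_of_nonneg (h0 u)]; exact (hφ u).2
      calc |φ u| * (1 + u ^ 2) ≤ 1 * (1 + R ^ 2) := by gcongr
        _ = 1 + R ^ 2 := one_mul _
    · rw [image_eq_zero_of_notMem_tsupport hu]
      simp only [abs_zero, zero_mul]
      positivity
  have hlim := (hμ.2 φ φ.continuous hM).2
  have hle : c ≤ ∫ x, φ x ∂μ := by
    refine le_of_forall_pos_sub_le fun δ hδ => ?_
    refine ge_of_tendsto hlim ?_
    filter_upwards [h δ hδ, hU (eventually_gt_atTop (1 : ℝ))] with T h3 h4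
    refine h3.trans (PF_mono h4 _ fun x => ?_)
    by_cases hx : x ∈ Icc α β
    · rw [indicator_of_mem hx, hφ1 hx]
    · rw [indicator_of_notMem hx]
      exact h0 x
  exact lt_of_le_of_lt ((ENNReal.ofReal_le_ofReal hle).trans h2) hVr

theorem gue_fin92 : IsFiniteMeasureOnCompacts GUE := by
  refine ⟨fun {K} hK => ?_⟩
  obtain ⟨R, hR⟩ := hK.isBounded.subset_closedBall 0
  rw [Real.closedBall_eq_Icc] at hR
  refine lt_of_le_of_lt (measure_mono hR) ?_
  unfold GUE
  rw [Measure.add_apply]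
  refine ENNReal.add_lt_top.2 ⟨lt_of_le_of_lt prob_le_one ENNReal.one_lt_top, ?_⟩
  rcases le_or_gt (0 - R) (0 + R) with h | h
  · have h1 : Icc (0 - R) (0 + R) ⊆ Ioc (0 - R - 1) (0 + R) := fun x hx => ⟨by linarith [hx.1], hx.2⟩
    refine lt_of_le_of_lt (measure_mono h1) ?_
    rw [DM_Ioc67 Fc_cont Fc_nonneg (by linarith)]
    exact ENNReal.ofReal_lt_top
  · rw [Icc_eq_empty (not_le.2 h)]
    simp

theorem gue_symm92 : GUE.map (fun x => -x) = GUE := by
  have hm : Measurable (fun x : ℝ => -x) := measurable_neg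
  have h1 : (Measure.dirac (0:ℝ)).map (fun x : ℝ => -x) = Measure.dirac 0 := by
    rw [Measure.map_dirac' hm, neg_zero]
  unfold GUE
  rw [Measure.map_add _ _ hm, dm_symm Fc_cont Fc_even, h1]

theorem gue_Ioo92 {s : ℝ} (hs : 0 < s) : GUE (Ioo (-s) s) = ENNReal.ofReal (1 + ∫ u in (-s)..s, Fc u) := by
  unfold GUE
  rw [Measure.add_apply, Measure.dirac_apply' _ measurableSet_Ioo, indicator_of_mem (show (0:ℝ) ∈ Ioo (-s) s from ⟨by linarith, hs⟩)]
  have h1 : DM Fc (Ioo (-s) s) = DM Fc (Ioc (-s) s) := by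
    apply measure_congr
    have hac : DM Fc ≪ volume := withDensity_absolutelyContinuous _ _
    exact hac.ae_eq Ioo_ae_eq_Ioc
  rw [h1, DM_Ioc67 Fc_cont Fc_nonneg (by linarith), ENNReal.ofReal_add zero_le_one
    (intervalIntegral.integral_nonneg (by linarith) fun u _ => Fc_nonneg u)]
  simp

theorem cum_law92 (U : Ultrafilter ℝ) (hU : (U : Filter ℝ) ≤ atTop) {μ : Measure ℝ} (hμ : IsLim U ZT μ)
    (h : (∀ s : ℝ, 0 < s → GUE (Ioo (-s) s) ≤ μ (Ioo (-s) s)) ∨ (∀ s : ℝ, 0 < s → μ (Ioo (-s) s) ≤ GUE (Ioo (-s) s))) :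
    μ = GUE := by
  have : IsFiniteMeasureOnCompacts μ := hμ.1
  have : IsFiniteMeasureOnCompacts GUE := gue_fin92
  obtain ⟨B, hB, hB1, hlaw⟩ := law_a U hU hμ
  obtain ⟨r, g, hr, hg, hg0, hg1, hd⟩ := mono_kernel (θ := 1 / 2) (by norm_num)
  have hμi : ∀ f : ℝ → ℝ, h86T f → Integrable f μ := fun f hf => (hμ.2 f hf.1 hf.2).1
  have hGi : ∀ f : ℝ → ℝ, h86T f → Integrable f GUE := fun f hf => (h86_gue_int hf).1
  have h1 : Tendsto (fun n => B n ^ 2 * ((∫ u, CT r (u / B n) ∂μ) - ∫ u, CT r (u / B n) ∂GUE)) atTop (𝓝 0) := by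
    refine (hlaw r hr).congr fun n => ?_
    rw [(h86_gue_int (h86T_ct hr (hB1 n))).2, zero_div]
    ring
  refine cum_ext92 (isLim_symm hμ) gue_symm92 ?_
  rcases h with h | h
  · exact cum_core92 hr hg hg0 hg1 hd hμi hGi h B hB hB1 h1
  · have h2 : Tendsto (fun n => B n ^ 2 * ((∫ u, CT r (u / B n) ∂GUE) - ∫ u, CT r (u / B n) ∂μ)) atTop (𝓝 0) := by
      have := h1.neg
      rw [neg_zero] at this
      refine this.congr fun n => ?_
      ring
    exact fun s hs => (cum_core92 hr hg hg0 hg1 hd hGi hμi h B hB hB1 h2 s hs).symm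

theorem clause_cum {l : Filter ℝ} (hl : l ≤ atTop)
    (h : (∀ β : ℝ, 0 < β → ∀ δ : ℝ, 0 < δ → ∀ᶠ T : ℝ in l,
        (1 + (∫ u in (-β)..β, pcDensity u) - δ) * (T * Real.log T / (2 * Real.pi)) ≤ pairCount T (-β) β) ∨
      (∀ β : ℝ, 0 < β → ∀ δ : ℝ, 0 < δ → ∀ᶠ T : ℝ in l,
        pairCount T (-β) β ≤ (1 + (∫ u in (-β)..β, pcDensity u) + δ) * (T * Real.log T / (2 * Real.pi)))) : Law l := by
  apply law_of_lim hl
  intro U hU μ hμ
  have hUt : (U : Filter ℝ) ≤ atTop := hU.trans hl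
  have : IsFiniteMeasureOnCompacts μ := hμ.1
  have : IsFiniteMeasureOnCompacts GUE := gue_fin92
  have hT1 : ∀ᶠ T : ℝ in (U : Filter ℝ), 1 < T := hUt (eventually_gt_atTop 1)
  refine cum_law92 U hUt hμ ?_
  rcases h with h | h
  · left
    have h1 : ∀ β : ℝ, 0 < β → GUE (Ioo (-β) β) ≤ μ (Icc (-β) β) := by
      intro β hβ
      rw [gue_Ioo92 hβ]
      refine win_low92 hUt hμ fun δ hδ => ?_
      filter_upwards [hU (h β hβ δ hδ), hT1] with T hT hT1
      rw [pairCount_PF hT1, ← SN_eq, mul_comm] at hT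
      rw [← int_Fc]
      exact le_of_mul_le_mul_left hT (SN_pos hT1)
    intro s hs
    refine cum_sup92 hs fun t ht hts => ?_
    exact (h1 t ht).trans (measure_mono fun x hx => ⟨by linarith [hx.1], lt_of_le_of_lt hx.2 hts⟩)
  · right
    intro s hs
    rw [gue_Ioo92 hs]
    have h2 : ∫ u in (-s)..s, (Fc u + 1 / (2 * s)) = 1 + ∫ u in (-s)..s, Fc u := by
      rw [intervalIntegral.integral_add (Fc_cont.intervalIntegrable _ _) (continuous_const.intervalIntegrable _ _),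
        intervalIntegral.integral_const, smul_eq_mul]
      field_simp
      ring
    rw [← h2]
    refine hypU_Ioo67 hUt hμ fun δ hδ => ?_
    rw [h2]
    filter_upwards [hU (h s hs δ hδ), hT1] with T hT hT1
    rw [pairCount_PF hT1, ← SN_eq, mul_comm (_ + δ)] at hT
    rw [← int_Fc]
    exact le_of_mul_le_mul_left hT (SN_pos hT1)

end Pool.Agent.Helper92.RG
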