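import Pool.Agent.Helper92.RG.Defs

/-!
# RG-Basic: elementary facts about the pair functional
-/

open MeasureTheory Set Filter Topology
open Pool.Agent.Helper57.Zeta Pool.Agent.Helper57.PC Pool.Agent.Helper57.LH
open Pool.Agent.Helper78.SG
open Pool.Agent.Helper4.PC (CT)
open scoped ContDiff ENNReal

namespace Pool.Agent.Helper92.RG

theorem PF_eq_WP (T : ℝ) (φ : ℝ → ℝ) : PF T (ZT T) φ = WP T φ / SN T := by
  unfold PF WP
  rw [Finset.sum_product]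
  rw [sum_ZT T (fun ρ => ∑ ρ' ∈ ZT T, mx ρ * mx ρ' * φ (nd T (ρ, (ρ' : ℂ))))]
  congr 1
  refine Finset.sum_congr rfl fun ρ hρ => ?_
  rw [sum_ZT T (fun ρ' => mx ρ * mx ρ' * φ (nd T (ρ, ρ')))]
  refine Finset.sum_congr rfl fun ρ' hρ' => ?_
  have key : ∀ z : ℂ, z ∈ Zf T → mx z = (mult z : ℝ) := by
    intro z hz
    rw [mem_Zf] at hz
    rw [mult_eq hz.1]
    rfl
  rw [key ρ hρ, key ρ' hρ']

theorem PF_mono {T : ℝ} (hT : 1 < T) (F : Finset ZS) {φ ψ : ℝ → ℝ} (h : ∀ x, φ x ≤ ψ x) : PF T F φ ≤ PF T F ψ := by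
  unfold PF
  have := SN_pos hT
  gcongr with ρ _ ρ' _
  · exact mul_nonneg (mx_nonneg _) (mx_nonneg _)
  · exact h _

theorem PF_add (T : ℝ) (F : Finset ZS) (φ ψ : ℝ → ℝ) : PF T F (fun x => φ x + ψ x) = PF T F φ + PF T F ψ := by
  unfold PF
  rw [← add_div, ← Finset.sum_add_distrib]
  congr 1
  refine Finset.sum_congr rfl fun ρ _ => ?_
  rw [← Finset.sum_add_distrib]
  refine Finset.sum_congr rfl fun ρ' _ => ?_
  ring

theorem PF_smul (T c : ℝ) (F : Finset ZS) (φ : ℝ → ℝ) : PF T F (fun x => c * φ x) = c * PF T F φ := by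
  unfold PF
  rw [← mul_div_assoc, Finset.mul_sum]
  congr 1
  refine Finset.sum_congr rfl fun ρ _ => ?_
  rw [Finset.mul_sum]
  refine Finset.sum_congr rfl fun ρ' _ => ?_
  ring

theorem PF_nonneg {T : ℝ} (hT : 1 < T) (F : Finset ZS) {φ : ℝ → ℝ} (h : ∀ x, 0 ≤ φ x) : 0 ≤ PF T F φ := by
  unfold PF
  have := SN_pos hT
  refine div_nonneg (Finset.sum_nonneg fun ρ _ => Finset.sum_nonneg fun ρ' _ => ?_) this.le
  exact mul_nonneg (mul_nonneg (mx_nonneg _) (mx_nonneg _)) (h _)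

theorem PF_subset {T : ℝ} (hT : 1 < T) {F G : Finset ZS} (hFG : F ⊆ G) {φ : ℝ → ℝ} (h : ∀ x, 0 ≤ φ x) :
    PF T F φ ≤ PF T G φ := by
  unfold PF
  have h0 := SN_pos hT
  have hn : ∀ ρ ρ' : ZS, 0 ≤ mx ρ * mx ρ' * φ (nd T ((ρ : ℂ), (ρ' : ℂ))) := fun ρ ρ' =>
    mul_nonneg (mul_nonneg (mx_nonneg _) (mx_nonneg _)) (h _)
  gcongr
  refine (Finset.sum_le_sum fun ρ _ => Finset.sum_le_sum_of_subset_of_nonneg hFG fun ρ' _ _ => hn ρ ρ').trans ?_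
  exact Finset.sum_le_sum_of_subset_of_nonneg hFG fun ρ _ _ => Finset.sum_nonneg fun ρ' _ => hn ρ ρ'

theorem PF_symm (T : ℝ) (F : Finset ZS) (φ : ℝ → ℝ) : PF T F (fun x => φ (-x)) = PF T F φ := by
  unfold PF
  congr 1
  rw [Finset.sum_comm]
  refine Finset.sum_congr rfl fun ρ _ => Finset.sum_congr rfl fun ρ' _ => ?_
  have : nd T ((ρ' : ℂ), (ρ : ℂ)) = - nd T ((ρ : ℂ), (ρ' : ℂ)) := by unfold nd; simp only; ring
  simp only [this, neg_neg]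
  ring

theorem ZC_subset (T : ℝ) : ZC T ⊆ ZT T := by
  classical
  unfold ZC
  convert Finset.filter_subset _ _

theorem ZO_subset (T : ℝ) : ZO T ⊆ ZT T := by
  classical
  unfold ZO
  convert Finset.filter_subset _ _

/-- critical pairs plus off-line pairs are at most all pairs -/
theorem PF_ZC_add_ZO {T : ℝ} (hT : 1 < T) {φ : ℝ → ℝ} (h : ∀ x, 0 ≤ φ x) :
    PF T (ZC T) φ + PF T (ZO T) φ ≤ PF T (ZT T) φ := by
  classical
  unfold PF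
  have h0 := SN_pos hT
  have hn : ∀ ρ ρ' : ZS, 0 ≤ mx ρ * mx ρ' * φ (nd T ((ρ : ℂ), (ρ' : ℂ))) := fun ρ ρ' =>
    mul_nonneg (mul_nonneg (mx_nonneg _) (mx_nonneg _)) (h _)
  rw [← add_div]
  gcongr
  have e : ∀ f : ZS → ℝ, ∑ ρ ∈ ZT T, f ρ = ∑ ρ ∈ ZC T, f ρ + ∑ ρ ∈ ZO T, f ρ := by
    intro f
    unfold ZC ZO
    exact (Finset.sum_filter_add_sum_filter_not _ _ _).symm
  rw [e (fun ρ => ∑ ρ' ∈ ZT T, mx ρ * mx ρ' * φ (nd T ((ρ : ℂ), (ρ' : ℂ))))]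
  refine add_le_add ?_ ?_
  · exact Finset.sum_le_sum fun ρ _ => Finset.sum_le_sum_of_subset_of_nonneg (ZC_subset T) fun ρ' _ _ => hn ρ ρ'
  · exact Finset.sum_le_sum fun ρ _ => Finset.sum_le_sum_of_subset_of_nonneg (ZO_subset T) fun ρ' _ _ => hn ρ ρ'

end Pool.Agent.Helper92.RG
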