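import Pool.Agent.Helper92.RG.Basic

/-!
# RG-Brid
Window counts as values of the pair functional.

1. `pairCount_PF`: `pairCount_eq`/`nd` as in `PF_eq_WP`; the sum over pairs in the window is the sum over all pairs of
   `mult * mult * indicator`. See `Pool.Agent.Helper78.SG.pairCount_ZT_h48` (in `Helper78/SG/Pairs.lean`) and `Helper57/M/Z.lean`
   (`pairCount_eq`) for the same computation.
2. `critPairCount_PF`: the same with the sub-finset `ZC T` (critical zeros); the support set of the `finsum` is contained in the finite set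
   `Zf T ×ˢ Zf T`.
3. `crit_count`: `∑ ρ ∈ ZC T, mx ρ` equals the `finsum`; `∑ ZC + ∑ ZO = NT T` and `NT T / SN T -> 1` (`NT_upper`, `NT_lower`).
-/

open MeasureTheory Set Filter Topology
open Pool.Agent.Helper57.Zeta Pool.Agent.Helper57.PC Pool.Agent.Helper57.LH
open Pool.Agent.Helper78.SG
open Pool.Agent.Helper4.PC (CT)
open scoped ContDiff ENNReal

namespace Pool.Agent.Helper92.RG

theorem PF_ind (T : ℝ) (F : Finset ZS) (α β : ℝ) (hT : 1 < T) :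
    SN T * PF T F ((Icc α β).indicator 1) =
      ∑ ρ ∈ F, ∑ ρ' ∈ F, mx ρ * mx ρ' * (Icc α β).indicator 1 (nd T ((ρ : ℂ), (ρ' : ℂ))) := by
  unfold PF
  rw [mul_div_cancel₀ _ (SN_pos hT).ne']

theorem pairCount_PF {T : ℝ} (hT : 1 < T) (α β : ℝ) :
    pairCount T α β = SN T * PF T (ZT T) ((Icc α β).indicator 1) := by
  classical
  rw [PF_ind T _ α β hT, pairCount_eq, Finset.sum_product]
  rw [sum_ZT T (fun ρ => ∑ ρ' ∈ ZT T, mx ρ * mx (ρ' : ℂ) * (Icc α β).indicator 1 (nd T (ρ, (ρ' : ℂ))))]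
  refine Finset.sum_congr rfl fun ρ hρ => ?_
  rw [sum_ZT T (fun ρ' => mx ρ * mx ρ' * (Icc α β).indicator 1 (nd T (ρ, ρ')))]
  refine Finset.sum_congr rfl fun ρ' hρ' => ?_
  rw [mem_Zf] at hρ hρ'
  rw [mult_eq hρ.1, mult_eq hρ'.1]
  by_cases h : nd T (ρ, ρ') ∈ Icc α β
  · rw [if_pos h, indicator_of_mem h, Pi.one_apply, mul_one]
    rfl
  · rw [if_neg h, indicator_of_notMem h, mul_zero]

theorem sum_ZC (T : ℝ) (f : ℂ → ℝ) :
    ∑ ρ ∈ ZC T, f ρ = ∑ ρ ∈ (Zf T).filter (fun ρ => ρ.re = 1 / 2), f ρ := by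
  classical
  unfold ZC
  rw [Finset.sum_filter, Finset.sum_filter]
  exact sum_ZT T (fun ρ => if ρ.re = 1 / 2 then f ρ else 0)

theorem critPairCount_PF {T : ℝ} (hT : 1 < T) (α β : ℝ) :
    critPairCount T α β = SN T * PF T (ZC T) ((Icc α β).indicator 1) := by
  classical
  rw [PF_ind T _ α β hT]
  rw [sum_ZC T (fun ρ => ∑ ρ' ∈ ZC T, mx ρ * mx (ρ' : ℂ) * (Icc α β).indicator 1 (nd T (ρ, (ρ' : ℂ))))]
  unfold critPairCount
  rw [finsum_mem_eq_sum_of_inter_support_eq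
    (t := ((Zf T).filter (fun ρ => ρ.re = 1 / 2) ×ˢ (Zf T).filter (fun ρ => ρ.re = 1 / 2)).filter
      (fun p => nd T p ∈ Icc α β))]
  · rw [Finset.sum_filter, Finset.sum_product]
    refine Finset.sum_congr rfl fun ρ hρ => ?_
    rw [sum_ZC T (fun ρ' => mx ρ * mx ρ' * (Icc α β).indicator 1 (nd T (ρ, ρ')))]
    refine Finset.sum_congr rfl fun ρ' hρ' => ?_
    rw [Finset.mem_filter, mem_Zf] at hρ hρ'
    rw [mult_eq hρ.1.1, mult_eq hρ'.1.1]
    by_cases h : nd T (ρ, ρ') ∈ Icc α β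
    · rw [if_pos h, indicator_of_mem h, Pi.one_apply, mul_one]
      rfl
    · rw [if_neg h, indicator_of_notMem h, mul_zero]
  · ext p
    simp only [mem_inter_iff, mem_ofPred_eq, Finset.coe_filter, Finset.mem_product, Finset.mem_filter, mem_Zf]
    constructor
    · rintro ⟨⟨h1, h2, h3, h4, h5⟩, h6⟩
      exact ⟨⟨⟨⟨h1, h3⟩, h2, h4⟩, h5⟩, h6⟩
    · rintro ⟨⟨⟨⟨h1, h3⟩, h2, h4⟩, h5⟩, h6⟩
      exact ⟨⟨h1, h2, h3, h4, h5⟩, h6⟩

theorem NT_ratio : Tendsto (fun T => NT T / SN T) atTop (𝓝 1) := by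
  rw [Metric.tendsto_atTop]
  intro ε hε
  obtain ⟨T₁, h1⟩ := NT_lower (ε / 2) (by positivity)
  obtain ⟨T₂, h2⟩ := NT_upper (ε / 2) (by positivity)
  refine ⟨max (max T₁ T₂) 2, fun T hT => ?_⟩
  have hT1 : T₁ ≤ T := (le_max_left _ _).trans ((le_max_left _ _).trans hT)
  have hT2 : T₂ ≤ T := (le_max_right _ _).trans ((le_max_left _ _).trans hT)
  have hT3 : 1 < T := by have := (le_max_right _ _).trans hT; linarith
  have hS := SN_pos hT3
  have a1 := h1 T hT1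
  have a2 := h2 T hT2
  change (1 - ε / 2) * SN T ≤ NT T at a1
  change NT T ≤ (1 + ε / 2) * SN T at a2
  rw [Real.dist_eq]
  have e : NT T / SN T - 1 = (NT T - SN T) / SN T := by field_simp
  rw [e, abs_div, abs_of_pos hS, div_lt_iff₀ hS]
  have : |NT T - SN T| ≤ ε / 2 * SN T := by
    rw [abs_le]
    constructor <;> nlinarith
  refine this.trans_lt ?_
  nlinarith

theorem crit_sum (T : ℝ) :
    (∑ᶠ ρ ∈ {ρ : ℂ | ρ ∈ zerosUpTo T ∧ ρ.re = 1 / 2}, (mult ρ : ℝ)) = ∑ ρ ∈ ZC T, mx ρ := by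
  classical
  rw [sum_ZC T (fun ρ => mx ρ)]
  rw [finsum_mem_eq_sum_of_inter_support_eq (t := (Zf T).filter (fun ρ => ρ.re = 1 / 2))]
  · refine Finset.sum_congr rfl fun ρ hρ => ?_
    rw [Finset.mem_filter, mem_Zf] at hρ
    rw [mult_eq hρ.1.1]
    rfl
  · ext ρ
    simp only [mem_inter_iff, mem_ofPred_eq, Finset.coe_filter, mem_Zf]
    exact Iff.rfl

theorem off_sum (T : ℝ) : (∑ ρ ∈ ZC T, mx ρ) = NT T - ∑ ρ ∈ ZO T, mx ρ := by
  classical
  rw [← sum_ZT_mx]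
  unfold ZC ZO
  rw [← Finset.sum_filter_add_sum_filter_not (ZT T) (fun ρ : ZS => (ρ : ℂ).re = 1 / 2)]
  ring

theorem crit_count {U : Filter ℝ} (hU : U ≤ atTop)
    (h : Tendsto (fun T : ℝ => (∑ᶠ ρ ∈ {ρ : ℂ | ρ ∈ zerosUpTo T ∧ ρ.re = 1 / 2}, (mult ρ : ℝ)) /
      (T * Real.log T / (2 * Real.pi))) U (𝓝 1)) :
    Tendsto (fun T => (∑ ρ ∈ ZO T, mx ρ) / SN T) U (𝓝 0) := by
  classical
  have h1 : ∀ T : ℝ, (∑ᶠ ρ ∈ {ρ : ℂ | ρ ∈ zerosUpTo T ∧ ρ.re = 1 / 2}, (mult ρ : ℝ)) = ∑ ρ ∈ ZC T, mx ρ := by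
    intro T
    rw [sum_ZC T (fun ρ => mx ρ)]
    rw [finsum_mem_eq_sum_of_inter_support_eq (t := (Zf T).filter (fun ρ => ρ.re = 1 / 2))]
    · refine Finset.sum_congr rfl fun ρ hρ => ?_
      rw [Finset.mem_filter, mem_Zf] at hρ
      rw [mult_eq hρ.1.1]
      rfl
    · ext ρ
      simp only [mem_inter_iff, mem_ofPred_eq, Finset.coe_filter, mem_Zf]
      exact Iff.rfl
  have h2 : ∀ T : ℝ, (∑ ρ ∈ ZO T, mx ρ) = NT T - ∑ ρ ∈ ZC T, mx ρ := by
    intro T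
    rw [← sum_ZT_mx]
    unfold ZC ZO
    rw [← Finset.sum_filter_add_sum_filter_not (ZT T) (fun ρ : ZS => (ρ : ℂ).re = 1 / 2)]
    ring
  have h3 := (NT_ratio.mono_left hU).sub h
  rw [sub_self] at h3
  refine h3.congr fun T => ?_
  rw [h1, h2, sub_div]
  rfl

end Pool.Agent.Helper92.RG
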