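import Pool.Agent.Helper92.RG.Core
import Pool.Agent.Helper92.RG.MLe
import Pool.Agent.Helper92.RG.ConcP

/-!
# RG-ConcG
Conclusion from a sign pattern with exponentially small errors and the exact small-bandwidth law. `E₀ u = C e^(-c|u|)`, `Q u = P.eval (u²)`, `w₋ = ofReal (-Q)`, `w₊ = ofReal Q`.

1. `A = (μ + DM E₀).withDensity w₋ + (DM (Fc + E₀)).withDensity w₊`, `B₁ = (DM Fc).withDensity w₋ + μ.withDensity w₊`; `hlow`, `hup` give `B₁ <= A`; `exists_add`: `A = B₁ + ν`,
   `ν` is finite on compacts and (replace `ν` by the mean of `ν` and its reflection) symmetric.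
2. For `Bump θ r`, `CT r' = Q * CT r` for a bump `r'` (`bump_poly`), so `∫ CT r dν = -∫ CT r' dμ + ∫ CT r' Fc + ∫ CT r |Q| E₀ = -P.eval 0 * CT r 0 + ∫ CT r |Q| E₀` by `hlaw`
   (all the functions are integrable: `hint`, `ct_decay`).
3. `core` with `a = -P.eval 0`, `D = |Q| E₀ <= C' e^(-c/2 |u|)`: `ν = ofReal a • dirac 0 + DM (|Q| E₀)`. Cancelling the finite measure `DM (|Q| E₀)` one gets
   `μ.withDensity w₋ + GUE.withDensity w₊ = GUE.withDensity w₋ + μ.withDensity w₊`. Restricting to `{Q < 0}` and `{Q > 0}`: `μ = GUE` there.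
4. The remaining set `{Q = 0}` is finite, `GUE <= μ` on it, so `μ = GUE + ρ`; `hlaw` for `scl r B` (`bump_scale`), `r` from `exists_kernel`, and `B -> ∞` give `ρ = 0` (`h86_last`).
-/

open MeasureTheory Set Filter Topology
open Pool.Agent.Helper57.Zeta Pool.Agent.Helper57.PC Pool.Agent.Helper57.LH
open Pool.Agent.Helper78.SG
open Pool.Agent.Helper4.PC (CT)
open scoped ContDiff ENNReal

namespace Pool.Agent.Helper92.RG

/-- density `g⁺` on a measure -/
noncomputable def h86w (g : ℝ → ℝ) (u : ℝ) : ℝ≥0∞ := ENNReal.ofReal (g u)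

theorem h86w_meas {g : ℝ → ℝ} (hg : Continuous g) : Measurable (h86w g) := hg.measurable.ennreal_ofReal

theorem h86w_int {ν : Measure ℝ} {g : ℝ → ℝ} (hg : Continuous g) {f : ℝ → ℝ}
    (h : Integrable (fun u => max (g u) 0 * f u) ν) :
    Integrable f (ν.withDensity (h86w g)) ∧ ∫ u, f u ∂(ν.withDensity (h86w g)) = ∫ u, max (g u) 0 * f u ∂ν := by
  have e : (fun u => (h86w g u).toReal • f u) = fun u => max (g u) 0 * f u := by
    funext u
    unfold h86w
    rw [ENNReal.toReal_ofReal', smul_eq_mul]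
  refine ⟨?_, ?_⟩
  · rw [integrable_withDensity_iff_integrable_smul' (h86w_meas hg) (by simp [h86w])]
    rw [e]
    exact h
  · rw [integral_withDensity_eq_integral_toReal_smul (h86w_meas hg) (by simp [h86w])]
    rw [← e]

theorem h86w_sym {ν : Measure ℝ} (hν : ν.map (fun x => -x) = ν) {g : ℝ → ℝ} (hg : Continuous g)
    (he : ∀ u, g (-u) = g u) : (ν.withDensity (h86w g)).map (fun x => -x) = ν.withDensity (h86w g) := by
  ext s hs
  have hn : Measurable (fun x : ℝ => -x) := measurable_neg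
  rw [Measure.map_apply hn hs, withDensity_apply _ (hn hs), withDensity_apply _ hs]
  conv_rhs => rw [← hν]
  rw [setLIntegral_map hs (h86w_meas hg) hn]
  refine lintegral_congr fun x => ?_
  unfold h86w
  rw [he]

theorem h86w_mono {ν₁ ν₂ : Measure ℝ} {S : Set ℝ} (hS : MeasurableSet S) (h : ν₁.restrict S ≤ ν₂.restrict S)
    {g : ℝ → ℝ} (hg : ∀ u, u ∉ S → g u ≤ 0) : ν₁.withDensity (h86w g) ≤ ν₂.withDensity (h86w g) := by
  refine Measure.le_iff.mpr fun s hs => ?_
  rw [withDensity_apply _ hs, withDensity_apply _ hs]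
  have e : ∀ ν : Measure ℝ, ∫⁻ u in s, h86w g u ∂ν = ∫⁻ u in s, h86w g u ∂(ν.restrict S) := by
    intro ν
    rw [Measure.restrict_restrict hs, ← lintegral_inter_add_sdiff (h86w g) s hS]
    have : ∫⁻ u in s \ S, h86w g u ∂ν = 0 := by
      refine setLIntegral_eq_zero (hs.diff hS) fun u hu => ?_
      exact ENNReal.ofReal_eq_zero.mpr (hg u hu.2)
    rw [this, add_zero]
  rw [e ν₁, e ν₂]
  exact lintegral_mono' (Measure.restrict_mono le_rfl h) le_rfl

theorem h86_cancel {μ₁ μ₂ ν : Measure ℝ} [IsFiniteMeasure ν] (h : μ₁ + ν = μ₂ + ν) : μ₁ = μ₂ := by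
  ext s hs
  have := congrArg (fun m : Measure ℝ => m s) h
  simp only [Measure.coe_add, Pi.add_apply] at this
  exact (ENNReal.add_left_inj (measure_ne_top ν s)).mp this

theorem h86_poly_exp (P : Polynomial ℝ) {c : ℝ} (hc : 0 < c) :
    ∃ K : ℝ, 0 ≤ K ∧ ∀ u : ℝ, |P.eval (u ^ 2)| ≤ K * Real.exp (c / 2 * |u|) := by
  refine ⟨∑ i ∈ Finset.range (P.natDegree + 1), |P.coeff i| * ((2 * i).factorial * (2 / c) ^ (2 * i)), ?_, fun u => ?_⟩
  · exact Finset.sum_nonneg fun i _ => by positivity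
  · rw [Polynomial.eval_eq_sum_range, Finset.sum_mul]
    refine (Finset.abs_sum_le_sum_abs _ _).trans (Finset.sum_le_sum fun i _ => ?_)
    rw [abs_mul, mul_assoc]
    refine mul_le_mul_of_nonneg_left ?_ (abs_nonneg _)
    have h1 := Real.pow_div_factorial_le_exp (c / 2 * |u|) (by positivity) (2 * i)
    rw [div_le_iff₀ (by positivity)] at h1
    rw [← pow_mul, abs_pow]
    calc |u| ^ (2 * i) = (2 / c) ^ (2 * i) * (c / 2 * |u|) ^ (2 * i) := by
          rw [← mul_pow]
          congr 1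
          field_simp
      _ ≤ (2 / c) ^ (2 * i) * (Real.exp (c / 2 * |u|) * (2 * i).factorial) :=
          mul_le_mul_of_nonneg_left h1 (by positivity)
      _ = _ := by ring

theorem h86_E_cont (C c : ℝ) : Continuous (fun u : ℝ => C * Real.exp (-c * |u|)) := by fun_prop

theorem h86w_lf {ν : Measure ℝ} [IsLocallyFiniteMeasure ν] {g : ℝ → ℝ} (hg : Continuous g) :
    IsLocallyFiniteMeasure (ν.withDensity (h86w g)) := IsLocallyFiniteMeasure.withDensity_ofReal hg

theorem h86w_zero {ν : Measure ℝ} {S : Set ℝ} (hS : MeasurableSet S) {g : ℝ → ℝ} (hg : ∀ u ∈ S, g u ≤ 0) :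
    (ν.withDensity (h86w g)).restrict S = 0 := by
  rw [Measure.restrict_eq_zero, withDensity_apply _ hS]
  exact setLIntegral_eq_zero hS fun u hu => ENNReal.ofReal_eq_zero.mpr (hg u hu)

theorem h86w_inj {μ₁ μ₂ : Measure ℝ} {S : Set ℝ} (hS : MeasurableSet S) {g : ℝ → ℝ} (hgc : Continuous g)
    (hg : ∀ u ∈ S, 0 < g u) (h : (μ₁.withDensity (h86w g)).restrict S = (μ₂.withDensity (h86w g)).restrict S) :
    μ₁.restrict S = μ₂.restrict S := by
  rw [restrict_withDensity hS, restrict_withDensity hS] at h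
  have e : ∀ ν : Measure ℝ, ((ν.restrict S).withDensity (h86w g)).withDensity (fun x => (h86w g x)⁻¹) = ν.restrict S := by
    intro ν
    refine withDensity_inv_same (h86w_meas hgc) ?_ (ae_of_all _ fun x => by simp [h86w])
    refine ae_restrict_of_forall_mem hS fun x hx => ?_
    unfold h86w
    have := hg x hx
    simpa using this
  rw [← e μ₁, ← e μ₂, h]

theorem h86_half (m : Measure ℝ) : (2⁻¹ : ℝ≥0∞) • (m + m) = m := by
  rw [← two_smul ℝ≥0∞ m, smul_smul, ENNReal.inv_mul_cancel (by norm_num) (by norm_num), one_smul]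

theorem h86T_of {θ : ℝ} {r : ℝ → ℝ} (hr : Bump θ r) : h86T (CT r) := ⟨ct_cont hr, ct_decay2 hr⟩

theorem h86T_max {g f : ℝ → ℝ} (hg : Continuous g) (hf : Continuous f) (h : h86T (fun u => g u * f u)) :
    h86T (fun u => max (g u) 0 * f u) := by
  obtain ⟨-, M, hM⟩ := h
  refine ⟨(hg.max continuous_const).mul hf, M, fun u => (?_ : _ ≤ _).trans (hM u)⟩
  rw [abs_mul, abs_mul]
  refine mul_le_mul_of_nonneg_right ?_ (abs_nonneg _)
  rw [abs_of_nonneg (le_max_right _ _)]
  exact max_le (le_abs_self _) (abs_nonneg _)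

theorem h86T_vol {g f : ℝ → ℝ} (hg : Continuous g) {K : ℝ} (hK : ∀ u, |g u| ≤ K) (hf : h86T f) :
    Integrable (fun u => g u * f u) := by
  obtain ⟨hc, M, hM⟩ := hf
  have h1 : Integrable (fun u : ℝ => (K * M) * (1 + u ^ 2)⁻¹) := integrable_inv_one_add_sq.const_mul _
  refine h1.mono' (hg.mul hc).aestronglyMeasurable ?_
  filter_upwards with u
  rw [norm_mul, Real.norm_eq_abs, Real.norm_eq_abs, mul_assoc, ← div_eq_mul_inv]
  exact mul_le_mul (hK u) (hM u) (abs_nonneg _) ((abs_nonneg _).trans (hK u))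

theorem h86D_int {g f : ℝ → ℝ} (hg : Continuous g) (hg0 : ∀ u, 0 ≤ g u) {K : ℝ} (hK : ∀ u, g u ≤ K) (hf : h86T f) :
    Integrable f (DM g) ∧ ∫ u, f u ∂(DM g) = ∫ u, g u * f u := by
  have h1 : Integrable (fun u => g u * f u) := h86T_vol hg (fun u => by rw [abs_of_nonneg (hg0 u)]; exact hK u) hf
  have e : (fun u => max (g u) 0 * f u) = fun u => g u * f u := by
    funext u
    rw [max_eq_left (hg0 u)]
  have := h86w_int (ν := volume) hg (f := f) (by rw [e]; exact h1)
  rw [e] at this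
  exact this

theorem conc_gen {μ : Measure ℝ} [IsFiniteMeasureOnCompacts μ] (hsym : μ.map (fun x => -x) = μ)
    (hint : ∀ f : ℝ → ℝ, Continuous f → (∃ M : ℝ, ∀ u, |f u| ≤ M / (1 + u ^ 2)) → Integrable f μ)
    (hatom : Measure.dirac 0 ≤ μ) (P : Polynomial ℝ) (hP : P ≠ 0) (hP0 : P.eval 0 ≤ 0) {C c : ℝ} (hC : 0 ≤ C) (hc : 0 < c)
    (hlow : (DM Fc).restrict {u | P.eval (u ^ 2) < 0} ≤
      (μ + DM (fun u => C * Real.exp (-c * |u|))).restrict {u | P.eval (u ^ 2) < 0})
    (hup : μ.restrict {u | 0 < P.eval (u ^ 2)} ≤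
      (DM (fun u => Fc u + C * Real.exp (-c * |u|))).restrict {u | 0 < P.eval (u ^ 2)})
    {θ : ℝ} (hθ : 0 < θ) (hlaw : ∀ r : ℝ → ℝ, Bump θ r → ∫ u, CT r u ∂μ = CT r 0 + ∫ u, CT r u * Fc u) :
    μ = GUE := by
  set Q : ℝ → ℝ := fun u => P.eval (u ^ 2) with hQ
  have hQc : Continuous Q := h86_qcont P
  have hQc' : Continuous (fun u => -Q u) := hQc.neg
  have hQe : ∀ u, Q (-u) = Q u := fun u => by simp only [hQ, neg_sq]
  have hQ0 : Q 0 ≤ 0 := by simpa [hQ] using hP0
  set E : ℝ → ℝ := fun u => C * Real.exp (-c * |u|) with hE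
  have hEc : Continuous E := h86_E_cont C c
  have hEe : ∀ u, E (-u) = E u := fun u => by simp only [hE, abs_neg]
  have hE0 : ∀ u, 0 ≤ E u := fun u => mul_nonneg hC (Real.exp_pos _).le
  have hEC : ∀ u, E u ≤ C := fun u => by
    have : Real.exp (-c * |u|) ≤ 1 := Real.exp_le_one_iff.mpr (by nlinarith [abs_nonneg u])
    calc E u ≤ C * 1 := mul_le_mul_of_nonneg_left this hC
      _ = C := mul_one C
  have hFE : Continuous (fun u => Fc u + E u) := h86_Fc_cont.add hEc
  have hGm : MeasurableSet {u : ℝ | 0 < Q u} := (isOpen_lt continuous_const hQc).measurableSet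
  have hLm : MeasurableSet {u : ℝ | Q u < 0} := (isOpen_lt hQc continuous_const).measurableSet
  have hvol : (volume : Measure ℝ).map (fun x => -x) = volume := Measure.map_neg_eq_self _
  have hFe : ∀ u, Fc (-u) = Fc u := fun u => by unfold Fc; rw [sc_even]
  have i1 : IsLocallyFiniteMeasure (DM E) := h86w_lf hEc
  have i2 : IsLocallyFiniteMeasure (DM (fun u => Fc u + E u)) := h86w_lf hFE
  -- the two measures
  obtain ⟨A, hA⟩ : ∃ A : Measure ℝ, A = (μ.withDensity (h86w (fun u => -Q u)) + (DM E).withDensity (h86w (fun u => -Q u))) +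
      (DM (fun u => Fc u + E u)).withDensity (h86w Q) := ⟨_, rfl⟩
  obtain ⟨B₁, hB₁⟩ : ∃ B₁ : Measure ℝ, B₁ = (DM Fc).withDensity (h86w (fun u => -Q u)) + μ.withDensity (h86w Q) := ⟨_, rfl⟩
  have j1 : IsLocallyFiniteMeasure (μ.withDensity (h86w (fun u => -Q u))) := h86w_lf hQc'
  have j2 : IsLocallyFiniteMeasure ((DM E).withDensity (h86w (fun u => -Q u))) := h86w_lf hQc'
  have j3 : IsLocallyFiniteMeasure ((DM (fun u => Fc u + E u)).withDensity (h86w Q)) := h86w_lf hQc
  have j4 : IsLocallyFiniteMeasure ((DM Fc).withDensity (h86w (fun u => -Q u))) := h86w_lf hQc'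
  have j5 : IsLocallyFiniteMeasure (μ.withDensity (h86w Q)) := h86w_lf hQc
  have k1 : SigmaFinite A := by rw [hA]; infer_instance
  have k2 : SigmaFinite B₁ := by rw [hB₁]; infer_instance
  have hle : B₁ ≤ A := by
    rw [hA, hB₁, ← withDensity_add_measure]
    exact add_le_add (h86w_mono hLm hlow (fun u hu => by simpa using hu))
      (h86w_mono hGm hup (fun u hu => by simpa using hu))
  obtain ⟨ν₀, hν₀⟩ := exists_add hle
  have hDM : ∀ g : ℝ → ℝ, Continuous g → (∀ u, g (-u) = g u) → (DM g).map (fun x => -x) = DM g :=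
    fun g hg he => h86w_sym hvol hg he
  have hAs : A.map (fun x => -x) = A := by
    rw [hA, Measure.map_add _ _ measurable_neg, Measure.map_add _ _ measurable_neg]
    rw [h86w_sym hsym hQc' (fun u => by simp only [hQe]), h86w_sym (hDM _ hEc hEe) hQc' (fun u => by simp only [hQe]),
      h86w_sym (hDM _ hFE (fun u => by simp only [hFe, hEe])) hQc hQe]
  have hBs : B₁.map (fun x => -x) = B₁ := by
    rw [hB₁, Measure.map_add _ _ measurable_neg]
    rw [h86w_sym (hDM _ h86_Fc_cont hFe) hQc' (fun u => by simp only [hQe]), h86w_sym hsym hQc hQe]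
  obtain ⟨ν, hν⟩ : ∃ ν : Measure ℝ, ν = (2⁻¹ : ℝ≥0∞) • (ν₀ + ν₀.map (fun x => -x)) := ⟨_, rfl⟩
  have hAν : A = B₁ + ν := by
    have h1 : A = B₁ + ν₀.map (fun x => -x) := by
      conv_lhs => rw [← hAs, hν₀, Measure.map_add _ _ measurable_neg, hBs]
    calc A = (2⁻¹ : ℝ≥0∞) • (A + A) := (h86_half A).symm
      _ = (2⁻¹ : ℝ≥0∞) • ((B₁ + ν₀) + (B₁ + ν₀.map (fun x => -x))) := by rw [← hν₀, ← h1]
      _ = (2⁻¹ : ℝ≥0∞) • ((B₁ + B₁) + (ν₀ + ν₀.map (fun x => -x))) := by
          congr 1
          abel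
      _ = B₁ + ν := by rw [smul_add, h86_half, hν]
  have hνs : ν.map (fun x => -x) = ν := by
    rw [hν, Measure.map_smul, Measure.map_add _ _ measurable_neg, Measure.map_map measurable_neg measurable_neg]
    have : ((fun x : ℝ => -x) ∘ fun x => -x) = id := by
      funext x
      simp
    rw [this, Measure.map_id, add_comm]
  have hνA : ν ≤ A := by rw [hAν]; exact Measure.le_add_left le_rfl
  have : IsFiniteMeasureOnCompacts ν := ⟨fun K hK => (hνA K).trans_lt (by
    rw [hA]
    simp only [Measure.coe_add, Pi.add_apply]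
    exact ENNReal.add_lt_top.mpr ⟨ENNReal.add_lt_top.mpr ⟨hK.measure_lt_top, hK.measure_lt_top⟩, hK.measure_lt_top⟩)⟩
  have hint' : ∀ f : ℝ → ℝ, h86T f → Integrable f μ := fun f hf => hint f hf.1 hf.2
  -- integrals against A and B₁
  have hQT : ∀ r : ℝ → ℝ, Bump θ r → h86T (fun u => Q u * CT r u) ∧
      ∫ u, Q u * CT r u ∂μ = Q 0 * CT r 0 + ∫ u, Q u * CT r u * Fc u := by
    intro r hr
    obtain ⟨r', hr', he⟩ := bump_poly hr P
    have e : CT r' = fun u => Q u * CT r u := funext he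
    have h1 := h86T_of hr'
    have h2 := hlaw r' hr'
    rw [e] at h1 h2
    exact ⟨h1, h2⟩
  have hA_int : ∀ r : ℝ → ℝ, Bump θ r → Integrable (CT r) A ∧ Integrable (CT r) B₁ ∧
      (∫ u, CT r u ∂A) - (∫ u, CT r u ∂B₁) = (-P.eval 0) * CT r 0 + ∫ u, CT r u * (|Q u| * E u) := by
    intro r hr
    have hf := h86T_of hr
    obtain ⟨hQf, hl⟩ := hQT r hr
    have hpp : h86T (fun u => max (Q u) 0 * CT r u) := h86T_max hQc hf.1 hQf
    have hmm : h86T (fun u => max (-Q u) 0 * CT r u) := by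
      refine h86T_max hQc' hf.1 ?_
      have := h86T_const_mul hQf (-1)
      have e : (fun u => -Q u * CT r u) = fun u => -1 * (Q u * CT r u) := by
        funext u
        ring
      rw [e]
      exact this
    obtain ⟨a1, a2⟩ := h86w_int (ν := μ) hQc' (hint' _ hmm)
    obtain ⟨b0, b1⟩ := h86D_int hEc hE0 hEC hmm
    obtain ⟨b2, b3⟩ := h86w_int (ν := DM E) hQc' b0
    obtain ⟨c0, c1⟩ := h86D_int hFE (fun u => add_nonneg (h86_Fc_nonneg u) (hE0 u))
      (fun u => add_le_add (h86_Fc_le u) (hEC u)) hpp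
    obtain ⟨c2, c3⟩ := h86w_int (ν := DM (fun u => Fc u + E u)) hQc c0
    obtain ⟨d0, d1⟩ := h86D_int h86_Fc_cont h86_Fc_nonneg h86_Fc_le hmm
    obtain ⟨d2, d3⟩ := h86w_int (ν := DM Fc) hQc' d0
    obtain ⟨e1, e2⟩ := h86w_int (ν := μ) hQc (hint' _ hpp)
    refine ⟨by rw [hA]; exact (a1.add_measure b2).add_measure c2, by rw [hB₁]; exact d2.add_measure e1, ?_⟩
    rw [hA, hB₁, integral_add_measure (a1.add_measure b2) c2, integral_add_measure a1 b2, integral_add_measure d2 e1,
      a2, b3, b1, c3, c1, d3, d1, e2]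
    have hEb : ∀ u, |E u| ≤ C := fun u => by rw [abs_of_nonneg (hE0 u)]; exact hEC u
    have hFb : ∀ u, |Fc u| ≤ 1 := fun u => by rw [abs_of_nonneg (h86_Fc_nonneg u)]; exact h86_Fc_le u
    have v1 := h86T_vol hEc hEb hmm
    have v2 := h86T_vol hEc hEb hpp
    have v3 := h86T_vol h86_Fc_cont hFb hmm
    have v4 := h86T_vol h86_Fc_cont hFb hpp
    have w1 : ∫ u, (Fc u + E u) * (max (Q u) 0 * CT r u) =
        (∫ u, Fc u * (max (Q u) 0 * CT r u)) + ∫ u, E u * (max (Q u) 0 * CT r u) := by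
      rw [← integral_add v4 v2]
      refine integral_congr_ae (ae_of_all _ fun u => ?_)
      simp only
      ring
    have w2 : ∫ u, Q u * CT r u ∂μ = (∫ u, max (Q u) 0 * CT r u ∂μ) - ∫ u, max (-Q u) 0 * CT r u ∂μ := by
      rw [← integral_sub (hint' _ hpp) (hint' _ hmm)]
      refine integral_congr_ae (ae_of_all _ fun u => ?_)
      simp only
      rcases le_total (Q u) 0 with h | h
      · rw [max_eq_right h, max_eq_left (by linarith)]; ring
      · rw [max_eq_left h, max_eq_right (by linarith)]; ring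
    have w3 : ∫ u, Q u * CT r u * Fc u = (∫ u, Fc u * (max (Q u) 0 * CT r u)) - ∫ u, Fc u * (max (-Q u) 0 * CT r u) := by
      rw [← integral_sub v4 v3]
      refine integral_congr_ae (ae_of_all _ fun u => ?_)
      simp only
      rcases le_total (Q u) 0 with h | h
      · rw [max_eq_right h, max_eq_left (by linarith)]; ring
      · rw [max_eq_left h, max_eq_right (by linarith)]; ring
    have w4 : ∫ u, CT r u * (|Q u| * E u) = (∫ u, E u * (max (-Q u) 0 * CT r u)) + ∫ u, E u * (max (Q u) 0 * CT r u) := by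
      rw [← integral_add v1 v2]
      refine integral_congr_ae (ae_of_all _ fun u => ?_)
      simp only
      rcases le_total (Q u) 0 with h | h
      · rw [max_eq_right h, max_eq_left (by linarith), abs_of_nonpos h]; ring
      · rw [max_eq_left h, max_eq_right (by linarith), abs_of_nonneg h]; ring
    have hQ00 : Q 0 = P.eval 0 := by simp [hQ]
    rw [w1, w4]
    rw [w2, w3, hQ00] at hl
    linarith
  -- core
  obtain ⟨K, hK0, hK⟩ := h86_poly_exp P hc
  have hDc : Continuous (fun u => |Q u| * E u) := hQc.abs.mul hEc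
  have hD0 : ∀ u, 0 ≤ |Q u| * E u := fun u => mul_nonneg (abs_nonneg _) (hE0 u)
  have hcore : ν = ENNReal.ofReal (-P.eval 0) • Measure.dirac 0 + DM (fun u => |Q u| * E u) := by
    refine core hνs hθ (by linarith) (half_pos hc) hDc hD0 (fun u => by simp only [hQe, hEe]) (C := K * C) ?_ ?_ ?_
    · intro u
      calc |Q u| * E u ≤ (K * Real.exp (c / 2 * |u|)) * (C * Real.exp (-c * |u|)) :=
            mul_le_mul_of_nonneg_right (hK u) (hE0 u)
        _ = K * C * (Real.exp (c / 2 * |u|) * Real.exp (-c * |u|)) := by ring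
        _ = K * C * Real.exp (-(c / 2) * |u|) := by
            rw [← Real.exp_add]
            congr 2
            ring
    · intro r hr
      exact (hA_int r hr).1.mono_measure hνA
    · intro r hr
      obtain ⟨t1, t2, t3⟩ := hA_int r hr
      rw [← t3]
      conv_rhs => rw [hAν, integral_add_measure t2 (t1.mono_measure hνA)]
      ring
  -- cancel the density `|Q| E`
  have hfin : IsFiniteMeasure (DM (fun u => |Q u| * E u)) := by
    obtain ⟨K', hK0', hK'⟩ := h86_poly_exp ((1 + Polynomial.X) * P) hc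
    have hi : Integrable (fun u => |Q u| * E u) := by
      have h1 : Integrable (fun u : ℝ => (K' * C) * (1 + u ^ 2)⁻¹) := integrable_inv_one_add_sq.const_mul _
      refine h1.mono' hDc.aestronglyMeasurable ?_
      filter_upwards with u
      rw [Real.norm_eq_abs, abs_of_nonneg (hD0 u), ← div_eq_mul_inv, le_div_iff₀ (by positivity)]
      have h2 := hK' u
      rw [Polynomial.eval_mul, Polynomial.eval_add, Polynomial.eval_one, Polynomial.eval_X, abs_mul,
        abs_of_nonneg (by positivity : (0 : ℝ) ≤ 1 + u ^ 2)] at h2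
      calc |Q u| * E u * (1 + u ^ 2) = ((1 + u ^ 2) * |Q u|) * E u := by ring
        _ ≤ (K' * Real.exp (c / 2 * |u|)) * (C * Real.exp (-c * |u|)) := mul_le_mul_of_nonneg_right h2 (hE0 u)
        _ = K' * C * (Real.exp (c / 2 * |u|) * Real.exp (-c * |u|)) := by ring
        _ = K' * C * Real.exp (-(c / 2) * |u|) := by
            rw [← Real.exp_add]
            congr 2
            ring
        _ ≤ K' * C * 1 := by
            refine mul_le_mul_of_nonneg_left ?_ (mul_nonneg hK0' hC)
            exact Real.exp_le_one_iff.mpr (by nlinarith [abs_nonneg u])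
        _ = K' * C := mul_one _
    exact isFiniteMeasure_withDensity_ofReal hi.2
  have hkey : μ.withDensity (h86w (fun u => -Q u)) + (DM Fc).withDensity (h86w Q) =
      (DM Fc).withDensity (h86w (fun u => -Q u)) + μ.withDensity (h86w Q) +
        ENNReal.ofReal (-P.eval 0) • Measure.dirac 0 := by
    refine h86_cancel (ν := DM (fun u => |Q u| * E u)) ?_
    have s1 : DM (fun u => |Q u| * E u) = (DM E).withDensity (h86w (fun u => -Q u)) + (DM E).withDensity (h86w Q) := by
      have e : DM E = volume.withDensity (h86w E) := rfl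
      rw [e, ← withDensity_mul _ (h86w_meas hEc) (h86w_meas hQc'), ← withDensity_mul _ (h86w_meas hEc) (h86w_meas hQc),
        ← withDensity_add_left ((h86w_meas hEc).mul (h86w_meas hQc'))]
      unfold DM
      congr 1
      funext u
      simp only [Pi.add_apply, Pi.mul_apply, h86w]
      rw [← ENNReal.ofReal_mul (hE0 u), ← ENNReal.ofReal_mul (hE0 u)]
      rcases le_total (Q u) 0 with h | h
      · rw [abs_of_nonpos h, ENNReal.ofReal_of_nonpos (mul_nonpos_of_nonneg_of_nonpos (hE0 u) h), add_zero, mul_comm]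
      · rw [abs_of_nonneg h, ENNReal.ofReal_of_nonpos (p := E u * -Q u)
          (mul_nonpos_of_nonneg_of_nonpos (hE0 u) (by linarith)), zero_add, mul_comm]
    have s2 : (DM (fun u => Fc u + E u)).withDensity (h86w Q) = (DM Fc).withDensity (h86w Q) + (DM E).withDensity (h86w Q) := by
      rw [← withDensity_add_measure]
      congr 1
      have e1 : DM E = volume.withDensity (h86w E) := rfl
      have e2 : DM Fc = volume.withDensity (h86w Fc) := rfl
      rw [e1, e2, ← withDensity_add_left (h86w_meas h86_Fc_cont)]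
      unfold DM
      congr 1
      funext u
      simp only [Pi.add_apply, h86w]
      rw [ENNReal.ofReal_add (h86_Fc_nonneg u) (hE0 u)]
    have s3 := hAν
    rw [hcore, hA, hB₁, s2] at s3
    calc _ = μ.withDensity (h86w fun u => -Q u) + (DM E).withDensity (h86w fun u => -Q u) +
          ((DM Fc).withDensity (h86w Q) + (DM E).withDensity (h86w Q)) := by
          rw [s1]
          abel
      _ = _ := by
          rw [s3]
          abel
  have hg : ∀ g : ℝ → ℝ, GUE.withDensity (h86w g) = h86w g 0 • Measure.dirac 0 + (DM Fc).withDensity (h86w g) := by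
    intro g
    unfold GUE
    rw [withDensity_add_measure, dirac_withDensity]
  have hkey2 : μ.withDensity (h86w (fun u => -Q u)) + GUE.withDensity (h86w Q) =
      GUE.withDensity (h86w (fun u => -Q u)) + μ.withDensity (h86w Q) := by
    have e1 : h86w (fun u => -Q u) 0 = ENNReal.ofReal (-P.eval 0) := by simp [h86w, hQ]
    have e2 : h86w Q 0 = 0 := ENNReal.ofReal_eq_zero.mpr hQ0
    rw [hg, hg, e1, e2, zero_smul, zero_add, hkey]
    abel
  have hL : μ.restrict {u : ℝ | Q u < 0} = GUE.restrict {u : ℝ | Q u < 0} := by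
    refine h86w_inj hLm hQc' (fun u hu => by simpa using hu) ?_
    have := congrArg (fun m : Measure ℝ => m.restrict {u : ℝ | Q u < 0}) hkey2
    simp only [Measure.restrict_add] at this
    rwa [h86w_zero hLm (fun u hu => le_of_lt hu), h86w_zero hLm (fun u hu => le_of_lt hu), add_zero, add_zero] at this
  have hG : μ.restrict {u : ℝ | 0 < Q u} = GUE.restrict {u : ℝ | 0 < Q u} := by
    refine h86w_inj hGm hQc (fun u hu => hu) ?_
    have := congrArg (fun m : Measure ℝ => m.restrict {u : ℝ | 0 < Q u}) hkey2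
    simp only [Measure.restrict_add] at this
    have z : ∀ u ∈ {u : ℝ | 0 < Q u}, (fun u => -Q u) u ≤ 0 := fun u hu => by
      simp only [mem_setOf_eq] at hu
      simp only
      linarith
    rw [h86w_zero hGm z, h86w_zero hGm z, zero_add, zero_add] at this
    exact this.symm
  have hle2 : GUE ≤ μ := by
    have h1 : GUE.restrict {u | 0 < P.eval (u ^ 2)}ᶜ ≤ μ.restrict {u | 0 < P.eval (u ^ 2)}ᶜ := by
      refine h86_gue_le hatom P hP ?_
      have h2 : (DM Fc).restrict {u : ℝ | Q u < 0} ≤ GUE.restrict {u : ℝ | Q u < 0} := by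
        refine Measure.restrict_mono le_rfl ?_
        unfold GUE
        exact Measure.le_add_left le_rfl
      rw [← hL] at h2
      exact h2
    calc GUE = GUE.restrict {u : ℝ | 0 < Q u} + GUE.restrict {u : ℝ | 0 < Q u}ᶜ :=
          (Measure.restrict_add_restrict_compl hGm).symm
      _ ≤ μ.restrict {u : ℝ | 0 < Q u} + μ.restrict {u : ℝ | 0 < Q u}ᶜ := add_le_add hG.ge h1
      _ = μ := Measure.restrict_add_restrict_compl hGm
  obtain ⟨ρ, hρ⟩ := exists_add hle2
  obtain ⟨r, hr, -, hr0, hr1⟩ := exists_kernel hθ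
  have hB1 : ∀ n : ℕ, (1 : ℝ) ≤ (n : ℝ) + 1 := fun n => by
    have : (0 : ℝ) ≤ n := Nat.cast_nonneg n
    linarith
  refine h86_last hint' hρ hr hr0 hr1 (fun n : ℕ => (n : ℝ) + 1)
    (tendsto_atTop_add_const_right _ _ tendsto_natCast_atTop_atTop) hB1 ?_
  have hz : ∀ n : ℕ, (∫ u, CT r (u / ((n : ℝ) + 1)) ∂μ) - CT r 0 - (∫ u, CT r (u / ((n : ℝ) + 1)) * Fc u) = 0 := by
    intro n
    obtain ⟨hs, he⟩ := bump_scale hr (hB1 n)
    have h1 := hlaw _ hs
    simp only [he, zero_div] at h1
    have hn : ((n : ℝ) + 1) ≠ 0 := by have := hB1 n; positivity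
    have h2 : (∫ u, CT r (u / ((n : ℝ) + 1)) / ((n : ℝ) + 1) ∂μ) = (∫ u, CT r (u / ((n : ℝ) + 1)) ∂μ) / ((n : ℝ) + 1) :=
      integral_div _ _
    have h3 : (∫ u, CT r (u / ((n : ℝ) + 1)) / ((n : ℝ) + 1) * Fc u) =
        (∫ u, CT r (u / ((n : ℝ) + 1)) * Fc u) / ((n : ℝ) + 1) := by
      rw [← integral_div]
      refine integral_congr_ae (ae_of_all _ fun u => ?_)
      simp only
      ring
    rw [h2, h3] at h1
    field_simp at h1
    linarith
  simp only [hz]
  exact tendsto_const_nhds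

end Pool.Agent.Helper92.RG
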