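import Pool.Agent.Helper92.RG.Basic

/-!
# RG-Kex
Test functions. `CT r u = ∫ r ξ * cos (2 π u ξ) dξ` (`Helper4/PC/CT.lean`).

1. `exists_kernel`: take an even nonnegative smooth bump `g` supported in `[-θ/4, θ/4]`, `g 0 > 0` (`ContDiffBump`, even), and
   `r = g ⋆ g` (self-convolution): smooth, even, nonnegative, supported in `[-θ/2, θ/2]`, `CT r = (CT g) ^ 2 >= 0`, `CT r 0 = (∫ g) ^ 2 > 0`.
2. `bump_deriv`: integrate by parts twice (compact support).
3. `bump_scale`: substitution.
4. `bump_poly`: induction on `P` (or on the degree) with `bump_deriv`: `u ^ 2 * CT r u = CT (-(2 π) ^ (-2) * r'') u`, linearity of `CT`.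
-/

open MeasureTheory Set Filter Topology
open Pool.Agent.Helper57.Zeta Pool.Agent.Helper57.PC Pool.Agent.Helper57.LH
open Pool.Agent.Helper78.SG
open Pool.Agent.Helper4.PC (CT)
open scoped ContDiff ENNReal

namespace Pool.Agent.Helper92.RG

theorem kex_supp {r : ℝ → ℝ} {a : ℝ} (h : ∀ x, a ≤ |x| → r x = 0) : HasCompactSupport r := by
  apply HasCompactSupport.intro (isCompact_Icc (a := -a) (b := a))
  intro x hx
  apply h
  by_contra hc
  push Not at hc
  exact hx ⟨(abs_lt.1 hc).1.le, (abs_lt.1 hc).2.le⟩

theorem kex_cs {θ : ℝ} {r : ℝ → ℝ} (hr : Bump θ r) : HasCompactSupport r := by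
  obtain ⟨a, _, _, h⟩ := hr.supp
  exact kex_supp h

theorem kex_int {θ : ℝ} {r : ℝ → ℝ} (hr : Bump θ r) : Integrable r :=
  hr.smooth.continuous.integrable_of_hasCompactSupport (kex_cs hr)

theorem bump_deriv {θ : ℝ} {r : ℝ → ℝ} (hr : Bump θ r) :
    Bump θ (deriv (deriv r)) ∧ ∀ u, CT (deriv (deriv r)) u = -(2 * Real.pi * u) ^ 2 * CT r u := by
  have hs1 : ContDiff ℝ ∞ (deriv r) := (contDiff_infty_iff_deriv.1 hr.smooth).2
  have hs2 : ContDiff ℝ ∞ (deriv (deriv r)) := (contDiff_infty_iff_deriv.1 hs1).2
  have hd0 : Differentiable ℝ r := (contDiff_infty_iff_deriv.1 hr.smooth).1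
  have hd1 : Differentiable ℝ (deriv r) := (contDiff_infty_iff_deriv.1 hs1).1
  have hodd : ∀ x, deriv r (-x) = -deriv r x := by
    intro x
    have h1 : (fun y => r (-y)) = r := funext hr.even
    have h2 := deriv_comp_neg r x
    rw [h1] at h2
    linarith
  have heven : ∀ x, deriv (deriv r) (-x) = deriv (deriv r) x := by
    intro x
    have h1 : (fun y => deriv r (-y)) = fun y => -deriv r y := funext hodd
    have h2 := deriv_comp_neg (deriv r) x
    rw [h1, deriv.fun_neg] at h2
    linarith
  obtain ⟨a, ha0, ha1, ha⟩ := hr.supp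
  have hc0 := kex_cs hr
  have hc1 : HasCompactSupport (deriv r) := hc0.deriv
  have hc2 : HasCompactSupport (deriv (deriv r)) := hc1.deriv
  refine ⟨⟨hs2, heven, (a + θ) / 2, by linarith, by linarith, ?_⟩, ?_⟩
  · intro x hx
    have hev : ∀ᶠ y in nhds x, r y = 0 := by
      have h1 : ∀ᶠ y in nhds x, a < |y| :=
        (continuous_abs.tendsto x).eventually (lt_mem_nhds (by linarith))
      filter_upwards [h1] with y hy
      exact ha y hy.le
    have hev1 : deriv r =ᶠ[nhds x] deriv (fun _ => (0 : ℝ)) := by
      have h2 : r =ᶠ[nhds x] fun _ => (0 : ℝ) := hev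
      exact h2.deriv
    have hev2 := hev1.deriv_eq
    rw [hev2]
    simp
  · intro u
    unfold CT
    set c := 2 * Real.pi * u with hc
    have hsin : ∀ x : ℝ, HasDerivAt (fun y => Real.sin (c * y)) (c * Real.cos (c * x)) x := by
      intro x
      have h1 : HasDerivAt (fun y : ℝ => c * y) c x := by
        simpa using (hasDerivAt_id x).const_mul c
      have h2 := h1.sin
      rw [mul_comm] at h2
      exact h2
    have hcos : ∀ x : ℝ, HasDerivAt (fun y => Real.cos (c * y)) (-(c * Real.sin (c * x))) x := by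
      intro x
      have h1 : HasDerivAt (fun y : ℝ => c * y) c x := by
        simpa using (hasDerivAt_id x).const_mul c
      have h2 := h1.cos
      have e : -Real.sin (c * x) * c = -(c * Real.sin (c * x)) := by ring
      rw [e] at h2
      exact h2
    have hint : ∀ {f : ℝ → ℝ} {g : ℝ → ℝ}, Continuous f → HasCompactSupport f → Continuous g →
        Integrable (fun x => f x * g x) := by
      intro f g hf hfc hg
      exact (hf.mul hg).integrable_of_hasCompactSupport (hfc.mul_right)
    have hcc : Continuous fun x => Real.cos (c * x) := by fun_prop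
    have hsc : Continuous fun x => Real.sin (c * x) := by fun_prop
    -- first integration by parts
    have e1 : ∫ x, deriv r x * (-(c * Real.sin (c * x))) = -∫ x, deriv (deriv r) x *
        Real.cos (c * x) := by
      apply integral_mul_deriv_eq_deriv_mul_of_integrable (fun x _ => (hd1 x).hasDerivAt) (fun x _ => hcos x)
      · exact hint hs1.continuous hc1 (by fun_prop)
      · exact hint hs2.continuous hc2 hcc
      · exact hint hs1.continuous hc1 hcc
    have e2 : ∫ x, r x * (c * Real.cos (c * x)) = -∫ x, deriv r x * Real.sin (c * x) := by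
      apply integral_mul_deriv_eq_deriv_mul_of_integrable (fun x _ => (hd0 x).hasDerivAt) (fun x _ => hsin x)
      · exact hint hr.smooth.continuous hc0 (by fun_prop)
      · exact hint hs1.continuous hc1 hsc
      · exact hint hr.smooth.continuous hc0 hsc
    have e3 : ∫ x, deriv r x * (-(c * Real.sin (c * x))) = -c * ∫ x, deriv r x *
        Real.sin (c * x) := by
      rw [← integral_const_mul]
      congr 1
      funext x
      ring
    have e4 : ∫ x, r x * (c * Real.cos (c * x)) = c * ∫ x, r x * Real.cos (c * x) := by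
      rw [← integral_const_mul]
      congr 1
      funext x
      ring
    rw [e3] at e1
    rw [e4] at e2
    have e5 : (∫ x, deriv (deriv r) x * Real.cos (c * x)) = c * ∫ x, deriv r x *
        Real.sin (c * x) := by linarith
    have e6 : (∫ x, deriv r x * Real.sin (c * x)) = -(c * ∫ x, r x * Real.cos (c * x)) := by
      linarith
    rw [e5, e6]
    ring

theorem bump_scale {θ : ℝ} {r : ℝ → ℝ} (hr : Bump θ r) {B : ℝ} (hB : 1 ≤ B) :
    Bump θ (scl r B) ∧ ∀ u, CT (scl r B) u = CT r (u / B) / B := by
  have hB0 : 0 < B := by linarith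
  constructor
  · obtain ⟨a, ha0, ha1, ha⟩ := hr.supp
    refine ⟨?_, ?_, a, ha0, ha1, ?_⟩
    · unfold scl
      exact hr.smooth.comp (contDiff_const.mul contDiff_id)
    · intro x
      unfold scl
      rw [mul_neg, hr.even]
    · intro x hx
      unfold scl
      apply ha
      rw [abs_mul, abs_of_pos hB0]
      have := abs_nonneg x
      nlinarith
  · intro u
    unfold CT scl
    have h1 := Measure.integral_comp_mul_left (fun y => r y * Real.cos (2 * Real.pi * (u / B) * y)) B
    have h2 : (fun ξ => r (B * ξ) * Real.cos (2 * Real.pi * u * ξ))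
        = fun ξ => r (B * ξ) * Real.cos (2 * Real.pi * (u / B) * (B * ξ)) := by
      funext ξ
      congr 2
      field_simp
    rw [h2, h1, smul_eq_mul, abs_of_pos (inv_pos.2 hB0)]
    field_simp

theorem kex_add {θ : ℝ} {r s : ℝ → ℝ} (hr : Bump θ r) (hs : Bump θ s) :
    Bump θ (fun x => r x + s x) ∧ ∀ u, CT (fun x => r x + s x) u = CT r u + CT s u := by
  constructor
  · obtain ⟨a, ha0, ha1, ha⟩ := hr.supp
    obtain ⟨b, hb0, hb1, hb⟩ := hs.supp
    refine ⟨hr.smooth.add hs.smooth, fun x => by rw [hr.even, hs.even], max a b,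
      lt_of_lt_of_le ha0 (le_max_left _ _), max_lt ha1 hb1, ?_⟩
    intro x hx
    rw [ha x ((le_max_left _ _).trans hx), hb x ((le_max_right _ _).trans hx), add_zero]
  · intro u
    unfold CT
    rw [← integral_add (Pool.Agent.Helper4.PC.CT_int (kex_int hr) u)
      (Pool.Agent.Helper4.PC.CT_int (kex_int hs) u)]
    congr 1
    funext x
    ring

theorem kex_smul {θ : ℝ} {r : ℝ → ℝ} (hr : Bump θ r) (c : ℝ) :
    Bump θ (fun x => c * r x) ∧ ∀ u, CT (fun x => c * r x) u = c * CT r u := by
  constructor
  · obtain ⟨a, ha0, ha1, ha⟩ := hr.supp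
    refine ⟨contDiff_const.mul hr.smooth, fun x => by rw [hr.even], a, ha0, ha1, ?_⟩
    intro x hx
    rw [ha x hx, mul_zero]
  · intro u
    unfold CT
    rw [← integral_const_mul]
    congr 1
    funext x
    ring

theorem bump_poly {θ : ℝ} {r : ℝ → ℝ} (hr : Bump θ r) (P : Polynomial ℝ) :
    ∃ r' : ℝ → ℝ, Bump θ r' ∧ ∀ u, CT r' u = P.eval (u ^ 2) * CT r u := by
  have hmon : ∀ n : ℕ, ∃ r' : ℝ → ℝ, Bump θ r' ∧ ∀ u, CT r' u = (u ^ 2) ^ n * CT r u := by
    intro n
    induction n with
    | zero => exact ⟨r, hr, fun u => by simp⟩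
    | succ n ih =>
      obtain ⟨s, hs, hs2⟩ := ih
      obtain ⟨h1, h2⟩ := bump_deriv hs
      obtain ⟨h3, h4⟩ := kex_smul h1 (-(2 * Real.pi) ^ (-2 : ℤ))
      refine ⟨_, h3, fun u => ?_⟩
      rw [h4, h2, hs2]
      have hpi := Real.pi_pos
      rw [zpow_neg]
      have : (2 * Real.pi) ^ (2 : ℤ) = (2 * Real.pi) ^ (2 : ℕ) := by norm_cast
      rw [this]
      field_simp
      ring
  induction P using Polynomial.induction_on' with
  | add p q hp hq =>
    obtain ⟨s, hs, hs2⟩ := hp
    obtain ⟨t, ht, ht2⟩ := hq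
    obtain ⟨h1, h2⟩ := kex_add hs ht
    refine ⟨_, h1, fun u => ?_⟩
    rw [h2, hs2, ht2, Polynomial.eval_add]
    ring
  | monomial n a =>
    obtain ⟨s, hs, hs2⟩ := hmon n
    obtain ⟨h1, h2⟩ := kex_smul hs a
    refine ⟨_, h1, fun u => ?_⟩
    rw [h2, hs2, Polynomial.eval_monomial]
    ring

theorem exists_kernel {θ : ℝ} (hθ : 0 < θ) :
    ∃ r : ℝ → ℝ, Bump θ r ∧ (∀ y, 0 ≤ r y) ∧ (∀ u, 0 ≤ CT r u) ∧ 0 < CT r 0 := by
  let b : ContDiffBump (0 : ℝ) := ⟨θ / 8, θ / 4, by linarith, by linarith⟩
  obtain ⟨g, hg⟩ : ∃ g : ℝ → ℝ, g = fun x => b x := ⟨_, rfl⟩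
  have hgs : ContDiff ℝ ∞ g := by
    rw [hg]
    exact b.contDiff
  have hgc : Continuous g := hgs.continuous
  have hge : ∀ x, g (-x) = g x := by
    intro x
    rw [hg]
    exact b.neg x
  have hg0 : ∀ x, 0 ≤ g x := by
    intro x
    rw [hg]
    exact b.nonneg
  have hgz : ∀ x, θ / 4 ≤ |x| → g x = 0 := by
    intro x hx
    rw [hg]
    apply b.zero_of_le_dist
    rw [Real.dist_eq, sub_zero]
    exact hx
  have hgcs : HasCompactSupport g := kex_supp hgz
  have hgi : Integrable g := hgc.integrable_of_hasCompactSupport hgcs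
  have hgpos : 0 < ∫ x, g x := by
    rw [hg]
    exact b.integral_pos
  set r : ℝ → ℝ := fun y => ∫ x, g x * g (y - x) with hr
  have hconv : r = MeasureTheory.convolution g g (ContinuousLinearMap.mul ℝ ℝ) volume := by
    funext y
    rfl
  have hrs : ContDiff ℝ ∞ r := by
    rw [hconv]
    exact hgcs.contDiff_convolution_right _ hgc.locallyIntegrable hgs
  have hre : ∀ y, r (-y) = r y := by
    intro y
    simp only [hr]
    rw [← integral_neg_eq_self]
    congr 1
    funext x
    rw [hge, show -y - -x = -(y - x) by ring, hge]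
  have hrz : ∀ y, θ / 2 ≤ |y| → r y = 0 := by
    intro y hy
    simp only [hr]
    have : (fun x => g x * g (y - x)) = fun _ => 0 := by
      funext x
      by_cases hx : θ / 4 ≤ |x|
      · rw [hgz x hx, zero_mul]
      · push Not at hx
        rw [hgz (y - x), mul_zero]
        have := abs_sub_abs_le_abs_sub y x
        linarith
    rw [this, integral_zero]
  have hsin : ∀ u : ℝ, ∫ x, g x * Real.sin (2 * Real.pi * u * x) = 0 := by
    intro u
    have h1 : ∫ x, g x * Real.sin (2 * Real.pi * u * x)
        = -∫ x, g x * Real.sin (2 * Real.pi * u * x) := by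
      conv_lhs => rw [← integral_neg_eq_self]
      rw [← integral_neg]
      congr 1
      funext x
      rw [hge, mul_neg, Real.sin_neg, mul_neg]
    linarith
  have hCT : ∀ u, CT r u = CT g u ^ 2 := by
    intro u
    have hF : Integrable (Function.uncurry fun (y x : ℝ) => g x * g (y - x) *
        Real.cos (2 * Real.pi * u * y)) (volume.prod volume) := by
      apply Continuous.integrable_of_hasCompactSupport
      · unfold Function.uncurry
        fun_prop
      · apply HasCompactSupport.intro
          ((isCompact_Icc (a := -(θ / 2)) (b := θ / 2)).prod (isCompact_Icc (a := -(θ / 4)) (b := θ / 4)))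
        intro z hz
        change g z.2 * g (z.1 - z.2) * Real.cos (2 * Real.pi * u * z.1) = 0
        by_cases hx : θ / 4 ≤ |z.2|
        · rw [hgz _ hx, zero_mul, zero_mul]
        · push Not at hx
          have hz1 : θ / 2 ≤ |z.1| := by
            by_contra hc
            push Not at hc
            exact hz ⟨⟨(abs_lt.1 hc).1.le, (abs_lt.1 hc).2.le⟩,
              ⟨(abs_lt.1 hx).1.le, (abs_lt.1 hx).2.le⟩⟩
          rw [hgz (z.1 - z.2), mul_zero, zero_mul]
          have := abs_sub_abs_le_abs_sub z.1 z.2
          linarith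
    have h1 : CT r u = ∫ y, ∫ x, g x * g (y - x) * Real.cos (2 * Real.pi * u * y) := by
      unfold CT
      congr 1
      funext y
      simp only [hr]
      rw [integral_mul_const]
    rw [h1, integral_integral_swap hF]
    have h2 : ∀ x, ∫ y, g x * g (y - x) * Real.cos (2 * Real.pi * u * y)
        = g x * Real.cos (2 * Real.pi * u * x) * CT g u := by
      intro x
      have h3 : ∫ y, g x * g (y - x) * Real.cos (2 * Real.pi * u * y)
          = ∫ y, g x * g y * Real.cos (2 * Real.pi * u * (y + x)) := by
        rw [← integral_sub_right_eq_self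
          (fun y => g x * g y * Real.cos (2 * Real.pi * u * (y + x))) x]
        congr 1
        funext y
        rw [sub_add_cancel]
      rw [h3]
      have h4 : ∀ y, g x * g y * Real.cos (2 * Real.pi * u * (y + x))
          = g x * Real.cos (2 * Real.pi * u * x) * (g y * Real.cos (2 * Real.pi * u * y))
            - g x * Real.sin (2 * Real.pi * u * x) * (g y * Real.sin (2 * Real.pi * u * y)) := by
        intro y
        rw [mul_add, Real.cos_add]
        ring
      simp only [h4]
      rw [integral_sub, integral_const_mul, integral_const_mul, hsin, mul_zero, sub_zero]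
      · rfl
      · exact (Pool.Agent.Helper4.PC.CT_int hgi u).const_mul _
      · apply Integrable.const_mul
        exact (hgc.mul (by fun_prop)).integrable_of_hasCompactSupport hgcs.mul_right
    simp only [h2]
    rw [integral_mul_const, pow_two]
    rfl
  refine ⟨r, ⟨hrs, hre, θ / 2, by linarith, by linarith, hrz⟩, ?_, ?_, ?_⟩
  · intro y
    simp only [hr]
    exact integral_nonneg fun x => mul_nonneg (hg0 _) (hg0 _)
  · intro u
    rw [hCT]
    positivity
  · rw [hCT]
    have : CT g 0 = ∫ x, g x := by
      unfold CT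
      congr 1
      funext x
      simp
    rw [this]
    positivity

end Pool.Agent.Helper92.RG
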