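import Mathlib

/-!
# RG-UniqA
Uniqueness from the cosine transform near zero, given exponential moments (general; no zeta).

Symmetric measures: `∫ sin (y x) = 0`, so the characteristic functions `∫ e^(i y x) dν`, `∫ e^(i y x) dσ` agree for `|y| < δ`. Both are restrictions to the real axis
of functions analytic in the strip `|Im| < c` (Mathlib: `ProbabilityTheory.complexMGF`, `differentiableOn_complexMGF`/`analyticOn_complexMGF`, or directly); by the
identity theorem they agree on the real axis, and `MeasureTheory.Measure.ext_of_charFun` gives `ν = σ`.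
-/

open MeasureTheory Set Filter Topology

namespace Pool.Agent.Helper92.RG

/-- the strip is inside the interior of the exponential set -/
private lemma strip_sub {ν : Measure ℝ} {c : ℝ} (h1 : Integrable (fun x => Real.exp (c * |x|)) ν) :
    Ioo (-c) c ⊆ interior (ProbabilityTheory.integrableExpSet id ν) := by
  apply interior_maximal _ isOpen_Ioo
  intro t ht
  show Integrable (fun ω => Real.exp (t * id ω)) ν
  refine Integrable.mono' h1 (by fun_prop) (Eventually.of_forall fun x => ?_)
  rw [Real.norm_eq_abs, abs_of_pos (Real.exp_pos _)]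
  apply Real.exp_le_exp.2
  have h3 : t * x ≤ |t| * |x| := by rw [← abs_mul]; exact le_abs_self _
  have h4 : |t| ≤ c := (abs_lt.2 ht).le
  have := mul_le_mul_of_nonneg_right h4 (abs_nonneg x)
  simp only [id]
  linarith

/-- the characteristic function of a symmetric measure is the cosine transform -/
private lemma charFun_sym {ν : Measure ℝ} [IsFiniteMeasure ν] (hν : ν.map (fun x => -x) = ν) (y : ℝ) :
    MeasureTheory.charFun ν y = ((∫ x, Real.cos (y * x) ∂ν : ℝ) : ℂ) := by
  have hsm : Continuous (fun x : ℝ => Real.sin (y * x)) := Real.continuous_sin.comp (continuous_const.mul continuous_id)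
  have hcm : Continuous (fun x : ℝ => Real.cos (y * x)) := Real.continuous_cos.comp (continuous_const.mul continuous_id)
  have hs : ∫ x, Real.sin (y * x) ∂ν = 0 := by
    have h1 : ∫ x, Real.sin (y * x) ∂(ν.map (fun x => -x)) = ∫ x, Real.sin (y * (-x)) ∂ν :=
      integral_map (by fun_prop) (hsm.aestronglyMeasurable)
    rw [hν] at h1
    have h2 : ∫ x, Real.sin (y * (-x)) ∂ν = - ∫ x, Real.sin (y * x) ∂ν := by
      rw [← integral_neg]
      apply integral_congr_ae
      filter_upwards with x
      rw [mul_neg, Real.sin_neg]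
    linarith
  rw [charFun_apply_real]
  have hc : Integrable (fun x => ((Real.cos (y * x) : ℝ) : ℂ)) ν := by
    refine Integrable.ofReal ?_
    refine Integrable.mono' (integrable_const (1 : ℝ)) hcm.aestronglyMeasurable (Eventually.of_forall fun x => ?_)
    exact Real.abs_cos_le_one _
  have hsn : Integrable (fun x => ((Real.sin (y * x) : ℝ) : ℂ) * Complex.I) ν := by
    refine Integrable.mul_const ?_ _
    refine Integrable.ofReal ?_
    refine Integrable.mono' (integrable_const (1 : ℝ)) hsm.aestronglyMeasurable (Eventually.of_forall fun x => ?_)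
    exact Real.abs_sin_le_one _
  have he : ∀ x : ℝ, Complex.exp (y * x * Complex.I) =
      ((Real.cos (y * x) : ℝ) : ℂ) + ((Real.sin (y * x) : ℝ) : ℂ) * Complex.I := by
    intro x
    rw [Complex.exp_mul_I]
    push_cast
    rfl
  simp_rw [he]
  rw [integral_add hc hsn, integral_mul_const, integral_complex_ofReal, integral_complex_ofReal, hs]
  simp

theorem uniq_an {ν σ : Measure ℝ} [IsFiniteMeasure ν] [IsFiniteMeasure σ] (hν : ν.map (fun x => -x) = ν)
    (hσ : σ.map (fun x => -x) = σ) {c δ : ℝ} (hc : 0 < c) (hδ : 0 < δ)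
    (h1 : Integrable (fun x => Real.exp (c * |x|)) ν) (h2 : Integrable (fun x => Real.exp (c * |x|)) σ)
    (h : ∀ y : ℝ, |y| < δ → ∫ x, Real.cos (y * x) ∂ν = ∫ x, Real.cos (y * x) ∂σ) : ν = σ := by
  set U : Set ℂ := {z | z.re ∈ Ioo (-c) c} with hU
  have hA1 : AnalyticOnNhd ℂ (ProbabilityTheory.complexMGF id ν) U :=
    ProbabilityTheory.analyticOnNhd_complexMGF.mono fun z hz => strip_sub h1 hz
  have hA2 : AnalyticOnNhd ℂ (ProbabilityTheory.complexMGF id σ) U :=
    ProbabilityTheory.analyticOnNhd_complexMGF.mono fun z hz => strip_sub h2 hz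
  have hUc : IsPreconnected U := by
    apply Convex.isPreconnected
    exact (convex_Ioo (-c) c).linear_preimage Complex.reLm
  have h0 : (0 : ℂ) ∈ U := by
    simp only [hU, Set.mem_ofPred_eq, Complex.zero_re, mem_Ioo]
    exact ⟨by linarith, hc⟩
  have hfr : ∃ᶠ z in 𝓝[≠] (0 : ℂ), ProbabilityTheory.complexMGF id ν z = ProbabilityTheory.complexMGF id σ z := by
    have hev : ∀ᶠ y : ℝ in 𝓝[≠] 0, ProbabilityTheory.complexMGF id ν ((y : ℂ) * Complex.I) =
        ProbabilityTheory.complexMGF id σ ((y : ℂ) * Complex.I) := by
      have : ∀ᶠ y : ℝ in 𝓝 0, |y| < δ := by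
        have := Metric.ball_mem_nhds (0 : ℝ) hδ
        filter_upwards [this] with y hy
        simpa using hy
      filter_upwards [this.filter_mono nhdsWithin_le_nhds] with y hy
      rw [ProbabilityTheory.complexMGF_id_mul_I, ProbabilityTheory.complexMGF_id_mul_I,
        charFun_sym hν, charFun_sym hσ, h y hy]
    have ht : Tendsto (fun y : ℝ => (y : ℂ) * Complex.I) (𝓝[≠] 0) (𝓝[≠] 0) := by
      apply tendsto_nhdsWithin_iff.2
      constructor
      · have : Continuous (fun y : ℝ => (y : ℂ) * Complex.I) := by fun_prop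
        have h3 := this.tendsto 0
        simp only [Complex.ofReal_zero, zero_mul] at h3
        exact h3.mono_left nhdsWithin_le_nhds
      · filter_upwards [self_mem_nhdsWithin] with y hy
        simpa using hy
    exact ht.frequently hev.frequently
  have heq := hA1.eqOn_of_preconnected_of_frequently_eq hA2 hUc h0 hfr
  apply Measure.ext_of_charFun
  funext t
  rw [← ProbabilityTheory.complexMGF_id_mul_I, ← ProbabilityTheory.complexMGF_id_mul_I]
  apply heq
  simp only [hU, Set.mem_ofPred_eq, mem_Ioo]
  simp
  exact hc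

end Pool.Agent.Helper92.RG
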