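import Pool.Agent.Helper92.RG.UniqM
import Pool.Agent.Helper92.RG.UniqA
import Pool.Agent.Helper92.RG.Kex
import Pool.Agent.Helper92.RG.Pred

/-!
# RG-Core
A positive measure is determined by its small-bandwidth transform if the answer has an exponentially decaying density.

1. Finiteness: `exists_kernel` gives `r` with `CT r >= 0`, `CT r 0 > 0`; `bump_scale`: `∫ CT r (u/B) dν = a CT r 0 + ∫ CT r (u/B) D u du <= C'` for `B = n -> ∞`; Fatou:
   `ν ℝ * CT r 0 <= C'`. So `ν` is finite.
2. `σ = ofReal a • dirac 0 + DM D` is finite, symmetric, and `exp (c/2 |x|)` is `σ`-integrable.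
3. For every `Bump θ r`, Fubini: `∫ CT r dν = ∫ r ξ (∫ cos (2π ξ u) dν(u)) dξ`, the same for `σ`, and `∫ CT r dσ = a CT r 0 + ∫ CT r D`. Both
   `ξ ↦ ∫ cos (2π ξ u) dν`, `ξ ↦ ∫ cos (2π ξ u) dσ` are continuous and even, so testing with even bumps near `±ξ₀` they agree for `|ξ| < θ`.
4. `uniq_exp` (with `c/2`), then `uniq_an`.
-/

open MeasureTheory Set Filter Topology
open Pool.Agent.Helper57.Zeta Pool.Agent.Helper57.PC Pool.Agent.Helper57.LH
open Pool.Agent.Helper78.SG
open Pool.Agent.Helper4.PC (CT)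
open scoped ContDiff ENNReal

namespace Pool.Agent.Helper92.RG

theorem core_bump_compact {θ : ℝ} {r : ℝ → ℝ} (hr : Bump θ r) : HasCompactSupport r := by
  obtain ⟨θ', h0, h1, h2⟩ := hr.supp
  apply HasCompactSupport.intro (K := Icc (-θ') θ') isCompact_Icc
  intro x hx
  apply h2
  by_contra hlt
  push Not at hlt
  exact hx (abs_le.mp hlt.le)

theorem core_bump_int {θ : ℝ} {r : ℝ → ℝ} (hr : Bump θ r) : Integrable r :=
  hr.smooth.continuous.integrable_of_hasCompactSupport (core_bump_compact hr)

theorem core_exp_int {c : ℝ} (hc : 0 < c) : Integrable (fun u : ℝ => Real.exp (-c * |u|)) := by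
  have h1 : IntegrableOn (fun u : ℝ => Real.exp (-c * |u|)) (Ioi 0) := by
    refine (integrableOn_exp_mul_Ioi (a := -c) (by linarith) 0).congr_fun ?_ measurableSet_Ioi
    intro x hx
    simp only [mem_Ioi] at hx
    simp only [abs_of_pos hx]
  have h2 : IntegrableOn (fun u : ℝ => Real.exp (-c * |u|)) (Iic 0) := by
    refine (integrableOn_exp_mul_Iic (a := c) hc 0).congr_fun ?_ measurableSet_Iic
    intro x hx
    simp only [mem_Iic] at hx
    simp only [abs_of_nonpos hx]
    congr 1; ring
  have := h2.union h1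
  rwa [Iic_union_Ioi, integrableOn_univ] at this

/-- integrals against `DM D`. -/
theorem core_integral_DM {D : ℝ → ℝ} (hD : Continuous D) (hD0 : ∀ u, 0 ≤ D u) (f : ℝ → ℝ) :
    ∫ u, f u ∂(DM D) = ∫ u, f u * D u := by
  unfold DM
  rw [integral_withDensity_eq_integral_toReal_smul (by fun_prop) (by simp)]
  refine integral_congr_ae (Eventually.of_forall fun u => ?_)
  simp only [smul_eq_mul, ENNReal.toReal_ofReal (hD0 u)]
  ring

theorem core_integrable_DM {D : ℝ → ℝ} (hD : Continuous D) (hD0 : ∀ u, 0 ≤ D u) {f : ℝ → ℝ} 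
    (h : Integrable (fun u => f u * D u)) : Integrable f (DM D) := by
  unfold DM
  rw [integrable_withDensity_iff_integrable_smul' (by fun_prop) (by simp)]
  refine h.congr (Eventually.of_forall fun u => ?_)
  simp only [smul_eq_mul, ENNReal.toReal_ofReal (hD0 u)]
  ring

theorem core_DM_neg {D : ℝ → ℝ} (hD : Continuous D) (hDe : ∀ u, D (-u) = D u) :
    (DM D).map (fun x => -x) = DM D := by
  have hm : Measurable (fun x : ℝ => -x) := measurable_neg
  ext s hs
  rw [Measure.map_apply hm hs]
  unfold DM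
  rw [withDensity_apply _ (hm hs), withDensity_apply _ hs]
  have hmp : MeasurePreserving (fun x : ℝ => -x) volume volume := Measure.measurePreserving_neg volume
  have := hmp.setLIntegral_comp_preimage hs (f := fun u => ENNReal.ofReal (D u)) (by fun_prop)
  simp only [hDe] at this
  exact this

theorem core_finite {ν : Measure ℝ} {θ : ℝ} (hθ : 0 < θ)
    {a C c : ℝ} (ha : 0 ≤ a) (hc : 0 < c) {D : ℝ → ℝ} (hD : Continuous D) (hD0 : ∀ u, 0 ≤ D u)
    (hDC : ∀ u, D u ≤ C * Real.exp (-c * |u|))
    (hint : ∀ r : ℝ → ℝ, Bump θ r → Integrable (CT r) ν)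
    (h : ∀ r : ℝ → ℝ, Bump θ r → ∫ u, CT r u ∂ν = a * CT r 0 + ∫ u, CT r u * D u) :
    IsFiniteMeasure ν := by
  obtain ⟨r, hr, hr0, hc0, hc1⟩ := exists_kernel hθ
  have hDi : Integrable D := by
    refine ((core_exp_int hc).const_mul C).mono' hD.aestronglyMeasurable (Eventually.of_forall fun u => ?_)
    rw [Real.norm_of_nonneg (hD0 u)]; exact hDC u
  set M : ℝ := ∫ ξ, |r ξ| with hM
  have hM0 : 0 ≤ M := integral_nonneg fun _ => abs_nonneg _
  have hCM : ∀ u, CT r u ≤ M := fun u => (le_abs_self _).trans (Pool.Agent.Helper4.PC.CT_abs_le (core_bump_int hr) u)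
  have hcont : Continuous (CT r) := Pool.Agent.Helper4.PC.CT_cont (core_bump_int hr)
  set C' : ℝ := a * M + ∫ u, M * D u with hC'
  have hC'0 : 0 ≤ C' := by
    have : 0 ≤ ∫ u, M * D u := integral_nonneg fun u => mul_nonneg hM0 (hD0 u)
    positivity
  have key : ∀ n : ℕ, ∫⁻ u, ENNReal.ofReal (CT r (u / ((n : ℝ) + 1))) ∂ν ≤ ENNReal.ofReal C' := by
    intro n
    have hB : (1 : ℝ) ≤ (n : ℝ) + 1 := by linarith [n.cast_nonneg (α := ℝ)]
    have hB0 : (0 : ℝ) < (n : ℝ) + 1 := by linarith
    obtain ⟨h1, h2⟩ := bump_scale hr hB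
    have h3 := h _ h1
    have h4 := hint _ h1
    have h5 : (fun u => CT r (u / ((n : ℝ) + 1))) = fun u => ((n : ℝ) + 1) * CT (scl r ((n : ℝ) + 1)) u := by
      funext u; rw [h2 u]; field_simp
    rw [← ofReal_integral_eq_lintegral_ofReal]
    · apply ENNReal.ofReal_le_ofReal
      rw [h5, integral_const_mul, h3, h2 0, zero_div, mul_add, ← integral_const_mul]
      have e1 : ((n : ℝ) + 1) * (a * (CT r 0 / ((n : ℝ) + 1))) = a * CT r 0 := by field_simp
      rw [e1]
      apply add_le_add
      · exact mul_le_mul_of_nonneg_left (hCM 0) ha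
      · apply integral_mono_of_nonneg
        · refine Eventually.of_forall fun u => ?_
          simp only [Pi.zero_apply]
          rw [h2 u]
          exact mul_nonneg hB0.le (mul_nonneg (div_nonneg (hc0 _) hB0.le) (hD0 u))
        · exact hDi.const_mul M
        · refine Eventually.of_forall fun u => ?_
          simp only
          rw [h2 u, ← mul_assoc, mul_div_cancel₀ _ hB0.ne']
          exact mul_le_mul_of_nonneg_right (hCM _) (hD0 u)
    · rw [h5]; exact h4.const_mul _
    · exact Eventually.of_forall fun u => hc0 _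
  have hF : ∫⁻ u, liminf (fun n : ℕ => ENNReal.ofReal (CT r (u / ((n : ℝ) + 1)))) atTop ∂ν ≤
      liminf (fun n : ℕ => ∫⁻ u, ENNReal.ofReal (CT r (u / ((n : ℝ) + 1))) ∂ν) atTop := by
    apply lintegral_liminf_le
    intro n
    have : Continuous fun u : ℝ => CT r (u / ((n : ℝ) + 1)) := hcont.comp (by fun_prop)
    fun_prop
  have hlim : ∀ u : ℝ, liminf (fun n : ℕ => ENNReal.ofReal (CT r (u / ((n : ℝ) + 1)))) atTop = ENNReal.ofReal (CT r 0) := by
    intro u
    apply Tendsto.liminf_eq
    apply ENNReal.tendsto_ofReal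
    apply (hcont.tendsto 0).comp
    have := tendsto_one_div_add_atTop_nhds_zero_nat (𝕜 := ℝ)
    have h2 := this.const_mul u
    rw [mul_zero] at h2
    refine h2.congr fun n => ?_
    ring
  simp only [hlim, lintegral_const] at hF
  have hb : liminf (fun n : ℕ => ∫⁻ u, ENNReal.ofReal (CT r (u / ((n : ℝ) + 1))) ∂ν) atTop ≤ ENNReal.ofReal C' := by
    refine liminf_le_of_frequently_le' (Frequently.of_forall key) 
  have hfin : ENNReal.ofReal (CT r 0) * ν univ < ⊤ := lt_of_le_of_lt (hF.trans hb) ENNReal.ofReal_lt_top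
  constructor
  by_contra hcon
  have hT : ν univ = ⊤ := by
    simpa using hcon
  rw [hT, ENNReal.mul_top (by simpa using hc1)] at hfin
  exact lt_irrefl _ hfin

theorem core_CT_fubini {μ : Measure ℝ} [IsFiniteMeasure μ] {r : ℝ → ℝ} (hr : Integrable r) :
    ∫ u, CT r u ∂μ = ∫ ξ, r ξ * (∫ u, Real.cos (2 * Real.pi * u * ξ) ∂μ) := by
  unfold CT
  rw [integral_integral_swap]
  · congr 1
    funext ξ
    rw [integral_const_mul]
  · have h1 : Integrable (fun p : ℝ × ℝ => (1 : ℝ) * r p.2) (μ.prod volume) := (integrable_const (1 : ℝ)).mul_prod hr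
    refine h1.mono ?_ ?_
    · refine AEStronglyMeasurable.mul ?_ (by fun_prop)
      have := h1.aestronglyMeasurable
      simpa using this
    · refine Eventually.of_forall fun p => ?_
      simp only [Function.uncurry, norm_mul, one_mul]
      exact mul_le_of_le_one_right (norm_nonneg _) (Real.abs_cos_le_one _)

theorem core_cosT_cont (μ : Measure ℝ) [IsFiniteMeasure μ] : Continuous (fun ξ : ℝ => ∫ u, Real.cos (2 * Real.pi * u * ξ) ∂μ) := by
  apply continuous_of_dominated (bound := fun _ => (1 : ℝ))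
  · intro ξ; apply Continuous.aestronglyMeasurable; fun_prop
  · intro ξ; exact Eventually.of_forall fun u => Real.abs_cos_le_one _
  · exact integrable_const _
  · exact Eventually.of_forall fun u => by fun_prop

theorem core {ν : Measure ℝ} [IsFiniteMeasureOnCompacts ν] (hsym : ν.map (fun x => -x) = ν) {θ : ℝ} (hθ : 0 < θ)
    {a C c : ℝ} (ha : 0 ≤ a) (hc : 0 < c) {D : ℝ → ℝ} (hD : Continuous D) (hD0 : ∀ u, 0 ≤ D u)
    (hDe : ∀ u, D (-u) = D u) (hDC : ∀ u, D u ≤ C * Real.exp (-c * |u|))
    (hint : ∀ r : ℝ → ℝ, Bump θ r → Integrable (CT r) ν)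
    (h : ∀ r : ℝ → ℝ, Bump θ r → ∫ u, CT r u ∂ν = a * CT r 0 + ∫ u, CT r u * D u) :
    ν = ENNReal.ofReal a • Measure.dirac 0 + DM D := by
  have hfin : IsFiniteMeasure ν := core_finite hθ ha hc hD hD0 hDC hint h
  have hDi : Integrable D := by
    refine ((core_exp_int hc).const_mul C).mono' hD.aestronglyMeasurable (Eventually.of_forall fun u => ?_)
    rw [Real.norm_of_nonneg (hD0 u)]; exact hDC u
  have hDMfin : IsFiniteMeasure (DM D) := by
    unfold DM
    exact isFiniteMeasure_withDensity_ofReal hDi.2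
  have hdfin : IsFiniteMeasure (ENNReal.ofReal a • Measure.dirac (0 : ℝ)) := by
    have := Measure.smul_finite (Measure.dirac (0 : ℝ)) (c := ENNReal.ofReal a) ENNReal.ofReal_ne_top
    exact this
  set σ : Measure ℝ := ENNReal.ofReal a • Measure.dirac 0 + DM D with hσ
  have hσfin : IsFiniteMeasure σ := by rw [hσ]; infer_instance
  -- integrals against σ
  have hσint : ∀ f : ℝ → ℝ, Continuous f → Integrable f (DM D) → ∫ u, f u ∂σ = a * f 0 + ∫ u, f u * D u := by
    intro f hf hfi
    rw [hσ, integral_add_measure ?_ hfi, integral_smul_measure, integral_dirac, core_integral_DM hD hD0]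
    · simp [ENNReal.toReal_ofReal ha]
    · apply Integrable.smul_measure _ ENNReal.ofReal_ne_top
      exact integrable_dirac (by simp)
  have hσsym : σ.map (fun x => -x) = σ := by
    rw [hσ, Measure.map_add _ _ measurable_neg, core_DM_neg hD hDe, Measure.map_smul, Measure.map_dirac' measurable_neg, neg_zero]
  have hexp : Integrable (fun x => Real.exp (c / 2 * |x|)) σ := by
    rw [hσ]
    apply Integrable.add_measure
    · apply Integrable.smul_measure _ ENNReal.ofReal_ne_top
      exact integrable_dirac (by simp)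
    · apply core_integrable_DM hD hD0
      refine ((core_exp_int (half_pos hc)).const_mul C).mono' (by fun_prop) (Eventually.of_forall fun u => ?_)
      rw [Real.norm_of_nonneg (mul_nonneg (Real.exp_pos _).le (hD0 u))]
      calc Real.exp (c / 2 * |u|) * D u ≤ Real.exp (c / 2 * |u|) * (C * Real.exp (-c * |u|)) :=
            mul_le_mul_of_nonneg_left (hDC u) (Real.exp_pos _).le
        _ = C * Real.exp (-(c / 2) * |u|) := by
            rw [mul_left_comm, ← Real.exp_add]; congr 2; ring
  -- equality of the cosine transforms near zero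
  set G : ℝ → ℝ := fun ξ => (∫ u, Real.cos (2 * Real.pi * u * ξ) ∂ν) - ∫ u, Real.cos (2 * Real.pi * u * ξ) ∂σ with hG
  have hGc : Continuous G := (core_cosT_cont ν).sub (core_cosT_cont σ)
  have hGe : ∀ ξ, G (-ξ) = G ξ := by
    intro ξ
    simp only [hG, mul_neg, Real.cos_neg]
  have hCTb : ∀ r : ℝ → ℝ, Bump θ r → Integrable (CT r) (DM D) := by
    intro r hr
    have hcont : Continuous (CT r) := Pool.Agent.Helper4.PC.CT_cont (core_bump_int hr)
    refine (integrable_const (∫ ξ, |r ξ|)).mono' hcont.aestronglyMeasurable (Eventually.of_forall fun u => ?_)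
    exact Pool.Agent.Helper4.PC.CT_abs_le (core_bump_int hr) u
  have hbump : ∀ r : ℝ → ℝ, Bump θ r → ∫ ξ, r ξ * G ξ = 0 := by
    intro r hr
    have h1 := core_CT_fubini (μ := ν) (core_bump_int hr)
    have h2 := core_CT_fubini (μ := σ) (core_bump_int hr)
    rw [h r hr] at h1
    rw [hσint _ (Pool.Agent.Helper4.PC.CT_cont (core_bump_int hr)) (hCTb r hr)] at h2
    simp only [hG, mul_sub]
    rw [integral_sub, ← h1, ← h2, sub_self]
    · exact (hr.smooth.continuous.mul (core_cosT_cont ν)).integrable_of_hasCompactSupport (core_bump_compact hr).mul_right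
    · exact (hr.smooth.continuous.mul (core_cosT_cont σ)).integrable_of_hasCompactSupport (core_bump_compact hr).mul_right
  have hG0 : ∀ᵐ ξ : ℝ, ξ ∈ Ioo (-θ) θ → G ξ = 0 := by
    apply isOpen_Ioo.ae_eq_zero_of_integral_contDiff_smul_eq_zero (hGc.locallyIntegrable.locallyIntegrableOn _)
    intro g hg hgc hgs
    -- even part
    have hgi : Integrable (fun ξ => g ξ * G ξ) := (hg.continuous.mul hGc).integrable_of_hasCompactSupport hgc.mul_right
    have hgi' : Integrable (fun ξ => g (-ξ) * G ξ) := by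
      have := hgi.comp_neg
      refine this.congr (Eventually.of_forall fun ξ => ?_)
      simp only [hGe]
    have hr : Bump θ (fun ξ => g ξ + g (-ξ)) := by
      refine ⟨hg.add (hg.comp contDiff_neg), fun x => by simp only [neg_neg]; ring, ?_⟩
      by_cases hne : (tsupport g).Nonempty
      · obtain ⟨x0, hx0, hmax⟩ := hgc.isCompact.exists_isMaxOn hne continuous_abs.continuousOn
        have hx0' : |x0| < θ := abs_lt.mpr (hgs hx0)
        refine ⟨(|x0| + θ) / 2, by have := abs_nonneg x0; linarith, by linarith, fun x hx => ?_⟩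
        have hz : ∀ y : ℝ, |y| = |x| → g y = 0 := by
          intro y hy
          by_contra hne
          have hy' : y ∈ tsupport g := subset_tsupport _ hne
          have := hmax hy'
          simp only [Set.mem_ofPred_eq] at this
          rw [hy] at this
          linarith
        rw [hz x rfl, hz (-x) (abs_neg x), add_zero]
      · refine ⟨θ / 2, by linarith, by linarith, fun x _ => ?_⟩
        have hz : ∀ y, g y = 0 := by
          intro y
          by_contra hy
          exact hne ⟨y, subset_tsupport _ hy⟩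
        rw [hz, hz, add_zero]
    have h0 := hbump _ hr
    simp only [add_mul] at h0
    rw [integral_add hgi hgi'] at h0
    have h1 : ∫ ξ, g (-ξ) * G ξ = ∫ ξ, g ξ * G ξ := by
      rw [← integral_neg_eq_self (fun ξ => g ξ * G ξ) volume]
      simp only [hGe]
    rw [h1] at h0
    simp only [smul_eq_mul]
    linarith
  have hGz : ∀ ξ ∈ Ioo (-θ) θ, G ξ = 0 := by
    have h1 : G =ᵐ[volume.restrict (Ioo (-θ) θ)] (fun _ => (0 : ℝ)) := by
      rw [Filter.EventuallyEq, ae_restrict_iff' measurableSet_Ioo]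
      exact hG0
    have h2 := Measure.eqOn_open_of_ae_eq h1 isOpen_Ioo hGc.continuousOn continuousOn_const
    exact fun ξ hξ => h2 hξ
  have hcos : ∀ y : ℝ, |y| < 2 * Real.pi * θ → ∫ x, Real.cos (y * x) ∂ν = ∫ x, Real.cos (y * x) ∂σ := by
    intro y hy
    have hp : 0 < 2 * Real.pi := by positivity
    have hy' : y / (2 * Real.pi) ∈ Ioo (-θ) θ := by
      rw [mem_Ioo, ← abs_lt, abs_div, abs_of_pos hp, div_lt_iff₀ hp]
      linarith
    have h1 := hGz _ hy'
    simp only [hG] at h1
    have e : ∀ u : ℝ, 2 * Real.pi * u * (y / (2 * Real.pi)) = y * u := by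
      intro u; field_simp
    simp only [e] at h1
    linarith
  have hδ : 0 < 2 * Real.pi * θ := by positivity
  have hνexp := uniq_exp (half_pos hc) hδ hexp hcos
  exact uniq_an hsym hσsym (half_pos hc) hδ hνexp hexp hcos

end Pool.Agent.Helper92.RG
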