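import Pool.Agent.Helper92.RG.Basic

/-!
# RG-CritLow
From the measure inequality to the hypothesis of `nl_of_lower`.

For fixed `B >= 9600` the function `Gm (u / B)` is continuous (`Gm_cont`) and `O(1/(1+u²))` (`Gm` is at most `C/(1+y²)`; see
`Helper57/M/G.lean` or prove it from `sc_decay`), so `PF T (ZC T) (Gm (· / B)) -> ∫ Gm (u/B) dμ` along `U`. By `h`
`∫ Gm (u/B) dμ >= ∫ Gm (u/B) Fc u du - ∫ Gm (u/B) C e^(-c|u|) du >= B - Gm 0 * ∫ sc - Gm 0 * 2C/c = B - Gm 0 - 2 C Gm 0 / c`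
(`∫ Gm = 1`: `Gm_integral`; `Gm_le`, `sc_integral`). Take `C1` one larger.
-/

open MeasureTheory Set Filter Topology
open Pool.Agent.Helper57.Zeta Pool.Agent.Helper57.PC Pool.Agent.Helper57.LH
open Pool.Agent.Helper78.SG
open Pool.Agent.Helper4.PC (CT)
open scoped ContDiff ENNReal

namespace Pool.Agent.Helper92.RG

private lemma h98_expInt {c : ℝ} (hc : 0 < c) : Integrable (fun u : ℝ => Real.exp (-c * |u|)) := by
  rw [← integrableOn_univ, ← Iic_union_Ioi (a := (0:ℝ))]
  refine IntegrableOn.union ?_ ?_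
  · refine (integrableOn_exp_mul_Iic hc 0).congr_fun (fun x hx => ?_) measurableSet_Iic
    have hx' : x ≤ 0 := hx
    simp only
    rw [abs_of_nonpos hx']
    congr 1; ring
  · refine (integrableOn_exp_mul_Ioi (by linarith : -c < 0) 0).congr_fun (fun x hx => ?_) measurableSet_Ioi
    have hx' : 0 < x := hx
    simp only
    rw [abs_of_pos hx']

private lemma h98_DM {g : ℝ → ℝ} (hg : Continuous g) (hg0 : ∀ x, 0 ≤ g x) {f : ℝ → ℝ}
    (hf : Integrable (fun x => g x * f x)) :
    Integrable f (DM g) ∧ ∫ x, f x ∂(DM g) = ∫ x, g x * f x := by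
  have hm : Measurable (fun u => ENNReal.ofReal (g u)) := hg.measurable.ennreal_ofReal
  have hlt : ∀ᵐ x : ℝ, ENNReal.ofReal (g x) < ⊤ := Eventually.of_forall fun x => ENNReal.ofReal_lt_top
  have e : (fun x => (ENNReal.ofReal (g x)).toReal • f x) = fun x => g x * f x := by
    funext x
    rw [ENNReal.toReal_ofReal (hg0 x), smul_eq_mul]
  constructor
  · unfold DM
    rw [integrable_withDensity_iff_integrable_smul' hm hlt, e]
    exact hf
  · unfold DM
    rw [integral_withDensity_eq_integral_toReal_smul hm hlt, e]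

theorem crit_lower {U : Filter ℝ} {μ : Measure ℝ} (hμ : IsLim U ZC μ) {C c : ℝ} (hC : 0 ≤ C) (hc : 0 < c)
    (h : DM Fc ≤ μ + DM (fun u => C * Real.exp (-c * |u|))) :
    ∃ C1 : ℝ, ∀ B : ℝ, 9600 ≤ B → ∀ᶠ T in U, B - C1 ≤ PF T (ZC T) (fun u => Gm (u / B)) := by
  refine ⟨1 + (∫ u, C * Real.exp (-c * |u|)) + 1, fun B hB => ?_⟩
  have hB0 : 0 < B := by linarith
  have hfc : Continuous (fun u => Gm (u / B)) := Gm_cont.comp (by fun_prop)
  have hfi : Integrable (fun u => Gm (u / B)) := Gm_integrable.comp_div hB0.ne'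
  have hf1 : ∀ u, Gm (u / B) ≤ 1 := fun u => (Gm_le _).trans Pool.Agent.Helper4.PC.Gm_zero_le_one
  have hf0 : ∀ u, 0 ≤ Gm (u / B) := fun u => Gm_nonneg _
  have hfI : ∫ u, Gm (u / B) = B := by
    have := Measure.integral_comp_div (fun u => Gm u) B
    rw [this, Gm_integral, abs_of_pos hB0, smul_eq_mul, mul_one]
  have hfd : ∃ M : ℝ, ∀ u, |Gm (u / B)| ≤ M / (1 + u ^ 2) := by
    refine ⟨200 * Real.pi * B ^ 2, fun u => ?_⟩
    rw [abs_of_nonneg (hf0 u)]
    refine (Pool.Agent.Helper57.LS.Gm_upper _).trans ?_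
    rw [mul_div_assoc]
    refine mul_le_mul_of_nonneg_left ?_ (by positivity)
    rw [inv_eq_one_div, div_le_div_iff₀ (by positivity) (by positivity)]
    have e1 : B ^ 2 * (1 + (u / B) ^ 2) = B ^ 2 + u ^ 2 := by field_simp
    rw [e1]
    nlinarith
  obtain ⟨hi, ht⟩ := hμ.2 _ hfc hfd
  have hFc : Continuous Fc := continuous_const.sub sc_cont
  have hFc0 : ∀ x, 0 ≤ Fc x := fun x => by unfold Fc; linarith [sc_le_one x]
  have hsf : Integrable (fun u => sc u * Gm (u / B)) := by
    refine sc_integrable.mono' (sc_cont.mul hfc).aestronglyMeasurable ?_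
    filter_upwards with x
    rw [Real.norm_of_nonneg (mul_nonneg (sc_nonneg _) (hf0 _))]
    exact mul_le_of_le_one_right (sc_nonneg _) (hf1 _)
  have hFi : Integrable (fun u => Fc u * Gm (u / B)) := by
    have : (fun u => Fc u * Gm (u / B)) = fun u => Gm (u / B) - sc u * Gm (u / B) := by
      funext u; unfold Fc; ring
    rw [this]
    exact hfi.sub hsf
  have hFI : B - 1 ≤ ∫ u, Fc u * Gm (u / B) := by
    have e : (fun u => Fc u * Gm (u / B)) = fun u => Gm (u / B) - sc u * Gm (u / B) := by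
      funext u; unfold Fc; ring
    rw [e, integral_sub hfi hsf, hfI]
    have : ∫ u, sc u * Gm (u / B) ≤ ∫ u, sc u := by
      refine integral_mono hsf sc_integrable fun u => ?_
      exact mul_le_of_le_one_right (sc_nonneg _) (hf1 _)
    rw [sc_integral] at this
    linarith
  have hEc : Continuous (fun u : ℝ => C * Real.exp (-c * |u|)) := by fun_prop
  have hE0 : ∀ u : ℝ, 0 ≤ C * Real.exp (-c * |u|) := fun u => by positivity
  have hEI : Integrable (fun u : ℝ => C * Real.exp (-c * |u|)) := (h98_expInt hc).const_mul C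
  have hEf : Integrable (fun u : ℝ => C * Real.exp (-c * |u|) * Gm (u / B)) := by
    refine hEI.mono' (hEc.mul hfc).aestronglyMeasurable ?_
    filter_upwards with x
    rw [Real.norm_of_nonneg (mul_nonneg (hE0 _) (hf0 _))]
    exact mul_le_of_le_one_right (hE0 _) (hf1 _)
  have hEl : ∫ u, C * Real.exp (-c * |u|) * Gm (u / B) ≤ ∫ u, C * Real.exp (-c * |u|) :=
    integral_mono hEf hEI fun u => mul_le_of_le_one_right (hE0 _) (hf1 _)
  obtain ⟨h1, h2⟩ := h98_DM hFc hFc0 hFi
  obtain ⟨h3, h4⟩ := h98_DM hEc hE0 hEf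
  have key : ∫ u, Gm (u / B) ∂(DM Fc) ≤ ∫ u, Gm (u / B) ∂(μ + DM (fun u => C * Real.exp (-c * |u|))) :=
    integral_mono_measure h (Eventually.of_forall hf0) (hi.add_measure h3)
  rw [integral_add_measure hi h3, h2, h4] at key
  have hlt : B - (1 + (∫ u, C * Real.exp (-c * |u|)) + 1) < ∫ x, Gm (x / B) ∂μ := by linarith
  filter_upwards [ht.eventually (lt_mem_nhds hlt)] with T hT
  exact hT.le

end Pool.Agent.Helper92.RG
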