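import Pool.Agent.Helper78.SG.Parseval
import Pool.Agent.Helper78.SG.Explicit
import Pool.Agent.Helper78.SG.KDecay
import Pool.Agent.Helper57.M.H

/-!
# RG: rigidity of the pair correlation of the zeta zeros (MP_8958e8). Definitions.
See the README /team-store/h92_RG_README.md.
-/

open MeasureTheory Set Filter Topology
open Pool.Agent.Helper57.Zeta Pool.Agent.Helper57.PC Pool.Agent.Helper57.LH
open Pool.Agent.Helper78.SG
open Pool.Agent.Helper4.PC (CT)
open scoped ContDiff ENNReal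

namespace Pool.Agent.Helper92.RG

open Classical in
/-- The zeros with ordinate in `[0,T]` on the critical line. -/
noncomputable def ZC (T : ℝ) : Finset ZS := (ZT T).filter (fun ρ => (ρ : ℂ).re = 1 / 2)

open Classical in
/-- The zeros with ordinate in `[0,T]` off the critical line. -/
noncomputable def ZO (T : ℝ) : Finset ZS := (ZT T).filter (fun ρ => (ρ : ℂ).re ≠ 1 / 2)

/-- The normalised pair sum over a finite set of zeros. -/
noncomputable def PF (T : ℝ) (F : Finset ZS) (φ : ℝ → ℝ) : ℝ :=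
  (∑ ρ ∈ F, ∑ ρ' ∈ F, mx ρ * mx ρ' * φ (nd T ((ρ : ℂ), (ρ' : ℂ)))) / SN T

/-- `μ` is the limit along `U` of the pair measures of the sets of zeros `F T`, tested on continuous functions
that are `O(1/(1+u²))`. -/
def IsLim (U : Filter ℝ) (F : ℝ → Finset ZS) (μ : Measure ℝ) : Prop :=
  IsFiniteMeasureOnCompacts μ ∧ ∀ f : ℝ → ℝ, Continuous f → (∃ M : ℝ, ∀ u, |f u| ≤ M / (1 + u ^ 2)) →
    Integrable f μ ∧ Tendsto (fun T => PF T (F T) f) U (𝓝 (∫ x, f x ∂μ))

/-- The continuous version of the pair correlation density `1 - (sin πu/πu)²`. -/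
noncomputable def Fc (u : ℝ) : ℝ := 1 - sc u

/-- The measure with density `g⁺`. -/
noncomputable def DM (g : ℝ → ℝ) : Measure ℝ := volume.withDensity (fun u => ENNReal.ofReal (g u))

/-- The pair correlation measure of the conjecture. -/
noncomputable def GUE : Measure ℝ := Measure.dirac 0 + DM Fc

/-- Smooth even functions supported in `(-θ,θ)`. -/
structure Bump (θ : ℝ) (r : ℝ → ℝ) : Prop where
  smooth : ContDiff ℝ ∞ r
  even : ∀ x, r (-x) = r x
  supp : ∃ θ' : ℝ, 0 < θ' ∧ θ' < θ ∧ ∀ x, θ' ≤ |x| → r x = 0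

/-- The sum over the zeros in `[0,T]` of the kernels at their true depth. -/
noncomputable def Xs (h : ℝ → ℝ) (T t : ℝ) : ℝ := ∑ ρ ∈ ZT T, mx ρ * kz h (Real.log T) t ρ

/-- The same sum with all depths replaced by zero. -/
noncomputable def Ys (h : ℝ → ℝ) (T t : ℝ) : ℝ :=
  ∑ ρ ∈ ZT T, mx ρ * ker h 0 (Real.log T * (t - (ρ : ℂ).im))

/-- The effect of the depths. -/
noncomputable def Es (h : ℝ → ℝ) (T t : ℝ) : ℝ := Xs h T t - Ys h T t

/-- The depth of a zero. -/
noncomputable def dep (L : ℝ) (ρ : ℂ) : ℝ := |L * (ρ.re - 1 / 2)|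

/-- Rescaled test function `y ↦ h (B y)`. -/
noncomputable def scl (h : ℝ → ℝ) (B y : ℝ) : ℝ := h (B * y)

/-- The rescaled test function as a `TF`. -/
noncomputable def TFs (f : TF) (B : ℝ) (hB : 1 ≤ B) : TF where
  h := scl f.h B
  th := f.th / B
  smooth := by
    unfold scl
    exact f.smooth.comp (contDiff_const.mul contDiff_id)
  even := fun x => by
    unfold scl
    rw [mul_neg, f.even]
  th0 := div_pos f.th0 (by linarith)
  th1 := lt_of_le_of_lt (div_le_self f.th0.le hB) f.th1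
  supp := fun x hx => by
    unfold scl
    apply f.supp
    have hB0 : 0 < B := by linarith
    rw [abs_mul, abs_of_pos hB0]
    rw [div_le_iff₀ hB0] at hx
    linarith

/-- A fixed bump: `1` on `[-1/2,1/2]`, supported in `[-1,1]`. -/
noncomputable def bmp : ContDiffBump (0 : ℝ) := ⟨1 / 2, 1, by norm_num, by norm_num⟩

/-- `|∑ m a² e^(i y L γ)|²` for the zeros in `[0,T]`, `a` the depth. -/
noncomputable def Sq2 (T y : ℝ) : ℝ :=
  (∑ ρ ∈ ZT T, mx ρ * dep (Real.log T) ρ ^ 2 * Real.cos (y * (Real.log T * (ρ : ℂ).im))) ^ 2 +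
  (∑ ρ ∈ ZT T, mx ρ * dep (Real.log T) ρ ^ 2 * Real.sin (y * (Real.log T * (ρ : ℂ).im))) ^ 2

/-- The size of the depth effect at scale `B`. -/
noncomputable def Qs (T B : ℝ) : ℝ :=
  2 * Real.pi / (Real.log T * T) * ∫ y, ((B * y) ^ 4 * bmp (B * y) ^ 2) * Sq2 T y

/-- The number of pairs of zeros on the critical line. -/
noncomputable def critPairCount (T α β : ℝ) : ℝ :=
  ∑ᶠ p ∈ {p : ℂ × ℂ | p.1 ∈ zerosUpTo T ∧ p.2 ∈ zerosUpTo T ∧ p.1.re = 1 / 2 ∧ p.2.re = 1 / 2 ∧
    (p.1.im - p.2.im) * Real.log T / (2 * Real.pi) ∈ Icc α β}, ((mult p.1 : ℝ) * (mult p.2 : ℝ))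

open Classical in
/-- The law of the conjecture for all windows along a filter. -/
def Law (l : Filter ℝ) : Prop := ∀ α β : ℝ, α ≤ β →
  Tendsto (fun T : ℝ => pairCount T α β / (T * Real.log T / (2 * Real.pi))) l
    (𝓝 ((∫ u in α..β, pcDensity u) + if α ≤ 0 ∧ 0 ≤ β then 1 else 0))

end Pool.Agent.Helper92.RG
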