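import Pool.Agent.Helper92.RG.Basic

/-!
# RG-KD2
Decay of the kernels `ker h a u = ∫ h y * (cosh (a y) * cos (u y)) dy`.

1. `kd`: as in `Helper78/SG/KDecay.lean` (`ker_decay` there has `exp |a|`): with `z = a + i u`,
   `∫ h e^(z y) = (-1/z)^k ∫ h^(k) e^(z y)`, `h^(k)` is supported in `[-th, th]` so the integral is at most `C e^(th |a|)`, and `|z| >= |u|`.
   (For small `u` use the case `k = 0`.)
2. `kdiff`: integrate by parts twice in `u² ∫ h y (cosh (a y) - 1) cos (u y) dy = -∫ (h (cosh (a y) - 1))'' cos (u y) dy` with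
   `(h (cosh (ay) - 1))'' = h'' (cosh (ay) - 1) + 2 a h' sinh (ay) + a² h cosh (ay)`, each at most `C a² e^(th |a|)` on the support
   (`cosh x - 1 <= x² cosh x / 2`, `|sinh x| <= |x| cosh x`, `|y| <= th < 1`), and the trivial bound for `|u| <= 1`.
-/

open MeasureTheory Set Filter Topology
open Pool.Agent.Helper57.Zeta Pool.Agent.Helper57.PC Pool.Agent.Helper57.LH
open Pool.Agent.Helper78.SG
open Pool.Agent.Helper4.PC (CT)
open scoped ContDiff ENNReal

namespace Pool.Agent.Helper92.RG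

section kd97

private noncomputable def KK97 (g : ℝ → ℝ) (z : ℂ) : ℂ := ∫ y : ℝ, (g y : ℂ) * Complex.exp (z * y)

private theorem kd97_integrable {g : ℝ → ℝ} (hg : Continuous g) (hs : HasCompactSupport g) (z : ℂ) :
    Integrable (fun y : ℝ => (g y : ℂ) * Complex.exp (z * y)) := by
  have hc : Continuous (fun y : ℝ => (g y : ℂ) * Complex.exp (z * y)) := by fun_prop
  refine hc.integrable_of_hasCompactSupport ?_
  have h1 : HasCompactSupport (fun y : ℝ => (g y : ℂ)) :=
    hs.comp_left (g := fun x : ℝ => (x : ℂ)) (by simp)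
  exact h1.mul_right

private theorem kd97_step {g : ℝ → ℝ} (hg : ContDiff ℝ ∞ g) (hs : HasCompactSupport g) (z : ℂ) :
    z * KK97 g z = - KK97 (deriv g) z := by
  have hd : Differentiable ℝ g := hg.differentiable (by simp)
  have hg' : ContDiff ℝ ∞ (deriv g) := by
    have := hg.iterate_deriv 1
    simpa using this
  have hu : ∀ y : ℝ, HasDerivAt (fun y : ℝ => (g y : ℂ)) ((deriv g y : ℝ) : ℂ) y := fun y =>
    (hd y).hasDerivAt.ofReal_comp
  have hv : ∀ y : ℝ, HasDerivAt (fun y : ℝ => Complex.exp (z * y)) (z * Complex.exp (z * y)) y := by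
    intro y
    have h1 : HasDerivAt (fun y : ℝ => z * (y : ℂ)) z y := by
      simpa using (Complex.ofRealCLM.hasDerivAt (x := y)).const_mul z
    have h2 := h1.cexp
    rwa [mul_comm] at h2
  have hi1 : Integrable ((fun y : ℝ => (g y : ℂ)) * fun y : ℝ => z * Complex.exp (z * y)) := by
    have := (kd97_integrable hg.continuous hs z).const_mul z
    refine this.congr (Eventually.of_forall fun y => ?_)
    simp only [Pi.mul_apply]
    ring
  have hi2 : Integrable ((fun y : ℝ => ((deriv g y : ℝ) : ℂ)) * fun y : ℝ => Complex.exp (z * y)) :=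
    kd97_integrable hg'.continuous hs.deriv z
  have hi3 : Integrable ((fun y : ℝ => (g y : ℂ)) * fun y : ℝ => Complex.exp (z * y)) :=
    kd97_integrable hg.continuous hs z
  have key := integral_mul_deriv_eq_deriv_mul_of_integrable (fun y _ => hu y) (fun y _ => hv y) hi1 hi2 hi3
  rw [KK97, KK97, ← key, ← integral_const_mul]
  congr 1
  ext y
  ring

private theorem kd97_iter {g : ℝ → ℝ} (hg : ContDiff ℝ ∞ g) (hs : HasCompactSupport g) (z : ℂ)
    (k : ℕ) : ‖z‖ ^ k * ‖KK97 g z‖ = ‖KK97 (deriv^[k] g) z‖ := by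
  induction k generalizing g with
  | zero => simp
  | succ k ih =>
    have hg' : ContDiff ℝ ∞ (deriv g) := by
      have := hg.iterate_deriv 1
      simpa using this
    rw [Function.iterate_succ_apply, ← ih hg' hs.deriv, ← norm_neg (KK97 (deriv g) z),
      ← kd97_step hg hs z, norm_mul]
    ring

private theorem kd97_cs {g : ℝ → ℝ} {r : ℝ} (hs : ∀ y, r < |y| → g y = 0) : HasCompactSupport g := by
  refine HasCompactSupport.of_support_subset_isCompact (isCompact_Icc (a := -r) (b := r)) ?_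
  intro y hy
  by_contra hcon
  refine hy (hs y ?_)
  by_contra h2
  push Not at h2
  exact hcon ⟨(abs_le.1 h2).1, (abs_le.1 h2).2⟩

private theorem kd97_le {g : ℝ → ℝ} {r : ℝ} (hg : Continuous g) (hs : ∀ y, r < |y| → g y = 0)
    (z : ℂ) : ‖KK97 g z‖ ≤ (∫ y, |g y|) * Real.exp (r * |z.re|) := by
  have hcs : HasCompactSupport g := kd97_cs hs
  have h1 : ‖KK97 g z‖ ≤ ∫ y, ‖(g y : ℂ) * Complex.exp (z * y)‖ := norm_integral_le_integral_norm _
  have h2 : (∫ y, ‖(g y : ℂ) * Complex.exp (z * y)‖) ≤ ∫ y, |g y| * Real.exp (r * |z.re|) := by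
    refine integral_mono (kd97_integrable hg hcs z).norm ?_ ?_
    · exact ((hg.abs.integrable_of_hasCompactSupport hcs.abs).mul_const _)
    · intro y
      simp only [norm_mul, Complex.norm_real, Real.norm_eq_abs, Complex.norm_exp]
      rcases lt_or_ge r |y| with h | h
      · rw [hs y h]; simp
      · refine mul_le_mul_of_nonneg_left ?_ (abs_nonneg _)
        rw [Real.exp_le_exp]
        have h3 : (z * (y : ℂ)).re = z.re * y := by simp
        rw [h3]
        refine (le_abs_self _).trans ?_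
        rw [abs_mul, mul_comm]
        exact mul_le_mul_of_nonneg_right h (abs_nonneg _)
  rw [integral_mul_const] at h2
  exact h1.trans h2

private theorem kd97_zero {g : ℝ → ℝ} {r : ℝ} (hs : ∀ y, r < |y| → g y = 0) (k : ℕ) :
    ∀ y, r < |y| → (deriv^[k] g) y = 0 := by
  induction k generalizing g with
  | zero => exact hs
  | succ k ih =>
    rw [Function.iterate_succ_apply]
    apply ih
    intro y hy
    have h1 : g =ᶠ[𝓝 y] fun _ => 0 := by
      have ho : IsOpen {y : ℝ | r < |y|} := isOpen_lt continuous_const continuous_abs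
      filter_upwards [ho.mem_nhds hy] with x hx
      exact hs x hx
    rw [h1.deriv_eq]
    simp

private theorem kd97_ker (h : ℝ → ℝ) (hc : Continuous h) (hs : HasCompactSupport h) (a u : ℝ) :
    ker h a u = ((KK97 h ⟨a, u⟩).re + (KK97 h ⟨-a, u⟩).re) / 2 := by
  have h1 := kd97_integrable hc hs ⟨a, u⟩
  have h2 := kd97_integrable hc hs ⟨-a, u⟩
  have e1 : (KK97 h ⟨a, u⟩).re = ∫ y : ℝ, ((h y : ℂ) * Complex.exp (⟨a, u⟩ * y)).re := by
    rw [KK97]
    exact (integral_re h1).symm
  have e2 : (KK97 h ⟨-a, u⟩).re = ∫ y : ℝ, ((h y : ℂ) * Complex.exp (⟨-a, u⟩ * y)).re := by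
    rw [KK97]
    exact (integral_re h2).symm
  have i1 : Integrable (fun y : ℝ => ((h y : ℂ) * Complex.exp (⟨a, u⟩ * y)).re) := h1.re
  have i2 : Integrable (fun y : ℝ => ((h y : ℂ) * Complex.exp (⟨-a, u⟩ * y)).re) := h2.re
  rw [e1, e2, ← integral_add i1 i2, ← integral_div, Helper78.SG.ker]
  congr 1
  ext y
  have f1 : ∀ b : ℝ, ((h y : ℂ) * Complex.exp ((⟨b, u⟩ : ℂ) * y)).re =
      h y * (Real.exp (b * y) * Real.cos (u * y)) := by
    intro b
    rw [Complex.re_ofReal_mul, Complex.exp_re]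
    simp
  rw [f1, f1, Real.cosh_eq]
  have : -(a * y) = -a * y := by ring
  rw [this]
  ring

/-- The general decay estimate for smooth functions supported in `[-r, r]`. -/
private theorem kd97_gen {g : ℝ → ℝ} {r : ℝ} (hg : ContDiff ℝ ∞ g) (hs : ∀ y, r < |y| → g y = 0)
    (k : ℕ) (a u : ℝ) : |ker g a u| * (1 + |u|) ^ k ≤
      2 ^ k * ((∫ y, |g y|) + ∫ y, |(deriv^[k] g) y|) * Real.exp (r * |a|) := by
  have hcs : HasCompactSupport g := kd97_cs hs
  have hK : ∀ (z : ℂ) (j : ℕ), ‖z‖ ^ j * ‖KK97 g z‖ ≤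
      (∫ y, |(deriv^[j] g) y|) * Real.exp (r * |z.re|) := by
    intro z j
    rw [kd97_iter hg hcs z j]
    exact kd97_le (hg.iterate_deriv j).continuous (kd97_zero hs j) z
  have hmain : ∀ b : ℝ, |b| = |a| → |(KK97 g ⟨b, u⟩).re| * (1 + |u|) ^ k ≤
      2 ^ k * ((∫ y, |g y|) + ∫ y, |(deriv^[k] g) y|) * Real.exp (r * |a|) := by
    intro b hb
    have h0 := hK ⟨b, u⟩ 0
    have h1 := hK ⟨b, u⟩ k
    simp only [pow_zero, one_mul, Function.iterate_zero, id] at h0
    rw [hb] at h0 h1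
    have hre : |(KK97 g ⟨b, u⟩).re| ≤ ‖KK97 g ⟨b, u⟩‖ := Complex.abs_re_le_norm _
    have hu : |u| ≤ ‖(⟨b, u⟩ : ℂ)‖ := Complex.abs_im_le_norm (⟨b, u⟩ : ℂ)
    have hpow : (1 + |u|) ^ k ≤ 2 ^ k * (1 + |u| ^ k) := by
      rcases le_total |u| 1 with h | h
      · calc (1 + |u|) ^ k ≤ (2:ℝ) ^ k := pow_le_pow_left₀ (by positivity) (by linarith) k
          _ = 2 ^ k * 1 := by ring
          _ ≤ _ := mul_le_mul_of_nonneg_left (by have := pow_nonneg (abs_nonneg u) k; linarith)
              (by positivity)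
      · calc (1 + |u|) ^ k ≤ (2 * |u|) ^ k := pow_le_pow_left₀ (by positivity) (by linarith) k
          _ = 2 ^ k * |u| ^ k := by rw [mul_pow]
          _ ≤ _ := mul_le_mul_of_nonneg_left (by linarith) (by positivity)
    have hku : |u| ^ k * ‖KK97 g ⟨b, u⟩‖ ≤ (∫ y, |(deriv^[k] g) y|) * Real.exp (r * |a|) :=
      (mul_le_mul_of_nonneg_right (pow_le_pow_left₀ (abs_nonneg u) hu k) (norm_nonneg _)).trans h1
    calc |(KK97 g ⟨b, u⟩).re| * (1 + |u|) ^ k
        ≤ ‖KK97 g ⟨b, u⟩‖ * (2 ^ k * (1 + |u| ^ k)) := by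
          refine mul_le_mul hre hpow (by positivity) (norm_nonneg _)
      _ = 2 ^ k * (‖KK97 g ⟨b, u⟩‖ + |u| ^ k * ‖KK97 g ⟨b, u⟩‖) := by ring
      _ ≤ 2 ^ k * ((∫ y, |g y|) * Real.exp (r * |a|) +
            (∫ y, |(deriv^[k] g) y|) * Real.exp (r * |a|)) :=
          mul_le_mul_of_nonneg_left (add_le_add h0 hku) (by positivity)
      _ = _ := by ring
  have hm1 := hmain a rfl
  have hm2 := hmain (-a) (abs_neg a)
  rw [kd97_ker g hg.continuous hcs a u, abs_div]
  have h2 : |(2:ℝ)| = 2 := by norm_num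
  rw [h2]
  have h3 := abs_add_le (KK97 g ⟨a, u⟩).re (KK97 g ⟨-a, u⟩).re
  have hpos : 0 ≤ (1 + |u|) ^ k := by positivity
  have h4 := mul_le_mul_of_nonneg_right h3 hpos
  calc |(KK97 g ⟨a, u⟩).re + (KK97 g ⟨-a, u⟩).re| / 2 * (1 + |u|) ^ k
      = (|(KK97 g ⟨a, u⟩).re + (KK97 g ⟨-a, u⟩).re| * (1 + |u|) ^ k) / 2 := by ring
    _ ≤ _ := by linarith

private theorem kd97_sinh (x : ℝ) : |Real.sinh x| ≤ |x| * Real.exp |x| := by
  have key : ∀ x : ℝ, 0 ≤ x → Real.sinh x ≤ x * Real.exp x := by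
    intro x hx
    rw [Real.sinh_eq]
    have h1 : Real.exp (-x) = Real.exp x * Real.exp (-(2 * x)) := by
      rw [← Real.exp_add]
      congr 1
      ring
    have h2 := Real.add_one_le_exp (-(2 * x))
    have h3 := Real.exp_pos x
    rw [h1]
    nlinarith
  rw [Real.abs_sinh]
  exact key _ (abs_nonneg x)

private theorem kd97_cosh (x : ℝ) : Real.cosh x ≤ Real.exp |x| := by
  rw [← Real.cosh_abs, Real.cosh_eq]
  have h1 : Real.exp (-|x|) ≤ Real.exp |x| :=
    Real.exp_le_exp.2 (by have := abs_nonneg x; linarith)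
  linarith

private theorem kd97_cosh1 (x : ℝ) : |Real.cosh x - 1| ≤ x ^ 2 / 2 * Real.exp |x| := by
  have h1 : Real.cosh x - 1 = 2 * Real.sinh (x / 2) ^ 2 := by
    have h2 := Real.cosh_two_mul (x / 2)
    have h3 := Real.cosh_sq (x / 2)
    have h4 : 2 * (x / 2) = x := by ring
    rw [h4] at h2
    linarith
  rw [h1, abs_of_nonneg (by positivity)]
  have h5 := kd97_sinh (x / 2)
  have h6 : Real.sinh (x / 2) ^ 2 ≤ (|x / 2| * Real.exp |x / 2|) ^ 2 := by
    rw [← sq_abs (Real.sinh (x / 2))]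
    exact pow_le_pow_left₀ (abs_nonneg _) h5 2
  have h7 : (|x / 2| * Real.exp |x / 2|) ^ 2 = x ^ 2 / 4 * Real.exp |x| := by
    rw [mul_pow, sq_abs, ← Real.exp_nat_mul]
    have h8 : ((2 : ℕ) : ℝ) * |x / 2| = |x| := by
      rw [abs_div]
      norm_num
      ring
    rw [h8]
    ring
  rw [h7] at h6
  linarith

end kd97

theorem kd (f : TF) (k : ℕ) : ∃ C : ℝ, 0 < C ∧ ∀ a u : ℝ,
    |ker f.h a u| ≤ C * Real.exp (f.th * |a|) / (1 + |u|) ^ k := by
  have hsupp : ∀ y, f.th < |y| → f.h y = 0 := fun y hy => f.supp y hy.le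
  have h0 : 0 ≤ ∫ y, |f.h y| := integral_nonneg fun y => abs_nonneg _
  have h1 : 0 ≤ ∫ y, |(deriv^[k] f.h) y| := integral_nonneg fun y => abs_nonneg _
  refine ⟨2 ^ k * ((∫ y, |f.h y|) + ∫ y, |(deriv^[k] f.h) y|) + 1, by positivity,
    fun a u => ?_⟩
  rw [le_div_iff₀ (by positivity)]
  refine (kd97_gen f.smooth hsupp k a u).trans ?_
  refine mul_le_mul_of_nonneg_right ?_ (Real.exp_pos _).le
  linarith

theorem kdiff (f : TF) : ∃ C : ℝ, 0 < C ∧ ∀ a u : ℝ,
    |ker f.h a u - ker f.h 0 u| ≤ C * (a ^ 2 * Real.exp (f.th * |a|)) / (1 + u ^ 2) := by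
  have hsupp : ∀ y, f.th < |y| → f.h y = 0 := fun y hy => f.supp y hy.le
  have hcs : HasCompactSupport f.h := kd97_cs hsupp
  have hth := f.th0
  have hth1 := f.th1
  have hd1 : ContDiff ℝ ∞ (deriv f.h) := by
    have := f.smooth.iterate_deriv 1
    simpa using this
  have hd2 : ContDiff ℝ ∞ (deriv (deriv f.h)) := by
    have := hd1.iterate_deriv 1
    simpa using this
  have hs1 : ∀ y, f.th < |y| → deriv f.h y = 0 := kd97_zero hsupp 1
  have hs2 : ∀ y, f.th < |y| → deriv (deriv f.h) y = 0 := kd97_zero hsupp 2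
  have hcs1 : HasCompactSupport (deriv f.h) := kd97_cs hs1
  have hcs2 : HasCompactSupport (deriv (deriv f.h)) := kd97_cs hs2
  have hint : Integrable (fun y => |f.h y| + (2 * |deriv f.h y| + |deriv (deriv f.h) y|)) := by
    refine (f.smooth.continuous.abs.integrable_of_hasCompactSupport hcs.abs).add ?_
    refine Integrable.add ?_ (hd2.continuous.abs.integrable_of_hasCompactSupport hcs2.abs)
    exact (hd1.continuous.abs.integrable_of_hasCompactSupport hcs1.abs).const_mul 2
  set I : ℝ := ∫ y, (|f.h y| + (2 * |deriv f.h y| + |deriv (deriv f.h) y|)) with hI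
  have hI0 : 0 ≤ I := integral_nonneg fun y => by positivity
  refine ⟨2 ^ 2 * (I + I) + 1, by positivity, fun a u => ?_⟩
  -- the function
  set g : ℝ → ℝ := fun y => f.h y * (Real.cosh (a * y) - 1) with hg
  have hgs : ContDiff ℝ ∞ g := by
    refine f.smooth.mul ?_
    refine ContDiff.sub ?_ contDiff_const
    exact Real.contDiff_cosh.comp (contDiff_const.mul contDiff_id)
  have hgsupp : ∀ y, f.th < |y| → g y = 0 := fun y hy => by
    rw [hg]
    change f.h y * _ = 0
    rw [hsupp y hy, zero_mul]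
  have hker : ker f.h a u - ker f.h 0 u = ker g 0 u := by
    unfold Helper78.SG.ker
    rw [← integral_sub]
    · congr 1
      ext y
      rw [zero_mul, Real.cosh_zero]
      change _ = f.h y * (Real.cosh (a * y) - 1) * _
      ring
    · refine Continuous.integrable_of_hasCompactSupport ?_ hcs.mul_right
      have := f.smooth.continuous
      have h1 := Real.continuous_cosh
      fun_prop
    · refine Continuous.integrable_of_hasCompactSupport ?_ hcs.mul_right
      have := f.smooth.continuous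
      have h1 := Real.continuous_cosh
      fun_prop
  -- derivatives
  have hD0 : ∀ y, HasDerivAt f.h (deriv f.h y) y := fun y =>
    ((f.smooth.differentiable (by simp)) y).hasDerivAt
  have hD1 : ∀ y, HasDerivAt (deriv f.h) (deriv (deriv f.h) y) y := fun y =>
    ((hd1.differentiable (by simp)) y).hasDerivAt
  have hlin : ∀ y : ℝ, HasDerivAt (fun y : ℝ => a * y) a y := fun y => by
    simpa using (hasDerivAt_id y).const_mul a
  have hC0 : ∀ y : ℝ, HasDerivAt (fun y => Real.cosh (a * y) - 1) (Real.sinh (a * y) * a) y :=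
    fun y => ((hlin y).cosh).sub_const 1
  have hC1 : ∀ y : ℝ, HasDerivAt (fun y => Real.sinh (a * y) * a)
      (Real.cosh (a * y) * a * a) y := fun y => ((hlin y).sinh).mul_const a
  have hg1 : deriv g = fun y => deriv f.h y * (Real.cosh (a * y) - 1) +
      f.h y * (Real.sinh (a * y) * a) := by
    funext y
    exact ((hD0 y).mul (hC0 y)).deriv
  have hg2 : deriv (deriv g) = fun y => (deriv (deriv f.h) y * (Real.cosh (a * y) - 1) +
      deriv f.h y * (Real.sinh (a * y) * a)) + (deriv f.h y * (Real.sinh (a * y) * a) +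
      f.h y * (Real.cosh (a * y) * a * a)) := by
    rw [hg1]
    funext y
    exact (((hD1 y).mul (hC0 y)).add ((hD0 y).mul (hC1 y))).deriv
  -- pointwise bounds
  have hE : 0 < Real.exp (f.th * |a|) := Real.exp_pos _
  have hexp : ∀ y, |y| ≤ f.th → Real.exp |a * y| ≤ Real.exp (f.th * |a|) := fun y hy => by
    rw [Real.exp_le_exp, abs_mul, mul_comm]
    exact mul_le_mul_of_nonneg_right hy (abs_nonneg _)
  have hb0 : ∀ y, |y| ≤ f.th → |Real.cosh (a * y) - 1| ≤ a ^ 2 * Real.exp (f.th * |a|) := by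
    intro y hy
    refine (kd97_cosh1 _).trans ?_
    refine mul_le_mul ?_ (hexp y hy) (Real.exp_pos _).le (by positivity)
    rw [mul_pow]
    have h1 : y ^ 2 ≤ 1 := by
      rw [← sq_abs]
      have := abs_nonneg y
      nlinarith
    have h2 : 0 ≤ a ^ 2 := sq_nonneg a
    nlinarith
  have hb1 : ∀ y, |y| ≤ f.th → |Real.sinh (a * y) * a| ≤ a ^ 2 * Real.exp (f.th * |a|) := by
    intro y hy
    rw [abs_mul]
    have h1 := kd97_sinh (a * y)
    have h2 := hexp y hy
    have h3 : |a * y| ≤ |a| := by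
      rw [abs_mul]
      exact mul_le_of_le_one_right (abs_nonneg _) (by linarith)
    calc |Real.sinh (a * y)| * |a| ≤ (|a * y| * Real.exp |a * y|) * |a| :=
          mul_le_mul_of_nonneg_right h1 (abs_nonneg _)
      _ ≤ (|a| * Real.exp (f.th * |a|)) * |a| :=
          mul_le_mul_of_nonneg_right (mul_le_mul h3 h2 (Real.exp_pos _).le (abs_nonneg _))
            (abs_nonneg _)
      _ = |a| ^ 2 * Real.exp (f.th * |a|) := by ring
      _ = _ := by rw [sq_abs]
  have hb2 : ∀ y, |y| ≤ f.th → |Real.cosh (a * y) * a * a| ≤ a ^ 2 * Real.exp (f.th * |a|) := by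
    intro y hy
    rw [mul_assoc, abs_mul, abs_of_pos (Real.cosh_pos _), abs_of_nonneg (mul_self_nonneg a)]
    have h1 := (kd97_cosh (a * y)).trans (hexp y hy)
    calc Real.cosh (a * y) * (a * a) ≤ Real.exp (f.th * |a|) * (a * a) :=
          mul_le_mul_of_nonneg_right h1 (mul_self_nonneg a)
      _ = _ := by ring
  have hint0 : (∫ y, |g y|) ≤ I * (a ^ 2 * Real.exp (f.th * |a|)) := by
    rw [hI, ← integral_mul_const]
    refine integral_mono (hgs.continuous.abs.integrable_of_hasCompactSupport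
      (kd97_cs hgsupp).abs) (hint.mul_const _) fun y => ?_
    change |f.h y * (Real.cosh (a * y) - 1)| ≤ (|f.h y| + (2 * |deriv f.h y| +
      |deriv (deriv f.h) y|)) * (a ^ 2 * Real.exp (f.th * |a|))
    rcases lt_or_ge f.th |y| with h | h
    · rw [hsupp y h, zero_mul, abs_zero]
      positivity
    · rw [abs_mul]
      refine mul_le_mul ?_ (hb0 y h) (abs_nonneg _) (by positivity)
      have := abs_nonneg (deriv f.h y)
      have := abs_nonneg (deriv (deriv f.h) y)
      linarith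
  have hint2 : (∫ y, |(deriv^[2] g) y|) ≤ I * (a ^ 2 * Real.exp (f.th * |a|)) := by
    have he : deriv^[2] g = deriv (deriv g) := rfl
    rw [hI, ← integral_mul_const]
    refine integral_mono ((hgs.iterate_deriv 2).continuous.abs.integrable_of_hasCompactSupport
      (kd97_cs (kd97_zero hgsupp 2)).abs) (hint.mul_const _) fun y => ?_
    change |(deriv^[2] g) y| ≤ (|f.h y| + (2 * |deriv f.h y| +
      |deriv (deriv f.h) y|)) * (a ^ 2 * Real.exp (f.th * |a|))
    rcases lt_or_ge f.th |y| with h | h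
    · rw [kd97_zero hgsupp 2 y h, abs_zero]
      positivity
    · rw [he, hg2]
      have t1 := abs_add_le (deriv (deriv f.h) y * (Real.cosh (a * y) - 1) +
        deriv f.h y * (Real.sinh (a * y) * a)) (deriv f.h y * (Real.sinh (a * y) * a) +
        f.h y * (Real.cosh (a * y) * a * a))
      have t2 := abs_add_le (deriv (deriv f.h) y * (Real.cosh (a * y) - 1))
        (deriv f.h y * (Real.sinh (a * y) * a))
      have t3 := abs_add_le (deriv f.h y * (Real.sinh (a * y) * a))
        (f.h y * (Real.cosh (a * y) * a * a))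
      rw [abs_mul (deriv (deriv f.h) y), abs_mul (deriv f.h y)] at t2
      rw [abs_mul (deriv f.h y), abs_mul (f.h y)] at t3
      have u1 := mul_le_mul_of_nonneg_left (hb0 y h) (abs_nonneg (deriv (deriv f.h) y))
      have u2 := mul_le_mul_of_nonneg_left (hb1 y h) (abs_nonneg (deriv f.h y))
      have u3 := mul_le_mul_of_nonneg_left (hb2 y h) (abs_nonneg (f.h y))
      nlinarith
  have hmain := kd97_gen hgs hgsupp 2 0 u
  rw [abs_zero, mul_zero, Real.exp_zero, mul_one] at hmain
  rw [hker, le_div_iff₀ (by positivity)]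
  have h1 : 1 + u ^ 2 ≤ (1 + |u|) ^ 2 := by
    have := sq_abs u
    have := abs_nonneg u
    nlinarith
  have h2 : 0 ≤ a ^ 2 * Real.exp (f.th * |a|) := by positivity
  calc |ker g 0 u| * (1 + u ^ 2) ≤ |ker g 0 u| * (1 + |u|) ^ 2 :=
        mul_le_mul_of_nonneg_left h1 (abs_nonneg _)
    _ ≤ 2 ^ 2 * ((∫ y, |g y|) + ∫ y, |(deriv^[2] g) y|) := hmain
    _ ≤ 2 ^ 2 * (I * (a ^ 2 * Real.exp (f.th * |a|)) + I * (a ^ 2 * Real.exp (f.th * |a|))) := by
        linarith
    _ ≤ (2 ^ 2 * (I + I) + 1) * (a ^ 2 * Real.exp (f.th * |a|)) := by nlinarith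

end Pool.Agent.Helper92.RG
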