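import Pool.Agent.Helper92.RG.Basic
import Pool.Agent.Helper92.RG.KD2
import Pool.Agent.Helper78.SG.WeakInt

/-!
# RG-Edge
The edges. `L = log T`; all zeros of `ZT T` have height in `[0, T]` and depth at most `L / 2`, so `kd` gives
`|kz f.h L t ρ| <= C T^(th/2) / (1 + L |t - γ|)^4` with `th < 1/2`; there are at most `C log T` zeros (with multiplicity) in each interval of
length `1` (see `KS_le_log`, `Yf_le_log`, `KS_compl` in `Helper57/M/E.lean`), so
`|Xs f.h T t| <= C T^(th/2) log T / (1 + dist (t, [0, T]))²` and `|Ys f.h T t| <= C log T / (1 + dist (t, [0, T]))²`.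
The complement of `[√T, T - √T]` consists of two intervals of length `√T` inside `[0, T]` and the outside of `[0, T]`, so the four
integrals are at most `C T^th log² T * (√T + 1) = o(T)`, because `th < 1/2`. Integrability: finite sums of the kernels
(continuous, with the decay `kd`). (Proved by helper9.)
-/

open MeasureTheory Set Filter Topology
open Pool.Agent.Helper57.Zeta Pool.Agent.Helper57.PC Pool.Agent.Helper57.LH
open Pool.Agent.Helper78.SG
open Pool.Agent.Helper4.PC (CT)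
open Pool.Agent.Helper57.UV (KS KS_nonneg KS_integrable KS_le_log)
open scoped ContDiff ENNReal

namespace Pool.Agent.Helper92.RG

private theorem q_le_Kd (w : ℝ) : ((1 + |w|) ^ 4)⁻¹ ≤ Kd 1 w := by
  unfold Kd
  rw [one_mul]
  have h0 := abs_nonneg w
  have h1 : w ^ 2 = |w| ^ 2 := (sq_abs w).symm
  rw [h1]
  have : 1 + |w| ^ 2 ≤ (1 + |w|) ^ 4 := by nlinarith [pow_nonneg h0 2, pow_nonneg h0 3, pow_nonneg h0 4]
  gcongr

private theorem q_le_far {T w : ℝ} (hT : 0 < T) (hw : Real.sqrt T ≤ |w|) : ((1 + |w|) ^ 4)⁻¹ ≤ 1 / T * Kd 1 w := by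
  unfold Kd
  rw [one_mul]
  have h0 := abs_nonneg w
  have h1 : w ^ 2 = |w| ^ 2 := (sq_abs w).symm
  rw [h1]
  have h2 : T ≤ |w| ^ 2 := by
    have := pow_le_pow_left₀ (Real.sqrt_nonneg T) hw 2
    rwa [Real.sq_sqrt hT.le] at this
  have h3 : T * (1 + |w| ^ 2) ≤ (1 + |w|) ^ 4 := by
    have h4 : T * (1 + |w| ^ 2) ≤ |w| ^ 2 * (1 + |w| ^ 2) := by gcongr
    nlinarith [pow_nonneg h0 2, pow_nonneg h0 3, pow_nonneg h0 4]
  calc ((1 + |w|) ^ 4)⁻¹ ≤ (T * (1 + |w| ^ 2))⁻¹ := by gcongr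
    _ = _ := by rw [mul_inv, one_div]

private theorem KS_int (F : Finset ZS) : ∫ t, KS F t = Real.pi * ∑ ρ ∈ F, mx ρ := by
  unfold KS
  rw [integral_finsetSum F fun ρ _ => ((Kd_integrable one_pos).comp_sub_right _).const_mul _, Finset.mul_sum]
  refine Finset.sum_congr rfl fun ρ _ => ?_
  rw [integral_const_mul, integral_sub_right_eq_self (fun w => Kd 1 w) (ρ:ℂ).im, Kd_integral one_pos]
  ring

private theorem KS_cont9 (F : Finset ZS) : Continuous (KS F) := by
  unfold KS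
  exact continuous_finsetSum _ fun ρ _ => continuous_const.mul ((Kd_cont 1).comp (by fun_prop))

private theorem edge_gen {T D : ℝ} (hT : 3 ≤ T) (hD : 0 ≤ D) (K : ℝ → ℝ) (hK : Continuous K)
    (hb : ∀ t, |K t| ≤ D * ∑ ρ ∈ ZT T, mx ρ * ((1 + |t - (ρ:ℂ).im|) ^ 4)⁻¹) :
    Integrable K ∧ Integrable (fun t => K t ^ 2) ∧
    ∫ t in (Icc (Real.sqrt T) (T - Real.sqrt T))ᶜ, K t ^ 2 ≤
      D ^ 2 * (4 * CLA * Real.log T) * (4 * CLA * Real.log T * (4 * Real.sqrt T) + 1 / T * (Real.pi * NT T)) ∧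
    ∫ t in (Icc (Real.sqrt T) (T - Real.sqrt T))ᶜ, |K t| ≤
      D * (4 * CLA * Real.log T * (4 * Real.sqrt T) + 1 / T * (Real.pi * NT T)) := by
  have hCLA := CLA_pos
  have hL := one_le_log hT
  have hT0 : 0 < T := by linarith
  have hsT : 0 ≤ Real.sqrt T := Real.sqrt_nonneg T
  have hZ : ∀ ρ ∈ ZT T, 0 ≤ (ρ:ℂ).im ∧ (ρ:ℂ).im ≤ T := fun ρ hρ => mem_ZT.mp hρ
  obtain ⟨c, hc⟩ : ∃ c, c = 4 * CLA * Real.log T := ⟨_, rfl⟩
  have hc0 : 0 < c := by rw [hc]; positivity
  rw [← hc]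
  -- comparison with KS
  have h1 : ∀ t, ∑ ρ ∈ ZT T, mx ρ * ((1 + |t - (ρ:ℂ).im|) ^ 4)⁻¹ ≤ KS (ZT T) t := by
    intro t
    unfold KS
    refine Finset.sum_le_sum fun ρ _ => ?_
    exact mul_le_mul_of_nonneg_left (q_le_Kd _) (mx_nonneg _)
  have h2 : ∀ t, |K t| ≤ D * KS (ZT T) t := fun t => (hb t).trans (mul_le_mul_of_nonneg_left (h1 t) hD)
  have h3 : ∀ t, KS (ZT T) t ≤ c := fun t => by rw [hc]; exact KS_le_log hT hZ t
  have h4 : ∀ t, |K t| ≤ D * c := fun t => (h2 t).trans (mul_le_mul_of_nonneg_left (h3 t) hD)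
  have iKS : Integrable (fun t => D * KS (ZT T) t) := (KS_integrable _).const_mul D
  have iK : Integrable K := by
    refine iKS.mono' hK.aestronglyMeasurable (Eventually.of_forall fun t => ?_)
    rw [Real.norm_eq_abs]
    exact h2 t
  have iK2 : Integrable (fun t => K t ^ 2) := by
    refine (iKS.const_mul (D * c)).mono' (hK.pow 2).aestronglyMeasurable (Eventually.of_forall fun t => ?_)
    rw [Real.norm_eq_abs, abs_pow, pow_two]
    exact mul_le_mul (h4 t) (h2 t) (abs_nonneg _) (by positivity)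
  -- the majorant
  set S : Set ℝ := Icc (-Real.sqrt T) (Real.sqrt T) ∪ Icc (T - Real.sqrt T) (T + Real.sqrt T) with hS
  have hSm : MeasurableSet S := measurableSet_Icc.union measurableSet_Icc
  have hSv : volume S < ⊤ := by
    refine (measure_union_le _ _).trans_lt ?_
    rw [Real.volume_Icc, Real.volume_Icc]
    exact ENNReal.add_lt_top.mpr ⟨ENNReal.ofReal_lt_top, ENNReal.ofReal_lt_top⟩
  set G1 : ℝ → ℝ := S.indicator (fun _ => c) with hG1
  set G2 : ℝ → ℝ := fun t => 1 / T * KS (ZT T) t with hG2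
  have iG1 : Integrable G1 := by
    rw [hG1, integrable_indicator_iff hSm]
    exact integrableOn_const hSv.ne
  have iG2 : Integrable G2 := (KS_integrable _).const_mul _
  have hG10 : ∀ t, 0 ≤ G1 t := fun t => by
    rw [hG1]
    exact indicator_nonneg (fun _ _ => hc0.le) t
  have hG20 : ∀ t, 0 ≤ G2 t := fun t => by
    rw [hG2]
    have := KS_nonneg (ZT T) t
    positivity
  have hpt : ∀ t ∈ (Icc (Real.sqrt T) (T - Real.sqrt T))ᶜ,
      ∑ ρ ∈ ZT T, mx ρ * ((1 + |t - (ρ:ℂ).im|) ^ 4)⁻¹ ≤ G1 t + G2 t := by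
    intro t ht
    by_cases htS : t ∈ S
    · have e1 : G1 t = c := by rw [hG1]; exact indicator_of_mem htS _
      rw [e1]
      linarith only [h1 t, h3 t, hG20 t]
    · have h5 : ∑ ρ ∈ ZT T, mx ρ * ((1 + |t - (ρ:ℂ).im|) ^ 4)⁻¹ ≤ G2 t := by
        rw [hG2]
        simp only
        unfold KS
        rw [Finset.mul_sum]
        refine Finset.sum_le_sum fun ρ hρ => ?_
        obtain ⟨hg0, hgT⟩ := hZ ρ hρ
        have hfar : Real.sqrt T ≤ |t - (ρ:ℂ).im| := by
          rw [hS, mem_union, not_or] at htS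
          obtain ⟨h4, h5⟩ := htS
          simp only [mem_Icc, not_and_or, not_le] at h4 h5
          rw [mem_compl_iff, mem_Icc, not_and_or, not_le, not_le] at ht
          rw [le_abs]
          rcases ht with h | h
          · right
            rcases h4 with h4 | h4
            · linarith only [hg0, h4]
            · linarith only [h, h4]
          · left
            rcases h5 with h5 | h5
            · linarith only [h, h5]
            · linarith only [hgT, h5]
        have h7 := q_le_far hT0 hfar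
        have h8 := mx_nonneg (ρ:ℂ)
        calc mx ρ * ((1 + |t - (ρ:ℂ).im|) ^ 4)⁻¹ ≤ mx ρ * (1 / T * Kd 1 (t - (ρ:ℂ).im)) :=
              mul_le_mul_of_nonneg_left h7 h8
          _ = _ := by ring
      linarith only [hG10 t, h5]
  have hI : ∫ t, (G1 t + G2 t) ≤ c * (4 * Real.sqrt T) + 1 / T * (Real.pi * NT T) := by
    rw [integral_add iG1 iG2]
    have h5 : ∫ t, G1 t ≤ c * (4 * Real.sqrt T) := by
      rw [hG1, integral_indicator hSm, setIntegral_const, smul_eq_mul, mul_comm]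
      have h5 : volume.real S ≤ 4 * Real.sqrt T := by
        rw [hS]
        refine (measureReal_union_le _ _).trans ?_
        rw [Real.volume_real_Icc_of_le (by linarith only [hsT]), Real.volume_real_Icc_of_le (by linarith only [hsT])]
        linarith only []
      gcongr
    have h6 : ∫ t, G2 t = 1 / T * (Real.pi * NT T) := by
      rw [hG2, integral_const_mul, KS_int, sum_ZT_mx]
    linarith
  have hIs : ∀ q : ℝ, 0 ≤ q → ∫ t in (Icc (Real.sqrt T) (T - Real.sqrt T))ᶜ, q * (G1 t + G2 t) ≤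
      q * (c * (4 * Real.sqrt T) + 1 / T * (Real.pi * NT T)) := by
    intro q hq
    rw [integral_const_mul]
    refine mul_le_mul_of_nonneg_left ?_ hq
    exact (setIntegral_le_integral (iG1.add iG2) (Eventually.of_forall fun t => add_nonneg (hG10 t) (hG20 t))).trans hI
  refine ⟨iK, iK2, ?_, ?_⟩
  · refine le_trans ?_ (hIs (D ^ 2 * c) (by positivity))
    refine setIntegral_mono_on iK2.integrableOn ((iG1.add iG2).const_mul _).integrableOn measurableSet_Icc.compl fun t ht => ?_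
    have e : K t ^ 2 = |K t| * |K t| := by rw [← abs_mul, ← pow_two, abs_of_nonneg (sq_nonneg _)]
    rw [e]
    calc |K t| * |K t| ≤ (D * c) * (D * (G1 t + G2 t)) := by
          refine mul_le_mul (h4 t) ((hb t).trans (mul_le_mul_of_nonneg_left (hpt t ht) hD)) (abs_nonneg _) (by positivity)
      _ = _ := by ring
  · refine le_trans ?_ (hIs D hD)
    refine setIntegral_mono_on iK.abs.integrableOn ((iG1.add iG2).const_mul _).integrableOn measurableSet_Icc.compl fun t ht => ?_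
    exact (hb t).trans (mul_le_mul_of_nonneg_left (hpt t ht) hD)

theorem edge (f : TF) {ε : ℝ} (hε : 0 < ε) : ∀ᶠ T : ℝ in atTop,
    Integrable (fun t => Xs f.h T t) ∧ Integrable (fun t => Ys f.h T t) ∧
    Integrable (fun t => Xs f.h T t ^ 2) ∧ Integrable (fun t => Ys f.h T t ^ 2) ∧
    ∫ t in (Icc (Real.sqrt T) (T - Real.sqrt T))ᶜ, Xs f.h T t ^ 2 ≤ ε * T ∧
    ∫ t in (Icc (Real.sqrt T) (T - Real.sqrt T))ᶜ, Ys f.h T t ^ 2 ≤ ε * T ∧
    ∫ t in (Icc (Real.sqrt T) (T - Real.sqrt T))ᶜ, |Xs f.h T t| ≤ ε * T ∧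
    ∫ t in (Icc (Real.sqrt T) (T - Real.sqrt T))ᶜ, |Ys f.h T t| ≤ ε * T := by
  obtain ⟨C, hC, hk⟩ := kd f 4
  have hth0 := f.th0
  have hth1 := f.th1
  have hCLA := CLA_pos
  filter_upwards [eventually_ge_atTop 3, NT_le_ev,
    log_pow_le (C * (16 * CLA + 4) / ε) 1 (s := f.th / 2 + 1 / 2) (by linarith),
    log_pow_le (C ^ 2 * (4 * CLA) * (16 * CLA + 4) / ε) 2 (s := f.th / 2 + f.th / 2 + 1 / 2) (by linarith)] with T hT hN hl1 hl2
  have hT0 : 0 < T := by linarith
  have hL := one_le_log hT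
  have hL0 : 0 < Real.log T := by linarith
  obtain ⟨L, hLd⟩ : ∃ L, L = Real.log T := ⟨_, rfl⟩
  obtain ⟨D, hDd⟩ : ∃ D, D = C * T ^ (f.th / 2) := ⟨_, rfl⟩
  have hTp : 0 < T ^ (f.th / 2) := Real.rpow_pos_of_pos hT0 _
  have hTp1 : 1 ≤ T ^ (f.th / 2) := Real.one_le_rpow (by linarith) (by linarith)
  have hD : 0 < D := by rw [hDd]; positivity
  have hker : ∀ a w : ℝ, |a| ≤ Real.log T / 2 → |ker f.h a (Real.log T * w)| ≤ D * ((1 + |w|) ^ 4)⁻¹ := by
    intro a w ha
    refine (hk a (Real.log T * w)).trans ?_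
    rw [div_eq_mul_inv]
    have e1 : Real.exp (f.th * |a|) ≤ T ^ (f.th / 2) := by
      rw [Real.rpow_def_of_pos hT0]
      apply Real.exp_le_exp.mpr
      nlinarith
    have e2 : (1 + |w|) ^ 4 ≤ (1 + |Real.log T * w|) ^ 4 := by
      have : |w| ≤ |Real.log T * w| := by
        rw [abs_mul, abs_of_pos hL0]
        nlinarith [abs_nonneg w]
      gcongr
    rw [hDd]
    gcongr
  have hXb : ∀ t, |Xs f.h T t| ≤ D * ∑ ρ ∈ ZT T, mx ρ * ((1 + |t - (ρ:ℂ).im|) ^ 4)⁻¹ := by
    intro t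
    unfold Xs
    refine (Finset.abs_sum_le_sum_abs _ _).trans ?_
    rw [Finset.mul_sum]
    refine Finset.sum_le_sum fun ρ _ => ?_
    rw [abs_mul, abs_of_nonneg (mx_nonneg _)]
    have h1 : |kz f.h (Real.log T) t ρ| ≤ D * ((1 + |t - (ρ:ℂ).im|) ^ 4)⁻¹ := by
      unfold kz
      apply hker
      have := zs_re ρ
      rw [abs_mul, abs_of_pos hL0]
      have : |(ρ:ℂ).re - 1 / 2| ≤ 1 / 2 := by rw [abs_le]; constructor <;> linarith
      nlinarith
    have h2 := mx_nonneg (ρ:ℂ)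
    calc mx ρ * |kz f.h (Real.log T) t ρ| ≤ mx ρ * (D * ((1 + |t - (ρ:ℂ).im|) ^ 4)⁻¹) :=
          mul_le_mul_of_nonneg_left h1 h2
      _ = _ := by ring
  have hYb : ∀ t, |Ys f.h T t| ≤ D * ∑ ρ ∈ ZT T, mx ρ * ((1 + |t - (ρ:ℂ).im|) ^ 4)⁻¹ := by
    intro t
    unfold Ys
    refine (Finset.abs_sum_le_sum_abs _ _).trans ?_
    rw [Finset.mul_sum]
    refine Finset.sum_le_sum fun ρ _ => ?_
    rw [abs_mul, abs_of_nonneg (mx_nonneg _)]
    have h1 : |ker f.h 0 (Real.log T * (t - (ρ:ℂ).im))| ≤ D * ((1 + |t - (ρ:ℂ).im|) ^ 4)⁻¹ := by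
      apply hker
      rw [abs_zero]; positivity
    have h2 := mx_nonneg (ρ:ℂ)
    calc mx ρ * |ker f.h 0 (Real.log T * (t - (ρ:ℂ).im))| ≤ mx ρ * (D * ((1 + |t - (ρ:ℂ).im|) ^ 4)⁻¹) :=
          mul_le_mul_of_nonneg_left h1 h2
      _ = _ := by ring
  have hXc : Continuous (fun t => Xs f.h T t) := by
    unfold Xs
    exact continuous_finsetSum _ fun ρ _ => continuous_const.mul (kz_cont f _ _)
  have hYc : Continuous (fun t => Ys f.h T t) := by
    unfold Ys
    exact continuous_finsetSum _ fun ρ _ => continuous_const.mul ((ker_cont f 0).comp (by fun_prop))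
  obtain ⟨x1, x2, x3, x4⟩ := edge_gen hT hD.le _ hXc hXb
  obtain ⟨y1, y2, y3, y4⟩ := edge_gen hT hD.le _ hYc hYb
  -- the final numerical inequalities
  have hbr : 4 * CLA * Real.log T * (4 * Real.sqrt T) + 1 / T * (Real.pi * NT T) ≤
      (16 * CLA + 4) * Real.log T * Real.sqrt T := by
    have h1 : 1 / T * (Real.pi * NT T) ≤ 4 * Real.log T := by
      have h2 : 1 / T * (Real.pi * NT T) ≤ 1 / T * (4 * (T * Real.log T)) := by
        have := Real.pi_le_four
        have h0 : 0 ≤ NT T := by rw [← sum_ZT_mx]; exact Finset.sum_nonneg fun ρ _ => mx_nonneg _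
        gcongr
      refine h2.trans (le_of_eq ?_)
      field_simp
    have h3 : 1 ≤ Real.sqrt T := by
      rw [show (1:ℝ) = Real.sqrt 1 by simp]
      exact Real.sqrt_le_sqrt (by linarith)
    nlinarith
  have hs : Real.sqrt T = T ^ (1 / 2 : ℝ) := Real.sqrt_eq_rpow T
  have A1 : D * ((16 * CLA + 4) * Real.log T * Real.sqrt T) ≤ ε * T := by
    rw [pow_one, Real.rpow_add hT0] at hl1
    rw [hDd, hs]
    calc C * T ^ (f.th / 2) * ((16 * CLA + 4) * Real.log T * T ^ (1 / 2 : ℝ)) =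
          ε * (C * (16 * CLA + 4) / ε * Real.log T * (T ^ (f.th / 2) * T ^ (1 / 2 : ℝ))) := by
          field_simp
      _ ≤ ε * T := by gcongr
  have A2 : D ^ 2 * (4 * CLA * Real.log T) * ((16 * CLA + 4) * Real.log T * Real.sqrt T) ≤ ε * T := by
    rw [Real.rpow_add hT0, Real.rpow_add hT0] at hl2
    rw [hDd, hs]
    calc (C * T ^ (f.th / 2)) ^ 2 * (4 * CLA * Real.log T) * ((16 * CLA + 4) * Real.log T * T ^ (1 / 2 : ℝ)) =
          ε * (C ^ 2 * (4 * CLA) * (16 * CLA + 4) / ε * Real.log T ^ 2 *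
            (T ^ (f.th / 2) * T ^ (f.th / 2) * T ^ (1 / 2 : ℝ))) := by
          field_simp
      _ ≤ ε * T := by gcongr
  have B1 : D * (4 * CLA * Real.log T * (4 * Real.sqrt T) + 1 / T * (Real.pi * NT T)) ≤ ε * T :=
    (mul_le_mul_of_nonneg_left hbr hD.le).trans A1
  have B2 : D ^ 2 * (4 * CLA * Real.log T) * (4 * CLA * Real.log T * (4 * Real.sqrt T) + 1 / T * (Real.pi * NT T)) ≤ ε * T :=
    (mul_le_mul_of_nonneg_left hbr (by positivity)).trans A2
  exact ⟨x1, y1, x2, y2, x3.trans B2, y3.trans B2, x4.trans B1, y4.trans B1⟩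

end Pool.Agent.Helper92.RG
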