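import Pool.Agent.Helper92.RG.Edge

/-!
# RG-EsMean
The depth effect has mean zero. By Fourier inversion `∫ ker f.h a u du = 2 π f.h 0` for every `a` (the function `y ↦ h y cosh (a y)` is
smooth, even, compactly supported, with value `h 0` at `0`), so `∫ (kz f.h L t ρ - ker f.h 0 (L (t - γ))) dt = 0` for every `ρ` and
`∫ Es f.h T t dt = 0` over the whole line; the part outside `[√T, T - √T]` is at most `εT` by `edge`.
-/

open MeasureTheory Set Filter Topology
open Pool.Agent.Helper57.Zeta Pool.Agent.Helper57.PC Pool.Agent.Helper57.LH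
open Pool.Agent.Helper78.SG
open Pool.Agent.Helper4.PC (CT)
open scoped ContDiff ENNReal FourierTransform SchwartzMap

namespace Pool.Agent.Helper92.RG

/-- the test function times `cosh (a y)` -/
private noncomputable def tfc (f : TF) (a : ℝ) : TF where
  h := fun y => f.h y * Real.cosh (a * y)
  th := f.th
  smooth := f.smooth.mul (Real.contDiff_cosh.comp (contDiff_const.mul contDiff_id))
  even := fun x => by rw [f.even, mul_neg, Real.cosh_neg]
  th0 := f.th0
  th1 := f.th1
  supp := fun x hx => by rw [f.supp x hx, zero_mul]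

theorem ker_integral (f : TF) (a : ℝ) : Integrable (ker f.h a) ∧ ∫ u, ker f.h a u = 2 * Real.pi * f.h 0 := by
  set g : TF := tfc f a with hg
  have hker : ∀ u, ker f.h a u = ker g.h 0 u := by
    intro u
    unfold Pool.Agent.Helper78.SG.ker
    refine integral_congr_ae (Eventually.of_forall fun y => ?_)
    simp only [hg, tfc, zero_mul, Real.cosh_zero, one_mul]
    ring
  set s : Finset Unit := {()} with hs
  set c : Unit → ℝ := fun _ => 0 with hc
  set K : 𝓢(ℝ, ℂ) := (paK_cs g s c).toSchwartzMap (paK_smooth g s c) with hK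
  have hKc : (K : ℝ → ℂ) = paK g s c := rfl
  have hF : ∀ ξ : ℝ, 𝓕 K ξ = ((ker g.h 0 (2 * Real.pi * ξ) : ℝ) : ℂ) := by
    intro ξ
    rw [SchwartzMap.fourier_coe, hKc, paK_fourier g s c ξ]
    simp [hs, hc]
  have hi : Integrable (fun ξ : ℝ => 𝓕 K ξ) := (𝓕 K).integrable
  have hi2 : Integrable (fun ξ : ℝ => ker g.h 0 (2 * Real.pi * ξ)) := by
    have : Integrable (fun ξ : ℝ => ((ker g.h 0 (2 * Real.pi * ξ) : ℝ) : ℂ)) := by
      simpa only [hF] using hi
    exact this.re
  have hinv : ∫ ξ : ℝ, 𝓕 K ξ = K 0 := by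
    have h1 : 𝓕⁻ (𝓕 K) = K := by simp
    have h2 : (𝓕⁻ (𝓕 K) : 𝓢(ℝ, ℂ)) 0 = K 0 := by rw [h1]
    rw [← h2, SchwartzMap.fourierInv_coe, Real.fourierInv_eq]
    simp
  have hpi : 0 < 2 * Real.pi := by positivity
  have h3 : ∫ ξ : ℝ, ker g.h 0 (2 * Real.pi * ξ) = f.h 0 := by
    apply Complex.ofReal_injective
    rw [← integral_complex_ofReal]
    have : ∫ ξ : ℝ, ((ker g.h 0 (2 * Real.pi * ξ) : ℝ) : ℂ) = ∫ ξ : ℝ, 𝓕 K ξ := by
      simp only [hF]
    rw [this, hinv, hKc]
    simp [paK, hs, hc, hg, tfc]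
  constructor
  · have h4 : (ker f.h a) = fun u => ker g.h 0 u := funext hker
    rw [h4]
    have h5 : Integrable (fun u : ℝ => (fun ξ : ℝ => ker g.h 0 (2 * Real.pi * ξ)) ((2 * Real.pi)⁻¹ * u)) :=
      hi2.comp_mul_left' (inv_pos.mpr hpi).ne'
    refine h5.congr (Eventually.of_forall fun u => ?_)
    simp only
    congr 1
    field_simp
  · simp_rw [hker]
    have h6 := Measure.integral_comp_mul_left (fun u : ℝ => ker g.h 0 u) (2 * Real.pi)
    rw [h3, smul_eq_mul, abs_of_pos (inv_pos.mpr hpi)] at h6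
    rw [h6]
    field_simp

private lemma ker_shift (f : TF) (a g : ℝ) {L : ℝ} (hL : 0 < L) :
    Integrable (fun t => ker f.h a (L * (t - g))) ∧ ∫ t, ker f.h a (L * (t - g)) = L⁻¹ * (2 * Real.pi * f.h 0) := by
  obtain ⟨h1, h2⟩ := ker_integral f a
  constructor
  · exact (h1.comp_mul_left' hL.ne').comp_sub_right g
  · have h3 := integral_sub_right_eq_self (fun t => ker f.h a (L * t)) g (μ := (volume : Measure ℝ))
    rw [h3, Measure.integral_comp_mul_left (fun u : ℝ => ker f.h a u) L, h2, smul_eq_mul, abs_of_pos (inv_pos.mpr hL)]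

theorem es_mean (f : TF) {ε : ℝ} (hε : 0 < ε) : ∀ᶠ T : ℝ in atTop,
    |∫ t in Icc (Real.sqrt T) (T - Real.sqrt T), Es f.h T t| ≤ ε * T := by
  filter_upwards [edge f (half_pos hε), eventually_gt_atTop (1 : ℝ)] with T hT hT1
  obtain ⟨iX, iY, -, -, -, -, hX, hY⟩ := hT
  have hL : 0 < Real.log T := Real.log_pos hT1
  set I : Set ℝ := Icc (Real.sqrt T) (T - Real.sqrt T) with hI
  have iE : Integrable (fun t => Es f.h T t) := iX.sub iY
  have hX0 : ∫ t, Xs f.h T t = ∑ ρ ∈ ZT T, mx ρ * ((Real.log T)⁻¹ * (2 * Real.pi * f.h 0)) := by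
    unfold Xs
    rw [integral_finsetSum]
    · refine Finset.sum_congr rfl fun ρ _ => ?_
      rw [integral_const_mul]
      unfold kz
      rw [(ker_shift f _ _ hL).2]
    · intro ρ _
      unfold kz
      exact ((ker_shift f _ _ hL).1).const_mul _
  have hY0 : ∫ t, Ys f.h T t = ∑ ρ ∈ ZT T, mx ρ * ((Real.log T)⁻¹ * (2 * Real.pi * f.h 0)) := by
    unfold Ys
    rw [integral_finsetSum]
    · refine Finset.sum_congr rfl fun ρ _ => ?_
      rw [integral_const_mul, (ker_shift f _ _ hL).2]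
    · intro ρ _
      exact ((ker_shift f _ _ hL).1).const_mul _
  have hE0 : ∫ t, Es f.h T t = 0 := by
    have : ∫ t, Es f.h T t = (∫ t, Xs f.h T t) - ∫ t, Ys f.h T t := by
      unfold Es
      exact integral_sub iX iY
    rw [this, hX0, hY0, sub_self]
  have hsplit : (∫ t in I, Es f.h T t) + ∫ t in Iᶜ, Es f.h T t = 0 := by
    rw [integral_add_compl measurableSet_Icc iE, hE0]
  have hc : |∫ t in Iᶜ, Es f.h T t| ≤ ε * T := by
    have h1 : |∫ t in Iᶜ, Es f.h T t| ≤ ∫ t in Iᶜ, |Es f.h T t| := abs_integral_le_integral_abs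
    have h2 : ∫ t in Iᶜ, |Es f.h T t| ≤ ∫ t in Iᶜ, (|Xs f.h T t| + |Ys f.h T t|) := by
      refine integral_mono_of_nonneg (Eventually.of_forall fun t => abs_nonneg _)
        (iX.abs.integrableOn.add iY.abs.integrableOn) (Eventually.of_forall fun t => ?_)
      simp only [Es]
      exact abs_sub _ _
    have h3 : ∫ t in Iᶜ, (|Xs f.h T t| + |Ys f.h T t|) = (∫ t in Iᶜ, |Xs f.h T t|) + ∫ t in Iᶜ, |Ys f.h T t| :=
      integral_add iX.abs.integrableOn iY.abs.integrableOn
    linarith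
  have h4 : ∫ t in I, Es f.h T t = - ∫ t in Iᶜ, Es f.h T t := by linarith
  rw [h4, abs_neg]
  exact hc

end Pool.Agent.Helper92.RG
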