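import Pool.Agent.Helper92.RG.Basic

/-!
# RG-KTay
Taylor expansion of the kernels in the depth.

1. `ktay`: the difference is `∫ h y (cosh (a y) - 1 - (a y)²/2) cos (u y) dy`; integrate by parts twice against `cos (u y)`:
   the second derivative of `h y (cosh (ay) - 1 - (ay)²/2)` is
   `h'' (cosh - 1 - (ay)²/2) + 2 a h' (sinh (ay) - ay) + a² h (cosh (ay) - 1)`, each at most `C a⁴ e^(th |a|)` on the support
   (`cosh x - 1 - x²/2 <= x⁴ cosh x / 24`, `|sinh x - x| <= |x|³ cosh x / 6`, `cosh x - 1 <= x² cosh x / 2`, `|y| <= th < 1`); and the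
   trivial bound for `|u| <= 1`.
2. `ker_scl`: substitution `y ↦ y / B`. (Similarly `ker (y² h(By)) 0 u = B⁻³ ker (y² h) 0 (u/B)`.)
3. `ktay_scl`: `ktay` at `(a / B, u / B)`, `f.th < 1`.
-/

open MeasureTheory Set Filter Topology
open Pool.Agent.Helper57.Zeta Pool.Agent.Helper57.PC Pool.Agent.Helper57.LH
open Pool.Agent.Helper78.SG
open Pool.Agent.Helper4.PC (CT)
open scoped ContDiff ENNReal

namespace Pool.Agent.Helper92.RG

section aux

private theorem mvt (g g' : ℝ → ℝ) (hg : ∀ y, HasDerivAt g (g' y) y) (K x : ℝ)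
    (hK : ∀ y, |y| ≤ |x| → |g' y| ≤ K) : |g x - g 0| ≤ K * |x| := by
  have h := Convex.norm_image_sub_le_of_norm_hasDerivWithin_le (f := g) (f' := g') (C := K)
    (s := Icc (-|x|) |x|) (x := 0) (y := x)
    (fun y hy => (hg y).hasDerivWithinAt)
    (fun y hy => hK y (abs_le.mpr hy)) (convex_Icc _ _)
    ⟨by have := abs_nonneg x; linarith, abs_nonneg x⟩ ⟨neg_abs_le x, le_abs_self x⟩
  simpa using h

private theorem cosh_mono {x y : ℝ} (h : |y| ≤ |x|) : Real.cosh y ≤ Real.cosh x := by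
  rwa [Real.cosh_le_cosh]

private theorem b1 (x : ℝ) : |Real.sinh x| ≤ |x| * Real.cosh x := by
  have h := mvt Real.sinh Real.cosh (fun y => Real.hasDerivAt_sinh y) (Real.cosh x) x (by
    intro y hy
    rw [abs_of_pos (Real.cosh_pos y)]
    exact cosh_mono hy)
  rw [Real.sinh_zero, sub_zero] at h
  linarith

private theorem b2 (x : ℝ) : |Real.cosh x - 1| ≤ |x| ^ 2 * Real.cosh x := by
  have h := mvt Real.cosh Real.sinh (fun y => Real.hasDerivAt_cosh y) (|x| * Real.cosh x) x (by
    intro y hy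
    refine (b1 y).trans ?_
    exact mul_le_mul hy (cosh_mono hy) (Real.cosh_pos y).le (abs_nonneg x))
  rw [Real.cosh_zero] at h
  nlinarith

private theorem b3 (x : ℝ) : |Real.sinh x - x| ≤ |x| ^ 3 * Real.cosh x := by
  have h := mvt (fun y => Real.sinh y - y) (fun y => Real.cosh y - 1)
    (fun y => (Real.hasDerivAt_sinh y).sub (hasDerivAt_id y)) (|x| ^ 2 * Real.cosh x) x (by
    intro y hy
    refine (b2 y).trans ?_
    exact mul_le_mul (pow_le_pow_left₀ (abs_nonneg y) hy 2) (cosh_mono hy) (Real.cosh_pos y).le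
      (by positivity))
  simp only [Real.sinh_zero, sub_zero] at h
  nlinarith

private theorem b4 (x : ℝ) : |Real.cosh x - 1 - x ^ 2 / 2| ≤ |x| ^ 4 * Real.cosh x := by
  have h := mvt (fun y => Real.cosh y - 1 - y ^ 2 / 2) (fun y => Real.sinh y - y)
    (fun y => by
      have h1 := ((Real.hasDerivAt_cosh y).sub_const 1).sub (((hasDerivAt_id y).pow 2).div_const 2)
      refine h1.congr_deriv ?_
      simp) (|x| ^ 3 * Real.cosh x) x (by
    intro y hy
    refine (b3 y).trans ?_
    exact mul_le_mul (pow_le_pow_left₀ (abs_nonneg y) hy 3) (cosh_mono hy) (Real.cosh_pos y).le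
      (by positivity))
  simp only [Real.cosh_zero] at h
  norm_num at h
  calc |Real.cosh x - 1 - x ^ 2 / 2| ≤ |x| ^ 3 * Real.cosh x * |x| := h
    _ = _ := by ring

private theorem cosh_le_exp_abs (x : ℝ) : Real.cosh x ≤ Real.exp |x| := by
  rw [← Real.cosh_abs, Real.cosh_eq]
  have : Real.exp (-|x|) ≤ Real.exp |x| := by
    rw [Real.exp_le_exp]
    have := abs_nonneg x
    linarith
  linarith

/-- the majorant -/
private theorem maj {a y θ : ℝ} (hθ : θ ≤ 1) (hy : |y| ≤ θ) (k : ℕ) :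
    |a * y| ^ k * Real.cosh (a * y) ≤ |a| ^ k * Real.exp (θ * |a|) := by
  have h1 : Real.cosh (a * y) ≤ Real.exp (θ * |a|) := by
    refine (cosh_le_exp_abs _).trans ?_
    rw [Real.exp_le_exp, abs_mul, mul_comm]
    exact mul_le_mul_of_nonneg_right hy (abs_nonneg a)
  refine mul_le_mul ?_ h1 (Real.cosh_pos _).le (by positivity)
  apply pow_le_pow_left₀ (abs_nonneg _)
  rw [abs_mul]
  calc |a| * |y| ≤ |a| * 1 := mul_le_mul_of_nonneg_left (hy.trans hθ) (abs_nonneg a)
    _ = |a| := mul_one _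


private theorem cs {g : ℝ → ℝ} (hs : ∀ y, 1 ≤ |y| → g y = 0) : HasCompactSupport g := by
  refine HasCompactSupport.of_support_subset_isCompact (isCompact_Icc (a := (-1:ℝ)) (b := 1)) ?_
  intro y hy
  by_contra hcon
  have : 1 ≤ |y| := by
    rw [Set.mem_Icc, not_and_or] at hcon
    rcases hcon with h | h
    · rw [abs_of_nonpos (by linarith)]; linarith
    · rw [abs_of_nonneg (by linarith)]; linarith
  exact hy (hs y this)

private theorem ibp2 (G G1 G2 : ℝ → ℝ) (h1 : ∀ y, HasDerivAt G (G1 y) y)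
    (h2 : ∀ y, HasDerivAt G1 (G2 y) y) (c2 : Continuous G2)
    (s0 : ∀ y, 1 ≤ |y| → G y = 0) (s1 : ∀ y, 1 ≤ |y| → G1 y = 0) (s2 : ∀ y, 1 ≤ |y| → G2 y = 0)
    (u : ℝ) : u ^ 2 * ∫ y, G y * Real.cos (u * y) = - ∫ y, G2 y * Real.cos (u * y) := by
  have c0 : Continuous G := continuous_iff_continuousAt.mpr fun y => (h1 y).continuousAt
  have c1 : Continuous G1 := continuous_iff_continuousAt.mpr fun y => (h2 y).continuousAt
  have hI : ∀ (g φ : ℝ → ℝ), Continuous g → (∀ y, 1 ≤ |y| → g y = 0) → Continuous φ →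
      Integrable (g * φ) := by
    intro g φ cg sg cφ
    refine (cg.mul cφ).integrable_of_hasCompactSupport ?_
    exact (cs sg).mul_right
  have dc : ∀ y, HasDerivAt (fun y : ℝ => Real.cos (u * y)) (-(u * Real.sin (u * y))) y := by
    intro y
    have h := (Real.hasDerivAt_cos (u * y)).comp y ((hasDerivAt_id y).const_mul u)
    refine h.congr_deriv ?_
    simp
    ring
  have ds : ∀ y, HasDerivAt (fun y : ℝ => Real.sin (u * y)) (u * Real.cos (u * y)) y := by
    intro y
    have h := (Real.hasDerivAt_sin (u * y)).comp y ((hasDerivAt_id y).const_mul u)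
    refine h.congr_deriv ?_
    simp
    ring
  have e1 := integral_mul_deriv_eq_deriv_mul_of_integrable (u := G) (u' := G1)
    (v := fun y : ℝ => Real.sin (u * y)) (v' := fun y : ℝ => u * Real.cos (u * y))
    (fun y _ => h1 y) (fun y _ => ds y) (hI G _ c0 s0 (by fun_prop)) (hI G1 _ c1 s1 (by fun_prop))
    (hI G _ c0 s0 (by fun_prop))
  have e2 := integral_mul_deriv_eq_deriv_mul_of_integrable (u := G1) (u' := G2)
    (v := fun y : ℝ => Real.cos (u * y)) (v' := fun y : ℝ => -(u * Real.sin (u * y)))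
    (fun y _ => h2 y) (fun y _ => dc y) (hI G1 _ c1 s1 (by fun_prop)) (hI G2 _ c2 s2 (by fun_prop))
    (hI G1 _ c1 s1 (by fun_prop))
  have e1' : u * ∫ y, G y * Real.cos (u * y) = - ∫ y, G1 y * Real.sin (u * y) := by
    rw [← e1, ← integral_const_mul]
    congr 1
    ext y
    ring
  have e2' : - (u * ∫ y, G1 y * Real.sin (u * y)) = - ∫ y, G2 y * Real.cos (u * y) := by
    rw [← e2, ← integral_const_mul, ← integral_neg]
    congr 1
    ext y
    ring
  calc u ^ 2 * ∫ y, G y * Real.cos (u * y) = u * (u * ∫ y, G y * Real.cos (u * y)) := by ring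
    _ = - (u * ∫ y, G1 y * Real.sin (u * y)) := by rw [e1']; ring
    _ = _ := e2'

private theorem bd {g g' : ℝ → ℝ} (cg : Continuous g) (sg : ∀ y, 1 ≤ |y| → g y = 0)
    (cg' : Continuous g') (sg' : ∀ y, 1 ≤ |y| → g' y = 0) (A u : ℝ)
    (h : ∀ y, |g y| ≤ g' y * A) : |∫ y, g y * Real.cos (u * y)| ≤ (∫ y, g' y) * A := by
  rw [← integral_mul_const]
  have h1 : |∫ y, g y * Real.cos (u * y)| ≤ ∫ y, |g y * Real.cos (u * y)| :=
    abs_integral_le_integral_abs
  refine h1.trans (integral_mono ?_ ?_ ?_)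
  · have hc : Continuous (fun y => g y * Real.cos (u * y)) := by fun_prop
    exact (hc.integrable_of_hasCompactSupport (cs sg).mul_right).abs
  · exact (cg'.integrable_of_hasCompactSupport (cs sg')).mul_const _
  · intro y
    show |g y * Real.cos (u * y)| ≤ g' y * A
    rw [abs_mul]
    calc |g y| * |Real.cos (u * y)| ≤ |g y| * 1 :=
          mul_le_mul_of_nonneg_left (Real.abs_cos_le_one _) (abs_nonneg _)
      _ = |g y| := mul_one _
      _ ≤ _ := h y

end aux

theorem ktay (f : TF) : ∃ C : ℝ, 0 < C ∧ ∀ a u : ℝ,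
    |ker f.h a u - ker f.h 0 u - a ^ 2 / 2 * ker (fun y => y ^ 2 * f.h y) 0 u| ≤
      C * (a ^ 4 * Real.exp (f.th * |a|)) / (1 + u ^ 2) := by
  have hd1 : ContDiff ℝ ∞ (deriv f.h) := by
    have := f.smooth.iterate_deriv 1
    simpa using this
  have hd2 : ContDiff ℝ ∞ (deriv (deriv f.h)) := by
    have := hd1.iterate_deriv 1
    simpa using this
  have D1 : ∀ y, HasDerivAt f.h (deriv f.h y) y := fun y =>
    (f.smooth.differentiable (by simp) y).hasDerivAt
  have D2 : ∀ y, HasDerivAt (deriv f.h) (deriv (deriv f.h) y) y := fun y =>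
    (hd1.differentiable (by simp) y).hasDerivAt
  have z0 : ∀ y, f.th < |y| → f.h y = 0 := fun y hy => f.supp y hy.le
  have zd : ∀ g : ℝ → ℝ, (∀ y, f.th < |y| → g y = 0) → ∀ y, f.th < |y| → deriv g y = 0 := by
    intro g hg y hy
    have h1 : g =ᶠ[𝓝 y] fun _ => 0 := by
      have ho : IsOpen {y : ℝ | f.th < |y|} := isOpen_lt continuous_const continuous_abs
      filter_upwards [ho.mem_nhds hy] with x hx
      exact hg x hx
    rw [h1.deriv_eq]
    simp
  have z1 := zd _ z0
  have z2 := zd _ z1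
  have th1 := f.th1
  have th0 := f.th0
  have lt1 : ∀ y : ℝ, 1 ≤ |y| → f.th < |y| := fun y hy => by linarith
  refine ⟨(∫ y, |f.h y|) + (∫ y, (|deriv (deriv f.h) y| + 2 * |deriv f.h y| + |f.h y|)) + 1, ?_, ?_⟩
  · have i1 : 0 ≤ ∫ y, |f.h y| := integral_nonneg fun y => abs_nonneg _
    have i2 : 0 ≤ ∫ y, (|deriv (deriv f.h) y| + 2 * |deriv f.h y| + |f.h y|) :=
      integral_nonneg fun y => by positivity
    linarith
  intro a u
  set A : ℝ := a ^ 4 * Real.exp (f.th * |a|) with hA
  have hA0 : 0 ≤ A := by positivity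
  let E : ℝ → ℝ := fun y => Real.cosh (a * y) - 1 - (a * y) ^ 2 / 2
  let E1 : ℝ → ℝ := fun y => a * (Real.sinh (a * y) - a * y)
  let E2 : ℝ → ℝ := fun y => a ^ 2 * (Real.cosh (a * y) - 1)
  have dE : ∀ y, HasDerivAt E (E1 y) y := by
    intro y
    have k1 := (Real.hasDerivAt_cosh (a * y)).comp y ((hasDerivAt_id y).const_mul a)
    have k2 := ((((hasDerivAt_id y).const_mul a).pow 2).div_const 2)
    refine ((k1.sub_const 1).sub k2).congr_deriv ?_
    simp [E1]
    ring
  have dE1 : ∀ y, HasDerivAt E1 (E2 y) y := by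
    intro y
    have k1 := (Real.hasDerivAt_sinh (a * y)).comp y ((hasDerivAt_id y).const_mul a)
    have k2 := ((hasDerivAt_id y).const_mul a)
    refine ((k1.sub k2).const_mul a).congr_deriv ?_
    simp [E2]
    ring
  have bE : ∀ y, |y| ≤ f.th → |E y| ≤ A := by
    intro y hy
    refine (b4 (a * y)).trans ((maj (by linarith) hy 4).trans_eq ?_)
    rw [hA, ← abs_pow, abs_of_nonneg (by positivity : (0:ℝ) ≤ a ^ 4)]
  have bE1 : ∀ y, |y| ≤ f.th → |E1 y| ≤ A := by
    intro y hy
    show |a * (Real.sinh (a * y) - a * y)| ≤ A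
    rw [abs_mul]
    refine (mul_le_mul_of_nonneg_left ((b3 (a * y)).trans (maj (by linarith) hy 3))
      (abs_nonneg a)).trans_eq ?_
    rw [hA]
    have : |a| ^ 4 = a ^ 4 := by
      rw [← abs_pow, abs_of_nonneg (by positivity : (0:ℝ) ≤ a ^ 4)]
    rw [← this]
    ring
  have bE2 : ∀ y, |y| ≤ f.th → |E2 y| ≤ A := by
    intro y hy
    show |a ^ 2 * (Real.cosh (a * y) - 1)| ≤ A
    rw [abs_mul]
    refine (mul_le_mul_of_nonneg_left ((b2 (a * y)).trans (maj (by linarith) hy 2))
      (abs_nonneg _)).trans_eq ?_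
    rw [hA, sq_abs, abs_of_nonneg (sq_nonneg a)]
    ring
  have cE : Continuous E := by fun_prop
  have cE1 : Continuous E1 := by fun_prop
  have cE2 : Continuous E2 := by fun_prop
  let G : ℝ → ℝ := fun y => f.h y * E y
  let G1 : ℝ → ℝ := fun y => deriv f.h y * E y + f.h y * E1 y
  let G2 : ℝ → ℝ := fun y => (deriv (deriv f.h) y * E y + deriv f.h y * E1 y) +
    (deriv f.h y * E1 y + f.h y * E2 y)
  have key := ibp2 G G1 G2 (fun y => (D1 y).mul (dE y))
    (fun y => ((D2 y).mul (dE y)).add ((D1 y).mul (dE1 y)))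
    (by
      have := f.smooth.continuous
      have := hd1.continuous
      have := hd2.continuous
      fun_prop)
    (fun y hy => by simp [G, z0 y (lt1 y hy)])
    (fun y hy => by simp [G1, z0 y (lt1 y hy), z1 y (lt1 y hy)])
    (fun y hy => by simp [G2, z0 y (lt1 y hy), z1 y (lt1 y hy), z2 y (lt1 y hy)]) u
  have eq0 : ker f.h a u - ker f.h 0 u - a ^ 2 / 2 * ker (fun y => y ^ 2 * f.h y) 0 u =
      ∫ y, G y * Real.cos (u * y) := by
    have hI : ∀ φ : ℝ → ℝ, Continuous φ → Integrable (fun y => f.h y * φ y) := by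
      intro φ cφ
      refine (f.smooth.continuous.mul cφ).integrable_of_hasCompactSupport ?_
      exact (cs (fun y hy => z0 y (lt1 y hy))).mul_right
    have i1 : Integrable (fun y => f.h y * (Real.cosh (a * y) * Real.cos (u * y))) :=
      hI _ (by fun_prop)
    have i2 : Integrable (fun y => f.h y * (Real.cosh (0 * y) * Real.cos (u * y))) :=
      hI _ (by fun_prop)
    have i3 : Integrable (fun y => a ^ 2 / 2 * (y ^ 2 * f.h y *
        (Real.cosh (0 * y) * Real.cos (u * y)))) := by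
      have := hI (fun y => a ^ 2 / 2 * (y ^ 2 * (Real.cosh (0 * y) * Real.cos (u * y))))
        (by fun_prop)
      refine this.congr (Eventually.of_forall fun y => ?_)
      simp only
      ring
    have j1 := integral_sub i1 i2
    have j2 := integral_sub (i1.sub i2) i3
    have j3 := integral_const_mul (μ := volume) (a ^ 2 / 2)
      (fun y => y ^ 2 * f.h y * (Real.cosh (0 * y) * Real.cos (u * y)))
    simp only [Pi.sub_apply] at j2
    unfold Helper78.SG.ker
    show (∫ y, f.h y * (Real.cosh (a * y) * Real.cos (u * y))) -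
      (∫ y, f.h y * (Real.cosh (0 * y) * Real.cos (u * y))) -
      a ^ 2 / 2 * (∫ y, y ^ 2 * f.h y * (Real.cosh (0 * y) * Real.cos (u * y))) = _
    rw [← j3, ← j1, ← j2]
    congr 1
    ext y
    simp only [G, E, zero_mul, Real.cosh_zero]
    ring
  rw [eq0]
  have hb0 := bd (g := G) (g' := fun y => |f.h y|)
    (by have := f.smooth.continuous; fun_prop)
    (fun y hy => by simp [G, z0 y (lt1 y hy)])
    (by have := f.smooth.continuous; fun_prop)
    (fun y hy => by simp [z0 y (lt1 y hy)]) A u (by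
      intro y
      show |f.h y * E y| ≤ |f.h y| * A
      rw [abs_mul]
      rcases le_or_gt |y| f.th with hy | hy
      · exact mul_le_mul_of_nonneg_left (bE y hy) (abs_nonneg _)
      · rw [z0 y hy]; simp)
  have hb2 := bd (g := G2) (g' := fun y => |deriv (deriv f.h) y| + 2 * |deriv f.h y| + |f.h y|)
    (by
      have := f.smooth.continuous
      have := hd1.continuous
      have := hd2.continuous
      fun_prop)
    (fun y hy => by simp [G2, z0 y (lt1 y hy), z1 y (lt1 y hy), z2 y (lt1 y hy)])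
    (by
      have := f.smooth.continuous
      have := hd1.continuous
      have := hd2.continuous
      fun_prop)
    (fun y hy => by simp [z0 y (lt1 y hy), z1 y (lt1 y hy), z2 y (lt1 y hy)]) A u (by
      intro y
      show |(deriv (deriv f.h) y * E y + deriv f.h y * E1 y) +
        (deriv f.h y * E1 y + f.h y * E2 y)| ≤ (|deriv (deriv f.h) y| + 2 * |deriv f.h y| + |f.h y|) * A
      rcases le_or_gt |y| f.th with hy | hy
      · have t1 := abs_add_le (deriv (deriv f.h) y * E y + deriv f.h y * E1 y)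
          (deriv f.h y * E1 y + f.h y * E2 y)
        have t2 := abs_add_le (deriv (deriv f.h) y * E y) (deriv f.h y * E1 y)
        have t3 := abs_add_le (deriv f.h y * E1 y) (f.h y * E2 y)
        rw [abs_mul (deriv (deriv f.h) y), abs_mul (deriv f.h y)] at t2
        rw [abs_mul (deriv f.h y), abs_mul (f.h y)] at t3
        have m1 := mul_le_mul_of_nonneg_left (bE y hy) (abs_nonneg (deriv (deriv f.h) y))
        have m2 := mul_le_mul_of_nonneg_left (bE1 y hy) (abs_nonneg (deriv f.h y))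
        have m3 := mul_le_mul_of_nonneg_left (bE2 y hy) (abs_nonneg (f.h y))
        linarith
      · rw [z0 y hy, z1 y hy, z2 y hy]; simp)
  have hu : 0 < 1 + u ^ 2 := by positivity
  rw [le_div_iff₀ hu]
  have e3 : u ^ 2 * |∫ y, G y * Real.cos (u * y)| = |∫ y, G2 y * Real.cos (u * y)| := by
    rw [← abs_of_nonneg (sq_nonneg u), ← abs_mul, key, abs_neg]
  have : |∫ y, G y * Real.cos (u * y)| * (1 + u ^ 2) =
      |∫ y, G y * Real.cos (u * y)| + u ^ 2 * |∫ y, G y * Real.cos (u * y)| := by ring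
  rw [this, e3]
  nlinarith

theorem ker_scl (h : ℝ → ℝ) {B : ℝ} (hB : 0 < B) (a u : ℝ) : ker (scl h B) a u = ker h (a / B) (u / B) / B := by
  unfold Helper78.SG.ker scl
  have h1 := Measure.integral_comp_mul_left
    (fun y => h y * (Real.cosh (a / B * y) * Real.cos (u / B * y))) B
  have h2 : ∀ y, h (B * y) * (Real.cosh (a / B * (B * y)) * Real.cos (u / B * (B * y))) =
      h (B * y) * (Real.cosh (a * y) * Real.cos (u * y)) := by
    intro y
    have e1 : a / B * (B * y) = a * y := by field_simp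
    have e2 : u / B * (B * y) = u * y := by field_simp
    rw [e1, e2]
  simp only [h2] at h1
  rw [h1, abs_of_pos (inv_pos.mpr hB), smul_eq_mul]
  ring

theorem ktay_scl (f : TF) : ∃ C : ℝ, 0 < C ∧ ∀ B : ℝ, 1 ≤ B → ∀ a u : ℝ,
    |ker (scl f.h B) a u - ker (scl f.h B) 0 u - a ^ 2 / 2 * ker (fun y => y ^ 2 * scl f.h B y) 0 u| ≤
      C / B * ((a / B) ^ 4 * Real.exp (|a| / B)) / (1 + (u / B) ^ 2) := by
  obtain ⟨C, hC, h⟩ := ktay f
  refine ⟨C, hC, ?_⟩
  intro B hB a u
  have hB0 : 0 < B := by linarith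
  have e3 : ker (fun y => y ^ 2 * scl f.h B y) 0 u =
      ker (fun y => y ^ 2 * f.h y) 0 (u / B) / B ^ 3 := by
    have k := ker_scl (fun y => y ^ 2 * f.h y) hB0 0 u
    have k2 : ker (scl (fun y => y ^ 2 * f.h y) B) 0 u =
        B ^ 2 * ker (fun y => y ^ 2 * scl f.h B y) 0 u := by
      unfold Helper78.SG.ker scl
      rw [← integral_const_mul]
      congr 1
      ext y
      ring
    rw [k2, zero_div] at k
    have : ker (fun y => y ^ 2 * scl f.h B y) 0 u =
        (B ^ 2 * ker (fun y => y ^ 2 * scl f.h B y) 0 u) / B ^ 2 := by field_simp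
    rw [this, k]
    field_simp
  rw [ker_scl f.h hB0, ker_scl f.h hB0, e3, zero_div]
  have e4 : ker f.h (a / B) (u / B) / B - ker f.h 0 (u / B) / B
      - a ^ 2 / 2 * (ker (fun y => y ^ 2 * f.h y) 0 (u / B) / B ^ 3)
      = (ker f.h (a / B) (u / B) - ker f.h 0 (u / B)
        - (a / B) ^ 2 / 2 * ker (fun y => y ^ 2 * f.h y) 0 (u / B)) / B := by
    field_simp
  rw [e4, abs_div, abs_of_pos hB0]
  have h5 := h (a / B) (u / B)
  have h6 : Real.exp (f.th * |a / B|) ≤ Real.exp (|a| / B) := by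
    rw [Real.exp_le_exp, abs_div, abs_of_pos hB0]
    have h7 : 0 ≤ |a| / B := by positivity
    have := f.th1
    nlinarith
  calc |ker f.h (a / B) (u / B) - ker f.h 0 (u / B)
        - (a / B) ^ 2 / 2 * ker (fun y => y ^ 2 * f.h y) 0 (u / B)| / B
      ≤ (C * ((a / B) ^ 4 * Real.exp (f.th * |a / B|)) / (1 + (u / B) ^ 2)) / B :=
        div_le_div_of_nonneg_right h5 hB0.le
    _ ≤ (C * ((a / B) ^ 4 * Real.exp (|a| / B)) / (1 + (u / B) ^ 2)) / B := by
        gcongr
    _ = _ := by ring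

end Pool.Agent.Helper92.RG
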