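import Pool.Agent.Helper92.RG.Basic
import Pool.Agent.Helper78.SG.ExpMoment

/-!
# RG-Loc2
Second moment of the weighted local counts, from `Qbound` (`Helper57/M/D.lean`) with its `B = 9600`.

`L = log T`, `q(τ) = (∑ over ρ in ZT T, re >= 1/2, L |im ρ - τ| <= 1) mx ρ * Wt 9600 (L (re ρ - 1/2))`, `∫_{RA T} q² <= C T / 9600⁴`. For `ρ` in
`ZT T` with `re ρ >= 1/2`, `im ρ >= 11`: `1 / (1 + (L (t - γ)/B)²) <= (L/2) ∫_{|τ - γ| <= 1/L} 4 / (1 + (L (t - τ)/B)²) dτ`, so the sum over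
these zeros at `t` is at most `2 ∫ q(τ) L / (1 + (L (t-τ)/B)²) dτ`, a convolution with a kernel of integral `π B`. The zeros with
`re < 1/2` are handled by `ρ ↦ 1 - conj ρ`, and the zeros of height `< 11` are finitely many.
-/

open MeasureTheory Set Filter Topology
open Pool.Agent.Helper57.Zeta Pool.Agent.Helper57.PC Pool.Agent.Helper57.LH
open Pool.Agent.Helper78.SG
open Pool.Agent.Helper4.PC (CT)
open scoped ContDiff ENNReal Convolution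

namespace Pool.Agent.Helper92.RG

noncomputable def kB92 (L B s : ℝ) : ℝ := 1 / (1 + (L * s / B) ^ 2)

theorem kB92_cont (L B : ℝ) : Continuous (kB92 L B) := by
  unfold kB92
  refine continuous_const.div (by fun_prop) fun s => ?_
  positivity

theorem kB92_nonneg (L B s : ℝ) : 0 ≤ kB92 L B s := by unfold kB92; positivity

theorem kB92_le_one (L B s : ℝ) : kB92 L B s ≤ 1 := by
  unfold kB92
  rw [div_le_one (by positivity)]
  nlinarith [sq_nonneg (L * s / B)]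

theorem kB92_int {L B : ℝ} (hL : 0 < L) (hB : 0 < B) : Integrable (kB92 L B) ∧ ∫ s, kB92 L B s = Real.pi * B / L := by
  have e : kB92 L B = fun s => (fun x : ℝ => (1 + x ^ 2)⁻¹) ((L / B) * s) := by
    ext s
    unfold kB92
    rw [one_div]
    congr 3
    ring
  have hc : L / B ≠ 0 := by positivity
  rw [e]
  constructor
  · exact integrable_inv_one_add_sq.comp_mul_left' hc
  · rw [Measure.integral_comp_mul_left (fun x : ℝ => (1 + x ^ 2)⁻¹) (L / B), integral_univ_inv_one_add_sq, smul_eq_mul,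
      abs_of_pos (by positivity), inv_div]
    ring

/-- Young for a nonnegative compactly supported bounded function and the kernel. -/
theorem young92 {L B : ℝ} (hL : 0 < L) (hB : 0 < B) {S : ℝ → ℝ} (_hS0 : ∀ τ, 0 ≤ S τ) (hS1 : Integrable S) (hS2 : Integrable (fun τ => S τ ^ 2)) :
    Integrable (fun t => ∫ τ, S τ ^ 2 * kB92 L B (t - τ)) ∧
    (∀ t, (∫ τ, S τ * kB92 L B (t - τ)) ^ 2 ≤ (Real.pi * B / L) * ∫ τ, S τ ^ 2 * kB92 L B (t - τ)) ∧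
    ∫ t, (∫ τ, S τ ^ 2 * kB92 L B (t - τ)) = (∫ τ, S τ ^ 2) * (Real.pi * B / L) := by
  obtain ⟨hk, hki⟩ := kB92_int hL hB
  have hconv := integral_convolution (ContinuousLinearMap.mul ℝ ℝ) (μ := volume) (ν := volume) hS2 hk
  have hci := hS2.integrable_convolution (ContinuousLinearMap.mul ℝ ℝ) hk
  refine ⟨?_, ?_, ?_⟩
  · refine hci.congr ?_
    filter_upwards with t
    rfl
  · intro t
    have hkt : Integrable (fun τ => kB92 L B (t - τ)) := hk.comp_sub_left t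
    have hkv : ∫ τ, kB92 L B (t - τ) = Real.pi * B / L := by
      rw [← hki]
      exact integral_sub_left_eq_self (kB92 L B) volume t
    have hbd : ∀ {f : ℝ → ℝ}, Integrable f → Integrable (fun τ => f τ * kB92 L B (t - τ)) := by
      intro f hf
      refine hf.mul_bdd (c := 1) ?_ ?_
      · exact ((kB92_cont L B).comp (by fun_prop)).aestronglyMeasurable
      · filter_upwards with τ
        rw [Real.norm_of_nonneg (kB92_nonneg _ _ _)]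
        exact kB92_le_one _ _ _
    have i1 := hbd hS1
    have i2 := hbd hS2
    set K := Real.pi * B / L with hK
    have hK0 : 0 < K := by positivity
    set A := ∫ τ, S τ * kB92 L B (t - τ) with hA
    have h0 : 0 ≤ ∫ τ, (S τ - A / K) ^ 2 * kB92 L B (t - τ) :=
      integral_nonneg fun τ => mul_nonneg (sq_nonneg _) (kB92_nonneg _ _ _)
    have h1 : ∫ τ, (S τ - A / K) ^ 2 * kB92 L B (t - τ) =
        (∫ τ, S τ ^ 2 * kB92 L B (t - τ)) - 2 * (A / K) * A + (A / K) ^ 2 * K := by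
      have e : ∀ τ, (S τ - A / K) ^ 2 * kB92 L B (t - τ) =
          (S τ ^ 2 * kB92 L B (t - τ) - 2 * (A / K) * (S τ * kB92 L B (t - τ))) + (A / K) ^ 2 * kB92 L B (t - τ) := by
        intro τ; ring
      have a1 := integral_add (i2.sub (i1.const_mul (2 * (A / K)))) (hkt.const_mul ((A / K) ^ 2))
      have a2 := integral_sub i2 (i1.const_mul (2 * (A / K)))
      simp only [Pi.sub_apply] at a1
      rw [integral_congr_ae (Eventually.of_forall e), a1, a2, integral_const_mul, integral_const_mul, hkv]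
    rw [h1] at h0
    have h2 : 2 * (A / K) * A - (A / K) ^ 2 * K = A ^ 2 / K := by
      field_simp
      ring
    have h3 : A ^ 2 / K ≤ ∫ τ, S τ ^ 2 * kB92 L B (t - τ) := by linarith
    rw [div_le_iff₀ hK0] at h3
    linarith
  · rw [← hki]
    exact hconv

theorem sumk92 {L B : ℝ} (hL : 0 < L) (hB : 0 < B) (F : Finset ZS) (c : ZS → ℝ) :
    Integrable (fun t => ∑ ρ ∈ F, c ρ * kB92 L B (t - (ρ : ℂ).im)) ∧
    Integrable (fun t => (∑ ρ ∈ F, c ρ * kB92 L B (t - (ρ : ℂ).im)) ^ 2) := by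
  have h1 : Integrable (fun t => ∑ ρ ∈ F, c ρ * kB92 L B (t - (ρ : ℂ).im)) := by
    apply integrable_finsetSum
    intro ρ _
    exact ((kB92_int hL hB).1.comp_sub_right _).const_mul _
  refine ⟨h1, ?_⟩
  have h2 : (fun t => (∑ ρ ∈ F, c ρ * kB92 L B (t - (ρ : ℂ).im)) ^ 2) =
      fun t => (∑ ρ ∈ F, c ρ * kB92 L B (t - (ρ : ℂ).im)) * (∑ ρ ∈ F, c ρ * kB92 L B (t - (ρ : ℂ).im)) := by
    ext t; ring
  rw [h2]
  refine h1.mul_bdd (c := ∑ ρ ∈ F, |c ρ|) h1.aestronglyMeasurable ?_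
  filter_upwards with t
  refine (norm_sum_le _ _).trans (Finset.sum_le_sum fun ρ _ => ?_)
  rw [norm_mul, Real.norm_eq_abs, Real.norm_of_nonneg (kB92_nonneg _ _ _)]
  exact mul_le_of_le_one_right (abs_nonneg _) (kB92_le_one _ _ _)

/-- the kernel at the centre is dominated by its average -/
theorem kavg92 {L B : ℝ} (hL : 0 < L) (hB : 1 ≤ B) (t g : ℝ) :
    kB92 L B (t - g) ≤ 2 * L * ∫ τ in Icc (g - 1 / L) (g + 1 / L), kB92 L B (t - τ) := by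
  have hB0 : 0 < B := by linarith
  have hLi : 0 < 1 / L := by positivity
  have h1 : ∀ τ ∈ Icc (g - 1 / L) (g + 1 / L), kB92 L B (t - g) / 4 ≤ kB92 L B (t - τ) := by
    intro τ hτ
    have h2 : |L * (g - τ) / B| ≤ 1 := by
      rw [abs_div, abs_mul, abs_of_pos hL, abs_of_pos hB0, div_le_one hB0]
      have h3 : |g - τ| ≤ 1 / L := by
        rw [abs_le]; constructor <;> linarith [hτ.1, hτ.2]
      calc L * |g - τ| ≤ L * (1 / L) := by gcongr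
        _ = 1 := by field_simp
        _ ≤ B := hB
    have h4 : (L * (g - τ) / B) ^ 2 ≤ 1 := by
      rw [← sq_abs]; exact pow_le_one₀ (abs_nonneg _) h2
    unfold kB92
    have h5 : L * (t - τ) / B = L * (t - g) / B + L * (g - τ) / B := by ring
    rw [h5]
    set x := L * (t - g) / B
    set y := L * (g - τ) / B
    rw [div_div, div_le_div_iff₀ (by positivity) (by positivity)]
    nlinarith [sq_nonneg (x - y), sq_nonneg x]
  have hc : IntegrableOn (fun τ => kB92 L B (t - τ)) (Icc (g - 1 / L) (g + 1 / L)) :=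
    (((kB92_cont L B).comp (by fun_prop : Continuous fun τ : ℝ => t - τ)).continuousOn).integrableOn_Icc
  have h6 : ∫ τ in Icc (g - 1 / L) (g + 1 / L), kB92 L B (t - g) / 4 ≤
      ∫ τ in Icc (g - 1 / L) (g + 1 / L), kB92 L B (t - τ) := by
    apply setIntegral_mono_on _ hc measurableSet_Icc h1
    exact (continuousOn_const).integrableOn_Icc
  rw [setIntegral_const, Real.volume_real_Icc_of_le (by linarith), smul_eq_mul] at h6
  have h7 : (g + 1 / L - (g - 1 / L)) * (kB92 L B (t - g) / 4) = kB92 L B (t - g) / (2 * L) := by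
    field_simp
    ring
  rw [h7, div_le_iff₀ (by positivity)] at h6
  linarith

theorem right_sq92 : ∃ C : ℝ, 0 < C ∧ ∀ᶠ T : ℝ in atTop, ∀ B : ℝ, 1 ≤ B →
    ∫ t, (∑ ρ ∈ FB T, mx ρ * Wt 9600 (Real.log T * ((ρ : ℂ).re - 1 / 2)) * kB92 (Real.log T) B (t - (ρ : ℂ).im)) ^ 2 ≤
      C * B ^ 2 * T := by
  classical
  obtain ⟨CQ, hCQ, T0, hT0, hQ⟩ := Qbound
  refine ⟨4 * Real.pi ^ 2 * CQ, by positivity, ?_⟩
  have hl := Real.tendsto_log_atTop
  filter_upwards [eventually_ge_atTop T0, eventually_ge_atTop (400:ℝ), hl.eventually_ge_atTop 40] with T g1 g2 g3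
  intro B hB
  have hB0 : 0 < B := by linarith
  obtain ⟨Ψ, hΨc, hΨ0, hΨi, hΨd⟩ := hQ T g1 9600 le_rfl
  set L := Real.log T with hL
  have hL0 : 0 < L := by linarith
  have hT0' : 0 < T := by linarith
  have hLi : 1 / L ≤ 1 := by rw [div_le_one hL0]; linarith
  have hLi0 : 0 < 1 / L := by positivity
  let a : ZS → ℝ := fun ρ => mx ρ * Wt 9600 (L * ((ρ : ℂ).re - 1 / 2))
  let Sf : ℝ → ℝ := fun τ => ∑ ρ ∈ FB T, (Icc ((ρ : ℂ).im - 1 / L) ((ρ : ℂ).im + 1 / L)).indicator (fun _ => a ρ) τ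
  have ha0 : ∀ ρ, 0 ≤ a ρ := fun ρ => mul_nonneg (mx_nonneg _) (Wt_nonneg _ _)
  have hFB : ∀ ρ ∈ FB T, 1 / 2 ≤ (ρ : ℂ).re ∧ 11 ≤ (ρ : ℂ).im ∧ (ρ : ℂ).im ≤ T := by
    intro ρ hρ
    unfold FB at hρ
    rw [Finset.mem_filter, mem_ZT] at hρ
    exact ⟨hρ.2.1, hρ.2.2, hρ.1.2⟩
  have hmem : ∀ (ρ : ZS) (τ : ℝ), τ ∈ Icc ((ρ : ℂ).im - 1 / L) ((ρ : ℂ).im + 1 / L) ↔ L * |(ρ : ℂ).im - τ| ≤ 1 := by
    intro ρ τ
    rw [mem_Icc, ← le_div_iff₀' hL0, abs_le]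
    constructor
    · rintro ⟨h1, h2⟩
      constructor <;> linarith
    · rintro ⟨h1, h2⟩
      constructor <;> linarith
  have hSeq : ∀ τ, Sf τ = ∑ ρ ∈ ((FB T).filter (fun ρ : ZS => L * |(ρ : ℂ).im - τ| ≤ 1)).map (Function.Embedding.subtype _),
      (analyticOrderNatAt xi ρ : ℝ) * Wt 9600 (L * (ρ.re - 1 / 2)) := by
    intro τ
    rw [Finset.sum_map, Finset.sum_filter]
    refine Finset.sum_congr rfl fun ρ _ => ?_
    by_cases h : L * |(ρ : ℂ).im - τ| ≤ 1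
    · rw [Set.indicator_of_mem ((hmem ρ τ).mpr h), if_pos h]
      rfl
    · rw [Set.indicator_of_notMem (fun h' => h ((hmem ρ τ).mp h')), if_neg h]
  have hSq : ∀ τ ∈ RA T, Sf τ ^ 2 ≤ Ψ τ := by
    intro τ hτ
    rw [hSeq]
    apply hΨd τ hτ
    intro ρ hρ
    rw [Finset.mem_map] at hρ
    obtain ⟨ρ', hρ', rfl⟩ := hρ
    rw [Finset.mem_filter] at hρ'
    exact ⟨ρ'.2, (hFB ρ' hρ'.1).1, hρ'.2⟩
  have hsub : ∀ ρ ∈ FB T, Icc ((ρ : ℂ).im - 1 / L) ((ρ : ℂ).im + 1 / L) ⊆ RA T := by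
    intro ρ hρ τ hτ
    obtain ⟨_, h1, h2⟩ := hFB ρ hρ
    obtain ⟨h3, h4⟩ := hτ
    have h5 : 0 ≤ τ := by linarith
    constructor
    · rw [abs_of_nonneg h5]; linarith
    · rw [abs_of_nonneg h5]; linarith
  have hSf0 : ∀ τ, 0 ≤ Sf τ := fun τ => Finset.sum_nonneg fun ρ _ => Set.indicator_nonneg (fun _ _ => ha0 ρ) τ
  have hSout : ∀ τ, τ ∉ RA T → Sf τ = 0 := by
    intro τ hτ
    refine Finset.sum_eq_zero fun ρ hρ => ?_
    exact Set.indicator_of_notMem (fun h => hτ (hsub ρ hρ h)) _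
  have hSint : Integrable Sf := by
    apply integrable_finsetSum
    intro ρ _
    rw [integrable_indicator_iff measurableSet_Icc]
    exact (continuousOn_const).integrableOn_Icc
  have hSbd : ∀ τ, ‖Sf τ‖ ≤ ∑ ρ ∈ FB T, a ρ := by
    intro τ
    rw [Real.norm_of_nonneg (hSf0 τ)]
    exact Finset.sum_le_sum fun ρ _ => Set.indicator_le_self' (fun _ _ => ha0 ρ) τ
  have hS2 : Integrable (fun τ => Sf τ ^ 2) := by
    have e : (fun τ => Sf τ ^ 2) = fun τ => Sf τ * Sf τ := by ext τ; ring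
    rw [e]
    exact hSint.mul_bdd hSint.aestronglyMeasurable (Eventually.of_forall hSbd)
  have hSI : ∫ τ, Sf τ ^ 2 ≤ CQ * T := by
    have e1 : ∫ τ in RA T, Sf τ ^ 2 = ∫ τ, Sf τ ^ 2 := by
      apply setIntegral_eq_integral_of_forall_compl_eq_zero
      intro τ hτ
      rw [hSout τ hτ]; norm_num
    rw [← e1]
    refine (setIntegral_mono_on hS2.integrableOn (ion hΨc T) (RA_meas T) hSq).trans (hΨi.trans ?_)
    apply mul_le_mul_of_nonneg_left _ hCQ.le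
    exact div_le_self hT0'.le (by norm_num)
  obtain ⟨y1, y2, y3⟩ := young92 hL0 hB0 hSf0 hSint hS2
  have hkt : ∀ t, Integrable (fun τ => kB92 L B (t - τ)) := fun t => (kB92_int hL0 hB0).1.comp_sub_left t
  have hpt : ∀ t, ∑ ρ ∈ FB T, a ρ * kB92 L B (t - (ρ : ℂ).im) ≤ 2 * L * ∫ τ, Sf τ * kB92 L B (t - τ) := by
    intro t
    have e1 : ∀ τ, Sf τ * kB92 L B (t - τ) = ∑ ρ ∈ FB T,
        (Icc ((ρ : ℂ).im - 1 / L) ((ρ : ℂ).im + 1 / L)).indicator (fun τ => a ρ * kB92 L B (t - τ)) τ := by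
      intro τ
      change (∑ ρ ∈ FB T, (Icc ((ρ : ℂ).im - 1 / L) ((ρ : ℂ).im + 1 / L)).indicator (fun _ => a ρ) τ) * _ = _
      rw [Finset.sum_mul]
      refine Finset.sum_congr rfl fun ρ _ => ?_
      by_cases h : τ ∈ Icc ((ρ : ℂ).im - 1 / L) ((ρ : ℂ).im + 1 / L)
      · rw [Set.indicator_of_mem h, Set.indicator_of_mem h]
      · rw [Set.indicator_of_notMem h, Set.indicator_of_notMem h, zero_mul]
    rw [integral_congr_ae (Eventually.of_forall e1), integral_finsetSum]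
    · rw [Finset.mul_sum]
      refine Finset.sum_le_sum fun ρ _ => ?_
      rw [integral_indicator measurableSet_Icc, integral_const_mul]
      have := mul_le_mul_of_nonneg_left (kavg92 hL0 hB t (ρ : ℂ).im) (ha0 ρ)
      linarith
    · intro ρ _
      rw [integrable_indicator_iff measurableSet_Icc]
      exact ((hkt t).const_mul _).integrableOn
  have hle : ∀ t, (∑ ρ ∈ FB T, a ρ * kB92 L B (t - (ρ : ℂ).im)) ^ 2 ≤
      (2 * L) ^ 2 * (Real.pi * B / L) * ∫ τ, Sf τ ^ 2 * kB92 L B (t - τ) := by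
    intro t
    have h0 : 0 ≤ ∑ ρ ∈ FB T, a ρ * kB92 L B (t - (ρ : ℂ).im) :=
      Finset.sum_nonneg fun ρ _ => mul_nonneg (ha0 ρ) (kB92_nonneg _ _ _)
    calc (∑ ρ ∈ FB T, a ρ * kB92 L B (t - (ρ : ℂ).im)) ^ 2 ≤ (2 * L * ∫ τ, Sf τ * kB92 L B (t - τ)) ^ 2 :=
          pow_le_pow_left₀ h0 (hpt t) 2
      _ = (2 * L) ^ 2 * (∫ τ, Sf τ * kB92 L B (t - τ)) ^ 2 := by ring
      _ ≤ (2 * L) ^ 2 * ((Real.pi * B / L) * ∫ τ, Sf τ ^ 2 * kB92 L B (t - τ)) := by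
          apply mul_le_mul_of_nonneg_left (y2 t) (by positivity)
      _ = _ := by ring
  have hfin := integral_mono_of_nonneg (μ := volume) (Eventually.of_forall fun t => sq_nonneg (∑ ρ ∈ FB T, a ρ * kB92 L B (t - (ρ : ℂ).im)))
    (y1.const_mul ((2 * L) ^ 2 * (Real.pi * B / L))) (Eventually.of_forall hle)
  refine hfin.trans ?_
  rw [integral_const_mul, y3]
  calc (2 * L) ^ 2 * (Real.pi * B / L) * ((∫ τ, Sf τ ^ 2) * (Real.pi * B / L)) =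
        4 * Real.pi ^ 2 * B ^ 2 * ∫ τ, Sf τ ^ 2 := by field_simp; ring
    _ ≤ 4 * Real.pi ^ 2 * B ^ 2 * (CQ * T) := by gcongr
    _ = _ := by ring

theorem Wt_le92 {L v : ℝ} (hL : 1 ≤ L) (hv0 : 0 ≤ v) (hv : v ≤ L / 2) : Wt 9600 v ≤ L ^ 2 * Real.exp (L / 19200) := by
  unfold Wt
  have h1 : v / 9600 ≤ L := by rw [div_le_iff₀ (by norm_num)]; linarith
  have h2 : 0 ≤ v / 9600 := by positivity
  have h3 : v / 9600 ≤ L / 19200 := by rw [div_le_div_iff₀ (by norm_num) (by norm_num)]; linarith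
  gcongr

theorem loc2 : ∃ C : ℝ, 0 < C ∧ ∀ᶠ T : ℝ in atTop, ∀ B : ℝ, 1 ≤ B →
    Integrable (fun t : ℝ => (∑ ρ ∈ ZT T, mx ρ * Wt 9600 (dep (Real.log T) ρ) /
      (1 + (Real.log T * (t - (ρ : ℂ).im) / B) ^ 2)) ^ 2) ∧
    ∫ t : ℝ, (∑ ρ ∈ ZT T, mx ρ * Wt 9600 (dep (Real.log T) ρ) /
      (1 + (Real.log T * (t - (ρ : ℂ).im) / B) ^ 2)) ^ 2 ≤ C * B ^ 2 * T := by
  classical
  obtain ⟨C, hC, hb⟩ := right_sq92
  have hN := NT_nonneg 11
  refine ⟨8 * C + 8, by linarith, ?_⟩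
  have hl := Real.tendsto_log_atTop
  filter_upwards [hb, eventually_ge_atTop (400:ℝ), hl.eventually_ge_atTop 40,
    log_pow_le (NT 11 ^ 2 * Real.pi) 4 (s := 1/9600) (by norm_num)] with T g1 g2 g3 g4
  intro B hB
  have hB0 : 0 < B := by linarith
  set L := Real.log T with hL
  have hL0 : 0 < L := by linarith
  have hT0' : 0 < T := by linarith
  let a : ZS → ℝ := fun ρ => mx ρ * Wt 9600 (L * ((ρ : ℂ).re - 1 / 2))
  have ha0 : ∀ ρ, 0 ≤ a ρ := fun ρ => mul_nonneg (mx_nonneg _) (Wt_nonneg _ _)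
  have hform : ∀ t : ℝ, (∑ ρ ∈ ZT T, mx ρ * Wt 9600 (dep L ρ) / (1 + (L * (t - (ρ : ℂ).im) / B) ^ 2)) =
      ∑ ρ ∈ ZT T, (mx ρ * Wt 9600 (dep L ρ)) * kB92 L B (t - (ρ : ℂ).im) := by
    intro t
    refine Finset.sum_congr rfl fun ρ _ => ?_
    unfold kB92
    rw [mul_one_div]
  simp_rw [hform]
  obtain ⟨i1, i2⟩ := sumk92 hL0 hB0 (ZT T) (fun ρ => mx ρ * Wt 9600 (dep L ρ))
  refine ⟨i2, ?_⟩
  have hk0 : ∀ (ρ : ZS) (t : ℝ), 0 ≤ kB92 L B (t - (ρ : ℂ).im) := fun ρ t => kB92_nonneg _ _ _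
  set W0 := L ^ 2 * Real.exp (L / 19200) with hW0
  -- reflection
  have hrefl : ∀ t : ℝ, ∑ ρ ∈ ZT T, (mx ρ * Wt 9600 (dep L ρ)) * kB92 L B (t - (ρ : ℂ).im) ≤
      2 * ∑ ρ ∈ FR T, a ρ * kB92 L B (t - (ρ : ℂ).im) := by
    intro t
    rw [← Finset.sum_filter_add_sum_filter_not (ZT T) (fun ρ : ZS => 1 / 2 ≤ (ρ : ℂ).re)]
    have e1 : ∑ ρ ∈ (ZT T).filter (fun ρ : ZS => 1 / 2 ≤ (ρ : ℂ).re), (mx ρ * Wt 9600 (dep L ρ)) * kB92 L B (t - (ρ : ℂ).im) =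
        ∑ ρ ∈ FR T, a ρ * kB92 L B (t - (ρ : ℂ).im) := by
      refine Finset.sum_congr rfl fun ρ hρ => ?_
      rw [FR, Finset.mem_filter] at hρ
      unfold dep
      rw [abs_of_nonneg (mul_nonneg hL0.le (by linarith [hρ.2]))]
    have e2 : ∑ ρ ∈ (ZT T).filter (fun ρ : ZS => ¬ 1 / 2 ≤ (ρ : ℂ).re), (mx ρ * Wt 9600 (dep L ρ)) * kB92 L B (t - (ρ : ℂ).im) ≤
        ∑ ρ ∈ FR T, a ρ * kB92 L B (t - (ρ : ℂ).im) := by
      have e3 : ∑ ρ ∈ (ZT T).filter (fun ρ : ZS => ¬ 1 / 2 ≤ (ρ : ℂ).re), (mx ρ * Wt 9600 (dep L ρ)) * kB92 L B (t - (ρ : ℂ).im) =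
          ∑ ρ ∈ ((ZT T).filter (fun ρ : ZS => ¬ 1 / 2 ≤ (ρ : ℂ).re)).map refl.toEmbedding,
            a ρ * kB92 L B (t - (ρ : ℂ).im) := by
        rw [Finset.sum_map]
        refine Finset.sum_congr rfl fun ρ hρ => ?_
        rw [Finset.mem_filter] at hρ
        change _ = mx (refl ρ) * Wt 9600 (L * ((refl ρ : ℂ).re - 1 / 2)) * kB92 L B (t - (refl ρ : ℂ).im)
        unfold dep
        rw [refl_mx, refl_re, refl_im, abs_of_nonpos (mul_nonpos_of_nonneg_of_nonpos hL0.le (by linarith [hρ.2]))]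
        congr 3
        ring
      rw [e3]
      apply Finset.sum_le_sum_of_subset_of_nonneg
      · intro ρ hρ
        rw [Finset.mem_map] at hρ
        obtain ⟨ρ', hρ', rfl⟩ := hρ
        rw [Finset.mem_filter, mem_ZT] at hρ'
        unfold FR
        rw [Finset.mem_filter, mem_ZT]
        change (0 ≤ (refl ρ' : ℂ).im ∧ (refl ρ' : ℂ).im ≤ T) ∧ 1 / 2 ≤ (refl ρ' : ℂ).re
        rw [refl_im, refl_re]
        exact ⟨hρ'.1, by linarith [hρ'.2]⟩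
      · intro ρ _ _
        exact mul_nonneg (ha0 ρ) (hk0 ρ t)
    linarith
  have hsplit : ∀ t : ℝ, ∑ ρ ∈ FR T, a ρ * kB92 L B (t - (ρ : ℂ).im) ≤
      ∑ ρ ∈ FB T, a ρ * kB92 L B (t - (ρ : ℂ).im) + W0 * ∑ ρ ∈ ZT 11, mx ρ * kB92 L B (t - (ρ : ℂ).im) := by
    intro t
    have h1 : FR T ⊆ FB T ∪ (ZT 11).filter (fun ρ : ZS => 1 / 2 ≤ (ρ : ℂ).re) := by
      intro ρ hρ
      unfold FR at hρ
      rw [Finset.mem_filter] at hρ
      rw [Finset.mem_union]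
      by_cases h : 11 ≤ (ρ : ℂ).im
      · left
        unfold FB
        rw [Finset.mem_filter]
        exact ⟨hρ.1, hρ.2, h⟩
      · right
        rw [Finset.mem_filter]
        rw [mem_ZT] at hρ ⊢
        exact ⟨⟨hρ.1.1, (not_le.mp h).le⟩, hρ.2⟩
    have hn : ∀ ρ : ZS, 0 ≤ a ρ * kB92 L B (t - (ρ : ℂ).im) := fun ρ => mul_nonneg (ha0 ρ) (hk0 ρ t)
    have h2 : ∑ ρ ∈ FR T, a ρ * kB92 L B (t - (ρ : ℂ).im) ≤
        ∑ ρ ∈ FB T, a ρ * kB92 L B (t - (ρ : ℂ).im) +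
        ∑ ρ ∈ (ZT 11).filter (fun ρ : ZS => 1 / 2 ≤ (ρ : ℂ).re), a ρ * kB92 L B (t - (ρ : ℂ).im) := by
      refine (Finset.sum_le_sum_of_subset_of_nonneg h1 fun ρ _ _ => hn ρ).trans ?_
      rw [← Finset.sum_union_inter]
      have : 0 ≤ ∑ ρ ∈ FB T ∩ (ZT 11).filter (fun ρ : ZS => 1 / 2 ≤ (ρ : ℂ).re), a ρ * kB92 L B (t - (ρ : ℂ).im) :=
        Finset.sum_nonneg fun ρ _ => hn ρ
      linarith
    have h3 : ∑ ρ ∈ (ZT 11).filter (fun ρ : ZS => 1 / 2 ≤ (ρ : ℂ).re), a ρ * kB92 L B (t - (ρ : ℂ).im) ≤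
        ∑ ρ ∈ (ZT 11).filter (fun ρ : ZS => 1 / 2 ≤ (ρ : ℂ).re), W0 * (mx ρ * kB92 L B (t - (ρ : ℂ).im)) := by
      refine Finset.sum_le_sum fun ρ hρ => ?_
      rw [Finset.mem_filter] at hρ
      have hz := xi_eq_zero_iff.mp ρ.2
      have h4 : Wt 9600 (L * ((ρ : ℂ).re - 1 / 2)) ≤ W0 := by
        apply Wt_le92 (by linarith)
        · exact mul_nonneg hL0.le (by linarith [hρ.2])
        · have : (ρ : ℂ).re - 1 / 2 ≤ 1 / 2 := by linarith [hz.2.1]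
          nlinarith
      have h5 : 0 ≤ mx ρ * kB92 L B (t - (ρ : ℂ).im) := mul_nonneg (mx_nonneg _) (hk0 ρ t)
      calc a ρ * kB92 L B (t - (ρ : ℂ).im) = Wt 9600 (L * ((ρ : ℂ).re - 1 / 2)) * (mx ρ * kB92 L B (t - (ρ : ℂ).im)) := by
            change mx ρ * Wt 9600 (L * ((ρ : ℂ).re - 1 / 2)) * _ = _
            ring
        _ ≤ _ := by gcongr
    have h6 : ∑ ρ ∈ (ZT 11).filter (fun ρ : ZS => 1 / 2 ≤ (ρ : ℂ).re), W0 * (mx ρ * kB92 L B (t - (ρ : ℂ).im)) ≤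
        W0 * ∑ ρ ∈ ZT 11, mx ρ * kB92 L B (t - (ρ : ℂ).im) := by
      rw [Finset.mul_sum]
      apply Finset.sum_le_sum_of_subset_of_nonneg (Finset.filter_subset _ _)
      intro ρ _ _
      exact mul_nonneg (by positivity) (mul_nonneg (mx_nonneg _) (hk0 ρ t))
    linarith
  obtain ⟨j1, j2⟩ := sumk92 hL0 hB0 (FB T) a
  obtain ⟨k1, k2⟩ := sumk92 hL0 hB0 (ZT 11) (fun ρ => mx ρ)
  have hP : ∫ t, (∑ ρ ∈ ZT 11, mx ρ * kB92 L B (t - (ρ : ℂ).im)) ^ 2 ≤ NT 11 ^ 2 * (Real.pi * B / L) := by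
    have h1 : ∀ t : ℝ, (∑ ρ ∈ ZT 11, mx ρ * kB92 L B (t - (ρ : ℂ).im)) ^ 2 ≤
        NT 11 * ∑ ρ ∈ ZT 11, mx ρ * kB92 L B (t - (ρ : ℂ).im) := by
      intro t
      have h2 : 0 ≤ ∑ ρ ∈ ZT 11, mx ρ * kB92 L B (t - (ρ : ℂ).im) :=
        Finset.sum_nonneg fun ρ _ => mul_nonneg (mx_nonneg _) (hk0 ρ t)
      have h3 : ∑ ρ ∈ ZT 11, mx ρ * kB92 L B (t - (ρ : ℂ).im) ≤ NT 11 := by
        rw [← sum_ZT_mx]
        exact Finset.sum_le_sum fun ρ _ => mul_le_of_le_one_right (mx_nonneg _) (kB92_le_one _ _ _)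
      rw [pow_two]
      exact mul_le_mul_of_nonneg_right h3 h2
    refine (integral_mono k2 (k1.const_mul (NT 11)) h1).trans (le_of_eq ?_)
    rw [integral_const_mul, integral_finsetSum]
    · have h4 : ∀ ρ : ZS, ∫ t, mx ρ * kB92 L B (t - (ρ : ℂ).im) = mx ρ * (Real.pi * B / L) := by
        intro ρ
        rw [integral_const_mul, ← (kB92_int hL0 hB0).2]
        congr 1
        exact integral_sub_right_eq_self (kB92 L B) (ρ : ℂ).im
      simp_rw [h4]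
      rw [← Finset.sum_mul, sum_ZT_mx]
      ring
    · intro ρ _
      exact ((kB92_int hL0 hB0).1.comp_sub_right _).const_mul _
  have hpt : ∀ t : ℝ, (∑ ρ ∈ ZT T, (mx ρ * Wt 9600 (dep L ρ)) * kB92 L B (t - (ρ : ℂ).im)) ^ 2 ≤
      8 * (∑ ρ ∈ FB T, a ρ * kB92 L B (t - (ρ : ℂ).im)) ^ 2 +
      8 * W0 ^ 2 * (∑ ρ ∈ ZT 11, mx ρ * kB92 L B (t - (ρ : ℂ).im)) ^ 2 := by
    intro t
    have h0 : 0 ≤ ∑ ρ ∈ ZT T, (mx ρ * Wt 9600 (dep L ρ)) * kB92 L B (t - (ρ : ℂ).im) :=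
      Finset.sum_nonneg fun ρ _ => mul_nonneg (mul_nonneg (mx_nonneg _) (Wt_nonneg _ _)) (hk0 ρ t)
    have h1 := (hrefl t).trans (mul_le_mul_of_nonneg_left (hsplit t) (by norm_num : (0:ℝ) ≤ 2))
    refine (pow_le_pow_left₀ h0 h1 2).trans ?_
    nlinarith [sq_nonneg ((∑ ρ ∈ FB T, a ρ * kB92 L B (t - (ρ : ℂ).im)) - W0 * ∑ ρ ∈ ZT 11, mx ρ * kB92 L B (t - (ρ : ℂ).im))]
  have hi : ∫ t : ℝ, (∑ ρ ∈ ZT T, (mx ρ * Wt 9600 (dep L ρ)) * kB92 L B (t - (ρ : ℂ).im)) ^ 2 ≤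
      ∫ t : ℝ, (8 * (∑ ρ ∈ FB T, a ρ * kB92 L B (t - (ρ : ℂ).im)) ^ 2 +
      8 * W0 ^ 2 * (∑ ρ ∈ ZT 11, mx ρ * kB92 L B (t - (ρ : ℂ).im)) ^ 2) :=
    integral_mono i2 ((j2.const_mul 8).add (k2.const_mul (8 * W0 ^ 2))) hpt
  rw [integral_add (j2.const_mul 8) (k2.const_mul (8 * W0 ^ 2)), integral_const_mul, integral_const_mul] at hi
  have h1 := g1 B hB
  have h2 : 8 * W0 ^ 2 * (NT 11 ^ 2 * (Real.pi * B / L)) ≤ 8 * B ^ 2 * T := by
    have h3 : W0 ^ 2 = L ^ 4 * T ^ (1 / 9600 : ℝ) := by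
      rw [hW0, mul_pow, ← Real.exp_nat_mul, Real.rpow_def_of_pos hT0', ← hL]
      congr 1
      · ring
      · congr 1
        push_cast
        ring
    have h4 : NT 11 ^ 2 * Real.pi * W0 ^ 2 ≤ T := by
      rw [h3]
      calc NT 11 ^ 2 * Real.pi * (L ^ 4 * T ^ (1 / 9600 : ℝ)) = NT 11 ^ 2 * Real.pi * L ^ 4 * T ^ (1 / 9600 : ℝ) := by ring
        _ ≤ T := g4
    have h5 : B / L ≤ B ^ 2 := by
      rw [div_le_iff₀ hL0]
      nlinarith [mul_pos hB0 hB0]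
    calc 8 * W0 ^ 2 * (NT 11 ^ 2 * (Real.pi * B / L)) = 8 * (NT 11 ^ 2 * Real.pi * W0 ^ 2) * (B / L) := by ring
      _ ≤ 8 * T * B ^ 2 := by gcongr
      _ = _ := by ring
  have h6 : 8 * W0 ^ 2 * ∫ t, (∑ ρ ∈ ZT 11, mx ρ * kB92 L B (t - (ρ : ℂ).im)) ^ 2 ≤ 8 * W0 ^ 2 * (NT 11 ^ 2 * (Real.pi * B / L)) := by
    gcongr
  have h7 : 8 * ∫ t, (∑ ρ ∈ FB T, a ρ * kB92 L B (t - (ρ : ℂ).im)) ^ 2 ≤ 8 * (C * B ^ 2 * T) := by
    gcongr
  linarith

end Pool.Agent.Helper92.RG
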