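import Pool.Agent.Helper92.RG.ParsW
import Pool.Agent.Helper92.RG.Loc2
import Pool.Agent.Helper92.RG.KTay

/-!
# RG-EsSq
Size of the depth effect at scale `B`. `L = log T`, `a = L (re ρ - 1/2)` (so `dep L ρ = |a|`), `u = L (t - γ)`. By `ktay_scl`
`Es (scl f.h B) T t = M(t) + R(t)`, `M(t) = ∑ mx ρ (a²/2) ker (y² h(By)) 0 u`, `|R(t)| <= C/B ∑ mx ρ (|a|/B)⁴ e^(|a|/B) / (1 + (u/B)²)`.

For `B >= 19200`, `a⁴ e^(|a|/B) <= a⁴ e^(|a|/19200) <= C' Wt 9600 |a|` (`Wt 9600 v = (v/9600)² e^(v/9600)`, and `v² <= C e^(v/19200)`), so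
`∫ R² <= C B^(-2) B^(-8) ∫ (∑ mx Wt / (1 + (u/B)²))² <= C B^(-8) T` by `loc2`.

By `parseval_w` (with `h = y² h(By)`, weights `mx ρ a²/2`): `∫ M² = (1/4) (2π/L) ∫ y⁴ h(By)² Sq2 T y dy`, `y⁴ h(By)² = B^(-4) (By)⁴ h(By)² <= B^(-4) (By)⁴ C bmp(By)²`
(`h(By) ≠ 0` only for `|By| < 1/2`, where `bmp(By) = 1`), so `∫ M² <= C B^(-4) T Qs T B`. Finally `(M + R)² <= 2M² + 2R²`.
-/

open MeasureTheory Set Filter Topology
open Pool.Agent.Helper57.Zeta Pool.Agent.Helper57.PC Pool.Agent.Helper57.LH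
open Pool.Agent.Helper78.SG
open Pool.Agent.Helper4.PC (CT)
open scoped ContDiff ENNReal

namespace Pool.Agent.Helper92.RG

private lemma ker_cont53 (f : TF) (a : ℝ) : Continuous (fun u => ker f.h a u) := by
  unfold Pool.Agent.Helper78.SG.ker
  have hc : Continuous f.h := f.smooth.continuous
  have hb : Integrable (fun y => f.h y * Real.cosh (a * y)) := by
    refine Continuous.integrable_of_hasCompactSupport (by fun_prop) ?_
    exact (pa_hcs f).mul_right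
  refine continuous_of_dominated (bound := fun y => ‖f.h y * Real.cosh (a * y)‖) ?_ ?_ hb.norm ?_
  · intro u
    exact (by fun_prop : Continuous fun y => f.h y * (Real.cosh (a * y) * Real.cos (u * y))).aestronglyMeasurable
  · intro u
    refine Filter.Eventually.of_forall fun y => ?_
    rw [← mul_assoc, norm_mul]
    refine mul_le_of_le_one_right (norm_nonneg _) ?_
    rw [Real.norm_eq_abs]
    exact Real.abs_cos_le_one _
  · refine Filter.Eventually.of_forall fun y => ?_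
    fun_prop

private lemma weight53 {B : ℝ} (hB : 19200 ≤ B) (a : ℝ) :
    (a / B) ^ 4 * Real.exp (|a| / B) ≤ 9600 ^ 2 * (2 * 19200 ^ 2) / B ^ 4 * Wt 9600 |a| := by
  have hB0 : 0 < B := by linarith
  unfold Wt
  have ha : 0 ≤ |a| := abs_nonneg a
  have e1 : (a / B) ^ 4 = |a| ^ 4 / B ^ 4 := by
    rw [div_pow, ← abs_of_nonneg (by positivity : (0 : ℝ) ≤ a ^ 4), abs_pow]
  rw [e1]
  generalize |a| = v at *
  have e2 : Real.exp (v / B) ≤ Real.exp (v / 19200) := by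
    apply Real.exp_le_exp.2
    gcongr
  have e3 : Real.exp (v / 9600) = Real.exp (v / 19200) * Real.exp (v / 19200) := by
    rw [← Real.exp_add]
    congr 1
    ring
  have e4 : v ^ 2 ≤ 2 * 19200 ^ 2 * Real.exp (v / 19200) := by
    have h := Real.quadratic_le_exp_of_nonneg (x := v / 19200) (by positivity)
    have h2 : (v / 19200) ^ 2 / 2 ≤ Real.exp (v / 19200) := by
      have : 0 ≤ v / 19200 := by positivity
      linarith
    calc v ^ 2 = 2 * 19200 ^ 2 * ((v / 19200) ^ 2 / 2) := by ring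
      _ ≤ _ := by gcongr
  rw [e3]
  calc v ^ 4 / B ^ 4 * Real.exp (v / B) ≤ v ^ 4 / B ^ 4 * Real.exp (v / 19200) := by gcongr
    _ = (v ^ 2 / B ^ 4 * Real.exp (v / 19200)) * v ^ 2 := by ring
    _ ≤ (v ^ 2 / B ^ 4 * Real.exp (v / 19200)) * (2 * 19200 ^ 2 * Real.exp (v / 19200)) := by
        gcongr
    _ = 9600 ^ 2 * (2 * 19200 ^ 2) / B ^ 4 * ((v / 9600) ^ 2 *
        (Real.exp (v / 19200) * Real.exp (v / 19200))) := by ring

private lemma qs_int53 {B : ℝ} (hB : 0 < B) (T : ℝ) :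
    Integrable (fun y => ((B * y) ^ 4 * bmp (B * y) ^ 2) * Sq2 T y) := by
  refine Continuous.integrable_of_hasCompactSupport ?_ ?_
  · have h1 : Continuous (fun y => bmp (B * y)) := bmp.continuous.comp (by fun_prop)
    unfold Sq2
    fun_prop
  · refine HasCompactSupport.intro (isCompact_Icc (a := -(1 / B)) (b := 1 / B)) fun y hy => ?_
    have h2 : bmp (B * y) = 0 := by
      apply bmp.zero_of_le_dist
      change 1 ≤ dist (B * y) 0
      rw [Real.dist_eq, sub_zero, abs_mul, abs_of_pos hB]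
      by_contra hcon
      push Not at hcon
      apply hy
      have h3 : |y| < 1 / B := by
        rw [lt_div_iff₀ hB]
        linarith
      exact ⟨(abs_lt.1 h3).1.le, (abs_lt.1 h3).2.le⟩
    rw [h2]
    ring

private lemma Sq2_nonneg53 (T y : ℝ) : 0 ≤ Sq2 T y := by
  unfold Sq2
  positivity

private lemma qs_nonneg53 {B T : ℝ} (hB : 0 < B) (hT : 1 < T) : 0 ≤ Qs T B := by
  unfold Qs
  have h1 : 0 < Real.log T := Real.log_pos hT
  have h2 := Real.pi_pos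
  refine mul_nonneg (by positivity) (integral_nonneg fun y => ?_)
  exact mul_nonneg (mul_nonneg (by positivity) (sq_nonneg _)) (Sq2_nonneg53 T y)

theorem es_sq (f : TF) : ∃ C : ℝ, 0 < C ∧ ∀ B : ℝ, 19200 ≤ B → ∀ᶠ T : ℝ in atTop,
    Integrable (fun t => Es (scl f.h B) T t ^ 2) ∧
    ∫ t, Es (scl f.h B) T t ^ 2 ≤ C * T * (Qs T B / B ^ 4 + 1 / B ^ 8) := by
  obtain ⟨C1, hC1, hK⟩ := ktay_scl f
  obtain ⟨C2, hC2, hL2⟩ := loc2
  obtain ⟨M0, hM0⟩ := (pa_hcs f).exists_bound_of_continuous f.smooth.continuous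
  set M := |M0| + 1 with hMd
  have hMp : 0 < M := by positivity
  have hMb : ∀ x, |f.h x| ≤ M := fun x => by
    have h1 := hM0 x
    rw [Real.norm_eq_abs] at h1
    have h2 := le_abs_self M0
    linarith
  set C3 : ℝ := 9600 ^ 2 * (2 * 19200 ^ 2) with hC3
  have hC3p : 0 < C3 := by positivity
  refine ⟨M ^ 2 / 2 + 2 * ((C1 * C3) ^ 2 * C2) + 1, by positivity, fun B hB => ?_⟩
  have hB0 : 0 < B := by linarith
  have hB1 : 1 ≤ B := by linarith
  filter_upwards [hL2, eventually_gt_atTop 3] with T hT hT3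
  obtain ⟨iS, hS⟩ := hT B hB1
  have hT0 : 0 < T := by linarith
  have hL0 : 0 < Real.log T := Real.log_pos (by linarith)
  have hpi := Real.pi_pos
  set L := Real.log T with hL
  set hh := scl f.h B with hhd
  have hhs : ContDiff ℝ ∞ hh := (TFs f B hB1).smooth
  have hhc : HasCompactSupport hh := pa_hcs (TFs f B hB1)
  have hhe : ∀ x, hh (-x) = hh x := (TFs f B hB1).even
  set g : ℝ → ℝ := fun y => y ^ 2 * hh y with hg
  have hgs : ContDiff ℝ ∞ g := (contDiff_id.pow 2).mul hhs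
  have hgc : HasCompactSupport g := hhc.mul_left
  have hge : ∀ x, g (-x) = g x := fun x => by
    rw [hg]
    simp only
    rw [hhe, neg_sq]
  obtain ⟨iM, hM2⟩ := parseval_w hgs hgc hge hL0 (ZT T)
    (fun ρ : ZS => mx ρ * ((L * ((ρ : ℂ).re - 1 / 2)) ^ 2 / 2)) (fun ρ => (ρ : ℂ).im)
  set Mf : ℝ → ℝ := fun t => ∑ ρ ∈ ZT T, mx ρ * ((L * ((ρ : ℂ).re - 1 / 2)) ^ 2 / 2) *
    ker g 0 (L * (t - (ρ : ℂ).im)) with hMf
  set Sf : ℝ → ℝ := fun t => ∑ ρ ∈ ZT T, mx ρ * Wt 9600 (dep L ρ) /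
    (1 + (L * (t - (ρ : ℂ).im) / B) ^ 2) with hSf
  set K := C1 * C3 / B ^ 5 with hKd
  have hKp : 0 < K := by positivity
  -- pointwise bound of the remainder
  have hR : ∀ t, |Es hh T t - Mf t| ≤ K * Sf t := by
    intro t
    have e1 : Es hh T t - Mf t = ∑ ρ ∈ ZT T, mx ρ * (ker hh (L * ((ρ : ℂ).re - 1 / 2)) (L * (t - (ρ : ℂ).im)) -
        ker hh 0 (L * (t - (ρ : ℂ).im)) - (L * ((ρ : ℂ).re - 1 / 2)) ^ 2 / 2 * ker g 0 (L * (t - (ρ : ℂ).im))) := by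
      unfold Es Xs Ys kz
      rw [hMf, ← Finset.sum_sub_distrib, ← Finset.sum_sub_distrib]
      refine Finset.sum_congr rfl fun ρ _ => ?_
      rw [← hL]
      ring
    rw [e1, hSf, Finset.mul_sum]
    refine (Finset.abs_sum_le_sum_abs _ _).trans (Finset.sum_le_sum fun ρ _ => ?_)
    rw [abs_mul, abs_of_nonneg (mx_nonneg _)]
    have h1 := hK B hB1 (L * ((ρ : ℂ).re - 1 / 2)) (L * (t - (ρ : ℂ).im))
    have h2 := weight53 hB (L * ((ρ : ℂ).re - 1 / 2))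
    have h3 : dep L ρ = |L * ((ρ : ℂ).re - 1 / 2)| := rfl
    rw [h3]
    have hm := mx_nonneg (ρ : ℂ)
    have hden : 0 < 1 + (L * (t - (ρ : ℂ).im) / B) ^ 2 := by positivity
    calc mx (ρ : ℂ) * |ker hh (L * ((ρ : ℂ).re - 1 / 2)) (L * (t - (ρ : ℂ).im)) -
        ker hh 0 (L * (t - (ρ : ℂ).im)) - (L * ((ρ : ℂ).re - 1 / 2)) ^ 2 / 2 * ker g 0 (L * (t - (ρ : ℂ).im))|
        ≤ mx (ρ : ℂ) * (C1 / B * ((L * ((ρ : ℂ).re - 1 / 2) / B) ^ 4 *
          Real.exp (|L * ((ρ : ℂ).re - 1 / 2)| / B)) / (1 + (L * (t - (ρ : ℂ).im) / B) ^ 2)) :=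
          mul_le_mul_of_nonneg_left h1 hm
      _ ≤ mx (ρ : ℂ) * (C1 / B * (C3 / B ^ 4 * Wt 9600 |L * ((ρ : ℂ).re - 1 / 2)|) /
          (1 + (L * (t - (ρ : ℂ).im) / B) ^ 2)) := by
          gcongr
      _ = K * (mx (ρ : ℂ) * Wt 9600 |L * ((ρ : ℂ).re - 1 / 2)| /
          (1 + (L * (t - (ρ : ℂ).im) / B) ^ 2)) := by
          rw [hKd]
          field_simp
  have hptw : ∀ t, Es hh T t ^ 2 ≤ 2 * Mf t ^ 2 + 2 * K ^ 2 * Sf t ^ 2 := by
    intro t
    have h1 := hR t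
    have h2 : (Es hh T t - Mf t) ^ 2 ≤ (K * Sf t) ^ 2 := by
      rw [← sq_abs (Es hh T t - Mf t)]
      exact pow_le_pow_left₀ (abs_nonneg _) h1 2
    nlinarith only [h2, sq_nonneg (Es hh T t - 2 * Mf t)]
  have hEc : Continuous (Es hh T) := by
    have h1 : ∀ a, Continuous (fun u => ker hh a u) := ker_cont53 (TFs f B hB1)
    unfold Es Xs Ys kz
    refine Continuous.sub ?_ ?_
    · exact continuous_finsetSum _ fun ρ _ => continuous_const.mul ((h1 _).comp (by fun_prop))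
    · exact continuous_finsetSum _ fun ρ _ => continuous_const.mul ((h1 _).comp (by fun_prop))
  have iR : Integrable (fun t => 2 * Mf t ^ 2 + 2 * K ^ 2 * Sf t ^ 2) :=
    (iM.const_mul 2).add (iS.const_mul (2 * K ^ 2))
  have iE : Integrable (fun t => Es hh T t ^ 2) := by
    refine iR.mono' (hEc.pow 2).aestronglyMeasurable ?_
    filter_upwards with t
    rw [Real.norm_of_nonneg (sq_nonneg _)]
    exact hptw t
  refine ⟨iE, ?_⟩
  have hI1 : ∫ t, Es hh T t ^ 2 ≤ 2 * (∫ t, Mf t ^ 2) + 2 * K ^ 2 * ∫ t, Sf t ^ 2 := by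
    rw [← integral_const_mul, ← integral_const_mul, ← integral_add (iM.const_mul 2) (iS.const_mul (2 * K ^ 2))]
    exact integral_mono iE iR hptw
  have hI2 : ∫ t, Mf t ^ 2 ≤ M ^ 2 / 4 * (T * Qs T B / B ^ 4) := by
    rw [hM2]
    have hcs : ∀ y, (∑ ρ ∈ ZT T, mx ρ * ((L * ((ρ : ℂ).re - 1 / 2)) ^ 2 / 2) * Real.cos (y * (L * (ρ : ℂ).im))) ^ 2 +
        (∑ ρ ∈ ZT T, mx ρ * ((L * ((ρ : ℂ).re - 1 / 2)) ^ 2 / 2) * Real.sin (y * (L * (ρ : ℂ).im))) ^ 2 =
        1 / 4 * Sq2 T y := by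
      intro y
      have e1 : ∀ w : ZS → ℝ, ∑ ρ ∈ ZT T, mx ρ * ((L * ((ρ : ℂ).re - 1 / 2)) ^ 2 / 2) * w ρ =
          1 / 2 * ∑ ρ ∈ ZT T, mx ρ * dep L ρ ^ 2 * w ρ := by
        intro w
        rw [Finset.mul_sum]
        refine Finset.sum_congr rfl fun ρ _ => ?_
        have h3 : dep L ρ = |L * ((ρ : ℂ).re - 1 / 2)| := rfl
        rw [h3, sq_abs]
        ring
      rw [e1 (fun ρ => Real.cos (y * (L * (ρ : ℂ).im))), e1 (fun ρ => Real.sin (y * (L * (ρ : ℂ).im)))]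
      unfold Sq2
      rw [← hL]
      ring
    have hle : ∫ y, g y ^ 2 * ((∑ ρ ∈ ZT T, mx ρ * ((L * ((ρ : ℂ).re - 1 / 2)) ^ 2 / 2) * Real.cos (y * (L * (ρ : ℂ).im))) ^ 2 +
        (∑ ρ ∈ ZT T, mx ρ * ((L * ((ρ : ℂ).re - 1 / 2)) ^ 2 / 2) * Real.sin (y * (L * (ρ : ℂ).im))) ^ 2) ≤
        M ^ 2 / 4 / B ^ 4 * ∫ y, ((B * y) ^ 4 * bmp (B * y) ^ 2) * Sq2 T y := by
      rw [← integral_const_mul]
      refine integral_mono_of_nonneg (Eventually.of_forall fun y => ?_) ((qs_int53 hB0 T).const_mul _)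
        (Eventually.of_forall fun y => ?_)
      · exact mul_nonneg (sq_nonneg _) (by positivity)
      · simp only
        rw [hcs]
        have hSq := Sq2_nonneg53 T y
        have h1 : hh y ^ 2 ≤ M ^ 2 * bmp (B * y) ^ 2 := by
          by_cases hy : f.th ≤ |B * y|
          · have : hh y = 0 := f.supp _ hy
            rw [this]
            nlinarith [mul_nonneg (sq_nonneg M) (sq_nonneg (bmp (B * y)))]
          · push Not at hy
            have h2 : bmp (B * y) = 1 := by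
              apply bmp.one_of_mem_closedBall
              rw [Metric.mem_closedBall, Real.dist_eq, sub_zero]
              have h3 := f.th1
              have h4 : bmp.rIn = 1 / 2 := rfl
              rw [h4]
              linarith
            rw [h2, one_pow, mul_one, ← sq_abs]
            exact pow_le_pow_left₀ (abs_nonneg _) (hMb _) 2
        have h5 : g y ^ 2 = y ^ 4 * hh y ^ 2 := by rw [hg]; ring
        rw [h5]
        calc y ^ 4 * hh y ^ 2 * (1 / 4 * Sq2 T y) ≤ y ^ 4 * (M ^ 2 * bmp (B * y) ^ 2) * (1 / 4 * Sq2 T y) := by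
              gcongr
          _ = M ^ 2 / 4 / B ^ 4 * (((B * y) ^ 4 * bmp (B * y) ^ 2) * Sq2 T y) := by
              field_simp
    calc 2 * Real.pi / L * ∫ y, g y ^ 2 * ((∑ ρ ∈ ZT T, mx ρ * ((L * ((ρ : ℂ).re - 1 / 2)) ^ 2 / 2) * Real.cos (y * (L * (ρ : ℂ).im))) ^ 2 +
        (∑ ρ ∈ ZT T, mx ρ * ((L * ((ρ : ℂ).re - 1 / 2)) ^ 2 / 2) * Real.sin (y * (L * (ρ : ℂ).im))) ^ 2)
        ≤ 2 * Real.pi / L * (M ^ 2 / 4 / B ^ 4 * ∫ y, ((B * y) ^ 4 * bmp (B * y) ^ 2) * Sq2 T y) := by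
          gcongr
      _ = M ^ 2 / 4 * (T * Qs T B / B ^ 4) := by
          unfold Qs
          rw [← hL]
          field_simp
  have hQ0 := qs_nonneg53 hB0 (show 1 < T by linarith)
  have hI3 : K ^ 2 * ∫ t, Sf t ^ 2 ≤ (C1 * C3) ^ 2 * C2 * (T / B ^ 8) := by
    calc K ^ 2 * ∫ t, Sf t ^ 2 ≤ K ^ 2 * (C2 * B ^ 2 * T) := by gcongr
      _ = (C1 * C3) ^ 2 * C2 * (T / B ^ 8) := by
          rw [hKd]
          field_simp
  have hQ1 : 0 ≤ T * Qs T B / B ^ 4 := by positivity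
  have hQ2 : 0 ≤ T / B ^ 8 := by positivity
  have hc : 0 ≤ (C1 * C3) ^ 2 * C2 := by positivity
  calc ∫ t, Es hh T t ^ 2 ≤ 2 * (∫ t, Mf t ^ 2) + 2 * K ^ 2 * ∫ t, Sf t ^ 2 := hI1
    _ ≤ 2 * (M ^ 2 / 4 * (T * Qs T B / B ^ 4)) + 2 * ((C1 * C3) ^ 2 * C2 * (T / B ^ 8)) := by
        linarith
    _ ≤ (M ^ 2 / 2 + 2 * ((C1 * C3) ^ 2 * C2) + 1) * (T * Qs T B / B ^ 4) +
        (M ^ 2 / 2 + 2 * ((C1 * C3) ^ 2 * C2) + 1) * (T / B ^ 8) := by
        have hM2' : 0 ≤ M ^ 2 := sq_nonneg M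
        generalize T * Qs T B / B ^ 4 = p at *
        generalize T / B ^ 8 = q at *
        generalize (C1 * C3) ^ 2 * C2 = c at *
        nlinarith [mul_nonneg hM2' hQ2, mul_nonneg hc hQ1]
    _ = _ := by ring

end Pool.Agent.Helper92.RG
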