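import Pool.Agent.Helper92.RG.ParsW
import Pool.Agent.Helper92.RG.Loc2

/-!
# RG-Good
Good scales. `Qs T B = 2π/(L T) ∫ (By)⁴ bmp(By)² Sq2 T y dy`, `L = log T`, `bmp` is `1` on `[-1/2, 1/2]` and `0` off `[-1, 1]`.

1. `qs_nonneg`: the integrand is nonnegative.
2. `qs_le`: for every real `y`, `∑_j (2^j y)⁴ bmp (2^j y)² <= 2 * 1_{|y| <= 1}` (geometric: only `2^j |y| <= 1` contribute, and
   `∑ (2^j |y|)⁴ <= 16/15`); so the sum is at most `2 * 2π/(LT) ∫_{|y| <= 1} Sq2 T y dy <= 2 * 2π/(LT) ∫ h₁ y ² Sq2 T y dy` with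
   `h₁` a smooth even compactly supported function, `h₁ = 1` on `[-1, 1]`; by `parseval_w` (with `c ρ = mx ρ * dep² `, `g ρ = im ρ`) this is
   `2/T ∫ (∑ mx ρ dep² ker h₁ 0 (L (t - γ)))² dt`, `|ker h₁ 0 u| <= C / (1 + u²)`, `dep² <= 9600² Wt 9600 dep`, and `loc2` with `B = 1`.
3. `good_scale`: if it fails for `J, ε` then for every `j >= J` eventually along `U` (ultrafilter!) `Qs T (2^j) > ε`; take `n` values of `j` with
   `n ε > C` and intersect with `qs_le`: contradiction.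
-/

open MeasureTheory Set Filter Topology
open Pool.Agent.Helper57.Zeta Pool.Agent.Helper57.PC Pool.Agent.Helper57.LH
open Pool.Agent.Helper78.SG
open Pool.Agent.Helper4.PC (CT)
open scoped ContDiff ENNReal

namespace Pool.Agent.Helper92.RG

private theorem h27_sq2_nonneg (T y : ℝ) : 0 ≤ Sq2 T y := by
  unfold Sq2
  positivity

theorem qs_nonneg {T : ℝ} (hT : 1 < T) (B : ℝ) : 0 ≤ Qs T B := by
  unfold Qs
  have hL : 0 < Real.log T := Real.log_pos hT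
  refine mul_nonneg (by positivity) (integral_nonneg fun y => ?_)
  exact mul_nonneg (by positivity) (h27_sq2_nonneg T y)

private theorem h27_bmp_zero {x : ℝ} (hx : 1 ≤ |x|) : bmp x = 0 := by
  refine bmp.zero_of_le_dist ?_
  rw [Real.dist_eq, sub_zero]
  exact hx

private theorem h27_bmp_sq_le (x : ℝ) : bmp x ^ 2 ≤ 1 := by
  have h0 : 0 ≤ bmp x := bmp.nonneg
  have h1 : bmp x ≤ 1 := bmp.le_one
  nlinarith

private theorem h27_geom (y : ℝ) (J : ℕ) :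
    ∑ j ∈ Finset.range J, ((2 ^ j * y) ^ 4 * bmp (2 ^ j * y) ^ 2) ≤ (2 ^ J * y) ^ 4 / 15 ∧
    ∑ j ∈ Finset.range J, ((2 ^ j * y) ^ 4 * bmp (2 ^ j * y) ^ 2) ≤ 16 / 15 := by
  induction J with
  | zero =>
    simp only [Finset.range_zero, Finset.sum_empty]
    exact ⟨by positivity, by norm_num⟩
  | succ J ih =>
    rw [Finset.sum_range_succ]
    have h1 : (2 ^ J * y) ^ 4 * bmp (2 ^ J * y) ^ 2 ≤ (2 ^ J * y) ^ 4 * 1 :=
      mul_le_mul_of_nonneg_left (h27_bmp_sq_le _) (by positivity)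
    have h2 : (2 ^ (J + 1) * y) ^ 4 = 16 * (2 ^ J * y) ^ 4 := by ring
    refine ⟨?_, ?_⟩
    · rw [h2]
      linarith [ih.1]
    · rcases le_or_gt 1 |2 ^ J * y| with h | h
      · rw [h27_bmp_zero h]
        have := ih.2
        linarith
      · have h3 : (2 ^ J * y) ^ 4 ≤ 1 := by
          have h4 : |2 ^ J * y| ^ 4 ≤ 1 := pow_le_one₀ (abs_nonneg _) h.le
          have h5 : |2 ^ J * y| ^ 4 = (2 ^ J * y) ^ 4 := by
            rw [← abs_pow, abs_of_nonneg (by positivity)]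
          rwa [h5] at h4
        linarith [ih.1]

/-- A test function which is `1` on `[-1/8, 1/8]`. -/
private noncomputable def h27_f : TF where
  h := (⟨1 / 8, 1 / 4, by norm_num, by norm_num⟩ : ContDiffBump (0 : ℝ))
  th := 1 / 4
  smooth := ContDiffBump.contDiff _
  even := fun x => ContDiffBump.neg _ x
  th0 := by norm_num
  th1 := by norm_num
  supp := fun x hx => by
    refine ContDiffBump.zero_of_le_dist _ ?_
    rw [Real.dist_eq, sub_zero]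
    exact hx

/-- A smooth function which is `1` on `[-1, 1]`. -/
private noncomputable def h27_h (y : ℝ) : ℝ := h27_f.h (1 / 8 * y)

private theorem h27_h_smooth : ContDiff ℝ ∞ h27_h :=
  h27_f.smooth.comp (contDiff_const.mul contDiff_id)

private theorem h27_h_even (x : ℝ) : h27_h (-x) = h27_h x := by
  unfold h27_h
  rw [mul_neg, h27_f.even]

private theorem h27_h_cs : HasCompactSupport h27_h := by
  refine HasCompactSupport.of_support_subset_isCompact (isCompact_Icc (a := (-2 : ℝ)) (b := 2)) ?_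
  intro x hx
  by_contra hne
  refine hx (h27_f.supp _ ?_)
  change 1 / 4 ≤ |1 / 8 * x|
  rw [abs_mul, abs_of_pos (by norm_num : (0 : ℝ) < 1 / 8)]
  rw [Set.mem_Icc, not_and_or] at hne
  rcases hne with h | h
  · rw [abs_of_nonpos (by linarith)]
    linarith
  · rw [abs_of_nonneg (by linarith)]
    linarith

private theorem h27_h_one {y : ℝ} (hy : |y| ≤ 1) : h27_h y = 1 := by
  refine ContDiffBump.one_of_mem_closedBall _ ?_
  rw [Metric.mem_closedBall, Real.dist_eq, sub_zero, abs_mul,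
    abs_of_pos (by norm_num : (0 : ℝ) < 1 / 8)]
  change 1 / 8 * |y| ≤ 1 / 8
  linarith

private theorem h27_ker (u : ℝ) : ker h27_h 0 u = 8 * ker h27_f.h 0 (8 * u) := by
  unfold Pool.Agent.Helper78.SG.ker h27_h
  have h1 := Measure.integral_comp_mul_left
    (fun y : ℝ => h27_f.h y * (Real.cosh (0 * y) * Real.cos (8 * u * y))) (1 / 8)
  have h2 : |((1 : ℝ) / 8)⁻¹| = 8 := by norm_num
  rw [h2, smul_eq_mul] at h1
  rw [← h1]
  congr 1
  ext y
  have h3 : 8 * u * (1 / 8 * y) = u * y := by ring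
  rw [h3]
  simp

private theorem h27_ker_decay : ∃ C : ℝ, 0 < C ∧ ∀ u : ℝ, |ker h27_h 0 u| ≤ C / (1 + u ^ 2) := by
  obtain ⟨C, hC, h⟩ := ker_decay h27_f 2
  refine ⟨8 * C, by positivity, fun u => ?_⟩
  rw [h27_ker, abs_mul, abs_of_pos (by norm_num : (0 : ℝ) < 8)]
  have h1 := h 0 (8 * u)
  rw [abs_zero, Real.exp_zero, mul_one] at h1
  have h2 : 1 + u ^ 2 ≤ (1 + |8 * u|) ^ 2 := by
    have h3 : |8 * u| ^ 2 = 64 * u ^ 2 := by
      rw [sq_abs]
      ring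
    have h4 := abs_nonneg (8 * u)
    nlinarith [sq_nonneg u]
  have h3 : C / (1 + |8 * u|) ^ 2 ≤ C / (1 + u ^ 2) :=
    div_le_div_of_nonneg_left hC.le (by positivity) h2
  calc 8 * |ker h27_f.h 0 (8 * u)| ≤ 8 * (C / (1 + u ^ 2)) := by linarith
    _ = 8 * C / (1 + u ^ 2) := by ring

private theorem h27_sq2_cont (T : ℝ) : Continuous (Sq2 T) := by
  unfold Sq2
  fun_prop

private theorem h27_int (T : ℝ) (j : ℕ) :
    Integrable (fun y : ℝ => ((2 ^ j * y) ^ 4 * bmp (2 ^ j * y) ^ 2) * Sq2 T y) := by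
  have h1 : Continuous fun y : ℝ => bmp (2 ^ j * y) := bmp.continuous.comp (by fun_prop)
  have h2 := h27_sq2_cont T
  refine Continuous.integrable_of_hasCompactSupport (by fun_prop) ?_
  refine HasCompactSupport.of_support_subset_isCompact (isCompact_Icc (a := (-1 : ℝ)) (b := 1)) ?_
  intro y hy
  by_contra hne
  refine hy ?_
  have h3 : (1 : ℝ) ≤ 2 ^ j := one_le_pow₀ (by norm_num)
  have h4 : 1 ≤ |y| := by
    rw [Set.mem_Icc, not_and_or] at hne
    rcases hne with h | h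
    · rw [abs_of_nonpos (by linarith)]
      linarith
    · rw [abs_of_nonneg (by linarith)]
      linarith
  have h5 : 1 ≤ |2 ^ j * y| := by
    rw [abs_mul, abs_of_pos (by positivity)]
    nlinarith
  simp only [h27_bmp_zero h5]
  ring

private theorem h27_int2 (T : ℝ) : Integrable (fun y : ℝ => h27_h y ^ 2 * Sq2 T y) := by
  have h1 := h27_h_smooth.continuous
  have h2 := h27_sq2_cont T
  refine Continuous.integrable_of_hasCompactSupport (by fun_prop) ?_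
  have h3 : HasCompactSupport (fun y : ℝ => h27_h y ^ 2) :=
    h27_h_cs.comp_left (g := fun x : ℝ => x ^ 2) (by simp)
  exact h3.mul_right

private theorem h27_pt (T y : ℝ) (J : ℕ) :
    ∑ j ∈ Finset.range J, ((2 ^ j * y) ^ 4 * bmp (2 ^ j * y) ^ 2) * Sq2 T y ≤
      2 * (h27_h y ^ 2 * Sq2 T y) := by
  rw [← Finset.sum_mul, ← mul_assoc]
  refine mul_le_mul_of_nonneg_right ?_ (h27_sq2_nonneg T y)
  rcases le_or_gt |y| 1 with h | h
  · rw [h27_h_one h]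
    linarith [(h27_geom y J).2]
  · have h1 : ∑ j ∈ Finset.range J, ((2 ^ j * y) ^ 4 * bmp (2 ^ j * y) ^ 2) = 0 := by
      refine Finset.sum_eq_zero fun j _ => ?_
      have h3 : (1 : ℝ) ≤ 2 ^ j := one_le_pow₀ (by norm_num)
      have h5 : 1 ≤ |2 ^ j * y| := by
        rw [abs_mul, abs_of_pos (by positivity)]
        nlinarith
      rw [h27_bmp_zero h5]
      ring
    rw [h1]
    positivity

private theorem h27_sum (T : ℝ) (hT : 1 < T) (J : ℕ) :
    ∑ j ∈ Finset.range J, Qs T (2 ^ j) ≤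
      2 * (2 * Real.pi / (Real.log T * T) * ∫ y, h27_h y ^ 2 * Sq2 T y) := by
  have hL : 0 < Real.log T := Real.log_pos hT
  have h1 : ∑ j ∈ Finset.range J, Qs T (2 ^ j) = 2 * Real.pi / (Real.log T * T) *
      ∫ y, ∑ j ∈ Finset.range J, ((2 ^ j * y) ^ 4 * bmp (2 ^ j * y) ^ 2) * Sq2 T y := by
    rw [integral_finsetSum _ fun j _ => h27_int T j, Finset.mul_sum]
    rfl
  have h2 : ∫ y, ∑ j ∈ Finset.range J, ((2 ^ j * y) ^ 4 * bmp (2 ^ j * y) ^ 2) * Sq2 T y ≤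
      2 * ∫ y, h27_h y ^ 2 * Sq2 T y := by
    rw [← integral_const_mul]
    refine integral_mono ?_ ?_ fun y => h27_pt T y J
    · exact integrable_finsetSum _ fun j _ => h27_int T j
    · exact (h27_int2 T).const_mul 2
  rw [h1, mul_left_comm 2]
  exact mul_le_mul_of_nonneg_left h2 (by positivity)

private theorem h27_dep_sq (L : ℝ) (ρ : ℂ) : dep L ρ ^ 2 ≤ 9600 ^ 2 * Wt 9600 (dep L ρ) := by
  unfold Wt
  have h0 : 0 ≤ dep L ρ := abs_nonneg _
  have h1 : 1 ≤ Real.exp (dep L ρ / 9600) := Real.one_le_exp (by positivity)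
  have h2 : (dep L ρ / 9600) ^ 2 * 1 ≤ (dep L ρ / 9600) ^ 2 * Real.exp (dep L ρ / 9600) :=
    mul_le_mul_of_nonneg_left h1 (by positivity)
  have h3 : dep L ρ ^ 2 = 9600 ^ 2 * ((dep L ρ / 9600) ^ 2 * 1) := by ring
  rw [h3]
  exact mul_le_mul_of_nonneg_left h2 (by positivity)

private theorem h27_term {C : ℝ} (hk : ∀ u : ℝ, |ker h27_h 0 u| ≤ C / (1 + u ^ 2))
    (T t : ℝ) :
    (∑ ρ ∈ ZT T, mx ρ * dep (Real.log T) ρ ^ 2 * ker h27_h 0 (Real.log T * (t - (ρ : ℂ).im))) ^ 2 ≤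
      (9600 ^ 2 * C) ^ 2 * (∑ ρ ∈ ZT T, mx ρ * Wt 9600 (dep (Real.log T) ρ) /
        (1 + (Real.log T * (t - (ρ : ℂ).im) / 1) ^ 2)) ^ 2 := by
  rw [← mul_pow]
  have habs : |∑ ρ ∈ ZT T, mx ρ * dep (Real.log T) ρ ^ 2 *
      ker h27_h 0 (Real.log T * (t - (ρ : ℂ).im))| ≤ 9600 ^ 2 * C *
      ∑ ρ ∈ ZT T, mx ρ * Wt 9600 (dep (Real.log T) ρ) /
        (1 + (Real.log T * (t - (ρ : ℂ).im) / 1) ^ 2) := by
    refine (Finset.abs_sum_le_sum_abs _ _).trans ?_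
    rw [Finset.mul_sum]
    refine Finset.sum_le_sum fun ρ _ => ?_
    have h0 : 0 ≤ mx (ρ : ℂ) := mx_nonneg _
    have h1 := h27_dep_sq (Real.log T) (ρ : ℂ)
    have h2 := hk (Real.log T * (t - (ρ : ℂ).im))
    have h3 : 0 ≤ dep (Real.log T) (ρ : ℂ) ^ 2 := by positivity
    rw [abs_mul, abs_mul, abs_of_nonneg h0, abs_of_nonneg h3, div_one]
    have hd : 0 < 1 + (Real.log T * (t - (ρ : ℂ).im)) ^ 2 := by positivity
    calc mx (ρ : ℂ) * dep (Real.log T) (ρ : ℂ) ^ 2 * |ker h27_h 0 (Real.log T * (t - (ρ : ℂ).im))|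
        ≤ mx (ρ : ℂ) * (9600 ^ 2 * Wt 9600 (dep (Real.log T) (ρ : ℂ))) *
          (C / (1 + (Real.log T * (t - (ρ : ℂ).im)) ^ 2)) :=
          mul_le_mul (mul_le_mul_of_nonneg_left h1 h0) h2 (abs_nonneg _)
            (mul_nonneg h0 (h3.trans h1))
      _ = _ := by ring
  exact sq_le_sq' (abs_le.1 habs).1 (abs_le.1 habs).2

theorem qs_le : ∃ C : ℝ, 0 < C ∧ ∀ᶠ T : ℝ in atTop, ∀ J : ℕ, ∑ j ∈ Finset.range J, Qs T (2 ^ j) ≤ C := by
  obtain ⟨C₁, hC₁, hk⟩ := h27_ker_decay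
  obtain ⟨C₂, hC₂, hl⟩ := loc2
  refine ⟨2 * ((9600 ^ 2 * C₁) ^ 2 * C₂), by positivity, ?_⟩
  filter_upwards [hl, eventually_gt_atTop (1 : ℝ)] with T hT hT1 J
  obtain ⟨hi, hI⟩ := hT 1 le_rfl
  have hL : 0 < Real.log T := Real.log_pos hT1
  have hT0 : 0 < T := by linarith
  obtain ⟨pi, pe⟩ := parseval_w h27_h_smooth h27_h_cs h27_h_even hL (ZT T)
    (fun ρ : ZS => mx (ρ : ℂ) * dep (Real.log T) (ρ : ℂ) ^ 2) (fun ρ : ZS => (ρ : ℂ).im)
  have h1 : ∫ t, (∑ ρ ∈ ZT T, mx (ρ : ℂ) * dep (Real.log T) (ρ : ℂ) ^ 2 *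
      ker h27_h 0 (Real.log T * (t - (ρ : ℂ).im))) ^ 2 =
      2 * Real.pi / Real.log T * ∫ y, h27_h y ^ 2 * Sq2 T y := pe
  have h2 : ∫ t, (∑ ρ ∈ ZT T, mx (ρ : ℂ) * dep (Real.log T) (ρ : ℂ) ^ 2 *
      ker h27_h 0 (Real.log T * (t - (ρ : ℂ).im))) ^ 2 ≤ (9600 ^ 2 * C₁) ^ 2 * (C₂ * 1 ^ 2 * T) := by
    refine (integral_mono pi (hi.const_mul ((9600 ^ 2 * C₁) ^ 2))
      fun t => h27_term hk T t).trans ?_
    rw [integral_const_mul]
    exact mul_le_mul_of_nonneg_left hI (by positivity)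
  have h3 := h27_sum T hT1 J
  have h4 : 2 * Real.pi / (Real.log T * T) * ∫ y, h27_h y ^ 2 * Sq2 T y =
      (2 * Real.pi / Real.log T * ∫ y, h27_h y ^ 2 * Sq2 T y) / T := by
    field_simp
  rw [h4, ← h1] at h3
  refine h3.trans ?_
  have h5 : (∫ t, (∑ ρ ∈ ZT T, mx (ρ : ℂ) * dep (Real.log T) (ρ : ℂ) ^ 2 *
      ker h27_h 0 (Real.log T * (t - (ρ : ℂ).im))) ^ 2) / T ≤ (9600 ^ 2 * C₁) ^ 2 * C₂ := by
    rw [div_le_iff₀ hT0]
    refine h2.trans (le_of_eq ?_)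
    ring
  linarith

theorem good_scale (U : Ultrafilter ℝ) (hU : (U : Filter ℝ) ≤ atTop) (J : ℕ) {ε : ℝ} (hε : 0 < ε) :
    ∃ j : ℕ, J ≤ j ∧ ∀ᶠ T in (U : Filter ℝ), Qs T (2 ^ j) ≤ ε := by
  by_contra hcon
  push Not at hcon
  obtain ⟨C, hC, hq⟩ := qs_le
  have h1 : ∀ j, ∀ᶠ T in (U : Filter ℝ), ε < Qs T (2 ^ (J + j)) := by
    intro j
    have h2 : ¬ ∀ᶠ T in (U : Filter ℝ), Qs T (2 ^ (J + j)) ≤ ε := by
      simpa using hcon (J + j) (Nat.le_add_right J j)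
    have h3 := Ultrafilter.eventually_not.2 h2
    exact h3.mono fun T hT => not_le.1 hT
  obtain ⟨n, hn⟩ := exists_nat_gt (C / ε)
  have h4 : ∀ᶠ T in (U : Filter ℝ), ∀ j ∈ Finset.range n, ε < Qs T (2 ^ (J + j)) :=
    (Filter.eventually_all_finset _).2 fun j _ => h1 j
  have h5 := (h4.and ((hq.filter_mono hU).and ((eventually_gt_atTop (1 : ℝ)).filter_mono hU))).exists
  obtain ⟨T, hT1, hT2, hT3⟩ := h5
  have h6 := hT2 (J + n)
  rw [Finset.sum_range_add] at h6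
  have h7 : 0 ≤ ∑ j ∈ Finset.range J, Qs T (2 ^ j) :=
    Finset.sum_nonneg fun j _ => qs_nonneg hT3 _
  have h8 : ∑ _j ∈ Finset.range n, ε ≤ ∑ j ∈ Finset.range n, Qs T (2 ^ (J + j)) :=
    Finset.sum_le_sum fun j hj => (hT1 j hj).le
  rw [Finset.sum_const, Finset.card_range, nsmul_eq_mul] at h8
  rw [div_lt_iff₀ hε] at hn
  linarith

end Pool.Agent.Helper92.RG
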