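import Pool.Agent.Helper92.RG.Basic
import Pool.Agent.Helper92.RG.MLe

/-!
# RG-HypL
Lower bounds for windows give a lower bound for the limit measure.

Windows: for `[α,β] ⊆ S`, outer regularity and Urysohn give a continuous `φ` with `1_[α,β] ≤ φ ≤ 1_V`, so
`∫_α^β (f - D) ≤ ∫ φ dμ ≤ μ V`, hence `∫_α^β (f - D) ≤ μ [α,β]` and `DM f [α,β] ≤ (μ + DM D) [α,β]`.
Besicovitch's differentiation theorem compares the densities with respect to Lebesgue measure at almost every point of `S`,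
and `DM f` is absolutely continuous.
-/

open MeasureTheory Set Filter Topology
open Pool.Agent.Helper57.Zeta Pool.Agent.Helper57.PC Pool.Agent.Helper57.LH
open Pool.Agent.Helper78.SG
open Pool.Agent.Helper4.PC (CT)
open scoped ContDiff ENNReal

namespace Pool.Agent.Helper92.RG

private theorem hl_window {U : Filter ℝ} [U.NeBot] (hU : U ≤ atTop) {F : ℝ → Finset ZS} {μ : Measure ℝ}
    (hμ : IsLim U F μ) {g : ℝ → ℝ} {α β : ℝ}
    (h : ∀ δ : ℝ, 0 < δ → ∀ᶠ T in U, (∫ u in α..β, g u) - δ ≤ PF T (F T) ((Icc α β).indicator 1)) :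
    ENNReal.ofReal (∫ u in α..β, g u) ≤ μ (Icc α β) := by
  have := hμ.1
  refine le_of_forall_gt fun r hr => ?_
  obtain ⟨V, hKV, hVo, hVr⟩ := (Icc α β).exists_isOpen_lt_of_lt r hr
  obtain ⟨φ, hφ1, hφc, hφs, hφ⟩ := exists_continuousMap_one_of_isCompact_subset_isOpen
    (isCompact_Icc (a := α) (b := β)) hVo hKV
  have h0 : ∀ x, 0 ≤ φ x := fun x => (hφ x).1
  have hiμ : Integrable φ μ := φ.continuous.integrable_of_hasCompactSupport hφc
  have h2 : ENNReal.ofReal (∫ x, φ x ∂μ) ≤ μ V := by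
    rw [ofReal_integral_eq_lintegral_ofReal hiμ (Eventually.of_forall h0)]
    rw [← setLIntegral_one V, ← lintegral_indicator hVo.measurableSet]
    refine lintegral_mono fun x => ?_
    by_cases hx : x ∈ V
    · rw [indicator_of_mem hx]
      exact ENNReal.ofReal_le_one.2 (hφ x).2
    · rw [indicator_of_notMem hx]
      have h3 : x ∉ tsupport φ := fun hx' => hx (hφs hx')
      rw [image_eq_zero_of_notMem_tsupport h3]
      simp
  have hM : ∃ M : ℝ, ∀ u, |φ u| ≤ M / (1 + u ^ 2) := by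
    obtain ⟨R, hR⟩ := (show IsCompact (tsupport φ) from hφc).isBounded.subset_closedBall 0
    refine ⟨1 + R ^ 2, fun u => ?_⟩
    have hp : 0 < 1 + u ^ 2 := by positivity
    rw [le_div_iff₀ hp]
    by_cases hu : u ∈ tsupport φ
    · have h3 := hR hu
      rw [mem_closedBall_zero_iff, Real.norm_eq_abs] at h3
      have h4 : u ^ 2 ≤ R ^ 2 := by
        rw [← sq_abs u]
        exact pow_le_pow_left₀ (abs_nonneg u) h3 2
      have h5 : |φ u| ≤ 1 := by rw [abs_of_nonneg (h0 u)]; exact (hφ u).2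
      calc |φ u| * (1 + u ^ 2) ≤ 1 * (1 + R ^ 2) := by gcongr
        _ = 1 + R ^ 2 := one_mul _
    · rw [image_eq_zero_of_notMem_tsupport hu]
      simp only [abs_zero, zero_mul]
      positivity
  have hlim := (hμ.2 φ φ.continuous hM).2
  have hle : ∫ u in α..β, g u ≤ ∫ x, φ x ∂μ := by
    refine le_of_forall_pos_sub_le fun δ hδ => ?_
    refine ge_of_tendsto hlim ?_
    filter_upwards [h δ hδ, hU (eventually_gt_atTop (1 : ℝ))] with T h3 h4
    refine h3.trans (PF_mono h4 _ fun x => ?_)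
    by_cases hx : x ∈ Icc α β
    · rw [indicator_of_mem hx, hφ1 hx]
    · rw [indicator_of_notMem hx]
      exact h0 x
  exact lt_of_le_of_lt ((ENNReal.ofReal_le_ofReal hle).trans h2) hVr

private theorem hl_DM_Icc {f : ℝ → ℝ} (hf : Continuous f) (hf0 : ∀ x, 0 ≤ f x) {α β : ℝ} (hab : α ≤ β) :
    DM f (Icc α β) = ENNReal.ofReal (∫ u in α..β, f u) := by
  unfold DM
  rw [withDensity_apply _ measurableSet_Icc, intervalIntegral.integral_of_le hab, ← integral_Icc_eq_integral_Ioc,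
    ofReal_integral_eq_lintegral_ofReal (hf.continuousOn.integrableOn_Icc) (Eventually.of_forall hf0)]

private theorem hl_DM_fin {f : ℝ → ℝ} (hf : Continuous f) (hf0 : ∀ x, 0 ≤ f x) :
    IsFiniteMeasureOnCompacts (DM f) := by
  refine ⟨fun {K} hK => ?_⟩
  obtain ⟨R, hR⟩ := hK.isBounded.subset_closedBall 0
  rw [Real.closedBall_eq_Icc] at hR
  refine lt_of_le_of_lt (measure_mono hR) ?_
  rcases le_or_gt (0 - R) (0 + R) with h | h
  · rw [hl_DM_Icc hf hf0 h]
    exact ENNReal.ofReal_lt_top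
  · rw [Icc_eq_empty (not_le.2 h)]
    simp

theorem hyp_lower {U : Filter ℝ} [U.NeBot] (hU : U ≤ atTop) {F : ℝ → Finset ZS} {μ : Measure ℝ} (hμ : IsLim U F μ)
    {S : Set ℝ} (hS : IsOpen S) {f D : ℝ → ℝ} (hf : Continuous f) (hD : Continuous D) (hf0 : ∀ x, 0 ≤ f x)
    (hD0 : ∀ x, 0 ≤ D x)
    (h : ∀ α β : ℝ, α < β → Icc α β ⊆ S → ∀ δ : ℝ, 0 < δ → ∀ᶠ T in U,
      (∫ u in α..β, (f u - D u)) - δ ≤ PF T (F T) ((Icc α β).indicator 1)) :
    (DM f).restrict S ≤ (μ + DM D).restrict S := by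
  have := hμ.1
  have hfF := hl_DM_fin hf hf0
  have hfD := hl_DM_fin hD hD0
  have : IsFiniteMeasureOnCompacts (μ + DM D) := ⟨fun {K} hK => by
    rw [Measure.add_apply]
    exact ENNReal.add_lt_top.2 ⟨hK.measure_lt_top, hK.measure_lt_top⟩⟩
  have key : ∀ α β : ℝ, α < β → Icc α β ⊆ S → DM f (Icc α β) ≤ (μ + DM D) (Icc α β) := by
    intro α β hab hS'
    rw [Measure.add_apply, hl_DM_Icc hf hf0 hab.le, hl_DM_Icc hD hD0 hab.le]
    have h1 := hl_window hU hμ (g := fun u => f u - D u) (h α β hab hS')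
    refine le_trans ?_ (add_le_add_left h1 _)
    rw [← sub_add_cancel (∫ u in α..β, f u) (∫ u in α..β, D u),
      ← intervalIntegral.integral_sub (hf.intervalIntegrable _ _) (hD.intervalIntegrable _ _)]
    exact ENNReal.ofReal_add_le
  have hr : ∀ᵐ x ∂(volume : Measure ℝ), x ∈ S → (DM f).rnDeriv volume x ≤ (μ + DM D).rnDeriv volume x := by
    filter_upwards [Besicovitch.ae_tendsto_rnDeriv (DM f) (volume : Measure ℝ),
      Besicovitch.ae_tendsto_rnDeriv (μ + DM D) (volume : Measure ℝ)] with x h1 h2 hx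
    obtain ⟨ε, hε, hb⟩ := Metric.isOpen_iff.1 hS x hx
    refine le_of_tendsto_of_tendsto h1 h2 ?_
    filter_upwards [self_mem_nhdsWithin, nhdsWithin_le_nhds (Iio_mem_nhds hε)] with r hr0 hr1
    have hr0' : 0 < r := hr0
    have hr1' : r < ε := hr1
    have h3 := (Metric.closedBall_subset_ball hr1').trans hb
    rw [Real.closedBall_eq_Icc] at h3 ⊢
    exact ENNReal.div_le_div_right (key _ _ (by linarith) h3) _
  have hac : DM f ≪ volume := withDensity_absolutelyContinuous _ _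
  rw [Measure.le_iff]
  intro A hA
  rw [Measure.restrict_apply hA, Measure.restrict_apply hA]
  have hAS := hA.inter hS.measurableSet
  calc DM f (A ∩ S) = ∫⁻ x in A ∩ S, (DM f).rnDeriv volume x := by
        rw [← withDensity_apply _ hAS, Measure.withDensity_rnDeriv_eq _ _ hac]
    _ ≤ ∫⁻ x in A ∩ S, (μ + DM D).rnDeriv volume x := by
        refine lintegral_mono_ae ?_
        filter_upwards [ae_restrict_of_ae hr, ae_restrict_mem hAS] with x h1 h2
        exact h1 h2.2
    _ ≤ (μ + DM D) (A ∩ S) := Measure.setLIntegral_rnDeriv_le _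

end Pool.Agent.Helper92.RG
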