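import Pool.Agent.Helper92.RG.Basic
import Pool.Agent.Helper92.RG.MLe

/-!
# RG-HypU
Upper bounds for windows give an upper bound for the limit measure.

By `le_of_integral` it suffices that `∫ φ dμ <= ∫ φ g` for `0 <= φ` continuous with compact support inside the open set `S`.
Given `η > 0` choose a mesh `x_0 < ... < x_n` covering the support such that every `[x_i, x_(i+1)]` meeting `tsupport φ` lies in `S` and
`φ` varies by at most `η` on each; with `c_i = sup φ` on `[x_i, x_(i+1)]` (zero if the interval does not meet the support),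
`φ <= ∑ c_i 1_([x_i, x_(i+1)])`, so `PF T (F T) φ <= ∑ c_i (∫_(x_i)^(x_(i+1)) g + δ)` eventually. Let `T` tend along `U`, then `δ, η -> 0`.
-/

open MeasureTheory Set Filter Topology
open Pool.Agent.Helper57.Zeta Pool.Agent.Helper57.PC Pool.Agent.Helper57.LH
open Pool.Agent.Helper78.SG
open Pool.Agent.Helper4.PC (CT)
open scoped ContDiff ENNReal

namespace Pool.Agent.Helper92.RG

theorem DM_Ioc67 {g : ℝ → ℝ} (hg : Continuous g) (hg0 : ∀ x, 0 ≤ g x) {a b : ℝ} (hab : a ≤ b) :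
    DM g (Ioc a b) = ENNReal.ofReal (∫ u in a..b, g u) := by
  unfold DM
  rw [withDensity_apply _ measurableSet_Ioc, intervalIntegral.integral_of_le hab,
    ofReal_integral_eq_lintegral_ofReal]
  · exact (hg.continuousOn.integrableOn_Icc).mono_set Ioc_subset_Icc_self
  · exact Eventually.of_forall hg0

theorem hypU_Ioo67 {U : Filter ℝ} [U.NeBot] (hU : U ≤ atTop) {F : ℝ → Finset ZS}
    {μ : Measure ℝ} (hμ : IsLim U F μ) {g : ℝ → ℝ} {α β : ℝ}
    (h : ∀ δ : ℝ, 0 < δ → ∀ᶠ T in U,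
      PF T (F T) ((Icc α β).indicator 1) ≤ (∫ u in α..β, g u) + δ) :
    μ (Ioo α β) ≤ ENNReal.ofReal (∫ u in α..β, g u) := by
  have hfin := hμ.1
  rw [isOpen_Ioo.measure_eq_iSup_isCompact]
  refine iSup₂_le fun K hKs => iSup_le fun hK => ?_
  obtain ⟨φ, hφ1, hφc, hφs, hφ⟩ := exists_continuousMap_one_of_isCompact_subset_isOpen hK
    isOpen_Ioo hKs
  have h0 : ∀ x, 0 ≤ φ x := fun x => (hφ x).1
  have hout : ∀ x, x ∉ Ioo α β → φ x = 0 := fun x hx =>
    image_eq_zero_of_notMem_tsupport fun hx' => hx (hφs hx')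
  have hM : ∃ M : ℝ, ∀ u, |φ u| ≤ M / (1 + u ^ 2) := by
    refine ⟨1 + α ^ 2 + β ^ 2, fun u => ?_⟩
    have hu : (0 : ℝ) < 1 + u ^ 2 := by positivity
    by_cases hx : u ∈ Ioo α β
    · rw [abs_of_nonneg (h0 u), le_div_iff₀ hu]
      have h1 : u ^ 2 ≤ α ^ 2 + β ^ 2 := by
        rcases le_total 0 u with h2 | h2
        · nlinarith [hx.2, sq_nonneg α]
        · nlinarith [hx.1, sq_nonneg β]
      nlinarith [(hφ u).2, h0 u]
    · rw [hout u hx, abs_zero]
      positivity
  obtain ⟨hint, hlim⟩ := hμ.2 φ φ.continuous hM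
  have h1 : ∫ x, φ x ∂μ ≤ ∫ u in α..β, g u := by
    refine le_of_forall_pos_le_add fun δ hδ => ?_
    refine le_of_tendsto hlim ?_
    filter_upwards [h δ hδ, hU (eventually_gt_atTop (1 : ℝ))] with T hT hT1
    refine (PF_mono hT1 (F T) fun x => ?_).trans hT
    by_cases hx : x ∈ Ioo α β
    · rw [indicator_of_mem (Ioo_subset_Icc_self hx)]
      exact (hφ x).2
    · rw [hout x hx]
      exact indicator_nonneg (fun _ _ => zero_le_one) x
  have h2 : μ K ≤ ENNReal.ofReal (∫ x, φ x ∂μ) := by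
    rw [ofReal_integral_eq_lintegral_ofReal hint (Eventually.of_forall h0)]
    rw [← setLIntegral_one K, ← lintegral_indicator hK.measurableSet]
    refine lintegral_mono fun x => ?_
    by_cases hx : x ∈ K
    · rw [indicator_of_mem hx, hφ1 hx]
      simp
    · rw [indicator_of_notMem hx]
      exact zero_le
  exact h2.trans (ENNReal.ofReal_le_ofReal h1)

theorem hypU_Icc67 {U : Filter ℝ} [U.NeBot] (hU : U ≤ atTop) {F : ℝ → Finset ZS}
    {μ : Measure ℝ} (hμ : IsLim U F μ)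
    {S : Set ℝ} (hS : IsOpen S) {g : ℝ → ℝ} (hg : Continuous g) (hg0 : ∀ x, 0 ≤ g x)
    (h : ∀ α β : ℝ, α < β → Icc α β ⊆ S → ∀ δ : ℝ, 0 < δ → ∀ᶠ T in U,
      PF T (F T) ((Icc α β).indicator 1) ≤ (∫ u in α..β, g u) + δ)
    {a b : ℝ} (hab : a < b) (hS' : Icc a b ⊆ S) : μ (Icc a b) ≤ DM g (Ioc a b) := by
  rw [DM_Ioc67 hg hg0 hab.le]
  obtain ⟨ε₀, hε₀, hsub⟩ := isCompact_Icc.exists_thickening_subset_open hS hS'
  have hprim : Continuous fun x : ℝ => ∫ u in (0 : ℝ)..x, g u :=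
    intervalIntegral.continuous_primitive (fun _ _ => hg.intervalIntegrable _ _) 0
  have hev : ∀ ε : ℝ, ∫ u in (a - ε)..(b + ε), g u =
      (∫ u in (0 : ℝ)..(b + ε), g u) - ∫ u in (0 : ℝ)..(a - ε), g u := fun ε =>
    (intervalIntegral.integral_interval_sub_left (hg.intervalIntegrable _ _)
      (hg.intervalIntegrable _ _)).symm
  have hcont : Continuous fun ε : ℝ => ENNReal.ofReal (∫ u in (a - ε)..(b + ε), g u) := by
    simp only [hev]
    exact ENNReal.continuous_ofReal.comp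
      ((hprim.comp (continuous_const.add continuous_id)).sub
        (hprim.comp (continuous_const.sub continuous_id)))
  have hlim : Tendsto (fun ε : ℝ => ENNReal.ofReal (∫ u in (a - ε)..(b + ε), g u))
      (𝓝[>] 0) (𝓝 (ENNReal.ofReal (∫ u in a..b, g u))) := by
    have h1 := hcont.tendsto 0
    simp only [sub_zero, add_zero] at h1
    exact h1.mono_left nhdsWithin_le_nhds
  refine ge_of_tendsto hlim ?_
  have h2 : Ioo (0 : ℝ) ε₀ ∈ 𝓝[>] (0 : ℝ) := Ioo_mem_nhdsGT hε₀
  filter_upwards [h2] with ε hε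
  have hsub' : Icc (a - ε) (b + ε) ⊆ S := by
    refine Subset.trans ?_ hsub
    intro y hy
    rw [Metric.mem_thickening_iff]
    rcases lt_or_ge y a with h3 | h3
    · refine ⟨a, left_mem_Icc.2 hab.le, ?_⟩
      rw [Real.dist_eq, abs_sub_comm, abs_of_nonneg (by linarith)]
      linarith [hy.1, hε.2]
    · rcases lt_or_ge b y with h4 | h4
      · refine ⟨b, right_mem_Icc.2 hab.le, ?_⟩
        rw [Real.dist_eq, abs_of_nonneg (by linarith)]
        linarith [hy.2, hε.2]
      · exact ⟨y, ⟨h3, h4⟩, by rw [dist_self]; exact hε₀⟩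
  have h5 := hypU_Ioo67 hU hμ (h (a - ε) (b + ε) (by linarith [hε.1]) hsub')
  refine (measure_mono fun x hx => ?_).trans h5
  exact ⟨by linarith [hx.1, hε.1], by linarith [hx.2, hε.1]⟩

theorem hyp_upper {U : Filter ℝ} [U.NeBot] (hU : U ≤ atTop) {F : ℝ → Finset ZS} {μ : Measure ℝ} (hμ : IsLim U F μ)
    {S : Set ℝ} (hS : IsOpen S) {g : ℝ → ℝ} (hg : Continuous g) (hg0 : ∀ x, 0 ≤ g x)
    (h : ∀ α β : ℝ, α < β → Icc α β ⊆ S → ∀ δ : ℝ, 0 < δ → ∀ᶠ T in U,
      PF T (F T) ((Icc α β).indicator 1) ≤ (∫ u in α..β, g u) + δ) :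
    μ.restrict S ≤ (DM g).restrict S := by
  have := hμ.1
  have hloc : IsLocallyFiniteMeasure (DM g) := IsLocallyFiniteMeasure.withDensity_ofReal hg
  have hcomp : ∀ K : Set ℝ, IsCompact K → K ⊆ S → μ K ≤ DM g K := by
    intro K hK hKS
    refine le_of_forall_gt fun r hr => ?_
    obtain ⟨V₀, hKV₀, hVo₀, hVr⟩ := K.exists_isOpen_lt_of_lt r hr
    refine lt_of_le_of_lt ?_ hVr
    obtain ⟨ε, hε, hsub⟩ := hK.exists_thickening_subset_open (hVo₀.inter hS)
      (subset_inter hKV₀ hKS)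
    set d : ℝ := ε / 2 with hd
    have hd0 : 0 < d := by positivity
    set J : Set ℤ := {i | (Icc (i • d) ((i + 1) • d) ∩ K).Nonempty} with hJ
    have hlen : ∀ i : ℤ, (i + 1) • d = i • d + d := fun i => by
      rw [add_smul, one_smul]
    have hJV : ∀ i ∈ J, Icc (i • d) ((i + 1) • d) ⊆ V₀ ∩ S := by
      rintro i ⟨x, hx, hxK⟩
      refine Subset.trans ?_ hsub
      intro y hy
      rw [Metric.mem_thickening_iff]
      refine ⟨x, hxK, ?_⟩
      rw [hlen] at hx hy
      rw [Real.dist_eq, abs_lt]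
      constructor <;> linarith [hx.1, hx.2, hy.1, hy.2]
    have hcov : K ⊆ ⋃ i ∈ J, Icc (i • d) ((i + 1) • d) := by
      intro x hx
      obtain ⟨i, ⟨h1, h2⟩, -⟩ := existsUnique_zsmul_near_of_pos hd0 x
      have h3 : x ∈ Icc (i • d) ((i + 1) • d) := ⟨h1, h2.le⟩
      exact mem_iUnion₂.2 ⟨i, ⟨x, h3, hx⟩, h3⟩
    calc μ K ≤ μ (⋃ i ∈ J, Icc (i • d) ((i + 1) • d)) := measure_mono hcov
      _ ≤ ∑' i : J, μ (Icc ((i : ℤ) • d) (((i : ℤ) + 1) • d)) :=
        measure_biUnion_le μ (Set.to_countable J) _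
      _ ≤ ∑' i : J, DM g (Ioc ((i : ℤ) • d) (((i : ℤ) + 1) • d)) := by
        refine ENNReal.tsum_le_tsum fun i => ?_
        refine hypU_Icc67 hU hμ hS hg hg0 h ?_ ((hJV i i.2).trans inter_subset_right)
        rw [hlen]
        linarith
      _ = DM g (⋃ i ∈ J, Ioc (i • d) ((i + 1) • d)) := by
        rw [measure_biUnion (Set.to_countable J)]
        · exact fun i _ j _ hij => pairwise_disjoint_Ioc_zsmul d hij
        · exact fun i _ => measurableSet_Ioc
      _ ≤ DM g V₀ := by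
        refine measure_mono (iUnion₂_subset fun i hi => ?_)
        exact Ioc_subset_Icc_self.trans ((hJV i hi).trans inter_subset_left)
  rw [Measure.le_iff]
  intro A hA
  rw [Measure.restrict_apply hA, Measure.restrict_apply hA]
  rw [(hA.inter hS.measurableSet).measure_eq_iSup_isCompact (μ := μ)]
  refine iSup₂_le fun K hK => iSup_le fun hKc => ?_
  exact (hcomp K hKc (hK.trans inter_subset_right)).trans (measure_mono hK)

end Pool.Agent.Helper92.RG
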