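import Mathlib

/-!
# RG-Lim
Riesz representation along an ultrafilter (general; no zeta).

For `f` continuous with compact support, `|f| <= M / (1 + u²)`, so `|Λ i f| <= M * C` eventually (positivity and linearity;
monotonicity follows from `hadd`, `hsmul`, `hpos`) and the limit of `Λ i f` along the ultrafilter exists (compactness of
`[-MC, MC]`, e.g. `IsCompact.ultrafilter_le_nhds'` for `U.map`). It is a positive linear functional on `C_c(ℝ, ℝ)`:
`RealRMK.rieszMeasure`, `RealRMK.integral_rieszMeasure` give `μ` (regular, finite on compacts). For a general continuous `f` with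
`|f| <= M / (1 + u²)`: cut off with continuous compactly supported `χ_R` (`0 <= χ_R <= 1`, `χ_R = 1` on `[-R, R]`); `∫ |f| χ_R dμ <= M C`,
monotone convergence gives integrability; `|Λ i f - Λ i (f χ_R)| <= M * Λ i (1_{R <= |u|} / (1 + u²)) <= M ε` and
`∫ f χ_R dμ -> ∫ f dμ`.
-/

open MeasureTheory Set Filter Topology

namespace Pool.Agent.Helper92.RG

section Lim97

/-- Linear functionals on functions. -/
private structure Lin97 (L : (ℝ → ℝ) → ℝ) : Prop where
  add : ∀ f g, L (fun x => f x + g x) = L f + L g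
  smul : ∀ (c : ℝ) f, L (fun x => c * f x) = c * L f

private theorem Lin97.sub {L : (ℝ → ℝ) → ℝ} (hL : Lin97 L) (f g : ℝ → ℝ) :
    L (fun x => f x - g x) = L f - L g := by
  have h1 := hL.add f (fun x => (-1) * g x)
  rw [hL.smul] at h1
  have h2 : (fun x => f x + (-1) * g x) = fun x => f x - g x := by
    funext x
    ring
  rw [h2] at h1
  rw [h1]
  ring

private theorem Lin97.mono {L : (ℝ → ℝ) → ℝ} (hL : Lin97 L)
    (hpos : ∀ f : ℝ → ℝ, (∀ x, 0 ≤ f x) → 0 ≤ L f) {f g : ℝ → ℝ} (h : ∀ x, f x ≤ g x) :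
    L f ≤ L g := by
  have h1 := hpos (fun x => g x - f x) (fun x => sub_nonneg.2 (h x))
  rw [hL.sub] at h1
  linarith

private theorem Lin97.abs_le {L : (ℝ → ℝ) → ℝ} (hL : Lin97 L)
    (hpos : ∀ f : ℝ → ℝ, (∀ x, 0 ≤ f x) → 0 ≤ L f) {f g : ℝ → ℝ} {M : ℝ}
    (h : ∀ x, |f x| ≤ M * g x) : |L f| ≤ M * L g := by
  rw [_root_.abs_le]
  constructor
  · have h1 := hL.mono hpos (f := fun x => (-M) * g x) (g := f)
      (fun x => by have := (_root_.abs_le.1 (h x)).1; linarith)
    rw [hL.smul] at h1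
    linarith
  · have h1 := hL.mono hpos (f := f) (g := fun x => M * g x) (fun x => (_root_.abs_le.1 (h x)).2)
    rw [hL.smul] at h1
    exact h1

/-- The cutoff. -/
private noncomputable def cut97 (R u : ℝ) : ℝ := max 0 (min 1 (R + 1 - |u|))

private theorem cut97_cont (R : ℝ) : Continuous (cut97 R) := by
  unfold cut97
  fun_prop

private theorem cut97_nonneg (R u : ℝ) : 0 ≤ cut97 R u := le_max_left _ _

private theorem cut97_le (R u : ℝ) : cut97 R u ≤ 1 := max_le zero_le_one (min_le_left _ _)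

private theorem cut97_one {R u : ℝ} (h : |u| ≤ R) : cut97 R u = 1 := by
  unfold cut97
  rw [min_eq_left (by linarith), max_eq_right zero_le_one]

private theorem cut97_zero {R u : ℝ} (h : R + 1 ≤ |u|) : cut97 R u = 0 := by
  unfold cut97
  rw [max_eq_left]
  exact (min_le_right _ _).trans (by linarith)

private theorem cut97_supp (R : ℝ) (f : ℝ → ℝ) :
    HasCompactSupport (fun u => f u * cut97 R u) := by
  refine HasCompactSupport.intro (K := Icc (-(R + 1)) (R + 1)) isCompact_Icc fun u hu => ?_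
  have h1 : R + 1 ≤ |u| := by
    by_contra h2
    push Not at h2
    exact hu ⟨(abs_lt.1 h2).1.le, (abs_lt.1 h2).2.le⟩
  rw [cut97_zero h1, mul_zero]

private theorem wpos97 (u : ℝ) : 0 < 1 + u ^ 2 := by positivity

/-- Compactly supported functions are in the class. -/
private theorem bound97 {f : ℝ → ℝ} (hf : Continuous f) (hc : HasCompactSupport f) :
    ∃ M : ℝ, ∀ u, |f u| ≤ M / (1 + u ^ 2) := by
  have h1 : Continuous (fun u => f u * (1 + u ^ 2)) := by fun_prop
  have h2 : HasCompactSupport (fun u => f u * (1 + u ^ 2)) := hc.mul_right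
  obtain ⟨M, hM⟩ := h2.exists_bound_of_continuous h1
  refine ⟨M, fun u => ?_⟩
  rw [le_div_iff₀ (wpos97 u)]
  have h3 := hM u
  rwa [Real.norm_eq_abs, abs_mul, abs_of_pos (wpos97 u)] at h3

variable {ι : Type*} (U : Ultrafilter ι) (Λ : ι → (ℝ → ℝ) → ℝ)

private theorem lim97 (hlin : ∀ i, Lin97 (Λ i))
    (hpos : ∀ᶠ i in (U : Filter ι), ∀ f : ℝ → ℝ, (∀ x, 0 ≤ f x) → 0 ≤ Λ i f) {C : ℝ}
    (hbd : ∀ᶠ i in (U : Filter ι), Λ i (fun u => 1 / (1 + u ^ 2)) ≤ C) {f : ℝ → ℝ}
    (hf : ∃ M : ℝ, ∀ u, |f u| ≤ M / (1 + u ^ 2)) :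
    ∃ c : ℝ, Tendsto (fun i => Λ i f) U (𝓝 c) := by
  obtain ⟨M, hM⟩ := hf
  have hM0 : 0 ≤ M := by
    have h1 := (abs_nonneg (f 0)).trans (hM 0)
    simpa using h1
  have h1 : Icc (-(M * C)) (M * C) ∈ U.map (fun i => Λ i f) := by
    change ∀ᶠ i in (U : Filter ι), Λ i f ∈ Icc (-(M * C)) (M * C)
    filter_upwards [hpos, hbd] with i h2 h3
    have h4 := (hlin i).abs_le h2 (f := f) (g := fun u => 1 / (1 + u ^ 2)) (M := M)
      (fun u => by
        rw [mul_one_div]
        exact hM u)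
    have h5 := h4.trans (mul_le_mul_of_nonneg_left h3 hM0)
    exact abs_le.1 h5
  obtain ⟨c, -, hc⟩ := isCompact_Icc.ultrafilter_le_nhds' _ h1
  exact ⟨c, hc⟩

end Lim97

theorem exists_limit {ι : Type*} (U : Ultrafilter ι) (Λ : ι → (ℝ → ℝ) → ℝ)
    (hadd : ∀ i f g, Λ i (fun x => f x + g x) = Λ i f + Λ i g)
    (hsmul : ∀ i (c : ℝ) f, Λ i (fun x => c * f x) = c * Λ i f)
    (hpos : ∀ᶠ i in (U : Filter ι), ∀ f : ℝ → ℝ, (∀ x, 0 ≤ f x) → 0 ≤ Λ i f)
    (hbd : ∃ C : ℝ, ∀ᶠ i in (U : Filter ι), Λ i (fun u => 1 / (1 + u ^ 2)) ≤ C)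
    (htail : ∀ ε : ℝ, 0 < ε → ∃ R : ℝ, 0 < R ∧ ∀ᶠ i in (U : Filter ι),
      Λ i (fun u => if R ≤ |u| then 1 / (1 + u ^ 2) else 0) ≤ ε) :
    ∃ μ : Measure ℝ, IsFiniteMeasureOnCompacts μ ∧ ∀ f : ℝ → ℝ, Continuous f →
      (∃ M : ℝ, ∀ u, |f u| ≤ M / (1 + u ^ 2)) →
      Integrable f μ ∧ Tendsto (fun i => Λ i f) U (𝓝 (∫ x, f x ∂μ)) := by
  classical
  have hlin : ∀ i, Lin97 (Λ i) := fun i => ⟨hadd i, hsmul i⟩
  obtain ⟨C, hC⟩ := hbd
  have hlim : ∀ f : CompactlySupportedContinuousMap ℝ ℝ,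
      ∃ c : ℝ, Tendsto (fun i => Λ i f) U (𝓝 c) := fun f =>
    lim97 U Λ hlin hpos hC (bound97 f.continuous f.hasCompactSupport)
  choose ℓ hℓ using hlim
  let Lm : CompactlySupportedContinuousMap ℝ ℝ →ₗ[ℝ] ℝ :=
    { toFun := ℓ
      map_add' := fun f g => by
        refine tendsto_nhds_unique (hℓ (f + g)) ?_
        have h1 := (hℓ f).add (hℓ g)
        refine h1.congr fun i => ?_
        rw [← hadd]
        rfl
      map_smul' := fun c f => by
        refine tendsto_nhds_unique (hℓ (c • f)) ?_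
        have h1 := (hℓ f).const_mul c
        refine h1.congr fun i => ?_
        rw [← hsmul]
        rfl }
  let Lp : CompactlySupportedContinuousMap ℝ ℝ →ₚ[ℝ] ℝ := PositiveLinearMap.mk₀ Lm (fun f hf => by
    refine ge_of_tendsto (hℓ f) ?_
    filter_upwards [hpos] with i h1
    exact h1 f (fun x => hf x))
  set μ : Measure ℝ := RealRMK.rieszMeasure Lp with hμ
  have hμi : ∀ f : CompactlySupportedContinuousMap ℝ ℝ, ∫ x, f x ∂μ = ℓ f := fun f =>
    RealRMK.integral_rieszMeasure Lp f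
  have hfin : IsFiniteMeasureOnCompacts μ := by
    have : μ.Regular := RealRMK.regular_rieszMeasure Lp
    infer_instance
  -- limits for compactly supported functions
  have hcc : ∀ f : ℝ → ℝ, Continuous f → HasCompactSupport f →
      Tendsto (fun i => Λ i f) U (𝓝 (∫ x, f x ∂μ)) := by
    intro f hf hfc
    have h1 := hℓ ⟨⟨f, hf⟩, hfc⟩
    rw [← hμi] at h1
    exact h1
  have hwc : Continuous (fun u : ℝ => 1 / (1 + u ^ 2)) :=
    continuous_const.div (by fun_prop) fun u => (wpos97 u).ne'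
  -- integrability of the weight
  have hw : Integrable (fun u : ℝ => 1 / (1 + u ^ 2)) μ := by
    refine (aecover_Icc (μ := μ) (a := fun n : ℕ => -(n : ℝ)) (b := fun n : ℕ => (n : ℝ))
      (tendsto_neg_atTop_atBot.comp tendsto_natCast_atTop_atTop)
      tendsto_natCast_atTop_atTop).integrable_of_integral_norm_bounded C (fun n => ?_)
      (Eventually.of_forall fun n => ?_)
    · exact hwc.continuousOn.integrableOn_compact isCompact_Icc
    · have h1 : ∀ u, ‖(1 : ℝ) / (1 + u ^ 2)‖ = 1 / (1 + u ^ 2) := fun u =>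
        Real.norm_of_nonneg (div_nonneg zero_le_one (wpos97 u).le)
      simp only [h1]
      have h2 : Continuous (fun u => 1 / (1 + u ^ 2) * cut97 n u) :=
        hwc.mul (cut97_cont n)
      have h3 := hcc _ h2 (cut97_supp n _)
      have h4 : ∫ u, 1 / (1 + u ^ 2) * cut97 n u ∂μ ≤ C := by
        refine le_of_tendsto h3 ?_
        filter_upwards [hpos, hC] with i h5 h6
        refine le_trans ((hlin i).mono h5 fun u => ?_) h6
        exact mul_le_of_le_one_right (div_nonneg zero_le_one (wpos97 u).le) (cut97_le _ _)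
      refine le_trans ?_ h4
      rw [← integral_indicator measurableSet_Icc]
      have h7 : Integrable (fun u => 1 / (1 + u ^ 2) * cut97 n u) μ :=
        h2.integrable_of_hasCompactSupport (cut97_supp n _)
      refine integral_mono_of_nonneg (Eventually.of_forall fun u => ?_) h7
        (Eventually.of_forall fun u => ?_)
      · exact indicator_nonneg (fun u _ => div_nonneg zero_le_one (wpos97 u).le) u
      · change (Icc (-(n : ℝ)) n).indicator (fun u => 1 / (1 + u ^ 2)) u ≤
          1 / (1 + u ^ 2) * cut97 n u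
        by_cases hu : u ∈ Icc (-(n : ℝ)) n
        · rw [indicator_of_mem hu, cut97_one (abs_le.2 hu), mul_one]
        · rw [indicator_of_notMem hu]
          exact mul_nonneg (div_nonneg zero_le_one (wpos97 u).le) (cut97_nonneg _ _)
  refine ⟨μ, hfin, fun f hf hM => ?_⟩
  obtain ⟨c, hc⟩ := lim97 U Λ hlin hpos hC hM
  obtain ⟨M, hM⟩ := hM
  have hM0 : 0 ≤ M := by
    have h1 := (abs_nonneg (f 0)).trans (hM 0)
    simpa using h1
  have hfi : Integrable f μ := by
    refine (hw.const_mul M).mono' hf.aestronglyMeasurable (Eventually.of_forall fun u => ?_)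
    rw [Real.norm_eq_abs, mul_one_div]
    exact hM u
  refine ⟨hfi, ?_⟩
  have hkey : c = ∫ x, f x ∂μ := by
    have hdct : Tendsto (fun n : ℕ => ∫ x, f x * cut97 n x ∂μ) atTop (𝓝 (∫ x, f x ∂μ)) := by
      refine tendsto_integral_of_dominated_convergence (fun u => M * (1 / (1 + u ^ 2)))
        (fun n => (hf.mul (cut97_cont n)).aestronglyMeasurable) (hw.const_mul M)
        (fun n => Eventually.of_forall fun u => ?_) (Eventually.of_forall fun u => ?_)
      · rw [Real.norm_eq_abs, abs_mul, abs_of_nonneg (cut97_nonneg _ _), mul_one_div]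
        exact (mul_le_of_le_one_right (abs_nonneg _) (cut97_le _ _)).trans (hM u)
      · refine tendsto_const_nhds.congr' ?_
        filter_upwards [eventually_ge_atTop ⌈|u|⌉₊] with n hn
        rw [cut97_one ((Nat.le_ceil _).trans (by exact_mod_cast hn)), mul_one]
    have hbound : ∀ ε : ℝ, 0 < ε → |c - ∫ x, f x ∂μ| ≤ M * ε := by
      intro ε hε
      obtain ⟨R, hR, hT⟩ := htail ε hε
      have h1 : Tendsto (fun n : ℕ => |c - ∫ x, f x * cut97 n x ∂μ|) atTop
          (𝓝 |c - ∫ x, f x ∂μ|) := (hdct.const_sub c).abs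
      refine le_of_tendsto h1 ?_
      filter_upwards [eventually_ge_atTop ⌈R⌉₊] with n hn
      have hnR : R ≤ n := (Nat.le_ceil _).trans (by exact_mod_cast hn)
      have h2 := hcc _ (hf.mul (cut97_cont n)) (cut97_supp n f)
      have h3 : Tendsto (fun i => |Λ i f - Λ i (fun x => f x * cut97 n x)|) U
          (𝓝 |c - ∫ x, f x * cut97 n x ∂μ|) := (hc.sub h2).abs
      refine le_of_tendsto h3 ?_
      filter_upwards [hpos, hT] with i h4 h5
      rw [← (hlin i).sub]
      refine le_trans ((hlin i).abs_le h4 (g := fun u => if R ≤ |u| then 1 / (1 + u ^ 2) else 0)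
        (M := M) fun u => ?_) (mul_le_mul_of_nonneg_left h5 hM0)
      by_cases hu : R ≤ |u|
      · rw [if_pos hu, mul_one_div]
        have h6 : f u - f u * cut97 n u = f u * (1 - cut97 n u) := by ring
        rw [h6, abs_mul, abs_of_nonneg (sub_nonneg.2 (cut97_le _ _))]
        refine (mul_le_of_le_one_right (abs_nonneg _) ?_).trans (hM u)
        linarith [cut97_nonneg (n : ℝ) u]
      · push Not at hu
        rw [if_neg (not_le.2 hu), cut97_one (hu.le.trans hnR), mul_one, sub_self, abs_zero,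
          mul_zero]
    by_contra hne
    have h1 : 0 < |c - ∫ x, f x ∂μ| := abs_pos.2 (sub_ne_zero.2 hne)
    have h2 := hbound (|c - ∫ x, f x ∂μ| / (2 * (M + 1))) (by positivity)
    have h3 : M * (|c - ∫ x, f x ∂μ| / (2 * (M + 1))) < |c - ∫ x, f x ∂μ| := by
      rw [mul_div_assoc', div_lt_iff₀ (by positivity)]
      nlinarith
    linarith
  rw [← hkey]
  exact hc

end Pool.Agent.Helper92.RG
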