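import Pool.Agent.Helper92.RG.TailP
import Pool.Agent.Helper92.RG.Lim

/-!
# RG-IsL
Existence of limit measures along ultrafilters. `exists_limit` with `Λ T f = PF T (F T) f`; `PF_add`, `PF_smul`, `PF_nonneg` (for `1 < T`),
`PF_subset` (from `F T` to `ZT T`, for nonnegative functions), `pf_uniform` with `v = 0`, `pf_tail`.
-/

open MeasureTheory Set Filter Topology
open Pool.Agent.Helper57.Zeta Pool.Agent.Helper57.PC Pool.Agent.Helper57.LH
open Pool.Agent.Helper78.SG
open Pool.Agent.Helper4.PC (CT)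
open scoped ContDiff ENNReal

namespace Pool.Agent.Helper92.RG

theorem exists_isLim (U : Ultrafilter ℝ) (hU : (U : Filter ℝ) ≤ atTop) (F : ℝ → Finset ZS) (hF : ∀ T, F T ⊆ ZT T) :
    ∃ μ : Measure ℝ, IsLim U F μ := by
  have hT1 : ∀ᶠ T : ℝ in (U : Filter ℝ), 1 < T := hU (eventually_gt_atTop 1)
  have hbd : ∃ C : ℝ, ∀ᶠ T in (U : Filter ℝ), PF T (F T) (fun u => 1 / (1 + u ^ 2)) ≤ C := by
    obtain ⟨C, _, hC⟩ := pf_uniform
    refine ⟨C, ?_⟩
    filter_upwards [hU hC, hT1] with T hT hT1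
    have h := hT 0
    simp only [sub_zero] at h
    exact (PF_subset hT1 (hF T) (fun x => by positivity)).trans h
  have htail : ∀ ε : ℝ, 0 < ε → ∃ R : ℝ, 0 < R ∧ ∀ᶠ T in (U : Filter ℝ),
      PF T (F T) (fun u => if R ≤ |u| then 1 / (1 + u ^ 2) else 0) ≤ ε := by
    intro ε hε
    obtain ⟨C, hC0, hC⟩ := pf_tail
    refine ⟨max 1 (C / ε), by positivity, ?_⟩
    filter_upwards [hU hC, hT1] with T hT hT1
    refine (PF_subset hT1 (hF T) (fun x => ?_)).trans ((hT _ (le_max_left _ _)).trans ?_)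
    · split_ifs
      · positivity
      · exact le_rfl
    · rw [div_le_iff₀ (by positivity)]
      have := le_max_right 1 (C / ε)
      rw [div_le_iff₀ hε] at this
      linarith
  obtain ⟨μ, h1, h2⟩ := exists_limit U (fun T f => PF T (F T) f) (fun T f g => PF_add T (F T) f g)
    (fun T c f => PF_smul T c (F T) f)
    (by filter_upwards [hT1] with T hT f hf using PF_nonneg hT (F T) hf) hbd htail
  exact ⟨μ, h1, h2⟩

end Pool.Agent.Helper92.RG
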