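import Pool.Agent.Helper92.RG.Basic

/-!
# RG-Polar
Polarisation: a bump is a difference of two squares of test functions.
-/

open MeasureTheory Set Filter Topology
open Pool.Agent.Helper57.Zeta Pool.Agent.Helper57.PC Pool.Agent.Helper57.LH
open Pool.Agent.Helper78.SG
open Pool.Agent.Helper4.PC (CT)
open scoped ContDiff ENNReal

namespace Pool.Agent.Helper92.RG

theorem polar {θ : ℝ} (hθ : θ ≤ 1 / 2) {r : ℝ → ℝ} (hr : Bump θ r) :
    ∃ f g : TF, f.th < θ ∧ g.th < θ ∧ ∀ y, r y = f.h y ^ 2 - g.h y ^ 2 := by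
  obtain ⟨θ', h0, h1, hs⟩ := hr.supp
  set θ'' := (θ' + θ) / 2 with hθ''
  have h2 : θ' < θ'' := by rw [hθ'']; linarith
  have h3 : θ'' < θ := by rw [hθ'']; linarith
  let χ : ContDiffBump (0 : ℝ) := ⟨θ', θ'', h0, h2⟩
  have hχs : ContDiff ℝ ∞ (χ : ℝ → ℝ) := χ.contDiff
  have hχe : ∀ x, χ (-x) = χ x := fun x => χ.neg x
  have hχ0 : ∀ x : ℝ, θ'' ≤ |x| → χ x = 0 := by
    intro x hx
    apply χ.zero_of_le_dist
    rw [Real.dist_eq, sub_zero]
    exact hx
  have hχ1 : ∀ x : ℝ, |x| ≤ θ' → χ x = 1 := by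
    intro x hx
    apply χ.one_of_mem_closedBall
    rw [Metric.mem_closedBall, Real.dist_eq, sub_zero]
    exact hx
  refine ⟨⟨fun y => (r y + χ y) / 2, θ'', ?_, ?_, by linarith, by linarith, ?_⟩,
    ⟨fun y => (r y - χ y) / 2, θ'', ?_, ?_, by linarith, by linarith, ?_⟩, h3, h3, ?_⟩
  · exact (hr.smooth.add hχs).div_const 2
  · intro x
    simp only [hr.even, hχe]
  · intro x hx
    simp only [hs x (h2.le.trans hx), hχ0 x hx]
    norm_num
  · exact (hr.smooth.sub hχs).div_const 2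
  · intro x
    simp only [hr.even, hχe]
  · intro x hx
    simp only [hs x (h2.le.trans hx), hχ0 x hx]
    norm_num
  · intro y
    simp only
    by_cases hy : |y| ≤ θ'
    · rw [hχ1 y hy]
      ring
    · rw [hs y (not_le.mp hy).le]
      ring

end Pool.Agent.Helper92.RG
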