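import Pool.Agent.Helper92.RG.Second
import Pool.Agent.Helper92.RG.Polar
import Pool.Agent.Helper92.RG.Pred
import Pool.Agent.Helper92.RG.Kex

/-!
# RG-LawA
The law at infinitely many scales with second-order precision.

By `good_scale` choose `j n >= n` (with `2^(j n) >= 19200`) such that `Qs T (2^(j n)) <= 1/(n+1)` eventually along `U`; `B n = 2^(j n)`. For `r` with
`Bump (1/2) r` write `r = f.h² - g.h²` (`polar`). For `h = f.h`: `PF T (ZT T) (CT (scl h B ²)) -> ∫ CT (scl h B ²) dμ` along `U` (`IsLim`; continuity and decay of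
`CT` of the bump `scl h B ²`: `ct_cont`, `ct_decay2`), `CT (scl h B ²) u = CT (h²) (u/B) / B` (`bump_scale`, `Kex`), and
`kap0 (scl h B) = (CT (h²) 0 + ∫ CT (h²) (u/B) Fc u du) / B` (`pred_kap` for `TFs f B`). So `second_order` gives
`|∫ CT (h²) (u/B) dμ - CT (h²) 0 - ∫ CT (h²) (u/B) Fc| <= C B (√Qs/B³ + 1/B⁵) + εB` for every `ε`, hence `B² |...| <= C (√(1/(n+1)) + 1/B²)`. Subtract.
-/

open MeasureTheory Set Filter Topology
open Pool.Agent.Helper57.Zeta Pool.Agent.Helper57.PC Pool.Agent.Helper57.LH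
open Pool.Agent.Helper78.SG
open Pool.Agent.Helper4.PC (CT)
open scoped ContDiff ENNReal

namespace Pool.Agent.Helper92.RG

private theorem bump_sq7 (f : TF) : Bump (1 / 2) (fun y => f.h y ^ 2) where
  smooth := f.smooth.pow 2
  even := fun x => by rw [f.even]
  supp := ⟨f.th, f.th0, f.th1, fun x hx => by rw [f.supp x hx]; ring⟩

private theorem bump_int7 {θ : ℝ} {r : ℝ → ℝ} (hr : Bump θ r) : Integrable r := by
  obtain ⟨θ', h0, -, hs⟩ := hr.supp
  refine hr.smooth.continuous.integrable_of_hasCompactSupport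
    (HasCompactSupport.intro (K := Icc (-θ') θ') isCompact_Icc fun x hx => hs x ?_)
  by_contra h
  push Not at h
  exact hx ⟨(abs_lt.1 h).1.le, (abs_lt.1 h).2.le⟩

private theorem fc_bound7 (u : ℝ) : |Fc u| ≤ 1 := by
  unfold Fc
  rw [abs_le]
  constructor <;> linarith [sc_nonneg u, sc_le_one u]

private theorem fc_cont7 : Continuous Fc := by
  unfold Fc
  exact continuous_const.sub sc_cont

/-- `u ↦ CT r (u/B) * Fc u` is integrable. -/
private theorem int_fc7 {θ : ℝ} {r : ℝ → ℝ} (hr : Bump θ r) {B : ℝ} (hB : 1 ≤ B) :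
    Integrable (fun u => CT r (u / B) * Fc u) := by
  obtain ⟨M, hM⟩ := ct_decay2 hr
  have hM0 : 0 ≤ M := by
    have h1 := (abs_nonneg (CT r 0)).trans (hM 0)
    simpa using h1
  have hB0 : 0 < B := by linarith
  have h1 : Integrable (fun u : ℝ => M * (1 + (u / B) ^ 2)⁻¹) :=
    ((integrable_inv_one_add_sq.comp_div hB0.ne').const_mul M)
  refine h1.mono' ?_ (Eventually.of_forall fun u => ?_)
  · exact (((ct_cont hr).comp (continuous_id.div_const B)).mul fc_cont7).aestronglyMeasurable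
  · rw [Real.norm_eq_abs, abs_mul]
    calc |CT r (u / B)| * |Fc u| ≤ |CT r (u / B)| * 1 := by
          gcongr
          exact fc_bound7 u
      _ = |CT r (u / B)| := mul_one _
      _ ≤ M / (1 + (u / B) ^ 2) := hM _
      _ = M * (1 + (u / B) ^ 2)⁻¹ := div_eq_mul_inv _ _

/-- `u ↦ CT r (u/B)` is `μ`-integrable. -/
private theorem int_mu7 {U : Filter ℝ} {μ : Measure ℝ} (hμ : IsLim U ZT μ) {θ : ℝ} {r : ℝ → ℝ}
    (hr : Bump θ r) {B : ℝ} (hB : 1 ≤ B) : Integrable (fun u => CT r (u / B)) μ := by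
  obtain ⟨h1, h2⟩ := bump_scale hr hB
  have h3 := (hμ.2 _ (ct_cont h1) (ct_decay2 h1)).1
  have hB0 : 0 < B := by linarith
  have h4 : (fun u => CT r (u / B)) = fun u => B * CT (scl r B) u := by
    funext u
    rw [h2 u]
    field_simp
  rw [h4]
  exact h3.const_mul B

/-- The discrepancy at scale `B`. -/
private noncomputable def Dn7 (μ : Measure ℝ) (r : ℝ → ℝ) (B : ℝ) : ℝ :=
  (∫ u, CT r (u / B) ∂μ) - CT r 0 - ∫ u, CT r (u / B) * Fc u

private theorem step7 (U : Ultrafilter ℝ) (hU : (U : Filter ℝ) ≤ atTop) {μ : Measure ℝ}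
    (hμ : IsLim U ZT μ) (f : TF) : ∃ C : ℝ, 0 < C ∧ ∀ j : ℕ, (19200:ℝ) ≤ 2 ^ j → ∀ q : ℝ, 0 ≤ q →
      (∀ᶠ T in (U : Filter ℝ), Qs T (2 ^ j) ≤ q) →
      |Dn7 μ (fun y => f.h y ^ 2) (2 ^ j)| ≤
        2 ^ j * (C * (Real.sqrt q / (2 ^ j) ^ 3 + 1 / (2 ^ j) ^ 5)) := by
  obtain ⟨C, hC, hs⟩ := second_order f
  refine ⟨C, hC, fun j hj q hq hev => ?_⟩
  set B : ℝ := 2 ^ j with hBdef
  have hB : 1 ≤ B := by linarith
  have hB0 : 0 < B := by linarith
  have hR := bump_sq7 f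
  obtain ⟨h1, h2⟩ := bump_scale hR hB
  have h3 := (hμ.2 _ (ct_cont h1) (ct_decay2 h1)).2
  have hk : kap0 (scl f.h B) =
      (CT (fun y => f.h y ^ 2) 0 + ∫ u, CT (fun y => f.h y ^ 2) (u / B) * Fc u) / B := by
    have h4 := pred_kap (TFs f B hB)
    have h5 : (fun y => (TFs f B hB).h y ^ 2) = scl (fun y => f.h y ^ 2) B := rfl
    rw [h5] at h4
    have h6 : kap0 (TFs f B hB).h = kap0 (scl f.h B) := rfl
    rw [← h6, ← h4, h2 0, zero_div, add_div, ← integral_div]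
    congr 1
    refine integral_congr_ae (Eventually.of_forall fun u => ?_)
    simp only [h2 u]
    ring
  have hm : ∫ u, CT (scl (fun y => f.h y ^ 2) B) u ∂μ =
      (∫ u, CT (fun y => f.h y ^ 2) (u / B) ∂μ) / B := by
    rw [← integral_div]
    refine integral_congr_ae (Eventually.of_forall fun u => ?_)
    simp only [h2 u]
  have h7 : |(∫ u, CT (scl (fun y => f.h y ^ 2) B) u ∂μ) - kap0 (scl f.h B)| ≤
      C * (Real.sqrt q / B ^ 3 + 1 / B ^ 5) := by
    refine le_of_forall_pos_le_add fun ε hε => ?_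
    have h8 := hs j hj ε hε
    have h9 : Tendsto (fun T => |PF T (ZT T) (CT (scl (fun y => f.h y ^ 2) B)) -
        kap0 (scl f.h B)|) U
        (𝓝 |(∫ u, CT (scl (fun y => f.h y ^ 2) B) u ∂μ) - kap0 (scl f.h B)|) :=
      (h3.sub_const _).abs
    refine le_of_tendsto h9 ?_
    filter_upwards [hU h8, hev] with T h10 h11
    refine h10.trans ?_
    have h12 : Real.sqrt (Qs T B) ≤ Real.sqrt q := Real.sqrt_le_sqrt h11
    gcongr
  have h13 : (∫ u, CT (scl (fun y => f.h y ^ 2) B) u ∂μ) - kap0 (scl f.h B) =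
      Dn7 μ (fun y => f.h y ^ 2) B / B := by
    rw [hm, hk]
    unfold Dn7
    ring
  rw [h13, abs_div, abs_of_pos hB0, div_le_iff₀ hB0] at h7
  linarith

private theorem lim7 (U : Ultrafilter ℝ) (hU : (U : Filter ℝ) ≤ atTop) {μ : Measure ℝ}
    (hμ : IsLim U ZT μ) (f : TF) (j : ℕ → ℕ) (hj : ∀ n, n + 15 ≤ j n)
    (hq : ∀ n : ℕ, ∀ᶠ T in (U : Filter ℝ), Qs T (2 ^ (j n)) ≤ 1 / ((n : ℝ) + 1)) :
    Tendsto (fun n => ((2 : ℝ) ^ (j n)) ^ 2 * Dn7 μ (fun y => f.h y ^ 2) (2 ^ (j n))) atTop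
      (𝓝 0) := by
  obtain ⟨C, hC, h⟩ := step7 U hU hμ f
  have hlim : Tendsto (fun n : ℕ => C * (Real.sqrt (1 / ((n : ℝ) + 1)) + 1 / ((n : ℝ) + 1))) atTop
      (𝓝 0) := by
    have h1 : Tendsto (fun n : ℕ => 1 / ((n : ℝ) + 1)) atTop (𝓝 0) :=
      tendsto_one_div_add_atTop_nhds_zero_nat
    have h2 : Tendsto (fun n : ℕ => Real.sqrt (1 / ((n : ℝ) + 1))) atTop (𝓝 0) := by
      have h3 := (Real.continuous_sqrt.tendsto 0).comp h1
      rw [Real.sqrt_zero] at h3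
      exact h3
    have h4 := (h2.add h1).const_mul C
    rw [add_zero, mul_zero] at h4
    exact h4
  refine squeeze_zero_norm (fun n => ?_) hlim
  have hn : (19200:ℝ) ≤ 2 ^ (j n) := by
    calc (19200:ℝ) ≤ 2 ^ 15 := by norm_num
      _ ≤ 2 ^ (j n) := pow_le_pow_right₀ (by norm_num) (by have := hj n; omega)
  have h1 := h (j n) hn (1 / ((n : ℝ) + 1)) (by positivity) (hq n)
  set B : ℝ := 2 ^ (j n) with hB
  have hB0 : 0 < B := by linarith
  have hBn : (n : ℝ) + 1 ≤ B := by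
    have h2 : n + 1 ≤ 2 ^ (j n) := by
      calc n + 1 ≤ 2 ^ n := Nat.lt_two_pow_self
        _ ≤ 2 ^ (j n) := Nat.pow_le_pow_right (by norm_num) (by have := hj n; omega)
    calc (n : ℝ) + 1 = ((n + 1 : ℕ) : ℝ) := by push_cast; ring
      _ ≤ ((2 ^ (j n) : ℕ) : ℝ) := by exact_mod_cast h2
      _ = B := by rw [hB]; push_cast; ring
  rw [Real.norm_eq_abs, abs_mul, abs_of_pos (by positivity : (0:ℝ) < B ^ 2)]
  calc B ^ 2 * |Dn7 μ (fun y => f.h y ^ 2) B|
      ≤ B ^ 2 * (B * (C * (Real.sqrt (1 / ((n : ℝ) + 1)) / B ^ 3 + 1 / B ^ 5))) := by gcongr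
    _ = C * (Real.sqrt (1 / ((n : ℝ) + 1)) + 1 / B ^ 2) := by field_simp
    _ ≤ C * (Real.sqrt (1 / ((n : ℝ) + 1)) + 1 / ((n : ℝ) + 1)) := by
        have h3 : (n : ℝ) + 1 ≤ B ^ 2 := by nlinarith
        gcongr

theorem law_a (U : Ultrafilter ℝ) (hU : (U : Filter ℝ) ≤ atTop) {μ : Measure ℝ} (hμ : IsLim U ZT μ) :
    ∃ B : ℕ → ℝ, Tendsto B atTop atTop ∧ (∀ n, 1 ≤ B n) ∧ ∀ r : ℝ → ℝ, Bump (1 / 2) r →
      Tendsto (fun n => B n ^ 2 * ((∫ u, CT r (u / B n) ∂μ) - CT r 0 - ∫ u, CT r (u / B n) * Fc u)) atTop (𝓝 0) := by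
  have hgs : ∀ n : ℕ, ∃ j : ℕ, n + 15 ≤ j ∧
      ∀ᶠ T in (U : Filter ℝ), Qs T (2 ^ j) ≤ 1 / ((n : ℝ) + 1) := fun n =>
    good_scale U hU (n + 15) (by positivity)
  choose j hj hq using hgs
  refine ⟨fun n => 2 ^ (j n), ?_, fun n => one_le_pow₀ (by norm_num), fun r hr => ?_⟩
  · refine tendsto_atTop_mono (fun n => ?_) tendsto_natCast_atTop_atTop
    have h2 : n ≤ 2 ^ (j n) := by
      calc n ≤ 2 ^ n := Nat.lt_two_pow_self.le
        _ ≤ 2 ^ (j n) := Nat.pow_le_pow_right (by norm_num) (by have := hj n; omega)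
    calc (n : ℝ) ≤ ((2 ^ (j n) : ℕ) : ℝ) := by exact_mod_cast h2
      _ = 2 ^ (j n) := by push_cast; ring
  · obtain ⟨f, g, -, -, hfg⟩ := polar (le_refl _) hr
    have h1 := lim7 U hU hμ f j hj hq
    have h2 := lim7 U hU hμ g j hj hq
    have h3 := h1.sub h2
    rw [sub_zero] at h3
    refine h3.congr fun n => ?_
    have hB : (1:ℝ) ≤ 2 ^ (j n) := one_le_pow₀ (by norm_num)
    have hf := bump_sq7 f
    have hg := bump_sq7 g
    have hct : ∀ u, CT r u = CT (fun y => f.h y ^ 2) u - CT (fun y => g.h y ^ 2) u := by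
      intro u
      unfold Pool.Agent.Helper4.PC.CT
      rw [← integral_sub (Pool.Agent.Helper4.PC.CT_int (bump_int7 hf) u)
        (Pool.Agent.Helper4.PC.CT_int (bump_int7 hg) u)]
      refine integral_congr_ae (Eventually.of_forall fun x => ?_)
      simp only [hfg x]
      ring
    have e1 : ∫ u, CT r (u / 2 ^ (j n)) ∂μ = (∫ u, CT (fun y => f.h y ^ 2) (u / 2 ^ (j n)) ∂μ) -
        ∫ u, CT (fun y => g.h y ^ 2) (u / 2 ^ (j n)) ∂μ := by
      rw [← integral_sub (int_mu7 hμ hf hB) (int_mu7 hμ hg hB)]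
      exact integral_congr_ae (Eventually.of_forall fun u => hct _)
    have e2 : ∫ u, CT r (u / 2 ^ (j n)) * Fc u =
        (∫ u, CT (fun y => f.h y ^ 2) (u / 2 ^ (j n)) * Fc u) -
        ∫ u, CT (fun y => g.h y ^ 2) (u / 2 ^ (j n)) * Fc u := by
      rw [← integral_sub (int_fc7 hf hB) (int_fc7 hg hB)]
      refine integral_congr_ae (Eventually.of_forall fun u => ?_)
      simp only [hct]
      ring
    rw [e1, e2, hct 0]
    unfold Dn7
    ring

end Pool.Agent.Helper92.RG
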