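import Pool.Agent.Helper92.RG.Basic

/-!
# RG-ParsW
Plancherel with weights; compare `Helper78/SG/Parseval.lean` (`paK`, `paK_fourier`, `paK_norm`, `parseval`), which is for a `TF` and
weights `1` at the end (the lemmas there have weights `c`, and use of `f : TF` only smooth + compact support + even).

1. `parseval_w`: `∑ c i * ker h 0 (L (t - g i)) = ∫ h y (∑ c i cos (y L g i)) cos (L t y) + ∫ h y (∑ c i sin (y L g i)) sin (L t y)`, the Fourier
   transform at `L t` of `h y * A y`, `A y = ∑ c i e^(-i y L g i)`; `∫ |F(s)|² ds = 2 π ∫ |h A|²`.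
2. `ys_sq`: `h ² |A|²` expanded: `∫ h y ² cos (L (γ - γ') y) dy = CT (h²) (nd T (ρ, ρ'))`; `2 π / L * (∑ ∑ ...) = T * PF`, `SN T = T L / (2 π)`.
-/

open MeasureTheory Set Filter Topology
open Pool.Agent.Helper57.Zeta Pool.Agent.Helper57.PC Pool.Agent.Helper57.LH
open Pool.Agent.Helper78.SG
open Pool.Agent.Helper4.PC (CT)
open scoped ContDiff ENNReal

namespace Pool.Agent.Helper92.RG

section parsw

open scoped FourierTransform SchwartzMap

/-- the function whose Fourier transform is the weighted sum -/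
private noncomputable def pwK (h : ℝ → ℝ) {ι : Type*} (s : Finset ι) (c b : ι → ℝ) (y : ℝ) : ℂ :=
  (h y : ℂ) * ∑ i ∈ s, (c i : ℂ) * Complex.exp ((b i * y : ℝ) * Complex.I)

private lemma pwK_cs {h : ℝ → ℝ} (hs : HasCompactSupport h) {ι : Type*} (s : Finset ι) (c b : ι → ℝ) :
    HasCompactSupport (pwK h s c b) := by
  have : HasCompactSupport (fun y : ℝ => (h y : ℂ)) := hs.comp_left (g := fun x : ℝ => (x : ℂ)) (by simp)
  exact this.mul_right

private lemma pwK_smooth {h : ℝ → ℝ} (hh : ContDiff ℝ ∞ h) {ι : Type*} (s : Finset ι) (c b : ι → ℝ) :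
    ContDiff ℝ ∞ (pwK h s c b) := by
  unfold pwK
  refine ContDiff.mul ?_ ?_
  · exact Complex.ofRealCLM.contDiff.comp hh
  · refine ContDiff.sum fun i _ => ContDiff.mul contDiff_const ?_
    refine ContDiff.cexp ?_
    refine ContDiff.mul ?_ contDiff_const
    exact Complex.ofRealCLM.contDiff.comp (contDiff_const.mul contDiff_id)

private lemma pwK_fourier {h : ℝ → ℝ} (hh : Continuous h) (hs : HasCompactSupport h) (he : ∀ x, h (-x) = h x)
    {ι : Type*} (s : Finset ι) (c b : ι → ℝ) (ξ : ℝ) :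
    𝓕 (pwK h s c b) ξ = ((∑ i ∈ s, c i * ker h 0 (2 * Real.pi * ξ - b i) : ℝ) : ℂ) := by
  rw [Real.fourier_real_eq_integral_exp_smul]
  have hpt : ∀ v : ℝ, Complex.exp ((-2 * Real.pi * v * ξ : ℝ) * Complex.I) • pwK h s c b v =
      ∑ i ∈ s, (c i : ℂ) * ((h v : ℂ) * Complex.exp (((b i - 2 * Real.pi * ξ) * v : ℝ) * Complex.I)) := by
    intro v
    unfold pwK
    rw [smul_eq_mul, Finset.mul_sum, Finset.mul_sum]
    refine Finset.sum_congr rfl fun i _ => ?_
    have : Complex.exp (((b i - 2 * Real.pi * ξ) * v : ℝ) * Complex.I) =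
        Complex.exp ((-2 * Real.pi * v * ξ : ℝ) * Complex.I) * Complex.exp ((b i * v : ℝ) * Complex.I) := by
      rw [← Complex.exp_add]
      congr 1
      push_cast
      ring
    rw [this]
    ring
  simp_rw [hpt]
  rw [integral_finsetSum]
  · rw [Complex.ofReal_sum]
    refine Finset.sum_congr rfl fun i _ => ?_
    rw [integral_const_mul, (pa_even hh hs he _).2, Complex.ofReal_mul]
    congr 2
    unfold Pool.Agent.Helper78.SG.ker
    refine integral_congr_ae (Eventually.of_forall fun v => ?_)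
    have : (b i - 2 * Real.pi * ξ) * v = -((2 * Real.pi * ξ - b i) * v) := by ring
    simp only [this, Real.cos_neg]
  · intro i _
    exact (pa_even hh hs he _).1.const_mul _

private lemma pwK_norm (h : ℝ → ℝ) {ι : Type*} (s : Finset ι) (c b : ι → ℝ) (y : ℝ) :
    ‖pwK h s c b y‖ ^ 2 =
      h y ^ 2 * ((∑ i ∈ s, c i * Real.cos (y * b i)) ^ 2 + (∑ i ∈ s, c i * Real.sin (y * b i)) ^ 2) := by
  have h1 : ∑ i ∈ s, (c i : ℂ) * Complex.exp ((b i * y : ℝ) * Complex.I) =
      ((∑ i ∈ s, c i * Real.cos (y * b i) : ℝ) : ℂ) + ((∑ i ∈ s, c i * Real.sin (y * b i) : ℝ) : ℂ) * Complex.I := by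
    push_cast
    rw [Finset.sum_mul, ← Finset.sum_add_distrib]
    refine Finset.sum_congr rfl fun i _ => ?_
    rw [Complex.exp_mul_I, mul_comm (y : ℂ)]
    ring
  unfold pwK
  rw [norm_mul, mul_pow, h1, Complex.norm_real, Real.norm_eq_abs, sq_abs, ← Complex.normSq_eq_norm_sq,
    Complex.normSq_add_mul_I]

end parsw

theorem parseval_w {h : ℝ → ℝ} (hh : ContDiff ℝ ∞ h) (hs : HasCompactSupport h) (he : ∀ x, h (-x) = h x)
    {L : ℝ} (hL : 0 < L) {ι : Type*} (s : Finset ι) (c g : ι → ℝ) :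
    Integrable (fun t => (∑ i ∈ s, c i * ker h 0 (L * (t - g i))) ^ 2) ∧
    ∫ t, (∑ i ∈ s, c i * ker h 0 (L * (t - g i))) ^ 2 =
      2 * Real.pi / L * ∫ y, h y ^ 2 * ((∑ i ∈ s, c i * Real.cos (y * (L * g i))) ^ 2 +
        (∑ i ∈ s, c i * Real.sin (y * (L * g i))) ^ 2) := by
  set b : ι → ℝ := fun i => L * g i with hb
  set K : SchwartzMap ℝ ℂ := (pwK_cs hs s c b).toSchwartzMap (pwK_smooth hh s c b) with hK
  have hKc : (K : ℝ → ℂ) = pwK h s c b := rfl
  have hF : ∀ ξ : ℝ, FourierTransform.fourier K ξ = ((∑ i ∈ s, c i * ker h 0 (2 * Real.pi * ξ - b i) : ℝ) : ℂ) := by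
    intro ξ
    rw [SchwartzMap.fourier_coe, hKc]
    exact pwK_fourier hh.continuous hs he s c b ξ
  have hsq : ∀ ξ : ℝ, ‖FourierTransform.fourier K ξ‖ ^ 2 = (∑ i ∈ s, c i * ker h 0 (2 * Real.pi * ξ - b i)) ^ 2 := by
    intro ξ
    rw [hF, Complex.norm_real, Real.norm_eq_abs, sq_abs]
  have hpl := SchwartzMap.integral_norm_sq_fourier K
  have hint0 : Integrable (fun ξ : ℝ => ‖FourierTransform.fourier K ξ‖ ^ 2) := by
    have := (FourierTransform.fourier K).memLp 2 (volume : Measure ℝ)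
    exact this.integrable_norm_pow (by norm_num)
  have hint1 : Integrable (fun ξ : ℝ => (∑ i ∈ s, c i * ker h 0 (2 * Real.pi * ξ - b i)) ^ 2) := by
    simpa only [hsq] using hint0
  have hpi : 0 < 2 * Real.pi := by positivity
  have hLp : 0 < L / (2 * Real.pi) := by positivity
  have hrew : ∀ t : ℝ, (∑ i ∈ s, c i * ker h 0 (L * (t - g i))) ^ 2 =
      (fun ξ : ℝ => (∑ i ∈ s, c i * ker h 0 (2 * Real.pi * ξ - b i)) ^ 2) (L / (2 * Real.pi) * t) := by
    intro t
    simp only [hb]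
    congr 1
    refine Finset.sum_congr rfl fun i _ => ?_
    congr 2
    field_simp
  constructor
  · simp_rw [hrew]
    exact hint1.comp_mul_left' hLp.ne'
  · simp_rw [hrew]
    rw [Measure.integral_comp_mul_left (fun ξ : ℝ => (∑ i ∈ s, c i * ker h 0 (2 * Real.pi * ξ - b i)) ^ 2)]
    have hval : ∫ ξ : ℝ, (∑ i ∈ s, c i * ker h 0 (2 * Real.pi * ξ - b i)) ^ 2 =
        ∫ y, h y ^ 2 * ((∑ i ∈ s, c i * Real.cos (y * b i)) ^ 2 + (∑ i ∈ s, c i * Real.sin (y * b i)) ^ 2) := by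
      have e1 : ∫ ξ : ℝ, (∑ i ∈ s, c i * ker h 0 (2 * Real.pi * ξ - b i)) ^ 2 = ∫ x : ℝ, ‖pwK h s c b x‖ ^ 2 := by
        rw [← hKc, ← hpl]
        simp_rw [hsq]
      rw [e1]
      simp_rw [pwK_norm]
    rw [hval, abs_of_pos (by positivity), smul_eq_mul]
    congr 1
    field_simp

private lemma pw_expand {h : ℝ → ℝ} (hc : Continuous h) (hs : HasCompactSupport h) {ι : Type*} (s : Finset ι) (c b : ι → ℝ) :
    ∫ y, h y ^ 2 * ((∑ i ∈ s, c i * Real.cos (y * b i)) ^ 2 + (∑ i ∈ s, c i * Real.sin (y * b i)) ^ 2) =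
      ∑ i ∈ s, ∑ j ∈ s, c i * c j * ∫ y, h y ^ 2 * Real.cos ((b i - b j) * y) := by
  have hi : ∀ a : ℝ, Integrable (fun y : ℝ => h y ^ 2 * Real.cos (a * y)) := by
    intro a
    refine Continuous.integrable_of_hasCompactSupport (by fun_prop) ?_
    exact (hs.comp_left (g := fun x : ℝ => x ^ 2) (by simp)).mul_right
  have hpt : ∀ y : ℝ, h y ^ 2 * ((∑ i ∈ s, c i * Real.cos (y * b i)) ^ 2 + (∑ i ∈ s, c i * Real.sin (y * b i)) ^ 2) =
      ∑ i ∈ s, ∑ j ∈ s, c i * c j * (h y ^ 2 * Real.cos ((b i - b j) * y)) := by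
    intro y
    rw [_root_.sq (∑ i ∈ s, c i * Real.cos (y * b i)), _root_.sq (∑ i ∈ s, c i * Real.sin (y * b i)), Finset.sum_mul_sum,
      Finset.sum_mul_sum, ← Finset.sum_add_distrib, Finset.mul_sum]
    refine Finset.sum_congr rfl fun i _ => ?_
    rw [← Finset.sum_add_distrib, Finset.mul_sum]
    refine Finset.sum_congr rfl fun j _ => ?_
    have : (b i - b j) * y = y * b i - y * b j := by ring
    rw [this, Real.cos_sub]
    ring
  simp_rw [hpt]
  rw [integral_finsetSum]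
  · refine Finset.sum_congr rfl fun i _ => ?_
    rw [integral_finsetSum]
    · refine Finset.sum_congr rfl fun j _ => ?_
      rw [integral_const_mul]
    · intro j _
      exact (hi _).const_mul _
  · intro i _
    refine integrable_finsetSum _ fun j _ => ?_
    exact (hi _).const_mul _

theorem ys_sq (f : TF) {T : ℝ} (hT : 1 < T) :
    Integrable (fun t => Ys f.h T t ^ 2) ∧
    ∫ t, Ys f.h T t ^ 2 = T * PF T (ZT T) (CT (fun y => f.h y ^ 2)) := by
  have hL : 0 < Real.log T := Real.log_pos hT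
  obtain ⟨h1, h2⟩ := parseval_w f.smooth (pa_hcs f) f.even hL (ZT T) (fun ρ => mx ρ) (fun ρ => (ρ : ℂ).im)
  refine ⟨h1, ?_⟩
  have h3 : ∫ t, Ys f.h T t ^ 2 = ∫ t, (∑ ρ ∈ ZT T, mx ρ * ker f.h 0 (Real.log T * (t - (ρ : ℂ).im))) ^ 2 := rfl
  rw [h3, h2, pw_expand f.smooth.continuous (pa_hcs f)]
  unfold PF SN
  have h4 : ∀ ρ ρ' : ZS, ∫ y, f.h y ^ 2 * Real.cos ((Real.log T * (ρ : ℂ).im - Real.log T * (ρ' : ℂ).im) * y) =
      CT (fun y => f.h y ^ 2) (nd T ((ρ : ℂ), (ρ' : ℂ))) := by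
    intro ρ ρ'
    unfold CT nd
    refine integral_congr_ae (Eventually.of_forall fun y => ?_)
    simp only
    congr 2
    field_simp
  simp_rw [h4]
  have hT0 : T ≠ 0 := by linarith
  have hpi := Real.pi_ne_zero
  have hL' := hL.ne'
  field_simp

end Pool.Agent.Helper92.RG
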