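import Pool.Agent.Helper92.RG.SecMom
import Pool.Agent.Helper92.RG.ParsW
import Pool.Agent.Helper92.RG.Polar
import Pool.Agent.Helper92.RG.Pred

/-!
# RG-LawB
Montgomery's theorem in a small range when the depth effect is negligible.

For `f : TF` with `f.th <= 1/20000`: `Ys = Xs - Es`, `1/T ∫ Xs² -> kap0 f.h` (`xs_second`), `1/T ∫ Es² -> 0` along `U`, so (Cauchy-Schwarz)
`1/T ∫ Ys² -> kap0 f.h` along `U`; by `ys_sq` it equals `PF T (ZT T) (CT (f.h²)) -> ∫ CT (f.h²) dμ` (`IsLim`, `ct_cont`, `ct_decay2`). With `pred_kap`: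
`∫ CT (f.h²) dμ = CT (f.h²) 0 + ∫ CT (f.h²) Fc`. For general `r` use `polar` with `θ = 1/20000`.
-/

open MeasureTheory Set Filter Topology
open Pool.Agent.Helper57.Zeta Pool.Agent.Helper57.PC Pool.Agent.Helper57.LH
open Pool.Agent.Helper78.SG
open Pool.Agent.Helper4.PC (CT)
open scoped ContDiff ENNReal

namespace Pool.Agent.Helper92.RG

theorem sq_bump {θ : ℝ} (f : TF) (hf : f.th < θ) : Bump θ (fun y => f.h y ^ 2) where
  smooth := f.smooth.pow 2
  even := fun x => by simp only [f.even]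
  supp := ⟨f.th, f.th0, hf, fun x hx => by simp only [f.supp x hx]; norm_num⟩

theorem bump_mul_integrable {θ : ℝ} {r : ℝ → ℝ} (hr : Bump θ r) {g : ℝ → ℝ} (hg : Continuous g) :
    Integrable (fun ξ => r ξ * g ξ) := by
  obtain ⟨θ', h0, _, hs⟩ := hr.supp
  refine (hr.smooth.continuous.mul hg).integrable_of_hasCompactSupport ?_
  refine HasCompactSupport.intro (isCompact_Icc (a := -θ') (b := θ')) fun x hx => ?_
  have : θ' ≤ |x| := by
    by_contra hh
    push Not at hh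
    exact hx (abs_le.mp hh.le)
  rw [Pi.mul_apply, hs x this, zero_mul]

theorem ct_fc_integrable {θ : ℝ} {r : ℝ → ℝ} (hr : Bump θ r) : Integrable (fun u => CT r u * Fc u) := by
  obtain ⟨M, hM⟩ := ct_decay2 hr
  have hFc : Continuous Fc := by unfold Fc; exact continuous_const.sub sc_cont
  refine (integrable_inv_one_add_sq.const_mul M).mono' ((ct_cont hr).mul hFc).aestronglyMeasurable ?_
  filter_upwards with u
  rw [norm_mul, Real.norm_eq_abs, Real.norm_eq_abs]
  have h1 : |Fc u| ≤ 1 := by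
    unfold Fc
    rw [abs_of_nonneg (by linarith [sc_le_one u])]
    linarith [sc_nonneg u]
  calc |CT r u| * |Fc u| ≤ |CT r u| * 1 := by gcongr
    _ ≤ M / (1 + u ^ 2) := by rw [mul_one]; exact hM u
    _ = M * (1 + u ^ 2)⁻¹ := div_eq_mul_inv _ _

/-- Cauchy-Schwarz for the perturbation. -/
theorem ys_lim {U : Filter ℝ} (hU : U ≤ atTop) (f : TF)
    (h1 : ∀ᶠ T in U, Integrable (fun t => Es f.h T t ^ 2))
    (h2 : Tendsto (fun T => (∫ t, Es f.h T t ^ 2) / T) U (𝓝 0)) :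
    Tendsto (fun T => (∫ t, Ys f.h T t ^ 2) / T) U (𝓝 (kap0 f.h)) := by
  have hX : Tendsto (fun T => (∫ t, Xs f.h T t ^ 2) / T) U (𝓝 (kap0 f.h)) := by
    refine Tendsto.mono_left ?_ hU
    rw [Metric.tendsto_atTop]
    intro ε hε
    have h3 := xs_second f (half_pos hε)
    rw [eventually_atTop] at h3
    obtain ⟨T₀, h3⟩ := h3
    refine ⟨max T₀ 1, fun T hT => ?_⟩
    have h4 := h3 T ((le_max_left _ _).trans hT)
    have hT0 : 0 < T := by have := (le_max_right _ _).trans hT; linarith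
    rw [Real.dist_eq]
    have e : (∫ t, Xs f.h T t ^ 2) / T - kap0 f.h = ((∫ t, Xs f.h T t ^ 2) - kap0 f.h * T) / T := by
      field_simp
    rw [e, abs_div, abs_of_pos hT0, div_lt_iff₀ hT0]
    nlinarith
  have hk : 0 ≤ kap0 f.h := by
    unfold kap0
    have : 0 ≤ ∫ y in (0:ℝ)..(1 / 2), y * f.h y ^ 2 := by
      apply intervalIntegral.integral_nonneg (by norm_num)
      intro y hy
      exact mul_nonneg hy.1 (sq_nonneg _)
    positivity
  rw [Metric.tendsto_nhds]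
  intro ε hε
  set η : ℝ := ε / (4 * (kap0 f.h + 1)) with hη
  have hη0 : 0 < η := by positivity
  have hA := (Metric.tendsto_nhds.mp hX) (min 1 (ε / 4)) (by positivity)
  have hB := (Metric.tendsto_nhds.mp h2) (ε / (4 * (1 / η + 1))) (by positivity)
  filter_upwards [hA, hB, h1, hU (edge f one_pos), hU (eventually_gt_atTop 0)] with T hA hB hE hed hT0
  obtain ⟨_, _, hX2, hY2, _⟩ := hed
  rw [Real.dist_eq] at hA hB ⊢
  rw [sub_zero] at hB
  have hE0 : 0 ≤ (∫ t, Es f.h T t ^ 2) / T := div_nonneg (integral_nonneg fun t => sq_nonneg _) hT0.le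
  have hX0 : 0 ≤ (∫ t, Xs f.h T t ^ 2) / T := div_nonneg (integral_nonneg fun t => sq_nonneg _) hT0.le
  rw [abs_of_nonneg hE0] at hB
  have hpt : ∀ t, ‖Ys f.h T t ^ 2 - Xs f.h T t ^ 2‖ ≤ η * Xs f.h T t ^ 2 + (1 / η + 1) * Es f.h T t ^ 2 := by
    intro t
    have hes : Ys f.h T t = Xs f.h T t - Es f.h T t := by unfold Es; ring
    rw [hes, Real.norm_eq_abs]
    set x := Xs f.h T t
    set e := Es f.h T t
    have e1 : (x - e) ^ 2 - x ^ 2 = e ^ 2 - 2 * x * e := by ring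
    rw [e1]
    have e2 : 2 * |x| * |e| ≤ η * x ^ 2 + 1 / η * e ^ 2 := by
      have h3 : 0 ≤ (η * |x| - |e|) ^ 2 := sq_nonneg _
      have h4 : (η * |x| - |e|) ^ 2 = η * (η * x ^ 2 + 1 / η * e ^ 2 - 2 * |x| * |e|) := by
        rw [sub_sq, mul_pow, sq_abs, sq_abs]
        field_simp
        ring
      rw [h4] at h3
      have := nonneg_of_mul_nonneg_right h3 hη0
      linarith
    calc |e ^ 2 - 2 * x * e| ≤ |e ^ 2| + |2 * x * e| := abs_sub _ _
      _ = e ^ 2 + 2 * |x| * |e| := by rw [abs_of_nonneg (sq_nonneg e), abs_mul, abs_mul, abs_two]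
      _ ≤ _ := by linarith
  have hint : |(∫ t, Ys f.h T t ^ 2) - ∫ t, Xs f.h T t ^ 2| ≤ η * (∫ t, Xs f.h T t ^ 2) + (1 / η + 1) * ∫ t, Es f.h T t ^ 2 := by
    rw [← integral_sub hY2 hX2, ← integral_const_mul, ← integral_const_mul, ← integral_add (hX2.const_mul _) (hE.const_mul _)]
    exact norm_integral_le_of_norm_le ((hX2.const_mul _).add (hE.const_mul _)) (Eventually.of_forall hpt)
  have h5 : |(∫ t, Ys f.h T t ^ 2) / T - (∫ t, Xs f.h T t ^ 2) / T| ≤ η * ((∫ t, Xs f.h T t ^ 2) / T) +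
      (1 / η + 1) * ((∫ t, Es f.h T t ^ 2) / T) := by
    rw [← sub_div, abs_div, abs_of_pos hT0, div_le_iff₀ hT0]
    refine hint.trans (le_of_eq ?_)
    field_simp
  have h6 : (∫ t, Xs f.h T t ^ 2) / T ≤ kap0 f.h + 1 := by
    have := (abs_lt.mp (hA.trans_le (min_le_left _ _))).2
    linarith
  have h7 : η * ((∫ t, Xs f.h T t ^ 2) / T) ≤ ε / 4 := by
    calc η * ((∫ t, Xs f.h T t ^ 2) / T) ≤ η * (kap0 f.h + 1) := by gcongr
      _ = ε / 4 := by rw [hη]; field_simp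
  have h8 : (1 / η + 1) * ((∫ t, Es f.h T t ^ 2) / T) ≤ ε / 4 := by
    calc (1 / η + 1) * ((∫ t, Es f.h T t ^ 2) / T) ≤ (1 / η + 1) * (ε / (4 * (1 / η + 1))) := by gcongr
      _ = ε / 4 := by field_simp
  have h9 := hA.trans_le (min_le_right _ _)
  rw [abs_lt] at h9 ⊢
  rw [abs_le] at h5
  constructor <;> linarith [h5.1, h5.2, h9.1, h9.2]

theorem law_b {U : Filter ℝ} [U.NeBot] (hU : U ≤ atTop) {μ : Measure ℝ} (hμ : IsLim U ZT μ)
    (hoff : ∀ f : TF, f.th ≤ 1 / 20000 → (∀ᶠ T in U, Integrable (fun t => Es f.h T t ^ 2)) ∧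
      Tendsto (fun T => (∫ t, Es f.h T t ^ 2) / T) U (𝓝 0)) :
    ∀ r : ℝ → ℝ, Bump (1 / 20000) r → ∫ u, CT r u ∂μ = CT r 0 + ∫ u, CT r u * Fc u := by
  have key : ∀ f : TF, f.th < 1 / 20000 → ∫ u, CT (fun y => f.h y ^ 2) u ∂μ = kap0 f.h := by
    intro f hf
    have hb := sq_bump f hf
    obtain ⟨h1, h2⟩ := hoff f hf.le
    have h3 := ys_lim hU f h1 h2
    have h4 := (hμ.2 _ (ct_cont hb) (ct_decay2 hb)).2
    refine tendsto_nhds_unique h4 (h3.congr' ?_)
    filter_upwards [hU (eventually_gt_atTop 1)] with T hT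
    rw [(ys_sq f hT).2]
    have : T ≠ 0 := by linarith
    field_simp
  intro r hr
  obtain ⟨f, g, hf, hg, hfg⟩ := polar (by norm_num) hr
  have hbf := sq_bump f hf
  have hbg := sq_bump g hg
  have hct : ∀ u, CT r u = CT (fun y => f.h y ^ 2) u - CT (fun y => g.h y ^ 2) u := by
    intro u
    unfold CT
    have i1 : Integrable (fun ξ => f.h ξ ^ 2 * Real.cos (2 * Real.pi * u * ξ)) := by
      exact bump_mul_integrable hbf (by fun_prop)
    have i2 : Integrable (fun ξ => g.h ξ ^ 2 * Real.cos (2 * Real.pi * u * ξ)) := by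
      exact bump_mul_integrable hbg (by fun_prop)
    rw [← integral_sub i1 i2]
    congr 1
    ext ξ
    rw [hfg ξ]
    ring
  have m1 := (hμ.2 _ (ct_cont hbf) (ct_decay2 hbf)).1
  have m2 := (hμ.2 _ (ct_cont hbg) (ct_decay2 hbg)).1
  have e1 := pred_kap f
  have e2 := pred_kap g
  have k1 := key f hf
  have k2 := key g hg
  simp_rw [hct]
  rw [integral_sub m1 m2, k1, k2]
  have j1 : Integrable (fun u => CT (fun y => f.h y ^ 2) u * Fc u) := ct_fc_integrable hbf
  have j2 : Integrable (fun u => CT (fun y => g.h y ^ 2) u * Fc u) := ct_fc_integrable hbg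
  have e3 : ∫ u, (CT (fun y => f.h y ^ 2) u - CT (fun y => g.h y ^ 2) u) * Fc u =
      (∫ u, CT (fun y => f.h y ^ 2) u * Fc u) - ∫ u, CT (fun y => g.h y ^ 2) u * Fc u := by
    rw [← integral_sub j1 j2]
    congr 1
    ext u
    ring
  rw [e3]
  linarith

end Pool.Agent.Helper92.RG
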