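import Pool.Agent.Helper92.RG.Basic

/-!
# RG-NLP (helper59)
A lower bound for the critical pairs at all large scales forces almost all zeros onto the line.

`pair_bound` (`Helper57/M/E.lean`, or `Helper57/LH`): `WP T (Gm (· / B)) <= SN T (B + C/B)` for `B >= 9600` eventually, i.e. `PF T (ZT T) (Gm (· / B)) <= B + C/B`
(`PF_eq_WP`). With `PF_ZC_add_ZO`: `PF T (ZO T) (Gm (· / B)) <= C/B + C1 <= C + C1` eventually.
Lower bound for the left side: with `X = log T / B`, `Y₀ = Yf (ZO T) X >= 0`, `PF T (ZO T) (Gm (· / B)) = 1/(B T) ∫ Y₀²` (`gs_pair`, as in `Yf_sq_eq`),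
`∫ Y₀ = (2π/X) n₀`, `n₀ = ∑_{ZO T} mx` (as in `Yf_integral`); the part of `∫ Y₀` outside `[-T, 2T]` is at most half of it (`gs X 0 w <= 4/(X w)²` or `gs_zero_decay`,
all zeros are in `[0, T]`, `T` large), and `Y₀ ≤ lam Y₀² + 1/(4 lam)` on `[-T, 2T]`, `lam = 1/√B`. So eventually
`n₀ / SN T <= (2 (C + C1) + 3/2) / √B`, for every `B >= 9600`.
-/

open MeasureTheory Set Filter Topology
open Pool.Agent.Helper57.Zeta Pool.Agent.Helper57.PC Pool.Agent.Helper57.LH
open Pool.Agent.Helper78.SG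
open Pool.Agent.Helper4.PC (CT)
open scoped ContDiff ENNReal

namespace Pool.Agent.Helper92.RG

/-- the square integral of a finite Fejer sum as a pair functional -/
private theorem h59_sq (F : Finset ZS) {T B : ℝ} (hT : 1 < T) (hB : 0 < B) :
    ∫ t, Yf F (Real.log T / B) t ^ 2 = B * T * PF T F (fun u => Gm (u / B)) := by
  have hL : 0 < Real.log T := Real.log_pos hT
  have hX : 0 < Real.log T / B := by positivity
  have hT0 : 0 < T := by linarith
  have hpi := Real.pi_pos
  set X := Real.log T / B with hXd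
  have e1 : ∀ t, Yf F X t ^ 2 = ∑ ρ ∈ F, ∑ ρ' ∈ F, (mx ρ * mx ρ') * (gs X 0 (t - (ρ:ℂ).im) * gs X 0 (t - (ρ':ℂ).im)) := by
    intro t
    unfold Yf
    rw [pow_two, Finset.sum_mul_sum]
    refine Finset.sum_congr rfl fun ρ _ => Finset.sum_congr rfl fun ρ' _ => ?_
    ring
  simp_rw [e1]
  rw [integral_finsetSum]
  · have e2 : ∀ ρ : ZS, ∫ t, ∑ ρ' ∈ F, (mx ρ * mx ρ') * (gs X 0 (t - (ρ:ℂ).im) * gs X 0 (t - (ρ':ℂ).im)) =
        ∑ ρ' ∈ F, (mx ρ * mx ρ') * (2 * Real.pi / X * Gm (X / (2 * Real.pi) * ((ρ:ℂ).im - (ρ':ℂ).im))) := by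
      intro ρ
      rw [integral_finsetSum]
      · refine Finset.sum_congr rfl fun ρ' _ => ?_
        rw [integral_const_mul, gs_pair hX]
      · intro ρ' _
        exact (gs_pair_integrable hX _ _).const_mul _
    simp_rw [e2]
    unfold PF
    rw [mul_div_assoc', Finset.mul_sum, Finset.sum_div]
    refine Finset.sum_congr rfl fun ρ _ => ?_
    rw [Finset.mul_sum, Finset.sum_div]
    refine Finset.sum_congr rfl fun ρ' _ => ?_
    have e3 : X / (2 * Real.pi) * ((ρ:ℂ).im - (ρ':ℂ).im) = nd T ((ρ : ℂ), (ρ' : ℂ)) / B := by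
      unfold nd
      rw [hXd]
      simp only
      field_simp
    rw [e3]
    unfold SN
    rw [hXd]
    field_simp
  · intro ρ _
    apply integrable_finsetSum
    intro ρ' _
    exact (gs_pair_integrable hX _ _).const_mul _

private theorem h59_sq_integrable (F : Finset ZS) {X : ℝ} (hX : 0 < X) : Integrable (fun t => Yf F X t ^ 2) := by
  have e1 : ∀ t, Yf F X t ^ 2 = ∑ ρ ∈ F, ∑ ρ' ∈ F, (mx ρ * mx ρ') * (gs X 0 (t - (ρ:ℂ).im) * gs X 0 (t - (ρ':ℂ).im)) := by
    intro t
    unfold Yf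
    rw [pow_two, Finset.sum_mul_sum]
    refine Finset.sum_congr rfl fun ρ _ => Finset.sum_congr rfl fun ρ' _ => ?_
    ring
  simp_rw [e1]
  apply integrable_finsetSum
  intro ρ _
  apply integrable_finsetSum
  intro ρ' _
  exact (gs_pair_integrable hX _ _).const_mul _

private theorem h59_integral (F : Finset ZS) {X : ℝ} (hX : 0 < X) :
    ∫ t, Yf F X t = 2 * Real.pi / X * ∑ ρ ∈ F, mx ρ := by
  unfold Yf
  rw [integral_finsetSum]
  · rw [Finset.mul_sum]
    refine Finset.sum_congr rfl fun ρ _ => ?_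
    rw [integral_const_mul, integral_sub_right_eq_self (gs X 0), Pool.Agent.Helper57.LS.gs_integral hX]
    ring
  · intro ρ _
    exact ((Pool.Agent.Helper57.LS.gs_integrable hX).comp_sub_right _).const_mul _

/-- the main inequality: mass against pair sum -/
private theorem h59_mass (F : Finset ZS) {T B lam : ℝ} (hT : 1 < T) (hB : 0 < B) (hlam : 0 < lam)
    (hX : 1 ≤ Real.log T / B) (hF : ∀ ρ ∈ F, 0 ≤ (ρ:ℂ).im ∧ (ρ:ℂ).im ≤ T)
    (hs : 20 * T ^ (-(3/4) : ℝ) * C1 ≤ Real.pi / (Real.log T / B)) :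
    (∑ ρ ∈ F, mx ρ) / SN T ≤ 2 * lam * PF T F (fun u => Gm (u / B)) + 3 / (2 * lam * B) := by
  have hL : 0 < Real.log T := Real.log_pos hT
  have hX0 : 0 < Real.log T / B := by positivity
  have hT0 : 0 < T := by linarith
  have hpi := Real.pi_pos
  set X := Real.log T / B with hXd
  set n₀ := ∑ ρ ∈ F, mx ρ with hn₀
  have hn0 : 0 ≤ n₀ := Finset.sum_nonneg fun ρ _ => mx_nonneg _
  set J : Set ℝ := Icc (-T) (2 * T) with hJ
  have hJm : MeasurableSet J := measurableSet_Icc
  set c : ℝ := 20 * T ^ (-(3/4) : ℝ) with hc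
  have hc0 : 0 ≤ c := by positivity
  have hpt : ∀ t, Yf F X t ≤ lam * Yf F X t ^ 2 + J.indicator (fun _ => 1 / (4 * lam)) t
      + ∑ ρ ∈ F, c * mx ρ * wf (t - (ρ:ℂ).im) := by
    intro t
    have hw0 : 0 ≤ ∑ ρ ∈ F, c * mx ρ * wf (t - (ρ:ℂ).im) :=
      Finset.sum_nonneg fun ρ _ => mul_nonneg (mul_nonneg hc0 (mx_nonneg _)) (wf_nonneg _)
    by_cases ht : t ∈ J
    · rw [indicator_of_mem ht]
      have h1 : Yf F X t ≤ lam * Yf F X t ^ 2 + 1 / (4 * lam) := by
        have h2 : 0 ≤ (2 * lam * Yf F X t - 1) ^ 2 / (4 * lam) := by positivity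
        have h3 : (2 * lam * Yf F X t - 1) ^ 2 / (4 * lam) = lam * Yf F X t ^ 2 + 1 / (4 * lam) - Yf F X t := by
          field_simp
          ring
        linarith
      linarith
    · rw [indicator_of_notMem ht, add_zero]
      have h1 : Yf F X t ≤ ∑ ρ ∈ F, c * mx ρ * wf (t - (ρ:ℂ).im) := by
        unfold Yf
        refine Finset.sum_le_sum fun ρ hρ => ?_
        obtain ⟨hg0, hgT⟩ := hF ρ hρ
        have hm := mx_nonneg (ρ:ℂ)
        have hw : T ≤ |t - (ρ:ℂ).im| := by
          rw [hJ, mem_Icc, not_and_or, not_le, not_le] at ht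
          rcases ht with h | h
          · rw [abs_of_nonpos (by linarith)]
            linarith
          · rw [abs_of_nonneg (by linarith)]
            linarith
        have h4 := gs_zero_decay hX0 (t - (ρ:ℂ).im)
        have h5 := Kd_far hX hT.le hw
        calc mx ρ * gs X 0 (t - (ρ:ℂ).im) ≤ mx ρ * (5 * (4 * T ^ (-(3/4) : ℝ) * wf (t - (ρ:ℂ).im))) := by
              gcongr
              linarith
          _ = c * mx ρ * wf (t - (ρ:ℂ).im) := by rw [hc]; ring
      have h2 : 0 ≤ lam * Yf F X t ^ 2 := by positivity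
      linarith
  have i1 : Integrable (fun t => lam * Yf F X t ^ 2) := (h59_sq_integrable F hX0).const_mul lam
  have i2 : Integrable (J.indicator (fun _ => 1 / (4 * lam))) := by
    rw [integrable_indicator_iff hJm]
    exact integrableOn_const (by rw [hJ]; simp)
  have i3 : Integrable (fun t => ∑ ρ ∈ F, c * mx ρ * wf (t - (ρ:ℂ).im)) := by
    apply integrable_finsetSum
    intro ρ _
    exact (wf_integrable.comp_sub_right _).const_mul _
  have hint := integral_mono (Pool.Agent.Helper57.LS.Yf_integrable F hX0) ((i1.add i2).add i3) hpt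
  have e1 : ∫ t, ((fun t => lam * Yf F X t ^ 2) + J.indicator (fun _ => 1 / (4 * lam)) + fun t =>
      ∑ ρ ∈ F, c * mx ρ * wf (t - (ρ:ℂ).im)) t =
      lam * (B * T * PF T F (fun u => Gm (u / B))) + 3 * T * (1 / (4 * lam)) + c * n₀ * C1 := by
    rw [integral_add' (i1.add i2) i3, integral_add' i1 i2, integral_const_mul, h59_sq F hT hB,
      integral_indicator hJm, setIntegral_const, integral_finsetSum]
    · have e2 : ∑ ρ ∈ F, ∫ t, c * mx ρ * wf (t - (ρ:ℂ).im) = c * n₀ * C1 := by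
        rw [hn₀, Finset.mul_sum, Finset.sum_mul]
        refine Finset.sum_congr rfl fun ρ _ => ?_
        rw [integral_const_mul, integral_sub_right_eq_self wf]
        rfl
      rw [e2]
      congr 2
      rw [hJ, Real.volume_real_Icc_of_le (by linarith), smul_eq_mul]
      ring
    · intro ρ _
      exact (wf_integrable.comp_sub_right _).const_mul _
  rw [h59_integral F hX0, ← hn₀] at hint
  have hint2 : 2 * Real.pi / X * n₀ ≤
      lam * (B * T * PF T F (fun u => Gm (u / B))) + 3 * T * (1 / (4 * lam)) + c * n₀ * C1 := by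
    refine hint.trans (le_of_eq ?_)
    exact e1
  have h6 : c * n₀ * C1 ≤ Real.pi / X * n₀ := by
    have := mul_le_mul_of_nonneg_right hs hn0
    calc c * n₀ * C1 = c * C1 * n₀ := by ring
      _ ≤ _ := this
  have h7 : Real.pi / X * n₀ ≤ lam * (B * T * PF T F (fun u => Gm (u / B))) + 3 * T * (1 / (4 * lam)) := by
    have : 2 * Real.pi / X * n₀ = Real.pi / X * n₀ + Real.pi / X * n₀ := by ring
    linarith
  have h8 : n₀ / SN T = 2 / (B * T) * (Real.pi / X * n₀) := by
    unfold SN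
    rw [hXd]
    field_simp
  rw [h8]
  calc 2 / (B * T) * (Real.pi / X * n₀)
      ≤ 2 / (B * T) * (lam * (B * T * PF T F (fun u => Gm (u / B))) + 3 * T * (1 / (4 * lam))) := by gcongr
    _ = 2 * lam * PF T F (fun u => Gm (u / B)) + 3 / (2 * lam * B) := by
        field_simp
        ring

theorem nl_of_lower {U : Filter ℝ} (hU : U ≤ atTop) {C1 : ℝ}
    (h : ∀ B : ℝ, 9600 ≤ B → ∀ᶠ T in U, B - C1 ≤ PF T (ZC T) (fun u => Gm (u / B))) :
    Tendsto (fun T => (∑ ρ ∈ ZO T, mx ρ) / SN T) U (𝓝 0) := by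
  obtain ⟨C, hC, hpb⟩ := pair_bound
  set K : ℝ := 2 * (C + |C1|) + 3 / 2 with hK
  have hK0 : 0 < K := by positivity
  have main : ∀ B : ℝ, 9600 ≤ B → ∀ᶠ T in U, (∑ ρ ∈ ZO T, mx ρ) / SN T ≤ K / Real.sqrt B := by
    intro B hB
    have hB0 : 0 < B := by linarith
    have hsB : 0 < Real.sqrt B := Real.sqrt_pos.mpr hB0
    have hssB : Real.sqrt B * Real.sqrt B = B := Real.mul_self_sqrt hB0.le
    -- the tail condition
    have htail : ∀ᶠ T : ℝ in atTop, 20 * T ^ (-(3/4) : ℝ) * Pool.Agent.Helper57.LH.C1 ≤ Real.pi / (Real.log T / B) := by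
      have t1 : Tendsto (fun T : ℝ => Real.log T / T ^ ((3/4) : ℝ)) atTop (𝓝 0) :=
        (isLittleO_log_rpow_atTop (by norm_num : (0:ℝ) < 3/4)).tendsto_div_nhds_zero
      have t2 : Tendsto (fun T : ℝ => 20 * Pool.Agent.Helper57.LH.C1 * (Real.log T / T ^ ((3/4) : ℝ))) atTop (𝓝 0) := by
        have := t1.const_mul (20 * Pool.Agent.Helper57.LH.C1)
        rwa [mul_zero] at this
      have hpB : 0 < Real.pi * B := by positivity
      filter_upwards [t2.eventually_lt_const hpB, eventually_gt_atTop 1] with T h1 hT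
      have hT0 : 0 < T := by linarith
      have hL : 0 < Real.log T := Real.log_pos hT
      have e1 : Real.pi / (Real.log T / B) = Real.pi * B / Real.log T := by field_simp
      rw [e1, le_div_iff₀ hL, Real.rpow_neg hT0.le]
      calc 20 * (T ^ ((3/4) : ℝ))⁻¹ * Pool.Agent.Helper57.LH.C1 * Real.log T
          = 20 * Pool.Agent.Helper57.LH.C1 * (Real.log T / T ^ ((3/4) : ℝ)) := by
            rw [div_eq_mul_inv]; ring
        _ ≤ Real.pi * B := h1.le
    have hX : ∀ᶠ T : ℝ in atTop, 1 ≤ Real.log T / B := by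
      filter_upwards [Real.tendsto_log_atTop.eventually_ge_atTop B] with T hT
      rw [le_div_iff₀ hB0]
      linarith
    filter_upwards [h B hB, hU (hpb B hB), hU htail, hU hX, hU (eventually_gt_atTop 1)] with T h1 h2 h3 h4 hT
    have hSN := SN_pos hT
    have h5 : PF T (ZT T) (fun u => Gm (u / B)) ≤ B + C / B := by
      rw [PF_eq_WP, div_le_iff₀ hSN]
      unfold WP
      linarith
    have h6 := PF_ZC_add_ZO hT (φ := fun u => Gm (u / B)) (fun u => Gm_nonneg _)
    have hCB : C / B ≤ C := div_le_self hC.le (by linarith)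
    have h7 : PF T (ZO T) (fun u => Gm (u / B)) ≤ C + |C1| := by
      have := le_abs_self C1
      linarith
    have h8 := h59_mass (ZO T) hT hB0 (lam := 1 / Real.sqrt B) (by positivity) h4
      (fun ρ hρ => mem_ZT.mp (ZO_subset T hρ)) h3
    refine h8.trans ?_
    have h9 : 2 * (1 / Real.sqrt B) * PF T (ZO T) (fun u => Gm (u / B)) ≤ 2 * (1 / Real.sqrt B) * (C + |C1|) := by
      gcongr
    have h10 : 3 / (2 * (1 / Real.sqrt B) * B) = 3 / 2 / Real.sqrt B := by
      nth_rewrite 2 [← hssB]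
      field_simp
    rw [h10]
    calc 2 * (1 / Real.sqrt B) * PF T (ZO T) (fun u => Gm (u / B)) + 3 / 2 / Real.sqrt B
        ≤ 2 * (1 / Real.sqrt B) * (C + |C1|) + 3 / 2 / Real.sqrt B := by linarith
      _ = K / Real.sqrt B := by rw [hK]; ring
  rw [tendsto_order]
  constructor
  · intro a ha
    filter_upwards [hU (eventually_gt_atTop 1)] with T hT
    have h1 : 0 ≤ (∑ ρ ∈ ZO T, mx ρ) / SN T :=
      div_nonneg (Finset.sum_nonneg fun ρ _ => mx_nonneg _) (SN_pos hT).le
    linarith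
  · intro a ha
    set B : ℝ := 9600 + (K / a) ^ 2 + 1 with hB
    have hB1 : 9600 ≤ B := by rw [hB]; nlinarith [sq_nonneg (K / a)]
    have hB0 : 0 < B := by linarith
    filter_upwards [main B hB1] with T hT
    refine lt_of_le_of_lt hT ?_
    rw [div_lt_iff₀ (Real.sqrt_pos.mpr hB0)]
    have h1 : K / a < Real.sqrt B := by
      apply Real.lt_sqrt_of_sq_lt
      rw [hB]
      linarith
    rw [div_lt_iff₀ ha] at h1
    linarith

end Pool.Agent.Helper92.RG
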