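import Pool.Agent.Helper92.RG.KD2
import Pool.Agent.Helper92.RG.Loc2
import Pool.Agent.Helper78.SG.WeakInt

/-!
# RG-Off0 (helper59)
If the off-line pairs are negligible, so is the depth effect for test functions of small support.

`L = log T`, `u = L (t - γ)`, `a` the depth. Zeros on the line contribute `0` to `Es`. `kdiff`: `|Es f.h T t| <= C ∑_{ZO T} mx a² e^(a/20000) / (1 + u²)`.
Given `A > 0`: for `a <= A` the weight is at most `C_A`; for `a > A`, `a² e^(a/20000) <= 9600² e^(-A (1/9600 - 1/20000)) Wt 9600 a =: ε_A Wt 9600 a`. So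
`∫ Es² <= 2 C_A² ∫ (∑_{ZO} mx/(1+u²))² + 2 C² ε_A² C' T` (`loc2` with `B = 1`), and
`∫ 1/(1 + L²(t-γ)²) * 1/(1 + L²(t-γ')²) dt <= (2 π/L) / (1 + L²(γ-γ')²/4)`, `L²(γ-γ')² = (2π)² nd²`, so the
first integral is at most `2π/L * ∑_{ZO} ∑_{ZT} mx mx' /(1+nd²) = T * o(1)` by `hneg`. Let `A -> ∞`.
-/

open MeasureTheory Set Filter Topology
open Pool.Agent.Helper57.Zeta Pool.Agent.Helper57.PC Pool.Agent.Helper57.LH
open Pool.Agent.Helper78.SG
open Pool.Agent.Helper4.PC (CT)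
open scoped ContDiff ENNReal

namespace Pool.Agent.Helper92.RG

/-- the weight of a depth: bounded part plus a small multiple of `Wt` -/
private theorem h59_wt {A a : ℝ} (_hA : 0 ≤ A) (ha : 0 ≤ a) :
    a ^ 2 * Real.exp (a / 20000) ≤ A ^ 2 * Real.exp (A / 20000) +
      9600 ^ 2 * Real.exp (-(A * (1 / 9600 - 1 / 20000))) * Wt 9600 a := by
  rcases le_total a A with h | h
  · have h1 : a ^ 2 * Real.exp (a / 20000) ≤ A ^ 2 * Real.exp (A / 20000) := by gcongr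
    have h2 : 0 ≤ 9600 ^ 2 * Real.exp (-(A * (1 / 9600 - 1 / 20000))) * Wt 9600 a :=
      mul_nonneg (by positivity) (Wt_nonneg _ _)
    linarith
  · have h1 : a ^ 2 * Real.exp (a / 20000) =
        9600 ^ 2 * Real.exp (-(a * (1 / 9600 - 1 / 20000))) * Wt 9600 a := by
      unfold Wt
      have e : Real.exp (a / 20000) = Real.exp (-(a * (1 / 9600 - 1 / 20000))) * Real.exp (a / 9600) := by
        rw [← Real.exp_add]
        congr 1
        ring
      rw [e]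
      ring
    have h2 : Real.exp (-(a * (1 / 9600 - 1 / 20000))) ≤ Real.exp (-(A * (1 / 9600 - 1 / 20000))) := by
      apply Real.exp_le_exp.mpr
      nlinarith
    have h3 : 0 ≤ A ^ 2 * Real.exp (A / 20000) := by positivity
    have h4 := Wt_nonneg 9600 a
    rw [h1]
    have h5 : 9600 ^ 2 * Real.exp (-(a * (1 / 9600 - 1 / 20000))) * Wt 9600 a ≤
        9600 ^ 2 * Real.exp (-(A * (1 / 9600 - 1 / 20000))) * Wt 9600 a := by gcongr
    linarith

/-- only the zeros off the line count -/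
private theorem h59_Es (f : TF) (hf : f.th ≤ 1 / 20000) : ∃ C : ℝ, 0 < C ∧ ∀ T t : ℝ,
    |Es f.h T t| ≤ C * ∑ ρ ∈ ZO T, mx ρ * (dep (Real.log T) ρ ^ 2 * Real.exp (dep (Real.log T) ρ / 20000)) *
      Kd (Real.log T) (t - (ρ : ℂ).im) := by
  obtain ⟨C, hC, h⟩ := kdiff f
  refine ⟨C, hC, fun T t => ?_⟩
  set L := Real.log T with hL
  have e1 : Es f.h T t = ∑ ρ ∈ ZO T, mx ρ * (kz f.h L t ρ - ker f.h 0 (L * (t - (ρ : ℂ).im))) := by
    unfold Es Xs Ys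
    rw [← Finset.sum_sub_distrib, ← hL]
    have e2 : ∀ ρ ∈ ZT T, mx ρ * kz f.h L t ρ - mx ρ * ker f.h 0 (L * (t - (ρ : ℂ).im)) =
        mx ρ * (kz f.h L t ρ - ker f.h 0 (L * (t - (ρ : ℂ).im))) := fun ρ _ => by ring
    rw [Finset.sum_congr rfl e2]
    symm
    apply Finset.sum_subset (ZO_subset T)
    intro ρ h1 h2
    have h3 : (ρ : ℂ).re = 1 / 2 := by
      classical
      by_contra hne
      apply h2
      unfold ZO
      rw [Finset.mem_filter]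
      exact ⟨h1, hne⟩
    unfold kz
    rw [h3]
    simp
  rw [e1, Finset.mul_sum]
  refine (Finset.abs_sum_le_sum_abs _ _).trans (Finset.sum_le_sum fun ρ _ => ?_)
  have hm := mx_nonneg (ρ : ℂ)
  rw [abs_mul, abs_of_nonneg hm]
  have h4 := h (L * ((ρ : ℂ).re - 1 / 2)) (L * (t - (ρ : ℂ).im))
  have h5 : Real.exp (f.th * |L * ((ρ : ℂ).re - 1 / 2)|) ≤ Real.exp (dep L ρ / 20000) := by
    apply Real.exp_le_exp.mpr
    unfold dep
    have := abs_nonneg (L * ((ρ : ℂ).re - 1 / 2))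
    calc f.th * |L * ((ρ : ℂ).re - 1 / 2)| ≤ 1 / 20000 * |L * ((ρ : ℂ).re - 1 / 2)| := by gcongr
      _ = _ := by ring
  have h6 : (L * ((ρ : ℂ).re - 1 / 2)) ^ 2 = dep L ρ ^ 2 := by
    unfold dep
    rw [sq_abs]
  rw [h6] at h4
  have h7 : C * (dep L ρ ^ 2 * Real.exp (f.th * |L * ((ρ : ℂ).re - 1 / 2)|)) / (1 + (L * (t - (ρ : ℂ).im)) ^ 2) ≤
      C * (dep L ρ ^ 2 * Real.exp (dep L ρ / 20000)) * Kd L (t - (ρ : ℂ).im) := by
    unfold Kd
    rw [div_eq_mul_inv]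
    gcongr
  unfold kz
  calc mx ρ * |ker f.h (L * ((ρ : ℂ).re - 1 / 2)) (L * (t - (ρ : ℂ).im)) - ker f.h 0 (L * (t - (ρ : ℂ).im))|
      ≤ mx ρ * (C * (dep L ρ ^ 2 * Real.exp (dep L ρ / 20000)) * Kd L (t - (ρ : ℂ).im)) := by
        gcongr
        exact h4.trans h7
    _ = _ := by ring

/-- two kernels -/
private theorem h59_two_int {L : ℝ} (hL : 0 < L) (g g' : ℝ) :
    Integrable (fun t => Kd L (t - g) * Kd L (t - g')) := by
  refine ((Kd_integrable hL).comp_sub_right g).mono'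
    (((Kd_cont L).comp (by fun_prop)).mul ((Kd_cont L).comp (by fun_prop))).aestronglyMeasurable ?_
  filter_upwards with t
  have h1 := Kd_pos L (t - g)
  have h2 := Kd_pos L (t - g')
  have h3 : Kd L (t - g') ≤ 1 := by
    unfold Kd
    apply inv_le_one_of_one_le₀
    nlinarith [sq_nonneg (L * (t - g'))]
  rw [Real.norm_of_nonneg (by positivity)]
  nlinarith

private theorem h59_two {L : ℝ} (hL : 0 < L) (g g' : ℝ) :
    ∫ t, Kd L (t - g) * Kd L (t - g') ≤ 2 * Real.pi / L * (1 + (L * (g - g')) ^ 2 / 4)⁻¹ := by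
  have hp : ∀ t, Kd L (t - g) * Kd L (t - g') ≤
      (Kd L (t - g) + Kd L (t - g')) * (1 + (L * (g - g')) ^ 2 / 4)⁻¹ := by
    intro t
    unfold Kd
    set x := L * (t - g) with hx
    set y := L * (t - g') with hy
    have hd : L * (g - g') = y - x := by rw [hx, hy]; ring
    rw [hd]
    have h1 : 1 + (y - x) ^ 2 / 4 ≤ (1 + x ^ 2) + (1 + y ^ 2) := by nlinarith [sq_nonneg (x + y)]
    have hq : 0 < 1 + (y - x) ^ 2 / 4 := by positivity
    have key : (1 + x ^ 2)⁻¹ * (1 + y ^ 2)⁻¹ * (1 + (y - x) ^ 2 / 4) ≤ (1 + x ^ 2)⁻¹ + (1 + y ^ 2)⁻¹ := by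
      calc (1 + x ^ 2)⁻¹ * (1 + y ^ 2)⁻¹ * (1 + (y - x) ^ 2 / 4)
          ≤ (1 + x ^ 2)⁻¹ * (1 + y ^ 2)⁻¹ * ((1 + x ^ 2) + (1 + y ^ 2)) := by gcongr
        _ = (1 + x ^ 2)⁻¹ + (1 + y ^ 2)⁻¹ := by
            field_simp
            ring
    calc (1 + x ^ 2)⁻¹ * (1 + y ^ 2)⁻¹
        = (1 + x ^ 2)⁻¹ * (1 + y ^ 2)⁻¹ * (1 + (y - x) ^ 2 / 4) * (1 + (y - x) ^ 2 / 4)⁻¹ := by
          rw [mul_assoc, mul_inv_cancel₀ hq.ne', mul_one]
      _ ≤ ((1 + x ^ 2)⁻¹ + (1 + y ^ 2)⁻¹) * (1 + (y - x) ^ 2 / 4)⁻¹ := by gcongr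
  have i1 : Integrable (fun t => Kd L (t - g)) := (Kd_integrable hL).comp_sub_right g
  have i2 : Integrable (fun t => Kd L (t - g')) := (Kd_integrable hL).comp_sub_right g'
  refine (integral_mono (h59_two_int hL g g') ((i1.add i2).mul_const _) hp).trans (le_of_eq ?_)
  have e : ∫ t, ((fun t => Kd L (t - g)) + fun t => Kd L (t - g')) t * (1 + (L * (g - g')) ^ 2 / 4)⁻¹ =
      2 * Real.pi / L * (1 + (L * (g - g')) ^ 2 / 4)⁻¹ := by
    rw [integral_mul_const, integral_add' i1 i2, integral_sub_right_eq_self (Kd L), integral_sub_right_eq_self (Kd L),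
      Kd_integral hL]
    ring
  exact e

/-- the sum over the zeros off the line without weights -/
private theorem h59_S1 {T : ℝ} (hT : 1 < T) :
    Integrable (fun t => (∑ ρ ∈ ZO T, mx ρ * Kd (Real.log T) (t - (ρ : ℂ).im)) ^ 2) ∧
    ∫ t, (∑ ρ ∈ ZO T, mx ρ * Kd (Real.log T) (t - (ρ : ℂ).im)) ^ 2 ≤
      T * ((∑ ρ ∈ ZO T, ∑ ρ' ∈ ZT T, mx ρ * mx ρ' * (1 / (1 + nd T ((ρ : ℂ), (ρ' : ℂ)) ^ 2))) / SN T) := by
  have hL : 0 < Real.log T := Real.log_pos hT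
  have hT0 : 0 < T := by linarith
  have hpi := Real.pi_pos
  have hSN := SN_pos hT
  set L := Real.log T with hLd
  have e1 : ∀ t, (∑ ρ ∈ ZO T, mx ρ * Kd L (t - (ρ : ℂ).im)) ^ 2 = ∑ ρ ∈ ZO T, ∑ ρ' ∈ ZO T,
      (mx ρ * mx ρ') * (Kd L (t - (ρ : ℂ).im) * Kd L (t - (ρ' : ℂ).im)) := by
    intro t
    rw [pow_two, Finset.sum_mul_sum]
    refine Finset.sum_congr rfl fun ρ _ => Finset.sum_congr rfl fun ρ' _ => ?_
    ring
  simp_rw [e1]
  have hint : ∀ ρ ∈ ZO T, ∀ ρ' ∈ ZO T, Integrable (fun t =>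
      (mx ρ * mx ρ') * (Kd L (t - (ρ : ℂ).im) * Kd L (t - (ρ' : ℂ).im))) :=
    fun ρ _ ρ' _ => (h59_two_int hL _ _).const_mul _
  constructor
  · apply integrable_finsetSum
    intro ρ hρ
    apply integrable_finsetSum
    intro ρ' hρ'
    exact hint ρ hρ ρ' hρ'
  · rw [integral_finsetSum]
    · have h2 : ∀ ρ ∈ ZO T, ∫ t, ∑ ρ' ∈ ZO T, (mx ρ * mx ρ') * (Kd L (t - (ρ : ℂ).im) * Kd L (t - (ρ' : ℂ).im)) ≤
          2 * Real.pi / L * ∑ ρ' ∈ ZT T, mx ρ * mx ρ' * (1 / (1 + nd T ((ρ : ℂ), (ρ' : ℂ)) ^ 2)) := by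
        intro ρ hρ
        rw [integral_finsetSum _ (hint ρ hρ), Finset.mul_sum]
        refine le_trans ?_ (Finset.sum_le_sum_of_subset_of_nonneg (ZO_subset T) ?_)
        · refine Finset.sum_le_sum fun ρ' _ => ?_
          rw [integral_const_mul]
          have h3 := h59_two hL (ρ : ℂ).im (ρ' : ℂ).im
          have h4 : (1 + (L * ((ρ : ℂ).im - (ρ' : ℂ).im)) ^ 2 / 4)⁻¹ ≤ 1 / (1 + nd T ((ρ : ℂ), (ρ' : ℂ)) ^ 2) := by
            rw [one_div]
            have e2 : L * ((ρ : ℂ).im - (ρ' : ℂ).im) = 2 * Real.pi * nd T ((ρ : ℂ), (ρ' : ℂ)) := by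
              unfold nd
              simp only
              rw [← hLd]
              field_simp
            have h5 : nd T ((ρ : ℂ), (ρ' : ℂ)) ^ 2 ≤ (L * ((ρ : ℂ).im - (ρ' : ℂ).im)) ^ 2 / 4 := by
              rw [e2]
              have h6 : 1 ≤ Real.pi ^ 2 := by nlinarith [Real.pi_gt_three]
              have h7 := sq_nonneg (nd T ((ρ : ℂ), (ρ' : ℂ)))
              nlinarith
            gcongr
          have hm : 0 ≤ mx (ρ : ℂ) * mx (ρ' : ℂ) := mul_nonneg (mx_nonneg _) (mx_nonneg _)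
          calc mx ρ * mx ρ' * ∫ t, Kd L (t - (ρ : ℂ).im) * Kd L (t - (ρ' : ℂ).im)
              ≤ mx ρ * mx ρ' * (2 * Real.pi / L * (1 + (L * ((ρ : ℂ).im - (ρ' : ℂ).im)) ^ 2 / 4)⁻¹) := by gcongr
            _ ≤ mx ρ * mx ρ' * (2 * Real.pi / L * (1 / (1 + nd T ((ρ : ℂ), (ρ' : ℂ)) ^ 2))) := by gcongr
            _ = _ := by ring
        · intro ρ' _ _
          exact mul_nonneg (by positivity) (mul_nonneg (mul_nonneg (mx_nonneg _) (mx_nonneg _)) (by positivity))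
      refine (Finset.sum_le_sum h2).trans (le_of_eq ?_)
      rw [← Finset.mul_sum]
      unfold SN
      rw [← hLd]
      field_simp
    · intro ρ hρ
      apply integrable_finsetSum
      intro ρ' hρ'
      exact hint ρ hρ ρ' hρ'

theorem off_zero {U : Filter ℝ} (hU : U ≤ atTop)
    (hneg : Tendsto (fun T => (∑ ρ ∈ ZO T, ∑ ρ' ∈ ZT T, mx ρ * mx ρ' * (1 / (1 + nd T ((ρ : ℂ), (ρ' : ℂ)) ^ 2))) / SN T)
      U (𝓝 0)) (f : TF) (hf : f.th ≤ 1 / 20000) :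
    (∀ᶠ T in U, Integrable (fun t => Es f.h T t ^ 2)) ∧
    Tendsto (fun T => (∫ t, Es f.h T t ^ 2) / T) U (𝓝 0) := by
  obtain ⟨C, hC, hE⟩ := h59_Es f hf
  obtain ⟨C', hC', hl⟩ := loc2
  -- pointwise bound
  have hpt : ∀ A : ℝ, 0 ≤ A → ∀ T t : ℝ, Es f.h T t ^ 2 ≤
      2 * C ^ 2 * (A ^ 2 * Real.exp (A / 20000)) ^ 2 * (∑ ρ ∈ ZO T, mx ρ * Kd (Real.log T) (t - (ρ : ℂ).im)) ^ 2 +
      2 * C ^ 2 * (9600 ^ 2 * Real.exp (-(A * (1 / 9600 - 1 / 20000)))) ^ 2 *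
        (∑ ρ ∈ ZT T, mx ρ * Wt 9600 (dep (Real.log T) ρ) / (1 + (Real.log T * (t - (ρ : ℂ).im) / 1) ^ 2)) ^ 2 := by
    intro A hA T t
    set a := A ^ 2 * Real.exp (A / 20000) with ha
    set b := 9600 ^ 2 * Real.exp (-(A * (1 / 9600 - 1 / 20000))) with hb
    have ha0 : 0 ≤ a := by positivity
    have hb0 : 0 ≤ b := by positivity
    set S1 := ∑ ρ ∈ ZO T, mx ρ * Kd (Real.log T) (t - (ρ : ℂ).im) with hS1
    set S2 := ∑ ρ ∈ ZT T, mx ρ * Wt 9600 (dep (Real.log T) ρ) / (1 + (Real.log T * (t - (ρ : ℂ).im) / 1) ^ 2) with hS2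
    have h1 : |Es f.h T t| ≤ C * (a * S1 + b * S2) := by
      refine (hE T t).trans ?_
      gcongr
      calc ∑ ρ ∈ ZO T, mx ρ * (dep (Real.log T) ρ ^ 2 * Real.exp (dep (Real.log T) ρ / 20000)) *
            Kd (Real.log T) (t - (ρ : ℂ).im)
          ≤ ∑ ρ ∈ ZO T, (a * (mx ρ * Kd (Real.log T) (t - (ρ : ℂ).im)) +
            b * (mx ρ * Wt 9600 (dep (Real.log T) ρ) / (1 + (Real.log T * (t - (ρ : ℂ).im) / 1) ^ 2))) := by
            refine Finset.sum_le_sum fun ρ _ => ?_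
            have hd : 0 ≤ dep (Real.log T) ρ := abs_nonneg _
            have h2 := h59_wt hA hd
            rw [← ha, ← hb] at h2
            have hm := mx_nonneg (ρ : ℂ)
            have hK := Kd_pos (Real.log T) (t - (ρ : ℂ).im)
            have e : mx ρ * Wt 9600 (dep (Real.log T) ρ) / (1 + (Real.log T * (t - (ρ : ℂ).im) / 1) ^ 2) =
                mx ρ * Wt 9600 (dep (Real.log T) ρ) * Kd (Real.log T) (t - (ρ : ℂ).im) := by
              unfold Kd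
              rw [div_one, div_eq_mul_inv]
            rw [e]
            calc mx ρ * (dep (Real.log T) ρ ^ 2 * Real.exp (dep (Real.log T) ρ / 20000)) * Kd (Real.log T) (t - (ρ : ℂ).im)
                ≤ mx ρ * (a + b * Wt 9600 (dep (Real.log T) ρ)) * Kd (Real.log T) (t - (ρ : ℂ).im) := by gcongr
              _ = _ := by ring
        _ = a * S1 + b * ∑ ρ ∈ ZO T, (mx ρ * Wt 9600 (dep (Real.log T) ρ) /
              (1 + (Real.log T * (t - (ρ : ℂ).im) / 1) ^ 2)) := by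
            rw [Finset.sum_add_distrib, ← Finset.mul_sum, ← Finset.mul_sum]
        _ ≤ a * S1 + b * S2 := by
            gcongr
            exact Finset.sum_le_sum_of_subset_of_nonneg (ZO_subset T) fun ρ _ _ =>
              div_nonneg (mul_nonneg (mx_nonneg _) (Wt_nonneg _ _)) (by positivity)
    have h3 : Es f.h T t ^ 2 ≤ (C * (a * S1 + b * S2)) ^ 2 := by
      rw [← sq_abs]
      exact pow_le_pow_left₀ (abs_nonneg _) h1 2
    refine h3.trans ?_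
    have h4 : 0 ≤ C ^ 2 * (a * S1 - b * S2) ^ 2 := by positivity
    nlinarith
  have hcont : ∀ T : ℝ, Continuous (fun t => Es f.h T t) := by
    intro T
    unfold Es Xs Ys
    refine Continuous.sub ?_ ?_
    · exact continuous_finsetSum _ fun ρ _ => continuous_const.mul (kz_cont f _ _)
    · exact continuous_finsetSum _ fun ρ _ => continuous_const.mul ((ker_cont f 0).comp (by fun_prop))
  have hint : ∀ᶠ T in U, Integrable (fun t => Es f.h T t ^ 2) := by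
    filter_upwards [hU hl, hU (eventually_gt_atTop 1)] with T h1 hT
    obtain ⟨i1, -⟩ := h59_S1 hT
    obtain ⟨i2, -⟩ := h1 1 le_rfl
    refine ((i1.const_mul (2 * C ^ 2 * ((1:ℝ) ^ 2 * Real.exp (1 / 20000)) ^ 2)).add
      (i2.const_mul (2 * C ^ 2 * (9600 ^ 2 * Real.exp (-(1 * (1 / 9600 - 1 / 20000)))) ^ 2))).mono'
      ((hcont T).pow 2).aestronglyMeasurable ?_
    filter_upwards with t
    rw [Real.norm_of_nonneg (sq_nonneg _)]
    exact hpt 1 zero_le_one T t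
  refine ⟨hint, ?_⟩
  rw [Metric.tendsto_nhds]
  intro ε hε
  -- choose A
  have hA : ∃ A : ℝ, 0 ≤ A ∧ 2 * C ^ 2 * (9600 ^ 2 * Real.exp (-(A * (1 / 9600 - 1 / 20000)))) ^ 2 * C' < ε / 2 := by
    have t1 : Tendsto (fun A : ℝ => 2 * C ^ 2 * (9600 ^ 2 * Real.exp (-(A * (1 / 9600 - 1 / 20000)))) ^ 2 * C') atTop
        (𝓝 (2 * C ^ 2 * (9600 ^ 2 * 0) ^ 2 * C')) := by
      have t2 : Tendsto (fun A : ℝ => Real.exp (-(A * (1 / 9600 - 1 / 20000)))) atTop (𝓝 0) := by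
        apply Real.tendsto_exp_neg_atTop_nhds_zero.comp
        exact tendsto_id.atTop_mul_const (by norm_num)
      exact ((((t2.const_mul _).pow 2).const_mul _).mul_const _)
    have e : 2 * C ^ 2 * ((9600:ℝ) ^ 2 * 0) ^ 2 * C' = 0 := by ring
    rw [e] at t1
    obtain ⟨A, h1, h2⟩ := ((t1.eventually_lt_const (half_pos hε)).and (eventually_ge_atTop 0)).exists
    exact ⟨A, h2, h1⟩
  obtain ⟨A, hA0, hA1⟩ := hA
  set a := 2 * C ^ 2 * (A ^ 2 * Real.exp (A / 20000)) ^ 2 with ha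
  set b := 2 * C ^ 2 * (9600 ^ 2 * Real.exp (-(A * (1 / 9600 - 1 / 20000)))) ^ 2 with hb
  have ha0 : 0 ≤ a := by positivity
  have hb0 : 0 ≤ b := by positivity
  have t3 : Tendsto (fun T => a * ((∑ ρ ∈ ZO T, ∑ ρ' ∈ ZT T, mx ρ * mx ρ' *
      (1 / (1 + nd T ((ρ : ℂ), (ρ' : ℂ)) ^ 2))) / SN T)) U (𝓝 0) := by
    have := hneg.const_mul a
    rwa [mul_zero] at this
  filter_upwards [hU hl, hU (eventually_gt_atTop 1), hint, t3.eventually_lt_const (half_pos hε)] with T h1 hT h2 h3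
  have hT0 : 0 < T := by linarith
  obtain ⟨i1, b1⟩ := h59_S1 hT
  obtain ⟨i2, b2⟩ := h1 1 le_rfl
  have h4 := integral_mono h2 ((i1.const_mul a).add (i2.const_mul b)) (fun t => hpt A hA0 T t)
  rw [integral_add' (i1.const_mul a) (i2.const_mul b), integral_const_mul, integral_const_mul] at h4
  have h5 : 0 ≤ ∫ t, Es f.h T t ^ 2 := integral_nonneg fun t => sq_nonneg _
  rw [Real.dist_eq, sub_zero, abs_of_nonneg (div_nonneg h5 hT0.le), div_lt_iff₀ hT0]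
  set P := (∑ ρ ∈ ZO T, ∑ ρ' ∈ ZT T, mx ρ * mx ρ' * (1 / (1 + nd T ((ρ : ℂ), (ρ' : ℂ)) ^ 2))) / SN T with hP
  have h6 : ∫ t, Es f.h T t ^ 2 ≤ a * (T * P) + b * (C' * 1 ^ 2 * T) := by
    refine h4.trans ?_
    gcongr
  calc ∫ t, Es f.h T t ^ 2 ≤ a * (T * P) + b * (C' * 1 ^ 2 * T) := h6
    _ = (a * P + b * C') * T := by ring
    _ < ε * T := by
        apply mul_lt_mul_of_pos_right _ hT0
        linarith

end Pool.Agent.Helper92.RG
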