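import Pool.Agent.Helper92.RG.Basic

/-!
# RG-Sym
Symmetry, atom at zero and monotonicity of the limit measures.

1. `isLim_symm`: for `f` continuous with compact support, `∫ f (-x) dμ = ∫ f dμ` by `PF_symm` and uniqueness of limits; both measures are
   finite on compacts, hence equal (a locally finite measure on `ℝ` is determined by its integrals of `C_c` functions).
2. `isLim_mono`: `∫ f dμ <= ∫ f dν` for `0 <= f` in `C_c` by `PF_subset`, so `μ <= ν` (regularity).
3. `isLim_atom`: for `0 <= f` in `C_c`: `PF T (ZT T) f >= (∑ mx ρ ^ 2) f 0 / SN T >= f 0 * NT T / SN T` (`mx ρ >= 1`, diagonal pairs,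
   `nd T (ρ, ρ) = 0`) and `NT T / SN T -> 1` (`NT_lower`, see `Pool.Agent.Helper57`), so `∫ f dμ >= f 0 = ∫ f d(dirac 0)`.
-/

open MeasureTheory Set Filter Topology
open Pool.Agent.Helper57.Zeta Pool.Agent.Helper57.PC Pool.Agent.Helper57.LH
open Pool.Agent.Helper78.SG
open Pool.Agent.Helper4.PC (CT)
open scoped ContDiff ENNReal

namespace Pool.Agent.Helper92.RG

/-- continuous functions of compact support decay -/
private theorem cc_decay47 (f : CompactlySupportedContinuousMap ℝ ℝ) :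
    ∃ M : ℝ, ∀ u, |f u| ≤ M / (1 + u ^ 2) := by
  obtain ⟨C, hC⟩ := f.continuous.bounded_above_of_compact_support f.hasCompactSupport
  obtain ⟨R, hR⟩ := f.hasCompactSupport.isCompact.isBounded.subset_closedBall 0
  have hC0 : 0 ≤ C := (norm_nonneg _).trans (hC 0)
  refine ⟨C * (1 + R ^ 2), fun u => ?_⟩
  rw [le_div_iff₀ (by positivity)]
  by_cases hu : u ∈ tsupport f
  · have h1 := hR hu
    rw [Metric.mem_closedBall, Real.dist_eq, sub_zero] at h1
    have h2 : u ^ 2 ≤ R ^ 2 := sq_le_sq' (by linarith [neg_abs_le u]) ((le_abs_self u).trans h1)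
    exact mul_le_mul (hC u) (by linarith) (by positivity) hC0
  · have : f u = 0 := image_eq_zero_of_notMem_tsupport hu
    rw [this]
    simp only [abs_zero, zero_mul]
    positivity

theorem isLim_symm {U : Filter ℝ} [U.NeBot] {F : ℝ → Finset ZS} {μ : Measure ℝ} (hμ : IsLim U F μ) :
    μ.map (fun x => -x) = μ := by
  have := hμ.1
  have : IsFiniteMeasureOnCompacts (μ.map (fun x => -x)) := by
    refine ⟨fun K hK => ?_⟩
    rw [Measure.map_apply measurable_neg hK.measurableSet]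
    have h1 : IsCompact ((fun x : ℝ => -x) ⁻¹' K) := by
      have := (Homeomorph.neg ℝ).isCompact_preimage.2 hK
      exact this
    exact h1.measure_lt_top
  refine Measure.ext_of_integral_eq_on_compactlySupported fun f => ?_
  have hmap : ∫ x, f x ∂(μ.map (fun x => -x)) = ∫ x, f (-x) ∂μ :=
    integral_map (f := fun x => f x) measurable_neg.aemeasurable f.continuous.aestronglyMeasurable
  rw [hmap]
  obtain ⟨M, hM⟩ := cc_decay47 f
  have h1 := (hμ.2 f f.continuous ⟨M, hM⟩).2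
  have h2 := (hμ.2 (fun x => f (-x)) (f.continuous.comp continuous_neg)
    ⟨M, fun u => by simpa using hM (-u)⟩).2
  refine tendsto_nhds_unique h2 (h1.congr fun T => ?_)
  exact (PF_symm T (F T) f).symm

private theorem meas_le47 {μ ν : Measure ℝ} [IsFiniteMeasureOnCompacts μ] [IsFiniteMeasureOnCompacts ν]
    (h : ∀ f : CompactlySupportedContinuousMap ℝ ℝ, (∀ x, 0 ≤ f x) → ∫ x, f x ∂μ ≤ ∫ x, f x ∂ν) :
    μ ≤ ν := by
  have hc : ∀ K : Set ℝ, IsCompact K → μ K ≤ ν K := by
    intro K hK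
    refine ENNReal.le_of_forall_pos_le_add fun ε hε hν ↦ ?_
    have hνK : ν K ≠ ⊤ := hν.ne
    have hμK : μ K ≠ ⊤ := hK.measure_lt_top.ne
    obtain ⟨V, pV1, pV2, pV3⟩ : ∃ V ⊇ K, IsOpen V ∧ ν V ≤ ν K + ε :=
      exists_isOpen_le_add K ν (ne_of_gt (ENNReal.coe_lt_coe.mpr hε))
    suffices μ.real K ≤ ν.real K + ε by
      rwa [← ENNReal.toReal_le_toReal, ENNReal.toReal_add, ENNReal.coe_toReal]
      all_goals finiteness
    have VltTop : ν V < ⊤ := pV3.trans_lt <| by finiteness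
    obtain ⟨f, pf1, pf2, pf3⟩ :
        ∃ f : CompactlySupportedContinuousMap ℝ ℝ, Set.EqOn (⇑f) 1 K ∧ tsupport ⇑f ⊆ V ∧
          ∀ (x : ℝ), f x ∈ Set.Icc 0 1 := by
      obtain ⟨f, hf1, hf2, hf3⟩ := exists_continuousMap_one_of_isCompact_subset_isOpen hK pV2 pV1
      exact ⟨⟨f, hasCompactSupport_def.mpr hf2⟩, hf1, hf3⟩
    have hfV (x : ℝ) : f x ≤ V.indicator 1 x := by
      by_cases hx : x ∈ tsupport f
      · simp [(pf2 hx), (pf3 x).2]
      · simp [image_eq_zero_of_notMem_tsupport hx, Set.indicator_nonneg]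
    have hfK (x : ℝ) : K.indicator 1 x ≤ f x := by
      by_cases hx : x ∈ K
      · simp [hx, pf1 hx]
      · simp [hx, (pf3 x).1]
    calc
      μ.real K = ∫ x, K.indicator 1 x ∂μ := integral_indicator_one hK.measurableSet |>.symm
      _ ≤ ∫ x, f x ∂μ := by
        refine integral_mono ?_ f.integrable hfK
        exact (continuousOn_const.integrableOn_compact hK).integrable_indicator hK.measurableSet
      _ ≤ ∫ x, f x ∂ν := h f fun x => (pf3 x).1
      _ ≤ ∫ x, V.indicator 1 x ∂ν := by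
        refine integral_mono f.integrable ?_ hfV
        exact IntegrableOn.integrable_indicator integrableOn_const pV2.measurableSet
      _ ≤ (ν K).toReal + ↑ε := by
        rwa [integral_indicator_one pV2.measurableSet, measureReal_def,
          ← ENNReal.coe_toReal, ← ENNReal.toReal_add, ENNReal.toReal_le_toReal]
        all_goals finiteness
  have ho : ∀ V : Set ℝ, IsOpen V → μ V ≤ ν V := by
    intro V hV
    rw [hV.measure_eq_iSup_isCompact]
    exact iSup_le fun K => iSup_le fun hKV => iSup_le fun hK => (hc K hK).trans (measure_mono hKV)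
  refine Measure.le_iff.2 fun s _ => ?_
  rw [s.measure_eq_iInf_isOpen ν]
  exact le_iInf fun V => le_iInf fun hsV => le_iInf fun hV => (measure_mono hsV).trans (ho V hV)

theorem isLim_mono {U : Filter ℝ} [U.NeBot] (hU : U ≤ atTop) {F G : ℝ → Finset ZS} (hFG : ∀ T, F T ⊆ G T)
    {μ ν : Measure ℝ} (hμ : IsLim U F μ) (hν : IsLim U G ν) : μ ≤ ν := by
  have := hμ.1
  have := hν.1
  refine meas_le47 fun f hf => ?_
  have hM := cc_decay47 f
  have h1 := (hμ.2 f f.continuous hM).2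
  have h2 := (hν.2 f f.continuous hM).2
  refine le_of_tendsto_of_tendsto h1 h2 ?_
  filter_upwards [hU (eventually_gt_atTop (1:ℝ))] with T hT
  exact PF_subset hT (hFG T) hf

private theorem mx_one_le47 (ρ : ZS) : 1 ≤ mx ρ := by
  obtain ⟨g, -, hfg, hga⟩ := div_point differentiable_xi xi_two_ne (ρ : ℂ)
  have hn : analyticOrderNatAt xi (ρ : ℂ) ≠ 0 := by
    intro h0
    have h1 := hfg (ρ : ℂ)
    rw [h0, pow_zero, one_mul, ρ.2] at h1
    exact hga h1.symm
  unfold mx
  exact_mod_cast Nat.one_le_iff_ne_zero.2 hn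

private theorem PF_diag47 {T : ℝ} (hT : 1 < T) {f : ℝ → ℝ} (hf : ∀ x, 0 ≤ f x) :
    f 0 * (NT T / SN T) ≤ PF T (ZT T) f := by
  unfold PF
  have h0 := SN_pos hT
  rw [← mul_div_assoc]
  gcongr
  rw [← sum_ZT_mx, Finset.mul_sum]
  refine Finset.sum_le_sum fun ρ hρ => ?_
  have hn : ∀ ρ' : ZS, 0 ≤ mx ρ * mx ρ' * f (nd T ((ρ : ℂ), (ρ' : ℂ))) := fun ρ' =>
    mul_nonneg (mul_nonneg (mx_nonneg _) (mx_nonneg _)) (hf _)
  refine le_trans ?_ (Finset.single_le_sum (f := fun ρ' : ZS => mx ρ * mx ρ' * f (nd T ((ρ : ℂ), (ρ' : ℂ))))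
    (fun ρ' _ => hn ρ') hρ)
  have hnd : nd T ((ρ : ℂ), (ρ : ℂ)) = 0 := by unfold nd; simp
  simp only [hnd]
  have h1 := mx_one_le47 ρ
  have h2 := hf 0
  nlinarith [mul_nonneg (mul_nonneg (mx_nonneg (ρ : ℂ)) (sub_nonneg.2 h1)) h2]

theorem isLim_atom {U : Filter ℝ} [U.NeBot] (hU : U ≤ atTop) {μ : Measure ℝ} (hμ : IsLim U ZT μ) :
    Measure.dirac 0 ≤ μ := by
  have := hμ.1
  refine meas_le47 fun f hf => ?_
  rw [integral_dirac]
  have hM := cc_decay47 f
  have h1 := (hμ.2 f f.continuous hM).2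
  have key : ∀ ε : ℝ, 0 < ε → f 0 * (1 - ε) ≤ ∫ x, f x ∂μ := by
    intro ε hε
    obtain ⟨T₀, hT₀⟩ := NT_lower ε hε
    refine ge_of_tendsto h1 ?_
    filter_upwards [hU (eventually_gt_atTop (1:ℝ)), hU (eventually_ge_atTop T₀)] with T hT hT2
    refine le_trans ?_ (PF_diag47 hT hf)
    have h3 := hT₀ T hT2
    have h4 := SN_pos hT
    refine mul_le_mul_of_nonneg_left ?_ (hf 0)
    rw [le_div_iff₀ h4]
    exact h3
  refine le_of_forall_pos_le_add fun δ hδ => ?_
  have h2 := key (δ / (f 0 + 1)) (div_pos hδ (by linarith [hf 0]))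
  have h3 : f 0 * (δ / (f 0 + 1)) ≤ δ := by
    rw [← mul_div_assoc, div_le_iff₀ (by linarith [hf 0])]
    nlinarith [hf 0]
  nlinarith

end Pool.Agent.Helper92.RG
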