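import Pool.Agent.Helper92.RG.Brid
import Pool.Agent.Helper92.RG.IsL
import Pool.Agent.Helper92.RG.Sym

/-!
# RG-Win
From `μ = GUE` for every limit measure to the law for all windows.

`tendsto_iff_ultrafilter`: let `U` be an ultrafilter with `U <= l` (so `U <= atTop`), `μ` from `exists_isLim` (with `F = ZT`), `μ = GUE`.
By `pairCount_PF`, `pairCount T α β / SN T = PF T (ZT T) (indicator)`. It is enough to prove the lower half
(`LowHalf`, windows `[α, β]` with `0 < α < β`), by `full_law` (`Helper57`). A continuous trapezoid below the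
indicator of `[α, β]` gives it.
-/

open MeasureTheory Set Filter Topology
open Pool.Agent.Helper57.Zeta Pool.Agent.Helper57.PC Pool.Agent.Helper57.LH
open Pool.Agent.Helper78.SG
open Pool.Agent.Helper4.PC (CT)
open scoped ContDiff ENNReal

namespace Pool.Agent.Helper92.RG

/-- A trapezoid. -/
private noncomputable def h24_trap (α β η x : ℝ) : ℝ := max 0 (min 1 (min ((x - α) / η) ((β - x) / η)))

private theorem h24_trap_cont (α β η : ℝ) : Continuous (h24_trap α β η) := by
  unfold h24_trap
  fun_prop

private theorem h24_trap_nonneg (α β η x : ℝ) : 0 ≤ h24_trap α β η x := le_max_left _ _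

private theorem h24_trap_le_one (α β η x : ℝ) : h24_trap α β η x ≤ 1 :=
  max_le zero_le_one (min_le_left _ _)

private theorem h24_trap_out {α β η x : ℝ} (hη : 0 < η) (hx : x ∉ Icc α β) : h24_trap α β η x = 0 := by
  unfold h24_trap
  apply max_eq_left
  by_cases h1 : α ≤ x
  · have h2 : β < x := by
      by_contra h
      exact hx ⟨h1, not_lt.mp h⟩
    refine (min_le_right _ _).trans ((min_le_right _ _).trans ?_)
    exact div_nonpos_of_nonpos_of_nonneg (by linarith) hη.le
  · refine (min_le_right _ _).trans ((min_le_left _ _).trans ?_)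
    exact div_nonpos_of_nonpos_of_nonneg (by linarith) hη.le

private theorem h24_trap_one {α β η x : ℝ} (hη : 0 < η) (h1 : α + η ≤ x) (h2 : x ≤ β - η) :
    h24_trap α β η x = 1 := by
  unfold h24_trap
  have h3 : 1 ≤ (x - α) / η := by rw [le_div_iff₀ hη]; linarith
  have h4 : 1 ≤ (β - x) / η := by rw [le_div_iff₀ hη]; linarith
  rw [min_eq_left (le_min h3 h4)]
  norm_num

private theorem h24_trap_le_ind {α β η : ℝ} (hη : 0 < η) (x : ℝ) :
    h24_trap α β η x ≤ (Icc α β).indicator 1 x := by
  by_cases hx : x ∈ Icc α β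
  · rw [indicator_of_mem hx]
    exact h24_trap_le_one _ _ _ _
  · rw [h24_trap_out hη hx, indicator_of_notMem hx]

private theorem h24_trap_decay {α β η : ℝ} (hα : 0 < α) (hη : 0 < η) (x : ℝ) :
    |h24_trap α β η x| ≤ (1 + β ^ 2) / (1 + x ^ 2) := by
  rw [abs_of_nonneg (h24_trap_nonneg _ _ _ _)]
  by_cases hx : x ∈ Icc α β
  · refine (h24_trap_le_one _ _ _ _).trans ?_
    rw [le_div_iff₀ (by positivity)]
    have : x ^ 2 ≤ β ^ 2 := pow_le_pow_left₀ (by linarith [hx.1]) hx.2 2
    linarith
  · rw [h24_trap_out hη hx]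
    positivity

private theorem h24_Fc_ae : ∀ᵐ u : ℝ, Fc u = pcDensity u := by
  filter_upwards [sc_ae] with u hu
  unfold Fc
  rw [hu, pcDensity_eq]

private theorem h24_Fc_nonneg (u : ℝ) : 0 ≤ Fc u := by
  unfold Fc
  linarith [sc_le_one u]

private theorem h24_Fc_cont : Continuous Fc := by
  unfold Fc
  exact continuous_const.sub sc_cont

private theorem h24_int_GUE {α β η : ℝ} (hα : 0 < α) (hη : 0 < η) (hβ : α + 2 * η ≤ β)
    (hi : Integrable (h24_trap α β η) GUE) :
    (∫ u in α..β, pcDensity u) - 2 * η ≤ ∫ x, h24_trap α β η x ∂GUE := by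
  have hi1 : Integrable (h24_trap α β η) (Measure.dirac 0) := hi.mono_measure (by
    unfold GUE
    exact Measure.le_add_right le_rfl)
  have hi2 : Integrable (h24_trap α β η) (DM Fc) := hi.mono_measure (by
    unfold GUE
    exact Measure.le_add_left le_rfl)
  have e1 : ∫ x, h24_trap α β η x ∂GUE = h24_trap α β η 0 + ∫ x, h24_trap α β η x ∂(DM Fc) := by
    unfold GUE
    rw [integral_add_measure hi1 hi2, integral_dirac]
  have e2 : h24_trap α β η 0 = 0 := h24_trap_out hη (fun h => absurd h.1 (by linarith))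
  have hmeas : Measurable (fun u : ℝ => ENNReal.ofReal (Fc u)) := h24_Fc_cont.measurable.ennreal_ofReal
  have e3 : ∫ x, h24_trap α β η x ∂(DM Fc) = ∫ x, Fc x * h24_trap α β η x := by
    unfold DM
    rw [integral_withDensity_eq_integral_toReal_smul hmeas (by
      filter_upwards with x
      exact ENNReal.ofReal_lt_top)]
    refine integral_congr_ae ?_
    filter_upwards with x
    simp only [smul_eq_mul]
    rw [ENNReal.toReal_ofReal (h24_Fc_nonneg x)]
  have hint : Integrable (fun x => Fc x * h24_trap α β η x) := by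
    have h1 : Continuous (fun x => Fc x * h24_trap α β η x) := h24_Fc_cont.mul (h24_trap_cont _ _ _)
    refine h1.integrable_of_hasCompactSupport ?_
    refine HasCompactSupport.intro (isCompact_Icc (a := α) (b := β)) fun x hx => ?_
    rw [h24_trap_out hη hx, mul_zero]
  have e4 : (∫ u in (α + η)..(β - η), pcDensity u) ≤ ∫ x, Fc x * h24_trap α β η x := by
    have h1 : (∫ u in (α + η)..(β - η), pcDensity u) = ∫ u in Ioc (α + η) (β - η), pcDensity u :=
      intervalIntegral.integral_of_le (by linarith)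
    rw [h1]
    have h2 : ∫ u in Ioc (α + η) (β - η), pcDensity u =
        ∫ u in Ioc (α + η) (β - η), Fc u * h24_trap α β η u := by
      refine setIntegral_congr_ae measurableSet_Ioc ?_
      filter_upwards [h24_Fc_ae] with u hu hm
      rw [hu, h24_trap_one hη hm.1.le hm.2, mul_one]
    rw [h2]
    refine setIntegral_le_integral hint ?_
    filter_upwards with x
    exact mul_nonneg (h24_Fc_nonneg x) (h24_trap_nonneg _ _ _ _)
  have e5 : (∫ u in α..β, pcDensity u) ≤ (∫ u in (α + η)..(β - η), pcDensity u) + 2 * η := by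
    rw [← intervalIntegral.integral_add_adjacent_intervals (intervalIntegrable_pcDensity α (α + η))
      (intervalIntegrable_pcDensity (α + η) β),
      ← intervalIntegral.integral_add_adjacent_intervals (intervalIntegrable_pcDensity (α + η) (β - η))
      (intervalIntegrable_pcDensity (β - η) β)]
    have h1 := int_F_le (show α ≤ α + η by linarith)
    have h2 := int_F_le (show β - η ≤ β by linarith)
    linarith
  rw [e1, e2, zero_add, e3]
  linarith

private theorem h24_lowHalf {l : Filter ℝ} (hl : l ≤ atTop)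
    (h : ∀ U : Ultrafilter ℝ, (U : Filter ℝ) ≤ l → ∀ μ : Measure ℝ, IsLim U ZT μ → μ = GUE) :
    LowHalf l := by
  intro α β hα hαβ δ hδ
  rw [Filter.Eventually, Filter.mem_iff_ultrafilter]
  intro U hU
  obtain ⟨μ, hμ⟩ := exists_isLim U (hU.trans hl) ZT (fun T => subset_rfl)
  have hμG := h U hU μ hμ
  rw [hμG] at hμ
  set η : ℝ := min (δ / 8) ((β - α) / 4) with hη
  have hη0 : 0 < η := lt_min (by linarith) (by linarith)
  have hη1 : η ≤ δ / 8 := min_le_left _ _
  have hη2 : η ≤ (β - α) / 4 := min_le_right _ _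
  obtain ⟨hi, hlim⟩ := hμ.2 (h24_trap α β η) (h24_trap_cont _ _ _)
    ⟨1 + β ^ 2, fun u => h24_trap_decay hα hη0 u⟩
  have hG := h24_int_GUE hα hη0 (by linarith) hi
  have hev : ∀ᶠ T in (U : Filter ℝ), (∫ x, h24_trap α β η x ∂GUE) - δ / 2 <
      PF T (ZT T) (h24_trap α β η) := hlim.eventually_const_lt (by linarith)
  have hev2 : ∀ᶠ T in (U : Filter ℝ), (1:ℝ) < T := (hU.trans hl) (eventually_gt_atTop 1)
  have : ∀ᶠ T in (U : Filter ℝ), ((∫ u in α..β, pcDensity u) - δ) * SN T ≤ pairCount T α β := by
    filter_upwards [hev, hev2] with T h1 hT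
    have hS := SN_pos hT
    rw [pairCount_PF hT, mul_comm]
    have h2 : PF T (ZT T) (h24_trap α β η) ≤ PF T (ZT T) ((Icc α β).indicator 1) :=
      PF_mono hT _ (fun x => h24_trap_le_ind hη0 x)
    exact mul_le_mul_of_nonneg_left (by linarith) hS.le
  exact this

theorem law_of_lim {l : Filter ℝ} (hl : l ≤ atTop)
    (h : ∀ U : Ultrafilter ℝ, (U : Filter ℝ) ≤ l → ∀ μ : Measure ℝ, IsLim U ZT μ → μ = GUE) : Law l := by
  classical
  intro α β hαβ
  have := full_law hl (h24_lowHalf hl h) hαβ
  convert this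

end Pool.Agent.Helper92.RG
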