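import Pool.Agent.Helper92.RG.LawA
import Pool.Agent.Helper92.RG.LawB
import Pool.Agent.Helper92.RG.Off0
import Pool.Agent.Helper92.RG.Negl
import Pool.Agent.Helper92.RG.NLP
import Pool.Agent.Helper92.RG.CritLow
import Pool.Agent.Helper92.RG.Win
import Pool.Agent.Helper92.RG.HypL
import Pool.Agent.Helper92.RG.HypU
import Pool.Agent.Helper92.RG.ConcP
import Pool.Agent.Helper92.RG.ConcG

/-!
# RG-Main: assembly
-/

open MeasureTheory Set Filter Topology
open Pool.Agent.Helper57.Zeta Pool.Agent.Helper57.PC Pool.Agent.Helper57.LH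
open Pool.Agent.Helper78.SG
open Pool.Agent.Helper4.PC (CT)
open scoped ContDiff ENNReal

namespace Pool.Agent.Helper92.RG

theorem Fc_cont : Continuous Fc := by unfold Fc; exact continuous_const.sub sc_cont

theorem Fc_nonneg (u : ℝ) : 0 ≤ Fc u := by unfold Fc; linarith [sc_le_one u]

theorem Fc_even (u : ℝ) : Fc (-u) = Fc u := by unfold Fc; rw [sc_even]

theorem int_Fc (α β : ℝ) : ∫ u in α..β, pcDensity u = ∫ u in α..β, Fc u := by
  apply intervalIntegral.integral_congr_ae
  filter_upwards [sc_ae] with u hu _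
  rw [pcDensity_eq]
  unfold Fc
  rw [hu]

theorem dm_symm {g : ℝ → ℝ} (hg : Continuous g) (he : ∀ u, g (-u) = g u) : (DM g).map (fun x => -x) = DM g := by
  ext s hs
  have hneg : Measurable (fun x : ℝ => -x) := measurable_neg
  rw [Measure.map_apply hneg hs]
  unfold DM
  rw [withDensity_apply _ (hneg hs), withDensity_apply _ hs]
  have hmp : MeasurePreserving (fun x : ℝ => -x) volume volume := Measure.measurePreserving_neg volume
  have h1 := hmp.setLIntegral_comp_preimage hs (f := fun u => ENNReal.ofReal (g u))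
    (ENNReal.measurable_ofReal.comp hg.measurable)
  rw [← h1]
  refine setLIntegral_congr_fun (hneg hs) ?_
  intro x _
  simp only [he]

theorem dm_zero (g : ℝ → ℝ) (G : Set ℝ) : DM g (G ∩ {0}) = 0 := by
  unfold DM
  apply withDensity_absolutelyContinuous
  exact measure_mono_null inter_subset_right (by simp)

/-- the error density -/
noncomputable def ED (C c u : ℝ) : ℝ := C * Real.exp (-c * |u|)

theorem ED_cont (C c : ℝ) : Continuous (ED C c) := by unfold ED; fun_prop

theorem ED_even (C c u : ℝ) : ED C c (-u) = ED C c u := by unfold ED; rw [abs_neg]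

theorem low_meas {U : Filter ℝ} [U.NeBot] (hU : U ≤ atTop) {F : ℝ → Finset ZS} {μ : Measure ℝ} (hμ : IsLim U F μ)
    {G : Set ℝ} (hG : IsOpen G) (hGs : ∀ x, x ∈ G → -x ∈ G) {C c : ℝ} (hC : 0 ≤ C)
    (h : ∀ α β : ℝ, 0 < α → α < β → Icc α β ⊆ G → ∀ δ : ℝ, 0 < δ → ∀ᶠ T in U,
      (∫ u in α..β, (pcDensity u - C * Real.exp (-c * u))) - δ ≤ PF T (F T) ((Icc α β).indicator 1)) :
    (DM Fc).restrict G ≤ (μ + DM (fun u => C * Real.exp (-c * |u|))).restrict G := by
  have hm : Measurable (fun x : ℝ => -x) := measurable_neg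
  have hED : Continuous (fun u : ℝ => C * Real.exp (-c * |u|)) := ED_cont C c
  refine le_sym hG.measurableSet hGs (dm_symm Fc_cont Fc_even) ?_ ?_ ?_
  · rw [Measure.map_add _ _ hm, isLim_symm hμ, dm_symm hED (fun u => by rw [abs_neg])]
  · rw [dm_zero]; exact zero_le
  · refine hyp_lower hU hμ (hG.inter isOpen_Ioi) Fc_cont hED Fc_nonneg (fun x => by positivity) ?_
    intro α β hαβ hsub δ hδ
    have hα : 0 < α := (hsub (left_mem_Icc.mpr hαβ.le)).2
    have h1 := h α β hα hαβ (fun x hx => (hsub hx).1) δ hδ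
    have h2 : ∫ u in α..β, (Fc u - C * Real.exp (-c * |u|)) = ∫ u in α..β, (pcDensity u - C * Real.exp (-c * u)) := by
      apply intervalIntegral.integral_congr_ae
      filter_upwards [sc_ae] with u hu hmem
      rw [uIoc_of_le hαβ.le] at hmem
      rw [pcDensity_eq]
      unfold Fc
      rw [hu, abs_of_pos (hα.trans hmem.1)]
    rw [h2]
    exact h1

theorem up_meas {U : Filter ℝ} [U.NeBot] (hU : U ≤ atTop) {F : ℝ → Finset ZS} {μ : Measure ℝ} (hμ : IsLim U F μ)
    {G : Set ℝ} (hG : IsOpen G) (hGs : ∀ x, x ∈ G → -x ∈ G) (hG0 : (0:ℝ) ∉ G) {C c : ℝ} (hC : 0 ≤ C)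
    (h : ∀ α β : ℝ, 0 < α → α < β → Icc α β ⊆ G → ∀ δ : ℝ, 0 < δ → ∀ᶠ T in U,
      PF T (F T) ((Icc α β).indicator 1) ≤ (∫ u in α..β, (pcDensity u + C * Real.exp (-c * u))) + δ) :
    μ.restrict G ≤ (DM (fun u => Fc u + C * Real.exp (-c * |u|))).restrict G := by
  have hm : Measurable (fun x : ℝ => -x) := measurable_neg
  have hED : Continuous (fun u : ℝ => C * Real.exp (-c * |u|)) := ED_cont C c
  have hg : Continuous (fun u => Fc u + C * Real.exp (-c * |u|)) := Fc_cont.add hED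
  refine le_sym hG.measurableSet hGs (isLim_symm hμ) (dm_symm hg (fun u => by rw [abs_neg, Fc_even])) ?_ ?_
  · have : G ∩ {0} = ∅ := by
      ext x
      simp only [mem_inter_iff, mem_singleton_iff, mem_empty_iff_false, iff_false, not_and]
      intro hx h0
      exact hG0 (h0 ▸ hx)
    rw [this]; simp
  · refine hyp_upper hU hμ (hG.inter isOpen_Ioi) hg (fun x => by have := Fc_nonneg x; positivity) ?_
    intro α β hαβ hsub δ hδ
    have hα : 0 < α := (hsub (left_mem_Icc.mpr hαβ.le)).2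
    have h1 := h α β hα hαβ (fun x hx => (hsub hx).1) δ hδ
    have h2 : ∫ u in α..β, (Fc u + C * Real.exp (-c * |u|)) = ∫ u in α..β, (pcDensity u + C * Real.exp (-c * u)) := by
      apply intervalIntegral.integral_congr_ae
      filter_upwards [sc_ae] with u hu hmem
      rw [uIoc_of_le hαβ.le] at hmem
      rw [pcDensity_eq]
      unfold Fc
      rw [hu, abs_of_pos (hα.trans hmem.1)]
    rw [h2]
    exact h1

theorem sgn_open (P : Polynomial ℝ) : IsOpen {u : ℝ | P.eval (u ^ 2) < 0} ∧ IsOpen {u : ℝ | 0 < P.eval (u ^ 2)} := by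
  have hc : Continuous (fun u : ℝ => P.eval (u ^ 2)) := P.continuous.comp (continuous_pow 2)
  exact ⟨isOpen_lt hc continuous_const, isOpen_lt continuous_const hc⟩

theorem SN_eq (T : ℝ) : SN T = T * Real.log T / (2 * Real.pi) := rfl

theorem clause_one {l : Filter ℝ} (hl : l ≤ atTop) (x₀ : ℝ≥0∞)
    (hlo : ∀ α β : ℝ, 0 < α → α < β → ENNReal.ofReal β ≤ x₀ → ∀ δ : ℝ, 0 < δ → ∀ᶠ T : ℝ in l,
      ((∫ u in α..β, pcDensity u) - δ) * (T * Real.log T / (2 * Real.pi)) ≤ pairCount T α β)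
    (hup : ∀ α β : ℝ, 0 < α → α < β → x₀ ≤ ENNReal.ofReal α → ∀ δ : ℝ, 0 < δ → ∀ᶠ T : ℝ in l,
      pairCount T α β ≤ ((∫ u in α..β, pcDensity u) + δ) * (T * Real.log T / (2 * Real.pi))) : Law l := by
  apply law_of_lim hl
  intro U hU μ hμ
  have hUt : (U : Filter ℝ) ≤ atTop := hU.trans hl
  obtain ⟨B, hB, hB1, hlaw⟩ := law_a U hUt hμ
  have : IsFiniteMeasureOnCompacts μ := hμ.1
  have hatom := isLim_atom hUt hμ
  have hint : ∀ f : ℝ → ℝ, Continuous f → (∃ M : ℝ, ∀ u, |f u| ≤ M / (1 + u ^ 2)) → Integrable f μ :=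
    fun f hf hM => (hμ.2 f hf hM).1
  have hT1 : ∀ᶠ T : ℝ in (U : Filter ℝ), 1 < T := hUt (eventually_gt_atTop 1)
  have key : ∀ P : Polynomial ℝ, P ≠ 0 → P.eval 0 ≤ 0 → P.natDegree ≤ 1 →
      (∀ u : ℝ, 0 < u → P.eval (u ^ 2) < 0 → ENNReal.ofReal u < x₀) →
      (∀ u : ℝ, 0 < u → 0 < P.eval (u ^ 2) → x₀ < ENNReal.ofReal u) → μ = GUE := by
    intro P hP hP0 hdeg h1 h2
    have hlow : (DM Fc).restrict {u | P.eval (u ^ 2) < 0} ≤ μ.restrict {u | P.eval (u ^ 2) < 0} := by
      have h3 := low_meas (C := 0) (c := 0) hUt hμ (sgn_open P).1 (fun x hx => by simpa using hx) le_rfl (by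
        intro α β hα hαβ hsub δ hδ
        have hβ : ENNReal.ofReal β ≤ x₀ := (h1 β (hα.trans hαβ) (hsub (right_mem_Icc.mpr hαβ.le))).le
        filter_upwards [hU (hlo α β hα hαβ hβ δ hδ), hT1] with T hT hT1
        rw [pairCount_PF hT1, ← SN_eq, mul_comm] at hT
        simp only [zero_mul, sub_zero]
        exact le_of_mul_le_mul_left hT (SN_pos hT1))
      have h4 : DM (fun u : ℝ => (0:ℝ) * Real.exp (-(0:ℝ) * |u|)) = 0 := by
        unfold DM
        simp
      rw [h4, add_zero] at h3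
      exact h3
    have hupp : μ.restrict {u | 0 < P.eval (u ^ 2)} ≤ (DM Fc).restrict {u | 0 < P.eval (u ^ 2)} := by
      have h3 := up_meas (C := 0) (c := 0) hUt hμ (sgn_open P).2 (fun x hx => by simpa using hx)
        (by rw [mem_setOf_eq, zero_pow two_ne_zero]; exact not_lt.mpr hP0) le_rfl (by
        intro α β hα hαβ hsub δ hδ
        have hβ : x₀ ≤ ENNReal.ofReal α := (h2 α hα (hsub (left_mem_Icc.mpr hαβ.le))).le
        filter_upwards [hU (hup α β hα hαβ hβ δ hδ), hT1] with T hT hT1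
        rw [pairCount_PF hT1, ← SN_eq, mul_comm (_ + δ)] at hT
        simp only [zero_mul, add_zero]
        exact le_of_mul_le_mul_left hT (SN_pos hT1))
      simp only [zero_mul, add_zero] at h3
      exact h3
    refine conc_poly hint hatom P hP hP0 hlow hupp (θ := 1 / 2) (by norm_num) B hB hB1 ?_
    intro r hr
    have h5 := hlaw r hr
    rcases Nat.le_one_iff_eq_zero_or_eq_one.mp hdeg with h6 | h6
    · rw [h6]
      simp only [mul_zero, pow_zero, one_mul]
      have h7 : Tendsto (fun n => (B n ^ 2)⁻¹ * (B n ^ 2 * ((∫ u, CT r (u / B n) ∂μ) - CT r 0 -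
          ∫ u, CT r (u / B n) * Fc u))) atTop (𝓝 (0 * 0)) := by
        refine Tendsto.mul ?_ h5
        exact ((tendsto_pow_atTop two_ne_zero).comp hB).inv_tendsto_atTop
      rw [mul_zero] at h7
      refine h7.congr fun n => ?_
      have : B n ^ 2 ≠ 0 := by
        have := hB1 n
        positivity
      rw [← mul_assoc, inv_mul_cancel₀ this, one_mul]
    · rw [h6]
      simpa using h5
  rcases eq_or_ne x₀ ⊤ with h | h
  · refine key (Polynomial.C (-1)) (by simp) (by simp) (by simp) ?_ ?_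
    · intro u _ _
      rw [h]; exact ENNReal.ofReal_lt_top
    · intro u _ hu
      simp at hu
      linarith
  · set x := x₀.toReal with hx
    have hx0 : x₀ = ENNReal.ofReal x := (ENNReal.ofReal_toReal h).symm
    have hxn : 0 ≤ x := ENNReal.toReal_nonneg
    refine key (Polynomial.X - Polynomial.C (x ^ 2)) (Polynomial.X_sub_C_ne_zero _) (by simp; positivity)
      (by rw [Polynomial.natDegree_X_sub_C]) ?_ ?_
    · intro u hu0 hu
      simp only [Polynomial.eval_sub, Polynomial.eval_X, Polynomial.eval_C] at hu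
      rw [hx0]
      have : u < x := by
        by_contra hh
        push Not at hh
        nlinarith
      exact (ENNReal.ofReal_lt_ofReal_iff (hu0.trans this)).mpr this
    · intro u hu0 hu
      simp only [Polynomial.eval_sub, Polynomial.eval_X, Polynomial.eval_C] at hu
      rw [hx0]
      have : x < u := by
        by_contra hh
        push Not at hh
        nlinarith
      exact (ENNReal.ofReal_lt_ofReal_iff hu0).mpr this

/-- Montgomery's theorem in a small range from almost all zeros on the line. -/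
theorem law_b_of_nl {U : Filter ℝ} [U.NeBot] (hU : U ≤ atTop) {μ : Measure ℝ} (hμ : IsLim U ZT μ)
    (hNL : Tendsto (fun T => (∑ ρ ∈ ZO T, mx ρ) / SN T) U (𝓝 0)) :
    ∀ r : ℝ → ℝ, Bump (1 / 20000) r → ∫ u, CT r u ∂μ = CT r 0 + ∫ u, CT r u * Fc u :=
  law_b hU hμ (fun f hf => off_zero hU (negligible hU hNL) f hf)

theorem int_ED_mono {α β C c : ℝ} (hαβ : α < β) :
    (∫ u in α..β, (pcDensity u - |C| * Real.exp (-c * u))) ≤ ∫ u in α..β, (pcDensity u - C * Real.exp (-c * u)) := by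
  apply intervalIntegral.integral_mono_on hαβ.le
  · exact (intervalIntegrable_pcDensity α β).sub (Continuous.intervalIntegrable (by fun_prop) _ _)
  · exact (intervalIntegrable_pcDensity α β).sub (Continuous.intervalIntegrable (by fun_prop) _ _)
  · intro u _
    have := mul_le_mul_of_nonneg_right (le_abs_self C) (Real.exp_pos (-c * u)).le
    linarith

theorem int_ED_mono' {α β C c : ℝ} (hαβ : α < β) :
    (∫ u in α..β, (pcDensity u + C * Real.exp (-c * u))) ≤ ∫ u in α..β, (pcDensity u + |C| * Real.exp (-c * u)) := by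
  apply intervalIntegral.integral_mono_on hαβ.le
  · exact (intervalIntegrable_pcDensity α β).add (Continuous.intervalIntegrable (by fun_prop) _ _)
  · exact (intervalIntegrable_pcDensity α β).add (Continuous.intervalIntegrable (by fun_prop) _ _)
  · intro u _
    have := mul_le_mul_of_nonneg_right (le_abs_self C) (Real.exp_pos (-c * u)).le
    linarith

theorem clause_two {l : Filter ℝ} (hl : l ≤ atTop) {C c : ℝ} (hc : 0 < c)
    (h : ∀ α β : ℝ, 0 < α → α < β → ∀ δ : ℝ, 0 < δ → ∀ᶠ T : ℝ in l,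
      ((∫ u in α..β, (pcDensity u - C * Real.exp (-c * u))) - δ) * (T * Real.log T / (2 * Real.pi)) ≤
        critPairCount T α β) : Law l := by
  apply law_of_lim hl
  intro U hU μ hμ
  have hUt : (U : Filter ℝ) ≤ atTop := hU.trans hl
  obtain ⟨μc, hμc⟩ := exists_isLim U hUt ZC ZC_subset
  have : IsFiniteMeasureOnCompacts μ := hμ.1
  have hT1 : ∀ᶠ T : ℝ in (U : Filter ℝ), 1 < T := hUt (eventually_gt_atTop 1)
  have h1 : (DM Fc).restrict univ ≤ (μc + DM (fun u => |C| * Real.exp (-c * |u|))).restrict univ := by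
    refine low_meas hUt hμc isOpen_univ (fun x _ => mem_univ _) (abs_nonneg C) ?_
    intro α β hα hαβ _ δ hδ
    filter_upwards [hU (h α β hα hαβ δ hδ), hT1] with T hT hT1
    rw [critPairCount_PF hT1, ← SN_eq, mul_comm] at hT
    have h2 := le_of_mul_le_mul_left hT (SN_pos hT1)
    have h3 := int_ED_mono (α := α) (β := β) (C := C) (c := c) hαβ
    linarith
  rw [Measure.restrict_univ, Measure.restrict_univ] at h1
  obtain ⟨C1, hC1⟩ := crit_lower hμc (abs_nonneg C) hc h1
  have hNL := nl_of_lower hUt hC1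
  have hlaw := law_b_of_nl hUt hμ hNL
  have hle : μc ≤ μ := isLim_mono hUt ZC_subset hμc hμ
  refine conc_gen (isLim_symm hμ) (fun f hf hM => (hμ.2 f hf hM).1) (isLim_atom hUt hμ) (Polynomial.C (-1)) (by simp) (by simp)
    (abs_nonneg C) hc ?_ ?_ (by norm_num : (0:ℝ) < 1 / 20000) hlaw
  · apply Measure.restrict_mono subset_rfl
    exact h1.trans (add_le_add hle le_rfl)
  · have : {u : ℝ | 0 < (Polynomial.C (-1) : Polynomial ℝ).eval (u ^ 2)} = ∅ := by
      ext u
      simp
    rw [this]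
    simp

theorem clause_three_aux {l : Filter ℝ} (hl : l ≤ atTop)
    (hNL : ∀ U : Ultrafilter ℝ, (U : Filter ℝ) ≤ l → Tendsto (fun T => (∑ ρ ∈ ZO T, mx ρ) / SN T) (U : Filter ℝ) (𝓝 0))
    (P : Polynomial ℝ) (hP : P ≠ 0) (hP0 : P.eval 0 ≤ 0) {C c : ℝ} (hc : 0 < c)
    (hlo : ∀ α β : ℝ, 0 < α → α < β → (∀ u ∈ Icc α β, P.eval (u ^ 2) < 0) → ∀ δ : ℝ, 0 < δ → ∀ᶠ T : ℝ in l,
      ((∫ u in α..β, (pcDensity u - C * Real.exp (-c * u))) - δ) * (T * Real.log T / (2 * Real.pi)) ≤ pairCount T α β)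
    (hup : ∀ α β : ℝ, 0 < α → α < β → (∀ u ∈ Icc α β, 0 < P.eval (u ^ 2)) → ∀ δ : ℝ, 0 < δ → ∀ᶠ T : ℝ in l,
      pairCount T α β ≤ ((∫ u in α..β, (pcDensity u + C * Real.exp (-c * u))) + δ) * (T * Real.log T / (2 * Real.pi))) :
    Law l := by
  apply law_of_lim hl
  intro U hU μ hμ
  have hUt : (U : Filter ℝ) ≤ atTop := hU.trans hl
  have : IsFiniteMeasureOnCompacts μ := hμ.1
  have hT1 : ∀ᶠ T : ℝ in (U : Filter ℝ), 1 < T := hUt (eventually_gt_atTop 1)
  refine conc_gen (isLim_symm hμ) (fun f hf hM => (hμ.2 f hf hM).1) (isLim_atom hUt hμ) P hP hP0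
    (abs_nonneg C) hc ?_ ?_ (by norm_num : (0:ℝ) < 1 / 20000) (law_b_of_nl hUt hμ (hNL U hU))
  · refine low_meas hUt hμ (sgn_open P).1 (fun x hx => by simpa using hx) (abs_nonneg C) ?_
    intro α β hα hαβ hsub δ hδ
    filter_upwards [hU (hlo α β hα hαβ hsub δ hδ), hT1] with T hT hT1
    rw [pairCount_PF hT1, ← SN_eq, mul_comm] at hT
    have h2 := le_of_mul_le_mul_left hT (SN_pos hT1)
    have h3 := int_ED_mono (α := α) (β := β) (C := C) (c := c) hαβ
    linarith
  · refine up_meas hUt hμ (sgn_open P).2 (fun x hx => by simpa using hx)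
      (by rw [mem_setOf_eq, zero_pow two_ne_zero]; exact not_lt.mpr hP0) (abs_nonneg C) ?_
    intro α β hα hαβ hsub δ hδ
    filter_upwards [hU (hup α β hα hαβ hsub δ hδ), hT1] with T hT hT1
    rw [pairCount_PF hT1, ← SN_eq, mul_comm (_ + δ)] at hT
    have h2 := le_of_mul_le_mul_left hT (SN_pos hT1)
    have h3 := int_ED_mono' (α := α) (β := β) (C := C) (c := c) hαβ
    linarith

theorem clause_three {l : Filter ℝ} (hl : l ≤ atTop)
    (hcrit : Tendsto (fun T : ℝ => (∑ᶠ ρ ∈ {ρ : ℂ | ρ ∈ zerosUpTo T ∧ ρ.re = 1 / 2}, (mult ρ : ℝ)) /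
      (T * Real.log T / (2 * Real.pi))) l (𝓝 1))
    (P : Polynomial ℝ) (hP : P ≠ 0) {C c : ℝ} (hc : 0 < c)
    (hlo : ∀ α β : ℝ, 0 < α → α < β → (∀ u ∈ Icc α β, P.eval (u ^ 2) < 0) → ∀ δ : ℝ, 0 < δ → ∀ᶠ T : ℝ in l,
      ((∫ u in α..β, (pcDensity u - C * Real.exp (-c * u))) - δ) * (T * Real.log T / (2 * Real.pi)) ≤ pairCount T α β)
    (hup : ∀ α β : ℝ, 0 < α → α < β → (∀ u ∈ Icc α β, 0 < P.eval (u ^ 2)) → ∀ δ : ℝ, 0 < δ → ∀ᶠ T : ℝ in l,
      pairCount T α β ≤ ((∫ u in α..β, (pcDensity u + C * Real.exp (-c * u))) + δ) * (T * Real.log T / (2 * Real.pi))) :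
    Law l := by
  have hNL : ∀ U : Ultrafilter ℝ, (U : Filter ℝ) ≤ l →
      Tendsto (fun T => (∑ ρ ∈ ZO T, mx ρ) / SN T) (U : Filter ℝ) (𝓝 0) :=
    fun U hU => crit_count (hU.trans hl) (hcrit.mono_left hU)
  rcases le_or_gt (P.eval 0) 0 with h0 | h0
  · exact clause_three_aux hl hNL P hP h0 hc hlo hup
  · refine clause_three_aux (C := C) hl hNL (Polynomial.X * P) (mul_ne_zero Polynomial.X_ne_zero hP) (by simp) hc ?_ ?_
    · intro α β hα hαβ hs
      refine hlo α β hα hαβ fun u hu => ?_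
      have h1 := hs u hu
      rw [Polynomial.eval_mul, Polynomial.eval_X] at h1
      have h2 : 0 < u ^ 2 := by
        have := hα.trans_le hu.1
        positivity
      by_contra hh
      push Not at hh
      have := mul_nonneg h2.le hh
      linarith
    · intro α β hα hαβ hs
      refine hup α β hα hαβ fun u hu => ?_
      have h1 := hs u hu
      rw [Polynomial.eval_mul, Polynomial.eval_X] at h1
      have h2 : 0 < u ^ 2 := by
        have := hα.trans_le hu.1
        positivity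
      by_contra hh
      push Not at hh
      have := mul_nonpos_of_nonneg_of_nonpos h2.le hh
      linarith

end Pool.Agent.Helper92.RG
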