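import Pool.Agent.Helper92.RG.Basic
import Pool.Agent.Helper92.RG.KD2

/-!
# RG-TailS
The zeros outside `[0, T]`. `explicit_h` (`Helper78/SG/Explicit.lean`): `HasSum (mx ρ * kz f.h L t ρ) (Xf f.h L t)` over all zeros `ρ : ZS`, so
`Xf - Xs` is the sum over `ρ ∉ ZT T`, i.e. over zeros whose height is `< 0` or `> T` (`mem_ZT`), which for `t` in `[√T, T - √T]` satisfy
`|t - γ| >= √T`. By `kd` with `k = 4`, depth at most `L / 2`, `th < 1/2`:
`|kz| <= C T^(1/4) / (1 + L |t - γ|)^4 <= C T^(1/4) * (√T)^(-2) / (1 + (t - γ)²)` (for `L >= 1`), and `∑ mx ρ / (1 + (t - γ)²) <= C log T`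
for `1 <= t <= T` (see `Helper78/SG/Tail.lean`, which does the same on `[δT, (1-δ)T]`, and `summ31`). Total: `O(T^(-3/4) log T)`.
-/

open MeasureTheory Set Filter Topology
open Pool.Agent.Helper57.Zeta Pool.Agent.Helper57.PC Pool.Agent.Helper57.LH
open Pool.Agent.Helper78.SG
open Pool.Agent.Helper4.PC (CT)
open scoped ContDiff ENNReal

namespace Pool.Agent.Helper92.RG

private theorem tailS_fin (f : TF) {ε : ℝ} (hε : 0 < ε) :
    ∀ᶠ T : ℝ in atTop, ∀ t ∈ Icc (Real.sqrt T) (T - Real.sqrt T), ∀ F : Finset ZS,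
      (∀ ρ ∈ F, ρ ∉ ZT T) → ∑ ρ ∈ F, mx ρ * |kz f.h (Real.log T) t ρ| ≤ ε := by
  obtain ⟨C, hC, hker⟩ := ker_decay f 6
  have hCA : 0 ≤ CA := by
    have h := (abs_nonneg _).trans (Afun_bound 0)
    have h2 : Pool.Agent.Helper57.LH.wg 0 = 1 := by
      unfold Pool.Agent.Helper57.LH.wg
      simp
    rw [h2, mul_one] at h
    exact h
  filter_upwards [eventually_ge_atTop (Real.exp 1), eventually_ge_atTop (1:ℝ),
    eventually_ge_atTop (8 * C * CA / ε)] with T hTe hT1 hTb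
  intro t ht F hF
  have hT0 : 0 < T := by linarith
  have hL1 : 1 ≤ Real.log T := by
    rw [Real.le_log_iff_exp_le hT0]
    exact hTe
  set L := Real.log T with hL
  set s := Real.sqrt T with hs
  have hs0 : 0 < s := Real.sqrt_pos.2 hT0
  have hs2 : s ^ 2 = T := Real.sq_sqrt hT0.le
  have hexp : Real.exp (L / 2) = s := by
    rw [hL, hs, Real.sqrt_eq_rpow, Real.rpow_def_of_pos hT0]
    congr 1
    ring
  have hterm : ∀ ρ ∈ F, mx ρ * |kz f.h L t ρ| ≤ (4 * C * s / T ^ 2) * fz ρ t := by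
    intro ρ hρ
    have hre := zs_re ρ
    have hd : s ≤ |t - (ρ:ℂ).im| := by
      have hn := hF ρ hρ
      rw [mem_ZT, not_and_or, not_le, not_le] at hn
      rcases hn with h | h
      · rw [abs_of_nonneg (by linarith [ht.1])]
        linarith [ht.1]
      · rw [abs_sub_comm, abs_of_nonneg (by linarith [ht.2])]
        linarith [ht.2]
    set d := |t - (ρ:ℂ).im| with hdd
    have hd0 : 0 < d := lt_of_lt_of_le hs0 hd
    have hk := hker (L * ((ρ:ℂ).re - 1 / 2)) (L * (t - (ρ:ℂ).im))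
    have ha : |L * ((ρ:ℂ).re - 1 / 2)| ≤ L / 2 := by
      rw [abs_mul, abs_of_nonneg (by linarith : (0:ℝ) ≤ L)]
      have : |(ρ:ℂ).re - 1 / 2| ≤ 1 / 2 := by
        rw [abs_le]
        constructor <;> linarith
      nlinarith
    have hu : d ≤ |L * (t - (ρ:ℂ).im)| := by
      rw [abs_mul, abs_of_nonneg (by linarith : (0:ℝ) ≤ L), ← hdd]
      nlinarith
    have h4 : T ^ 2 * (1 + d ^ 2) ≤ (1 + |L * (t - (ρ:ℂ).im)|) ^ 6 := by
      have h5 : (1 + d) ^ 6 ≤ (1 + |L * (t - (ρ:ℂ).im)|) ^ 6 := by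
        apply pow_le_pow_left₀ (by linarith)
        linarith
      have h6 : T ^ 2 ≤ (1 + d) ^ 4 := by
        have : s ^ 4 ≤ (1 + d) ^ 4 := by
          apply pow_le_pow_left₀ hs0.le
          linarith
        calc T ^ 2 = s ^ 4 := by rw [← hs2]; ring
          _ ≤ _ := this
      have h7 : 1 + d ^ 2 ≤ (1 + d) ^ 2 := by nlinarith
      calc T ^ 2 * (1 + d ^ 2) ≤ (1 + d) ^ 4 * (1 + d) ^ 2 := by
            apply mul_le_mul h6 h7 (by positivity) (by positivity)
        _ = (1 + d) ^ 6 := by ring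
        _ ≤ _ := h5
    have hpos : 0 < T ^ 2 * (1 + d ^ 2) := by positivity
    have hkz : |kz f.h L t ρ| ≤ C * s / (T ^ 2 * (1 + d ^ 2)) := by
      unfold kz
      refine hk.trans ?_
      apply div_le_div₀ (by positivity) _ hpos h4
      apply mul_le_mul_of_nonneg_left _ hC.le
      rw [← hexp]
      exact Real.exp_le_exp.2 ha
    have hfz : mx ρ / (1 + d ^ 2) ≤ 4 * fz ρ t := by
      unfold fz
      have hm := mx_nonneg (ρ : ℂ)
      have hsq : (t - (ρ:ℂ).im) ^ 2 = d ^ 2 := by rw [hdd, sq_abs]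
      rw [hsq]
      have h8 : 1 / (1 + d ^ 2) ≤ 4 * ((2 - (ρ:ℂ).re) / ((2 - (ρ:ℂ).re) ^ 2 + d ^ 2)) := by
        rw [← mul_div_assoc, div_le_div_iff₀ (by positivity) (by
          have : 0 < (2 - (ρ:ℂ).re) ^ 2 := by
            apply pow_pos; linarith
          positivity)]
        have h9 : (2 - (ρ:ℂ).re) ^ 2 ≤ 4 := by nlinarith
        have h10 : 1 ≤ 2 - (ρ:ℂ).re := by linarith
        nlinarith [sq_nonneg d, mul_nonneg (sq_nonneg d) (by linarith : (0:ℝ) ≤ 2 - (ρ:ℂ).re - 1)]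
      calc mx ρ / (1 + d ^ 2) = mx ρ * (1 / (1 + d ^ 2)) := by ring
        _ ≤ mx ρ * (4 * ((2 - (ρ:ℂ).re) / ((2 - (ρ:ℂ).re) ^ 2 + d ^ 2))) :=
            mul_le_mul_of_nonneg_left h8 hm
        _ = _ := by ring
    calc mx ρ * |kz f.h L t ρ| ≤ mx ρ * (C * s / (T ^ 2 * (1 + d ^ 2))) :=
          mul_le_mul_of_nonneg_left hkz (mx_nonneg _)
      _ = (C * s / T ^ 2) * (mx ρ / (1 + d ^ 2)) := by
          have h1d : (1 + d ^ 2) ≠ 0 := by positivity
          field_simp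
      _ ≤ (C * s / T ^ 2) * (4 * fz ρ t) := by
          apply mul_le_mul_of_nonneg_left hfz
          positivity
      _ = _ := by ring
  have hsum := Finset.sum_le_sum hterm
  rw [← Finset.mul_sum] at hsum
  refine hsum.trans ?_
  have hA : ∑ ρ ∈ F, fz ρ t ≤ CA * Real.sqrt (1 + |t|) := by
    refine (sum_le_hasSum F (fun i _ => fz_nonneg i t) (fz_hasSum t)).trans ?_
    exact (le_abs_self _).trans (Afun_bound t)
  have ht0 : 0 ≤ t := le_trans hs0.le ht.1
  have htT : t ≤ T := by linarith [ht.2]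
  have hs1 : Real.sqrt (1 + |t|) ≤ Real.sqrt (1 + T) := by
    apply Real.sqrt_le_sqrt
    rw [abs_of_nonneg ht0]
    linarith
  have hs3 : s * Real.sqrt (1 + T) ≤ 2 * T := by
    rw [hs, ← Real.sqrt_mul hT0.le]
    rw [Real.sqrt_le_left (by linarith)]
    nlinarith
  calc (4 * C * s / T ^ 2) * ∑ ρ ∈ F, fz ρ t
      ≤ (4 * C * s / T ^ 2) * (CA * Real.sqrt (1 + T)) := by
        apply mul_le_mul_of_nonneg_left _ (by positivity)
        exact hA.trans (mul_le_mul_of_nonneg_left hs1 hCA)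
    _ = (4 * C * CA / T ^ 2) * (s * Real.sqrt (1 + T)) := by ring
    _ ≤ (4 * C * CA / T ^ 2) * (2 * T) := by
        apply mul_le_mul_of_nonneg_left hs3
        positivity
    _ = 8 * C * CA / T := by
        field_simp
        ring
    _ ≤ ε := by
        rw [div_le_iff₀ hT0]
        rw [div_le_iff₀ hε] at hTb
        linarith

theorem xs_approx (f : TF) {ε : ℝ} (hε : 0 < ε) : ∀ᶠ T : ℝ in atTop,
    ∀ t ∈ Icc (Real.sqrt T) (T - Real.sqrt T), |Xs f.h T t - Xf f.h (Real.log T) t| ≤ ε := by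
  classical
  filter_upwards [tailS_fin f hε, eventually_gt_atTop (1:ℝ)] with T hT hT1
  intro t ht
  have hL : 0 < Real.log T := Real.log_pos hT1
  have hs := explicit_h f hL t
  have h1 : Tendsto (fun F : Finset ZS => |Xs f.h T t - ∑ ρ ∈ F, mx ρ * kz f.h (Real.log T) t ρ|)
      atTop (𝓝 |Xs f.h T t - Xf f.h (Real.log T) t|) := (hs.const_sub _).abs
  refine le_of_tendsto h1 ?_
  filter_upwards [eventually_ge_atTop (ZT T)] with F hF
  have h2 : ∑ ρ ∈ F, mx ρ * kz f.h (Real.log T) t ρ =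
      Xs f.h T t + ∑ ρ ∈ F \ ZT T, mx ρ * kz f.h (Real.log T) t ρ := by
    unfold Xs
    rw [add_comm]
    exact (Finset.sum_sdiff hF).symm
  rw [h2, sub_add_cancel_left, abs_neg]
  refine (Finset.abs_sum_le_sum_abs _ _).trans ?_
  refine le_trans (le_of_eq ?_) (hT t ht (F \ ZT T) (fun ρ hρ => (Finset.mem_sdiff.mp hρ).2))
  refine Finset.sum_congr rfl fun ρ _ => ?_
  rw [abs_mul, abs_of_nonneg (mx_nonneg _)]

end Pool.Agent.Helper92.RG
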