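import Pool.Agent.Helper92.RG.Edge
import Pool.Agent.Helper92.RG.TailS
import Pool.Agent.Helper92.RG.XBound
import Pool.Agent.Helper78.SG.Moments

/-!
# RG-SecMom
The second moment of the full sum. `I = [√T, T - √T]`, `δ > 0` small.

On `[δT, T - √T]`: `Xs = f.h 0 - prs + O(ε)` (`xs_approx`, `main_term`); on `[√T, δT]`: `|Xs + prs| <= C + ε` (`xs_approx`, `x_bound`). `prs_sq`, `prs_mean`
(`Helper78/SG/PrsMean.lean`) give `∫_a^b prs² = (b - a) * 2 ∫ y h² + O(εT)`, `|∫_a^b prs| <= εT` for all `0 <= a <= b <= T`. Expand the squares;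
outside `I` use `edge`. Letting `δ` be small compared with the constants and `ε`:
`∫ Xs² = T (h 0 ² + 2 ∫ y h²) + O(εT) = kap0 * T + O(εT)` and `∫_I (Xs - h 0)² <= T (2 ∫ y h² + ε)`.
-/

open MeasureTheory Set Filter Topology
open Pool.Agent.Helper57.Zeta Pool.Agent.Helper57.PC Pool.Agent.Helper57.LH
open Pool.Agent.Helper78.SG
open Pool.Agent.Helper4.PC (CT)
open scoped ContDiff ENNReal

namespace Pool.Agent.Helper92.RG

/-- the error of the main term -/
private noncomputable def er78 (f : TF) (T t : ℝ) : ℝ := Xs f.h T t - (f.h 0 - prs f.h (Real.log T) t)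

private theorem er_sq78 (f : TF) {η : ℝ} (hη : 0 < η) : ∀ᶠ T : ℝ in atTop,
    IntegrableOn (fun t => er78 f T t) (Icc (Real.sqrt T) (T - Real.sqrt T)) ∧
    IntegrableOn (fun t => er78 f T t ^ 2) (Icc (Real.sqrt T) (T - Real.sqrt T)) ∧
    ∫ t in Icc (Real.sqrt T) (T - Real.sqrt T), er78 f T t ^ 2 ≤ η * T := by
  obtain ⟨C, hC, hXb⟩ := x_bound f
  obtain ⟨K, hK⟩ : ∃ K, K = C + 1 + |f.h 0| := ⟨_, rfl⟩
  have hK0 : 0 < K := by rw [hK]; positivity
  obtain ⟨d, hd⟩ : ∃ d, d = η / (2 * K ^ 2) := ⟨_, rfl⟩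
  have hd0 : 0 < d := by rw [hd]; positivity
  obtain ⟨e, he⟩ : ∃ e, e = min 1 (η / 2) := ⟨_, rfl⟩
  have he0 : 0 < e := by rw [he]; positivity
  have he1 : e ≤ 1 := by rw [he]; exact min_le_left _ _
  have he2 : e ^ 2 ≤ η / 2 := by
    have h1 : e ≤ η / 2 := by rw [he]; exact min_le_right _ _
    nlinarith only [he0, he1, h1]
  filter_upwards [hXb, edge f one_pos, xs_approx f (half_pos he0), main_term f hd0 (half_pos he0), eventually_gt_atTop (1:ℝ)] with T g1 g2 g3 g4 g5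
  have hT0 : 0 < T := by linarith only [g5]
  have hs0 : 0 ≤ Real.sqrt T := Real.sqrt_nonneg T
  have hc : Continuous (fun t => prs f.h (Real.log T) t) := prs_cont16 _ _
  have hi1 : IntegrableOn (fun t => er78 f T t) (Icc (Real.sqrt T) (T - Real.sqrt T)) := by
    unfold er78
    exact g2.1.integrableOn.sub ((continuous_const.sub hc).continuousOn.integrableOn_compact isCompact_Icc)
  -- pointwise bounds
  have hb : ∀ t ∈ Icc (Real.sqrt T) (T - Real.sqrt T), er78 f T t ^ 2 ≤ e ^ 2 + (Icc 0 (d * T)).indicator (fun _ => K ^ 2) t := by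
    intro t ht
    have h3 := g3 t ht
    have htT : t ≤ T := by linarith only [ht.2, hs0]
    have ht0 : 0 ≤ t := hs0.trans ht.1
    rcases le_or_gt t (d * T) with h | h
    · have hmem : t ∈ Icc 0 (d * T) := ⟨ht0, h⟩
      rw [indicator_of_mem hmem]
      have h1 := g1 t ⟨ht.1, htT⟩
      have h2 : |er78 f T t| ≤ K := by
        have e1 : er78 f T t = (Xs f.h T t - Xf f.h (Real.log T) t) + (Xf f.h (Real.log T) t + prs f.h (Real.log T) t) - f.h 0 := by
          unfold er78; ring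
        rw [e1, hK]
        have q1 := abs_sub ((Xs f.h T t - Xf f.h (Real.log T) t) + (Xf f.h (Real.log T) t + prs f.h (Real.log T) t)) (f.h 0)
        have q2 := abs_add_le (Xs f.h T t - Xf f.h (Real.log T) t) (Xf f.h (Real.log T) t + prs f.h (Real.log T) t)
        linarith only [q1, q2, h1, h3, he1]
      have h4 : er78 f T t ^ 2 ≤ K ^ 2 := by
        rw [← sq_abs]
        exact pow_le_pow_left₀ (abs_nonneg _) h2 2
      linarith only [h4, sq_nonneg e]
    · have h1 := g4 t ⟨h.le, htT⟩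
      have h2 : |er78 f T t| ≤ e := by
        have e1 : er78 f T t = (Xs f.h T t - Xf f.h (Real.log T) t) + (Xf f.h (Real.log T) t - (f.h 0 - prs f.h (Real.log T) t)) := by
          unfold er78; ring
        rw [e1]
        have q2 := abs_add_le (Xs f.h T t - Xf f.h (Real.log T) t) (Xf f.h (Real.log T) t - (f.h 0 - prs f.h (Real.log T) t))
        linarith only [q2, h1, h3]
      have h4 : er78 f T t ^ 2 ≤ e ^ 2 := by
        rw [← sq_abs]
        exact pow_le_pow_left₀ (abs_nonneg _) h2 2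
      have h5 : 0 ≤ (Icc 0 (d * T)).indicator (fun _ => K ^ 2) t := indicator_nonneg (fun _ _ => by positivity) t
      linarith only [h4, h5]
  have hi2 : IntegrableOn (fun t => er78 f T t ^ 2) (Icc (Real.sqrt T) (T - Real.sqrt T)) := by
    refine Measure.integrableOn_of_bounded (M := e ^ 2 + K ^ 2) measure_Icc_lt_top.ne ?_ ?_
    · have h1 : AEStronglyMeasurable (fun t => er78 f T t) volume := by
        unfold er78
        exact g2.1.aestronglyMeasurable.sub (continuous_const.sub hc).aestronglyMeasurable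
      exact h1.pow 2
    · refine ae_restrict_of_forall_mem measurableSet_Icc fun t ht => ?_
      rw [Real.norm_of_nonneg (sq_nonneg _)]
      refine (hb t ht).trans ?_
      have h5 : (Icc 0 (d * T)).indicator (fun _ => K ^ 2) t ≤ K ^ 2 := indicator_le_self' (fun _ _ => by positivity) t
      linarith only [h5]
  refine ⟨hi1, hi2, ?_⟩
  have ig : Integrable ((Icc 0 (d * T)).indicator (fun _ : ℝ => K ^ 2)) := by
    rw [integrable_indicator_iff measurableSet_Icc]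
    exact integrableOn_const measure_Icc_lt_top.ne
  have ic : IntegrableOn (fun _ : ℝ => e ^ 2) (Icc (Real.sqrt T) (T - Real.sqrt T)) := integrableOn_const measure_Icc_lt_top.ne
  have h1 : ∫ t in Icc (Real.sqrt T) (T - Real.sqrt T), er78 f T t ^ 2 ≤
      ∫ t in Icc (Real.sqrt T) (T - Real.sqrt T), (e ^ 2 + (Icc 0 (d * T)).indicator (fun _ => K ^ 2) t) :=
    setIntegral_mono_on hi2 (ic.add ig.integrableOn) measurableSet_Icc hb
  have h2 : ∫ t in Icc (Real.sqrt T) (T - Real.sqrt T), (e ^ 2 + (Icc 0 (d * T)).indicator (fun _ => K ^ 2) t) =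
      (∫ t in Icc (Real.sqrt T) (T - Real.sqrt T), e ^ 2) + ∫ t in Icc (Real.sqrt T) (T - Real.sqrt T), (Icc 0 (d * T)).indicator (fun _ => K ^ 2) t :=
    integral_add ic ig.integrableOn
  have h3 : ∫ t in Icc (Real.sqrt T) (T - Real.sqrt T), e ^ 2 ≤ T * e ^ 2 := by
    rw [setIntegral_const, smul_eq_mul]
    have hv : volume.real (Icc (Real.sqrt T) (T - Real.sqrt T)) ≤ T := by
      have h4 : Icc (Real.sqrt T) (T - Real.sqrt T) ⊆ Icc 0 T := fun x hx => ⟨hs0.trans hx.1, by linarith only [hx.2, hs0]⟩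
      refine (measureReal_mono h4 measure_Icc_lt_top.ne).trans ?_
      rw [Real.volume_real_Icc_of_le hT0.le, sub_zero]
    gcongr
  have h4 : ∫ t in Icc (Real.sqrt T) (T - Real.sqrt T), (Icc 0 (d * T)).indicator (fun _ => K ^ 2) t ≤ d * T * K ^ 2 := by
    refine (setIntegral_le_integral ig (Eventually.of_forall fun t => indicator_nonneg (fun _ _ => by positivity) t)).trans ?_
    rw [integral_indicator measurableSet_Icc, setIntegral_const, smul_eq_mul, Real.volume_real_Icc_of_le (by positivity), sub_zero]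
  have h5 : d * T * K ^ 2 = η / 2 * T := by rw [hd]; field_simp
  have h6 : T * e ^ 2 ≤ T * (η / 2) := by gcongr
  linarith only [h1, h2, h3, h4, h5, h6]

private theorem D_nonneg78 (f : TF) : 0 ≤ 2 * ∫ y in (0:ℝ)..(1 / 2), y * f.h y ^ 2 := by
  have : 0 ≤ ∫ y in (0:ℝ)..(1 / 2), y * f.h y ^ 2 := by
    refine intervalIntegral.integral_nonneg (by norm_num) fun y hy => ?_
    exact mul_nonneg hy.1 (sq_nonneg _)
  positivity

private theorem sqrt_small78 {ε : ℝ} (hε : 0 < ε) (K : ℝ) : ∀ᶠ T : ℝ in atTop, 2 * Real.sqrt T * K ≤ ε * T ∧ Real.sqrt T ≤ T - Real.sqrt T := by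
  have h1 : Tendsto Real.sqrt atTop atTop := Real.tendsto_sqrt_atTop
  filter_upwards [h1.eventually_ge_atTop (2 * |K| / ε), h1.eventually_ge_atTop 2, eventually_ge_atTop (0:ℝ)] with T g1 g2 g3
  have h2 : Real.sqrt T * Real.sqrt T = T := Real.mul_self_sqrt g3
  rw [div_le_iff₀ hε] at g1
  have h3 := le_abs_self K
  constructor
  · calc 2 * Real.sqrt T * K ≤ Real.sqrt T * (2 * |K|) := by nlinarith only [h3, Real.sqrt_nonneg T]
      _ ≤ Real.sqrt T * (Real.sqrt T * ε) := by gcongr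
      _ = ε * T := by rw [← mul_assoc, h2]; ring
  · nlinarith only [h2, g2]

theorem xs_second (f : TF) {ε : ℝ} (hε : 0 < ε) : ∀ᶠ T : ℝ in atTop,
    |(∫ t, Xs f.h T t ^ 2) - kap0 f.h * T| ≤ ε * T := by
  obtain ⟨K, hK⟩ : ∃ K, K = kap0 f.h := ⟨_, rfl⟩
  have hK0 : 0 ≤ K := by rw [hK]; exact kap0_nonneg16 _
  obtain ⟨D, hD⟩ : ∃ D, D = 2 * ∫ y in (0:ℝ)..(1 / 2), y * f.h y ^ 2 := ⟨_, rfl⟩
  have hD0 : 0 ≤ D := by rw [hD]; exact D_nonneg78 f
  have hKD : K = f.h 0 ^ 2 + D := by rw [hK, hD]; rfl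
  obtain ⟨A, hA⟩ : ∃ A, A = 2 * |f.h 0| + 1 := ⟨_, rfl⟩
  have hA0 : 0 < A := by rw [hA]; positivity
  obtain ⟨s, hs⟩ : ∃ s, s = min 1 (ε / (8 * (K + 1))) := ⟨_, rfl⟩
  have hs0 : 0 < s := by rw [hs]; positivity
  have hs1 : s ≤ 1 := by rw [hs]; exact min_le_left _ _
  have hs2 : s * K ≤ ε / 8 := by
    have h1 : s ≤ ε / (8 * (K + 1)) := by rw [hs]; exact min_le_right _ _
    calc s * K ≤ ε / (8 * (K + 1)) * (K + 1) := by gcongr; linarith
      _ = ε / 8 := by field_simp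
  obtain ⟨e1, he1⟩ : ∃ e1, e1 = ε / (8 * A) := ⟨_, rfl⟩
  have he10 : 0 < e1 := by rw [he1]; positivity
  have hAe : A * e1 = ε / 8 := by rw [he1]; field_simp
  obtain ⟨η, hη⟩ : ∃ η, η = ε / 8 / (1 + 1 / s) := ⟨_, rfl⟩
  have hη0 : 0 < η := by rw [hη]; positivity
  have hηs : (1 + 1 / s) * η = ε / 8 := by rw [hη]; field_simp
  filter_upwards [er_sq78 f hη0, edge f (show 0 < ε / 8 by positivity), prs_sq f he10, prs_mean f he10, sqrt_small78 (show 0 < ε / 8 by positivity) K,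
    eventually_gt_atTop (1:ℝ)] with T g1 g2 g3 g4 g5 g6
  have hT0 : 0 < T := by linarith only [g6]
  obtain ⟨r, hr⟩ : ∃ r, r = Real.sqrt T := ⟨_, rfl⟩
  have hr0 : 0 ≤ r := by rw [hr]; exact Real.sqrt_nonneg _
  rw [← hr] at g1 g2 g5
  obtain ⟨hi1, hi2, hi3⟩ := g1
  obtain ⟨hX1, -, hX2, -, hXe, -, -, -⟩ := g2
  obtain ⟨g5a, g5b⟩ := g5
  have g3' := g3 r (T - r) hr0 g5b (by linarith only [hr0])
  have g4' := g4 r (T - r) hr0 g5b (by linarith only [hr0])
  rw [intervalIntegral.integral_of_le g5b, ← integral_Icc_eq_integral_Ioc] at g3' g4'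
  rw [← hD] at g3'
  have hc : Continuous (fun t => prs f.h (Real.log T) t) := prs_cont16 _ _
  have ip : IntegrableOn (fun t => prs f.h (Real.log T) t) (Icc r (T - r)) := hc.continuousOn.integrableOn_compact isCompact_Icc
  have ip2 : IntegrableOn (fun t => prs f.h (Real.log T) t ^ 2) (Icc r (T - r)) := (hc.pow 2).continuousOn.integrableOn_compact isCompact_Icc
  have ipm : IntegrableOn (fun t => (f.h 0 - prs f.h (Real.log T) t) ^ 2) (Icc r (T - r)) :=
    ((continuous_const.sub hc).pow 2).continuousOn.integrableOn_compact isCompact_Icc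
  have ic : IntegrableOn (fun _ : ℝ => f.h 0 ^ 2) (Icc r (T - r)) := integrableOn_const measure_Icc_lt_top.ne
  have hMx : ∫ t in Icc r (T - r), (f.h 0 - prs f.h (Real.log T) t) ^ 2 = (T - 2 * r) * f.h 0 ^ 2 -
      2 * f.h 0 * (∫ t in Icc r (T - r), prs f.h (Real.log T) t) + ∫ t in Icc r (T - r), prs f.h (Real.log T) t ^ 2 := by
    have q1 : ∀ t, (f.h 0 - prs f.h (Real.log T) t) ^ 2 = (f.h 0 ^ 2 - 2 * f.h 0 * prs f.h (Real.log T) t) + prs f.h (Real.log T) t ^ 2 := fun t => by ring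
    simp_rw [q1]
    have s1 : ∫ t in Icc r (T - r), ((f.h 0 ^ 2 - 2 * f.h 0 * prs f.h (Real.log T) t) + prs f.h (Real.log T) t ^ 2) =
        (∫ t in Icc r (T - r), (f.h 0 ^ 2 - 2 * f.h 0 * prs f.h (Real.log T) t)) + ∫ t in Icc r (T - r), prs f.h (Real.log T) t ^ 2 :=
      integral_add (ic.sub (ip.const_mul _)) ip2
    have s2 : ∫ t in Icc r (T - r), (f.h 0 ^ 2 - 2 * f.h 0 * prs f.h (Real.log T) t) =
        (∫ t in Icc r (T - r), f.h 0 ^ 2) - ∫ t in Icc r (T - r), 2 * f.h 0 * prs f.h (Real.log T) t := integral_sub ic (ip.const_mul _)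
    rw [s1, s2, integral_const_mul, setIntegral_const, Real.volume_real_Icc_of_le g5b, smul_eq_mul]
    ring
  -- the difference
  have hdiff : |(∫ t in Icc r (T - r), Xs f.h T t ^ 2) - ∫ t in Icc r (T - r), (f.h 0 - prs f.h (Real.log T) t) ^ 2| ≤
      s * (∫ t in Icc r (T - r), (f.h 0 - prs f.h (Real.log T) t) ^ 2) + (1 + 1 / s) * ∫ t in Icc r (T - r), er78 f T t ^ 2 := by
    rw [← integral_sub hX2.integrableOn ipm]
    refine abs_integral_le_integral_abs.trans ?_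
    have s3 : s * (∫ t in Icc r (T - r), (f.h 0 - prs f.h (Real.log T) t) ^ 2) + (1 + 1 / s) * ∫ t in Icc r (T - r), er78 f T t ^ 2 =
        ∫ t in Icc r (T - r), (s * (f.h 0 - prs f.h (Real.log T) t) ^ 2 + (1 + 1 / s) * er78 f T t ^ 2) := by
      rw [integral_add (ipm.const_mul _) (hi2.const_mul _), integral_const_mul, integral_const_mul]
    rw [s3]
    refine integral_mono ((hX2.integrableOn.sub ipm).abs) ((ipm.const_mul _).add (hi2.const_mul _)) fun t => ?_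
    simp only
    obtain ⟨a, ha⟩ : ∃ a, a = f.h 0 - prs f.h (Real.log T) t := ⟨_, rfl⟩
    obtain ⟨b, hb⟩ : ∃ b, b = er78 f T t := ⟨_, rfl⟩
    have q : Xs f.h T t = a + b := by rw [ha, hb]; unfold er78; ring
    rw [q, ← ha, ← hb]
    have q2 : (a + b) ^ 2 - a ^ 2 = 2 * a * b + b ^ 2 := by ring
    rw [q2]
    have q3 : |2 * a * b| ≤ s * a ^ 2 + 1 / s * b ^ 2 := by
      have q4 : 0 ≤ (s * |a| - |b|) ^ 2 / s := by positivity
      have q5 : (s * |a| - |b|) ^ 2 / s = s * a ^ 2 + 1 / s * b ^ 2 - 2 * |a| * |b| := by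
        have : (s * |a| - |b|) ^ 2 = s ^ 2 * a ^ 2 + b ^ 2 - 2 * s * |a| * |b| := by
          rw [← sq_abs a, ← sq_abs b]; ring
        rw [this]
        field_simp
      rw [abs_mul, abs_mul, abs_two]
      linarith only [q4, q5]
    have q6 := abs_add_le (2 * a * b) (b ^ 2)
    rw [abs_of_nonneg (sq_nonneg b)] at q6
    linarith only [q3, q6]
  have hsplit := integral_add_compl (μ := volume) (f := fun t => Xs f.h T t ^ 2) (measurableSet_Icc (a := r) (b := T - r)) hX2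
  have hout : 0 ≤ ∫ t in (Icc r (T - r))ᶜ, Xs f.h T t ^ 2 := integral_nonneg fun t => sq_nonneg _
  obtain ⟨M, hM⟩ : ∃ M, M = ∫ t in Icc r (T - r), (f.h 0 - prs f.h (Real.log T) t) ^ 2 := ⟨_, rfl⟩
  obtain ⟨P1, hP1⟩ : ∃ P1, P1 = ∫ t in Icc r (T - r), prs f.h (Real.log T) t := ⟨_, rfl⟩
  obtain ⟨P2, hP2⟩ : ∃ P2, P2 = ∫ t in Icc r (T - r), prs f.h (Real.log T) t ^ 2 := ⟨_, rfl⟩
  obtain ⟨XI, hXI⟩ : ∃ XI, XI = ∫ t in Icc r (T - r), Xs f.h T t ^ 2 := ⟨_, rfl⟩
  obtain ⟨XO, hXO⟩ : ∃ XO, XO = ∫ t in (Icc r (T - r))ᶜ, Xs f.h T t ^ 2 := ⟨_, rfl⟩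
  obtain ⟨EI, hEI⟩ : ∃ EI, EI = ∫ t in Icc r (T - r), er78 f T t ^ 2 := ⟨_, rfl⟩
  rw [← hM, ← hXI, ← hEI] at hdiff
  rw [← hM, ← hP1, ← hP2] at hMx
  rw [← hP2] at g3'
  rw [← hP1] at g4'
  rw [← hEI] at hi3
  rw [← hXO] at hXe hout
  rw [← hXI, ← hXO] at hsplit
  rw [← hsplit, ← hK]
  -- M is near (T - 2r) K
  have hM1 : |M - (T - 2 * r) * K| ≤ A * e1 * T := by
    have q1 : M - (T - 2 * r) * K = -(2 * f.h 0 * P1) + (P2 - (T - r - r) * D) := by rw [hMx, hKD]; ring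
    rw [q1, hA]
    have q2 := abs_add_le (-(2 * f.h 0 * P1)) (P2 - (T - r - r) * D)
    rw [abs_neg, abs_mul, abs_mul, abs_two] at q2
    have q3 : 2 * |f.h 0| * |P1| ≤ 2 * |f.h 0| * (e1 * T) := by gcongr
    linarith only [q2, q3, g3']
  have hM2 : M ≤ K * T + A * e1 * T := by
    have := (abs_le.mp hM1).2
    have q1 : 0 ≤ 2 * r * K := by positivity
    linarith only [this, q1]
  have hs3 : s * M ≤ ε / 8 * T + ε / 8 * T := by
    have q1 : s * M ≤ s * (K * T + A * e1 * T) := by gcongr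
    have q2 : s * (K * T) ≤ ε / 8 * T := by
      calc s * (K * T) = s * K * T := by ring
        _ ≤ ε / 8 * T := by gcongr
    have q3 : s * (A * e1 * T) ≤ ε / 8 * T := by
      rw [hAe]
      have : 0 ≤ ε / 8 * T := by positivity
      nlinarith only [hs1, this]
    linarith only [q1, q2, q3]
  have hE3 : (1 + 1 / s) * EI ≤ ε / 8 * T := by
    calc (1 + 1 / s) * EI ≤ (1 + 1 / s) * (η * T) := by gcongr
      _ = (1 + 1 / s) * η * T := by ring
      _ = ε / 8 * T := by rw [hηs]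
  rw [hAe] at hM1
  have b1 := abs_le.mp hdiff
  have b2 := abs_le.mp hM1
  have hεT : 0 < ε * T := by positivity
  rw [abs_le]
  constructor
  · linarith only [b1.1, b2.1, hs3, hE3, g5a, hout, hεT]
  · have q1 : 0 ≤ 2 * r * K := by positivity
    linarith only [b1.2, b2.2, hs3, hE3, hXe, hεT, q1]

theorem xs_var (f : TF) {ε : ℝ} (hε : 0 < ε) : ∀ᶠ T : ℝ in atTop,
    ∫ t in Icc (Real.sqrt T) (T - Real.sqrt T), (Xs f.h T t - f.h 0) ^ 2 ≤
      (2 * (∫ y in (0:ℝ)..(1 / 2), y * f.h y ^ 2) + ε) * T := by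
  obtain ⟨D, hD⟩ : ∃ D, D = 2 * ∫ y in (0:ℝ)..(1 / 2), y * f.h y ^ 2 := ⟨_, rfl⟩
  have hD0 : 0 ≤ D := by rw [hD]; exact D_nonneg78 f
  obtain ⟨s, hs⟩ : ∃ s, s = min 1 (ε / (8 * (D + 1))) := ⟨_, rfl⟩
  have hs0 : 0 < s := by rw [hs]; positivity
  have hs1 : s ≤ 1 := by rw [hs]; exact min_le_left _ _
  have hs2 : s * D ≤ ε / 8 := by
    have h1 : s ≤ ε / (8 * (D + 1)) := by rw [hs]; exact min_le_right _ _
    calc s * D ≤ ε / (8 * (D + 1)) * (D + 1) := by gcongr; linarith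
      _ = ε / 8 := by field_simp
  obtain ⟨η, hη⟩ : ∃ η, η = ε / 8 / (1 + 1 / s) := ⟨_, rfl⟩
  have hη0 : 0 < η := by rw [hη]; positivity
  have hηs : (1 + 1 / s) * η = ε / 8 := by rw [hη]; field_simp
  filter_upwards [er_sq78 f hη0, edge f (show 0 < ε / 8 by positivity), prs_sq f (show 0 < ε / 8 by positivity),
    sqrt_small78 (show 0 < ε / 8 by positivity) 1, eventually_gt_atTop (1:ℝ)] with T g1 g2 g3 g5 g6
  have hT0 : 0 < T := by linarith only [g6]
  obtain ⟨r, hr⟩ : ∃ r, r = Real.sqrt T := ⟨_, rfl⟩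
  have hr0 : 0 ≤ r := by rw [hr]; exact Real.sqrt_nonneg _
  rw [← hr] at g1 g2 g5 ⊢
  rw [← hD]
  obtain ⟨hi1, hi2, hi3⟩ := g1
  obtain ⟨g5a, g5b⟩ := g5
  have g3' := g3 r (T - r) hr0 g5b (by linarith only [hr0])
  rw [intervalIntegral.integral_of_le g5b, ← integral_Icc_eq_integral_Ioc, ← hD] at g3'
  have hc : Continuous (fun t => prs f.h (Real.log T) t) := prs_cont16 _ _
  have ip2 : IntegrableOn (fun t => prs f.h (Real.log T) t ^ 2) (Icc r (T - r)) := (hc.pow 2).continuousOn.integrableOn_compact isCompact_Icc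
  have hpt : ∀ t, (Xs f.h T t - f.h 0) ^ 2 ≤ (1 + s) * prs f.h (Real.log T) t ^ 2 + (1 + 1 / s) * er78 f T t ^ 2 := by
    intro t
    obtain ⟨a, ha⟩ : ∃ a, a = prs f.h (Real.log T) t := ⟨_, rfl⟩
    obtain ⟨b, hb⟩ : ∃ b, b = er78 f T t := ⟨_, rfl⟩
    have q : Xs f.h T t - f.h 0 = b - a := by rw [ha, hb]; unfold er78; ring
    rw [q, ← ha, ← hb]
    have q4 : 0 ≤ (s * a + b) ^ 2 / s := by positivity
    have q5 : (s * a + b) ^ 2 / s = s * a ^ 2 + 1 / s * b ^ 2 + 2 * a * b := by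
      field_simp
      ring
    nlinarith only [q4, q5]
  have h1 : ∫ t in Icc r (T - r), (Xs f.h T t - f.h 0) ^ 2 ≤
      ∫ t in Icc r (T - r), ((1 + s) * prs f.h (Real.log T) t ^ 2 + (1 + 1 / s) * er78 f T t ^ 2) := by
    refine integral_mono_of_nonneg (Eventually.of_forall fun t => sq_nonneg _) ((ip2.const_mul _).add (hi2.const_mul _)) (Eventually.of_forall hpt)
  rw [integral_add (ip2.const_mul _) (hi2.const_mul _), integral_const_mul, integral_const_mul] at h1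
  have h2 := (abs_le.mp g3').2
  obtain ⟨P2, hP2⟩ : ∃ P2, P2 = ∫ t in Icc r (T - r), prs f.h (Real.log T) t ^ 2 := ⟨_, rfl⟩
  obtain ⟨EI, hEI⟩ : ∃ EI, EI = ∫ t in Icc r (T - r), er78 f T t ^ 2 := ⟨_, rfl⟩
  rw [← hP2, ← hEI] at h1
  rw [← hP2] at h2
  rw [← hEI] at hi3
  have h3 : P2 ≤ D * T + ε / 8 * T := by
    have : 0 ≤ 2 * r * D := by positivity
    linarith only [h2, this]
  have h4 : (1 + s) * P2 ≤ (1 + s) * (D * T + ε / 8 * T) := by gcongr
  have h5 : s * D * T ≤ ε / 8 * T := by gcongr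
  have h6 : s * (ε / 8 * T) ≤ ε / 8 * T := by
    have : 0 ≤ ε / 8 * T := by positivity
    nlinarith only [hs1, this]
  have hE3 : (1 + 1 / s) * EI ≤ ε / 8 * T := by
    calc (1 + 1 / s) * EI ≤ (1 + 1 / s) * (η * T) := by gcongr
      _ = (1 + 1 / s) * η * T := by ring
      _ = ε / 8 * T := by rw [hηs]
  have hεT : 0 < ε * T := by positivity
  linarith only [h1, h4, h5, h6, hE3, hεT]

end Pool.Agent.Helper92.RG
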