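import Pool.Agent.Helper92.RG.SecMom
import Pool.Agent.Helper92.RG.EsMean
import Pool.Agent.Helper92.RG.EsSq
import Pool.Agent.Helper92.RG.Good

/-!
# RG-Second
The second-order law at scale `B = 2^j`. Put `g = TFs f B` (so `g.h = scl f.h B`, a `TF`), `X = Xs g.h T`, `Y = Ys g.h T`, `E = Es g.h T = X - Y`,
`I = [√T, T - √T]`, `h0 = g.h 0 = f.h 0`. All integrals over the complement of `I` of `X², Y², |X|, |Y|` are at most `εT` (`edge g`; `E² <= 2X² + 2Y²`). On `I`: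
`∫ Y² = ∫ X² - 2 ∫ (X - h0) E - 2 h0 ∫ E + ∫ E²`, with `|∫ X² - kap0 T| <= εT` (`xs_second g`), `|∫_I E| <= εT` (`es_mean g`),
`∫_I (X - h0)² <= (2 ∫ y h(By)² dy + ε) T` where `2 ∫_0^(1/2) y h(By)² dy <= C_f / B²` (`xs_var g`, substitution), `∫ E² <= C T (Qs/B⁴ + 1/B⁸)` (`es_sq f`).
Cauchy-Schwarz: `|∫ (X - h0) E| <= T (C_f/B² + ε)^(1/2) (C (Qs/B⁴ + 1/B⁸))^(1/2)`. Since `Qs T (2^j) <= C` eventually (`qs_le` with `J = j + 1` and `qs_nonneg`):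
`Qs/B⁴ <= C √Qs/B³`. Finally `∫ Y² = T * PF T (ZT T) (CT (g.h²))` (`ys_sq g`). The error terms with `ε` are absorbed (take `ε` small depending on `B`).
-/

open MeasureTheory Set Filter Topology
open Pool.Agent.Helper57.Zeta Pool.Agent.Helper57.PC Pool.Agent.Helper57.LH
open Pool.Agent.Helper78.SG
open Pool.Agent.Helper4.PC (CT)
open scoped ContDiff ENNReal

namespace Pool.Agent.Helper92.RG

/-- `∫_0^(1/2) y h(By)² dy = B^(-2) ∫_0^(1/2) y h(y)² dy`. -/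
private theorem var_scl78 (f : TF) {B : ℝ} (hB : 1 ≤ B) :
    ∫ y in (0:ℝ)..(1 / 2), y * scl f.h B y ^ 2 = (∫ y in (0:ℝ)..(1 / 2), y * f.h y ^ 2) / B ^ 2 := by
  have hB0 : 0 < B := by linarith only [hB]
  have h1 : ∫ y in (0:ℝ)..(1 / 2), y * scl f.h B y ^ 2 = B⁻¹ * ∫ y in (0:ℝ)..(1 / 2), (fun u => u * f.h u ^ 2) (B * y) := by
    rw [← intervalIntegral.integral_const_mul]
    refine intervalIntegral.integral_congr fun y _ => ?_
    simp only [scl]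
    field_simp
  have h2 : ∫ y in (0:ℝ)..(1 / 2), (fun u => u * f.h u ^ 2) (B * y) = B⁻¹ * ∫ u in (0:ℝ)..(B / 2), u * f.h u ^ 2 := by
    have := intervalIntegral.integral_comp_mul_left (a := 0) (b := 1 / 2) (fun u => u * f.h u ^ 2) hB0.ne'
    rw [smul_eq_mul, mul_zero] at this
    rw [this]
    congr 2
    ring
  have hc : Continuous (fun u => u * f.h u ^ 2) := continuous_id.mul (f.smooth.continuous.pow 2)
  have h3 : ∫ u in (0:ℝ)..(B / 2), u * f.h u ^ 2 = ∫ u in (0:ℝ)..(1 / 2), u * f.h u ^ 2 := by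
    rw [← intervalIntegral.integral_add_adjacent_intervals (hc.intervalIntegrable 0 (1 / 2)) (hc.intervalIntegrable (1 / 2) (B / 2))]
    have h4 : ∫ u in (1 / 2 : ℝ)..(B / 2), u * f.h u ^ 2 = 0 := by
      rw [intervalIntegral.integral_congr (g := fun _ => 0)]
      · simp
      · intro u hu
        rw [uIcc_of_le (by linarith only [hB])] at hu
        have h5 : f.h u = 0 := f.supp u (by
          rw [abs_of_nonneg (by linarith only [hu.1])]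
          linarith only [hu.1, f.th1])
        simp only [h5]
        ring
    rw [h4, add_zero]
  rw [h1, h2, h3]
  field_simp

/-- the elementary inequality -/
private theorem alg78 {C1 C2 D Q B e : ℝ} (hC1 : 0 ≤ C1) (hC2 : 0 ≤ C2) (hD : 0 ≤ D) (hQ : 0 ≤ Q) (hQC : Q ≤ C2) (hB : 1 ≤ B) (he : 0 ≤ e) :
    2 * (Real.sqrt (D / B ^ 2 + e) * Real.sqrt (C1 * (Q / B ^ 4 + 1 / B ^ 8))) + C1 * (Q / B ^ 4 + 1 / B ^ 8) ≤
      (2 * (Real.sqrt D * Real.sqrt C1) + C1 * (Real.sqrt C2 + 1)) * (Real.sqrt Q / B ^ 3 + 1 / B ^ 5) +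
        2 * (Real.sqrt e * (Real.sqrt C1 * (Real.sqrt C2 + 1))) := by
  have hB0 : 0 < B := by linarith only [hB]
  have hsQ := Real.sqrt_nonneg Q
  have hsC2 := Real.sqrt_nonneg C2
  have hsQC : Real.sqrt Q ≤ Real.sqrt C2 := Real.sqrt_le_sqrt hQC
  have hsub : ∀ x y : ℝ, 0 ≤ x → 0 ≤ y → Real.sqrt (x + y) ≤ Real.sqrt x + Real.sqrt y := by
    intro x y hx hy
    rw [Real.sqrt_le_left (by positivity)]
    have := Real.sq_sqrt hx
    have := Real.sq_sqrt hy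
    nlinarith only [Real.sq_sqrt hx, Real.sq_sqrt hy, mul_nonneg (Real.sqrt_nonneg x) (Real.sqrt_nonneg y)]
  have h1 : Real.sqrt (D / B ^ 2 + e) ≤ Real.sqrt D / B + Real.sqrt e := by
    refine (hsub _ _ (by positivity) he).trans (le_of_eq ?_)
    rw [Real.sqrt_div hD, Real.sqrt_sq hB0.le]
  have h2 : Real.sqrt (C1 * (Q / B ^ 4 + 1 / B ^ 8)) ≤ Real.sqrt C1 * (Real.sqrt Q / B ^ 2 + 1 / B ^ 4) := by
    rw [Real.sqrt_mul hC1]
    refine mul_le_mul_of_nonneg_left ?_ (Real.sqrt_nonneg _)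
    refine (hsub _ _ (by positivity) (by positivity)).trans (le_of_eq ?_)
    rw [Real.sqrt_div hQ, Real.sqrt_div zero_le_one, Real.sqrt_one]
    congr 2
    · rw [show B ^ 4 = (B ^ 2) ^ 2 by ring, Real.sqrt_sq (by positivity)]
    · rw [show B ^ 8 = (B ^ 4) ^ 2 by ring, Real.sqrt_sq (by positivity)]
  have h3 : Real.sqrt Q / B ^ 2 + 1 / B ^ 4 ≤ Real.sqrt C2 + 1 := by
    have q1 : Real.sqrt Q / B ^ 2 ≤ Real.sqrt Q := div_le_self hsQ (one_le_pow₀ hB)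
    have q2 : 1 / B ^ 4 ≤ 1 := div_le_self zero_le_one (one_le_pow₀ hB)
    linarith only [q1, q2, hsQC]
  have h4 : Q / B ^ 4 + 1 / B ^ 8 ≤ (Real.sqrt C2 + 1) * (Real.sqrt Q / B ^ 3 + 1 / B ^ 5) := by
    have q1 : Q / B ^ 4 ≤ Real.sqrt C2 * (Real.sqrt Q / B ^ 3) := by
      have e1 : Q / B ^ 4 = Real.sqrt Q * (Real.sqrt Q / B ^ 3) / B := by
        have := Real.mul_self_sqrt hQ
        rw [← mul_div_assoc, this]
        field_simp
      rw [e1]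
      refine (div_le_self (by positivity) hB).trans ?_
      gcongr
    have q2 : 1 / B ^ 8 ≤ 1 / B ^ 5 := by
      apply one_div_le_one_div_of_le (by positivity)
      exact pow_le_pow_right₀ hB (by norm_num)
    have q3 : 0 ≤ Real.sqrt C2 * (1 / B ^ 5) := by positivity
    have q4 : 0 ≤ Real.sqrt Q / B ^ 3 := by positivity
    linarith only [q1, q2, q3, q4]
  have h5 : Real.sqrt (D / B ^ 2 + e) * Real.sqrt (C1 * (Q / B ^ 4 + 1 / B ^ 8)) ≤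
      (Real.sqrt D / B + Real.sqrt e) * (Real.sqrt C1 * (Real.sqrt Q / B ^ 2 + 1 / B ^ 4)) := by gcongr
  have h6 : Real.sqrt e * (Real.sqrt C1 * (Real.sqrt Q / B ^ 2 + 1 / B ^ 4)) ≤ Real.sqrt e * (Real.sqrt C1 * (Real.sqrt C2 + 1)) := by gcongr
  have h7 : Real.sqrt D / B * (Real.sqrt C1 * (Real.sqrt Q / B ^ 2 + 1 / B ^ 4)) =
      Real.sqrt D * Real.sqrt C1 * (Real.sqrt Q / B ^ 3 + 1 / B ^ 5) := by field_simp
  have h8 : C1 * (Q / B ^ 4 + 1 / B ^ 8) ≤ C1 * ((Real.sqrt C2 + 1) * (Real.sqrt Q / B ^ 3 + 1 / B ^ 5)) := by gcongr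
  have h9 : (Real.sqrt D / B + Real.sqrt e) * (Real.sqrt C1 * (Real.sqrt Q / B ^ 2 + 1 / B ^ 4)) =
      Real.sqrt D * Real.sqrt C1 * (Real.sqrt Q / B ^ 3 + 1 / B ^ 5) + Real.sqrt e * (Real.sqrt C1 * (Real.sqrt Q / B ^ 2 + 1 / B ^ 4)) := by
    rw [add_mul, h7]
  rw [h9] at h5
  linarith only [h5, h6, h8]

theorem second_order (f : TF) : ∃ C : ℝ, 0 < C ∧ ∀ j : ℕ, (19200:ℝ) ≤ 2 ^ j → ∀ ε : ℝ, 0 < ε → ∀ᶠ T : ℝ in atTop,
    |PF T (ZT T) (CT (fun y => scl f.h (2 ^ j) y ^ 2)) - kap0 (scl f.h (2 ^ j))| ≤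
      C * (Real.sqrt (Qs T (2 ^ j)) / (2 ^ j) ^ 3 + 1 / (2 ^ j) ^ 5) + ε := by
  obtain ⟨C1, hC1, hE⟩ := es_sq f
  obtain ⟨C2, hC2, hQ⟩ := qs_le
  obtain ⟨D, hD⟩ : ∃ D, D = 2 * ∫ y in (0:ℝ)..(1 / 2), y * f.h y ^ 2 := ⟨_, rfl⟩
  have hD0 : 0 ≤ D := by
    have : 0 ≤ ∫ y in (0:ℝ)..(1 / 2), y * f.h y ^ 2 := by
      refine intervalIntegral.integral_nonneg (by norm_num) fun y hy => ?_
      exact mul_nonneg hy.1 (sq_nonneg _)
    rw [hD]; positivity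
  refine ⟨2 * (Real.sqrt D * Real.sqrt C1) + C1 * (Real.sqrt C2 + 1), by positivity, fun j hj ε hε => ?_⟩
  obtain ⟨B, hBj⟩ : ∃ B : ℝ, B = 2 ^ j := ⟨_, rfl⟩
  rw [← hBj] at hj ⊢
  have hB1 : 1 ≤ B := by linarith only [hj]
  obtain ⟨g, hg⟩ : ∃ g : TF, g = TFs f B hB1 := ⟨_, rfl⟩
  have hgh : g.h = scl f.h B := by rw [hg]; rfl
  obtain ⟨K, hK⟩ : ∃ K, K = kap0 (scl f.h B) := ⟨_, rfl⟩
  obtain ⟨A, hA⟩ : ∃ A, A = 3 + 2 * |g.h 0| := ⟨_, rfl⟩
  have hA0 : 0 < A := by rw [hA]; positivity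
  obtain ⟨S, hS⟩ : ∃ S, S = Real.sqrt C1 * (Real.sqrt C2 + 1) := ⟨_, rfl⟩
  have hS0 : 0 ≤ S := by rw [hS]; positivity
  obtain ⟨e, he⟩ : ∃ e, e = min (ε / (2 * A)) ((ε / (4 * (S + 1))) ^ 2) := ⟨_, rfl⟩
  have he0 : 0 < e := by rw [he]; positivity
  have he1 : A * e ≤ ε / 2 := by
    have h1 : e ≤ ε / (2 * A) := by rw [he]; exact min_le_left _ _
    calc A * e ≤ A * (ε / (2 * A)) := by gcongr
      _ = ε / 2 := by field_simp
  have he2 : 2 * (Real.sqrt e * S) ≤ ε / 2 := by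
    have h1 : Real.sqrt e ≤ ε / (4 * (S + 1)) := by
      have h2 : e ≤ (ε / (4 * (S + 1))) ^ 2 := by rw [he]; exact min_le_right _ _
      calc Real.sqrt e ≤ Real.sqrt ((ε / (4 * (S + 1))) ^ 2) := Real.sqrt_le_sqrt h2
        _ = _ := Real.sqrt_sq (by positivity)
    calc 2 * (Real.sqrt e * S) ≤ 2 * (ε / (4 * (S + 1)) * (S + 1)) := by gcongr; linarith only
      _ = ε / 2 := by field_simp; norm_num
  filter_upwards [hE B (by linarith only [hj]), hQ, edge g he0, xs_second g he0, xs_var g he0, es_mean g he0, eventually_gt_atTop (1:ℝ)]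
    with T k1 k2 k3 k4 k5 k6 k7
  have hT0 : 0 < T := by linarith only [k7]
  obtain ⟨hX1, hY1, hX2, hY2, hXo, hYo, -, -⟩ := k3
  obtain ⟨iE, hEs⟩ := k1
  have hQ0 := qs_nonneg k7 B
  have hQ1 : Qs T B ≤ C2 := by
    refine le_trans ?_ (k2 (j + 1))
    rw [hBj]
    exact Finset.single_le_sum (f := fun i => Qs T (2 ^ i)) (fun i _ => qs_nonneg k7 _) (Finset.self_mem_range_succ j)
  have hvar : (2 * ∫ y in (0:ℝ)..(1 / 2), y * g.h y ^ 2) = D / B ^ 2 := by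
    rw [hgh, var_scl78 f hB1, hD]
    ring
  rw [hvar] at k5
  -- the left side
  have hL : T * PF T (ZT T) (CT (fun y => scl f.h B y ^ 2)) = ∫ t, Ys g.h T t ^ 2 := by
    rw [(ys_sq g k7).2, hgh]
  rw [← hgh] at iE hEs
  rw [hgh] at hL
  obtain ⟨I, hI⟩ : ∃ I, I = Icc (Real.sqrt T) (T - Real.sqrt T) := ⟨_, rfl⟩
  have hIm : MeasurableSet I := by rw [hI]; exact measurableSet_Icc
  rw [← hI] at k5 k6 hXo hYo
  have hIv : volume I < ⊤ := by rw [hI]; exact measure_Icc_lt_top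
  have iE1 : Integrable (fun t => Es g.h T t) := by unfold Es; exact hX1.sub hY1
  have iXm : IntegrableOn (fun t => (Xs g.h T t - g.h 0) ^ 2) I := by
    have i1 : IntegrableOn (fun t => Xs g.h T t ^ 2 - (2 * g.h 0 * Xs g.h T t - g.h 0 ^ 2)) I :=
      hX2.integrableOn.sub ((hX1.integrableOn.const_mul _).sub (integrableOn_const hIv.ne))
    refine i1.congr (Eventually.of_forall fun t => ?_)
    simp only
    ring
  have iXE : IntegrableOn (fun t => (Xs g.h T t - g.h 0) * Es g.h T t) I := by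
    have i1 : IntegrableOn (fun t => (1 / 2) * (((Xs g.h T t - g.h 0) ^ 2 + Es g.h T t ^ 2) - (Ys g.h T t ^ 2 - (2 * g.h 0 * Ys g.h T t - g.h 0 ^ 2)))) I := by
      refine Integrable.const_mul ((iXm.add iE.integrableOn).sub (hY2.integrableOn.sub ((hY1.integrableOn.const_mul _).sub (integrableOn_const hIv.ne)))) _
    refine i1.congr (Eventually.of_forall fun t => ?_)
    simp only [Es]
    ring
  have hcs : |∫ t in I, (Xs g.h T t - g.h 0) * Es g.h T t| ≤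
      Real.sqrt (∫ t in I, (Xs g.h T t - g.h 0) ^ 2) * Real.sqrt (∫ t in I, Es g.h T t ^ 2) := by
    refine abs_integral_le_integral_abs.trans ?_
    have h1 := cs_gen (μ := volume.restrict I) (f := fun t => |Xs g.h T t - g.h 0|) (g := fun t => |Es g.h T t|) (fun _ => abs_nonneg _)
      (fun _ => abs_nonneg _) ((hX1.aestronglyMeasurable.restrict.sub aestronglyMeasurable_const).norm) (iE1.aestronglyMeasurable.restrict.norm)
      (by simp_rw [sq_abs]; exact iXm) (by simp_rw [sq_abs]; exact iE.integrableOn)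
    simp_rw [sq_abs] at h1
    simp_rw [abs_mul]
    exact h1
  have hEI : ∫ t in I, Es g.h T t ^ 2 ≤ C1 * T * (Qs T B / B ^ 4 + 1 / B ^ 8) :=
    (setIntegral_le_integral iE (Eventually.of_forall fun t => sq_nonneg _)).trans hEs
  have hEI0 : 0 ≤ ∫ t in I, Es g.h T t ^ 2 := integral_nonneg fun t => sq_nonneg _
  -- the identity on I
  have hid : ∫ t in I, Ys g.h T t ^ 2 = (∫ t in I, Xs g.h T t ^ 2) - 2 * (∫ t in I, (Xs g.h T t - g.h 0) * Es g.h T t) -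
      2 * g.h 0 * (∫ t in I, Es g.h T t) + ∫ t in I, Es g.h T t ^ 2 := by
    have q1 : ∀ t, Ys g.h T t ^ 2 = (Xs g.h T t ^ 2 - 2 * ((Xs g.h T t - g.h 0) * Es g.h T t)) - (2 * g.h 0 * Es g.h T t - Es g.h T t ^ 2) := by
      intro t
      unfold Es
      ring
    simp_rw [q1]
    have s1 : ∫ t in I, ((Xs g.h T t ^ 2 - 2 * ((Xs g.h T t - g.h 0) * Es g.h T t)) - (2 * g.h 0 * Es g.h T t - Es g.h T t ^ 2)) =
        (∫ t in I, (Xs g.h T t ^ 2 - 2 * ((Xs g.h T t - g.h 0) * Es g.h T t))) - ∫ t in I, (2 * g.h 0 * Es g.h T t - Es g.h T t ^ 2) :=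
      integral_sub (hX2.integrableOn.sub (iXE.const_mul 2)) ((iE1.integrableOn.const_mul _).sub iE.integrableOn)
    have s2 : ∫ t in I, (Xs g.h T t ^ 2 - 2 * ((Xs g.h T t - g.h 0) * Es g.h T t)) =
        (∫ t in I, Xs g.h T t ^ 2) - ∫ t in I, 2 * ((Xs g.h T t - g.h 0) * Es g.h T t) := integral_sub hX2.integrableOn (iXE.const_mul 2)
    have s3 : ∫ t in I, (2 * g.h 0 * Es g.h T t - Es g.h T t ^ 2) = (∫ t in I, 2 * g.h 0 * Es g.h T t) - ∫ t in I, Es g.h T t ^ 2 :=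
      integral_sub (iE1.integrableOn.const_mul _) iE.integrableOn
    rw [s1, s2, s3, integral_const_mul, integral_const_mul]
    ring
  have hsX := integral_add_compl (μ := volume) (f := fun t => Xs g.h T t ^ 2) hIm hX2
  have hsY := integral_add_compl (μ := volume) (f := fun t => Ys g.h T t ^ 2) hIm hY2
  have hXo0 : 0 ≤ ∫ t in Iᶜ, Xs g.h T t ^ 2 := integral_nonneg fun t => sq_nonneg _
  have hYo0 : 0 ≤ ∫ t in Iᶜ, Ys g.h T t ^ 2 := integral_nonneg fun t => sq_nonneg _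
  obtain ⟨XI, hXI⟩ : ∃ x, x = ∫ t in I, Xs g.h T t ^ 2 := ⟨_, rfl⟩
  obtain ⟨YI, hYI⟩ : ∃ x, x = ∫ t in I, Ys g.h T t ^ 2 := ⟨_, rfl⟩
  obtain ⟨XO, hXO⟩ : ∃ x, x = ∫ t in Iᶜ, Xs g.h T t ^ 2 := ⟨_, rfl⟩
  obtain ⟨YO, hYO⟩ : ∃ x, x = ∫ t in Iᶜ, Ys g.h T t ^ 2 := ⟨_, rfl⟩
  obtain ⟨EI, hEI'⟩ : ∃ x, x = ∫ t in I, Es g.h T t ^ 2 := ⟨_, rfl⟩
  obtain ⟨E1, hE1⟩ : ∃ x, x = ∫ t in I, Es g.h T t := ⟨_, rfl⟩
  obtain ⟨XE, hXE⟩ : ∃ x, x = ∫ t in I, (Xs g.h T t - g.h 0) * Es g.h T t := ⟨_, rfl⟩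
  obtain ⟨XV, hXV⟩ : ∃ x, x = ∫ t in I, (Xs g.h T t - g.h 0) ^ 2 := ⟨_, rfl⟩
  rw [← hXV] at k5
  rw [← hE1] at k6
  rw [← hXO] at hXo hXo0
  rw [← hYO] at hYo hYo0
  rw [← hXV, ← hXE, ← hEI'] at hcs
  rw [← hEI'] at hEI hEI0
  rw [← hYI, ← hXI, ← hXE, ← hE1, ← hEI'] at hid
  rw [← hXI, ← hXO] at hsX
  rw [← hYI, ← hYO] at hsY
  rw [← hsX, hgh, ← hK] at k4
  rw [← hgh, ← hsY] at hL
  -- Cauchy-Schwarz in the scaled form
  have hR : Real.sqrt XV * Real.sqrt EI ≤ T * (Real.sqrt (D / B ^ 2 + e) * Real.sqrt (C1 * (Qs T B / B ^ 4 + 1 / B ^ 8))) := by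
    have h1 : Real.sqrt XV ≤ Real.sqrt ((D / B ^ 2 + e) * T) := Real.sqrt_le_sqrt k5
    have h2 : Real.sqrt EI ≤ Real.sqrt (C1 * (Qs T B / B ^ 4 + 1 / B ^ 8) * T) := by
      apply Real.sqrt_le_sqrt
      linarith only [hEI]
    rw [Real.sqrt_mul (by positivity)] at h1
    rw [Real.sqrt_mul (by positivity)] at h2
    calc Real.sqrt XV * Real.sqrt EI ≤ (Real.sqrt (D / B ^ 2 + e) * Real.sqrt T) * (Real.sqrt (C1 * (Qs T B / B ^ 4 + 1 / B ^ 8)) * Real.sqrt T) := by gcongr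
      _ = (Real.sqrt T * Real.sqrt T) * (Real.sqrt (D / B ^ 2 + e) * Real.sqrt (C1 * (Qs T B / B ^ 4 + 1 / B ^ 8))) := by ring
      _ = _ := by rw [Real.mul_self_sqrt hT0.le]
  have halg := alg78 (C1 := C1) (C2 := C2) (D := D) (Q := Qs T B) (B := B) (e := e) hC1.le hC2.le hD0 hQ0 hQ1 hB1 he0.le
  rw [← hS] at halg
  -- total
  have hfin : |(YI + YO) - K * T| ≤ T * (A * e + (2 * (Real.sqrt (D / B ^ 2 + e) * Real.sqrt (C1 * (Qs T B / B ^ 4 + 1 / B ^ 8))) +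
      C1 * (Qs T B / B ^ 4 + 1 / B ^ 8))) := by
    have q1 : (YI + YO) - K * T = ((XI + XO) - K * T) - XO + YO - 2 * XE - 2 * g.h 0 * E1 + EI := by rw [hid]; ring
    rw [q1]
    have b1 := abs_le.mp k4
    have b2 := abs_le.mp hcs
    have b3 : |2 * g.h 0 * E1| ≤ 2 * |g.h 0| * (e * T) := by
      rw [abs_mul, abs_mul, abs_two]
      gcongr
    have b4 := abs_le.mp b3
    have b5 : T * (A * e) = 3 * (e * T) + 2 * |g.h 0| * (e * T) := by rw [hA]; ring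
    have b6 : T * (A * e + (2 * (Real.sqrt (D / B ^ 2 + e) * Real.sqrt (C1 * (Qs T B / B ^ 4 + 1 / B ^ 8))) + C1 * (Qs T B / B ^ 4 + 1 / B ^ 8))) =
        T * (A * e) + 2 * (T * (Real.sqrt (D / B ^ 2 + e) * Real.sqrt (C1 * (Qs T B / B ^ 4 + 1 / B ^ 8)))) + C1 * T * (Qs T B / B ^ 4 + 1 / B ^ 8) := by ring
    rw [b6, b5, abs_le]
    have heT : 0 < e * T := by positivity
    have hnn : 0 ≤ C1 * T * (Qs T B / B ^ 4 + 1 / B ^ 8) := by positivity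
    constructor
    · linarith only [b1.1, b2.1, b2.2, b4.1, b4.2, hXo, hYo0, hEI0, hR, heT, hnn]
    · linarith only [b1.2, b2.1, b2.2, b4.1, b4.2, hXo0, hYo, hEI, hR, heT]
  have hfin2 : |PF T (ZT T) (CT (fun y => scl f.h B y ^ 2)) - K| * T = |(YI + YO) - K * T| := by
    rw [← hL, ← abs_of_pos hT0, ← abs_mul, abs_of_pos hT0, hgh]
    congr 1
    ring
  rw [← hK]
  have hfin3 : |PF T (ZT T) (CT (fun y => scl f.h B y ^ 2)) - K| ≤ A * e + (2 * (Real.sqrt (D / B ^ 2 + e) * Real.sqrt (C1 * (Qs T B / B ^ 4 + 1 / B ^ 8))) +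
      C1 * (Qs T B / B ^ 4 + 1 / B ^ 8)) := by
    rw [← hfin2] at hfin
    exact le_of_mul_le_mul_right (by linarith only [hfin]) hT0
  linarith only [hfin3, halg, he1, he2]

end Pool.Agent.Helper92.RG
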