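import Pool.Agent.Helper92.RG.Basic

/-!
# RG-TailP
Uniform bounds for the pair functional, from `Pool.Agent.Helper57.LS.uni`
(`WP T (fun u => Gm ((u - v) / B)) <= C * (1 + B) * SN T`) and `Gm_lower'` (`(1 + y ^ 2)⁻¹ <= π ^ 4 * Gm y`).

1. `pf_uniform`: `uni` with `B = 1`, through `PF_eq_WP`, `PF_mono` (or the same for `WP`).
2. `pf_tail`: for `2 ^ j R <= |u| < 2 ^ (j+1) R` one has `1 / (1 + u²) <= 5 / (4 ^ j R²) * 1 / (1 + (u / (2 ^ j R))²)`; `uni` with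
   `v = 0`, `B = 2 ^ j R >= 1` bounds the pair functional of `1 / (1 + (u / (2 ^ j R))²)` by `2 C' 2 ^ j R`; sum the geometric series
   (for fixed `T` finitely many `j` matter: the pairs are finitely many, so there is `J` with `|nd| < 2 ^ J R` for all of them).
-/

open MeasureTheory Set Filter Topology
open Pool.Agent.Helper57.Zeta Pool.Agent.Helper57.PC Pool.Agent.Helper57.LH
open Pool.Agent.Helper78.SG
open Pool.Agent.Helper4.PC (CT)
open scoped ContDiff ENNReal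

namespace Pool.Agent.Helper92.RG

private theorem tp33_unif : ∃ C : ℝ, 0 < C ∧ ∀ᶠ T : ℝ in atTop, ∀ B : ℝ, 0 < B → ∀ v : ℝ,
    PF T (ZT T) (fun u => 1 / (1 + ((u - v) / B) ^ 2)) ≤ C * (1 + B) := by
  obtain ⟨C, hC, h⟩ := Pool.Agent.Helper57.LS.uni
  have hpi := Real.pi_pos
  refine ⟨Real.pi ^ 4 * C, by positivity, ?_⟩
  filter_upwards [h, eventually_gt_atTop 1] with T hT hT1 B hB v
  have hS := SN_pos hT1
  rw [PF_eq_WP, div_le_iff₀ hS]
  have h1 : WP T (fun u => 1 / (1 + ((u - v) / B) ^ 2)) ≤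
      WP T (fun u => Real.pi ^ 4 * Pool.Agent.Helper57.LH.Gm ((u - v) / B)) := by
    apply WP_mono
    intro x
    rw [one_div]
    exact Pool.Agent.Helper57.LS.Gm_lower' _
  rw [WP_smul] at h1
  have h2 := hT B hB v
  calc _ ≤ _ := h1
    _ ≤ Real.pi ^ 4 * (C * (1 + B) * SN T) := by gcongr
    _ = _ := by ring

private theorem tp33_sum (T : ℝ) (F : Finset ZS) {ι : Type*} (s : Finset ι) (f : ι → ℝ → ℝ) :
    PF T F (fun x => ∑ j ∈ s, f j x) = ∑ j ∈ s, PF T F (f j) := by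
  classical
  induction s using Finset.induction_on with
  | empty =>
    simp only [Finset.sum_empty]
    unfold PF
    simp
  | insert a s ha ih =>
    simp only [Finset.sum_insert ha]
    rw [PF_add, ih]

private theorem tp33_mono_on {T : ℝ} (hT : 1 < T) (F : Finset ZS) {φ ψ : ℝ → ℝ} {M : ℝ}
    (hM : ∀ ρ ∈ F, ∀ ρ' ∈ F, |nd T ((ρ : ℂ), (ρ' : ℂ))| ≤ M)
    (h : ∀ x, |x| ≤ M → φ x ≤ ψ x) : PF T F φ ≤ PF T F ψ := by
  unfold PF
  have := SN_pos hT
  gcongr with ρ hρ ρ' hρ'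
  · exact mul_nonneg (mx_nonneg _) (mx_nonneg _)
  · exact h _ (hM ρ hρ ρ' hρ')

private theorem tp33_bound (T : ℝ) (F : Finset ZS) : ∃ M : ℝ, ∀ ρ ∈ F, ∀ ρ' ∈ F,
    |nd T ((ρ : ℂ), (ρ' : ℂ))| ≤ M := by
  refine ⟨∑ ρ ∈ F, ∑ ρ' ∈ F, |nd T ((ρ : ℂ), (ρ' : ℂ))|, fun ρ hρ ρ' hρ' => ?_⟩
  have h1 : |nd T ((ρ : ℂ), (ρ' : ℂ))| ≤ ∑ ρ' ∈ F, |nd T ((ρ : ℂ), (ρ' : ℂ))| :=
    Finset.single_le_sum (f := fun ρ' : ZS => |nd T ((ρ : ℂ), (ρ' : ℂ))|)
      (fun _ _ => abs_nonneg _) hρ'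
  refine h1.trans ?_
  exact Finset.single_le_sum (f := fun ρ : ZS => ∑ ρ' ∈ F, |nd T ((ρ : ℂ), (ρ' : ℂ))|)
    (fun _ _ => Finset.sum_nonneg fun _ _ => abs_nonneg _) hρ

theorem pf_uniform : ∃ C : ℝ, 0 < C ∧ ∀ᶠ T : ℝ in atTop, ∀ v : ℝ,
    PF T (ZT T) (fun u => 1 / (1 + (u - v) ^ 2)) ≤ C := by
  obtain ⟨C, hC, h⟩ := tp33_unif
  refine ⟨C * (1 + 1), by positivity, ?_⟩
  filter_upwards [h] with T hT v
  have h1 := hT 1 one_pos v
  simpa only [div_one] using h1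

theorem pf_tail : ∃ C : ℝ, 0 < C ∧ ∀ᶠ T : ℝ in atTop, ∀ R : ℝ, 1 ≤ R →
    PF T (ZT T) (fun u => if R ≤ |u| then 1 / (1 + u ^ 2) else 0) ≤ C / R := by
  obtain ⟨C, hC, h⟩ := tp33_unif
  refine ⟨20 * C, by positivity, ?_⟩
  filter_upwards [h, eventually_gt_atTop 1] with T hT hT1 R hR
  have hR0 : 0 < R := by linarith
  obtain ⟨M, hM⟩ := tp33_bound T (ZT T)
  obtain ⟨J, hJ⟩ := pow_unbounded_of_one_lt M (one_lt_two : (1 : ℝ) < 2)
  -- the majorant
  have h1 : PF T (ZT T) (fun u => if R ≤ |u| then 1 / (1 + u ^ 2) else 0) ≤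
      PF T (ZT T) (fun u => ∑ j ∈ Finset.range J,
        5 / (4 ^ j * R ^ 2) * (1 / (1 + ((u - 0) / (2 ^ j * R)) ^ 2))) := by
    apply tp33_mono_on hT1 _ hM
    intro u hu
    split_ifs with hRu
    · have hx : 1 ≤ |u| / R := by
        rw [le_div_iff₀ hR0]; linarith
      obtain ⟨j, hj1, hj2⟩ := exists_nat_pow_near hx (one_lt_two : (1 : ℝ) < 2)
      have hjJ : j ∈ Finset.range J := by
        rw [Finset.mem_range]
        by_contra hcon
        have h3 : (2 : ℝ) ^ J ≤ 2 ^ j := pow_le_pow_right₀ one_le_two (not_lt.mp hcon)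
        have h4 : |u| / R ≤ |u| := div_le_self (abs_nonneg _) hR
        linarith
      have h2j : (0 : ℝ) < 2 ^ j := by positivity
      have hle : 2 ^ j * R ≤ |u| := by
        rw [le_div_iff₀ hR0] at hj1; exact hj1
      have hlt : |u| < 2 ^ (j + 1) * R := by
        rw [div_lt_iff₀ hR0] at hj2; exact hj2
      refine le_trans ?_ (Finset.single_le_sum (f := fun j : ℕ =>
        5 / (4 ^ j * R ^ 2) * (1 / (1 + ((u - 0) / (2 ^ j * R)) ^ 2)))
        (fun _ _ => by positivity) hjJ)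
      have e4 : (4 : ℝ) ^ j * R ^ 2 = (2 ^ j * R) ^ 2 := by
        rw [mul_pow, ← pow_mul, mul_comm j 2, pow_mul]; norm_num
      simp only [sub_zero]
      rw [e4]
      set q : ℝ := 2 ^ j * R with hq
      have hq0 : 0 < q := by positivity
      have hlt' : |u| < 2 * q := by
        rw [pow_succ] at hlt; rw [hq]; linarith
      have hu2 : q ^ 2 ≤ u ^ 2 := by
        rw [← sq_abs u]; nlinarith [abs_nonneg u]
      have e5 : 5 / q ^ 2 * (1 / (1 + (u / q) ^ 2)) = 5 / (q ^ 2 + u ^ 2) := by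
        field_simp
      rw [e5, div_le_div_iff₀ (by positivity) (by positivity)]
      nlinarith [sq_nonneg u]
    · exact Finset.sum_nonneg fun _ _ => by positivity
  rw [tp33_sum] at h1
  have h2 : ∀ j ∈ Finset.range J, PF T (ZT T) (fun u =>
      5 / (4 ^ j * R ^ 2) * (1 / (1 + ((u - 0) / (2 ^ j * R)) ^ 2))) ≤ 10 * C / R * (1 / 2) ^ j := by
    intro j _
    have h2j : (1 : ℝ) ≤ 2 ^ j := one_le_pow₀ one_le_two
    have hq0 : 0 < 2 ^ j * R := by positivity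
    have hq1 : 1 ≤ 2 ^ j * R := by nlinarith
    rw [PF_smul]
    have h3 := hT (2 ^ j * R) hq0 0
    calc 5 / (4 ^ j * R ^ 2) * PF T (ZT T) (fun u => 1 / (1 + ((u - 0) / (2 ^ j * R)) ^ 2))
        ≤ 5 / (4 ^ j * R ^ 2) * (C * (1 + 2 ^ j * R)) := by gcongr
      _ ≤ 5 / (4 ^ j * R ^ 2) * (C * (2 ^ j * R + 2 ^ j * R)) := by gcongr
      _ = 10 * C / R * (1 / 2) ^ j := by
        have e4 : (4 : ℝ) ^ j = 2 ^ j * 2 ^ j := by
          rw [← mul_pow]; norm_num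
        rw [e4, one_div, inv_pow]
        field_simp
        ring
  have h3 : ∑ j ∈ Finset.range J, (10 * C / R * (1 / 2 : ℝ) ^ j) ≤ 20 * C / R := by
    rw [← Finset.mul_sum]
    have h4 : ∑ j ∈ Finset.range J, (1 / 2 : ℝ) ^ j ≤ 2 := by
      have h5 := Summable.sum_le_tsum (Finset.range J) (fun j _ => by positivity)
        summable_geometric_two
      rw [tsum_geometric_two] at h5
      exact h5
    calc 10 * C / R * ∑ j ∈ Finset.range J, (1 / 2 : ℝ) ^ j ≤ 10 * C / R * 2 := by gcongr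
      _ = 20 * C / R := by ring
  exact h1.trans ((Finset.sum_le_sum h2).trans h3)

end Pool.Agent.Helper92.RG
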