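import Mathlib

/-!
# RG-UniqM
Exponential moments from the cosine transform near zero (general; no zeta).

By induction on `k`: `x ^ (2k)` is `ν`-integrable and `∫ x^(2k) cos (y x) dν = ∫ x^(2k) cos (y x) dσ` for `|y| < δ` (the case `k = 0` is `h`). Step: for `0 < t < δ`
`∫ x^(2k) 2(1 - cos (t x))/t² dν = ∫ x^(2k) 2(1 - cos (t x))/t² dσ <= ∫ x^(2k+2) dσ < ∞`; Fatou (`t = 1/n`) gives integrability of `x^(2k+2)` for `ν`; then
the second difference quotient in `y` converges by dominated convergence on both sides. At `y = 0`: all even moments agree; so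
`∫ cosh (c x) dν = ∑ c^(2k)/(2k)! ∫ x^(2k) dν = ∫ cosh (c x) dσ < ∞` (monotone convergence / `lintegral_tsum`), and `exp (c |x|) <= 2 cosh (c x)`.
-/

open MeasureTheory Set Filter Topology

namespace Pool.Agent.Helper92.RG

private lemma sin_eq (u : ℝ) : Real.sin u = u * Real.sinc u := by
  by_cases hu : u = 0
  · subst hu; simp
  · rw [Real.sinc_of_ne_zero hu]; field_simp

/-- the second difference of the cosine -/
private lemma cos_second (x y t : ℝ) (ht : t ≠ 0) :
    x ^ 2 * Real.cos (y * x) * Real.sinc (t * x / 2) ^ 2 =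
      (2 * Real.cos (y * x) - Real.cos ((y + t) * x) - Real.cos ((y - t) * x)) / t ^ 2 := by
  have h1 : Real.cos ((y + t) * x) = Real.cos (y * x) * Real.cos (t * x) - Real.sin (y * x) * Real.sin (t * x) := by
    rw [add_mul, Real.cos_add]
  have h2 : Real.cos ((y - t) * x) = Real.cos (y * x) * Real.cos (t * x) + Real.sin (y * x) * Real.sin (t * x) := by
    rw [sub_mul, Real.cos_sub]
  have h3 : Real.cos (t * x) = 1 - 2 * Real.sin (t * x / 2) ^ 2 := by
    have := Real.cos_two_mul (t * x / 2)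
    rw [show 2 * (t * x / 2) = t * x by ring] at this
    have h4 := Real.sin_sq_add_cos_sq (t * x / 2)
    rw [this]; linarith
  rw [h1, h2, h3, sin_eq (t * x / 2)]
  field_simp
  ring

private lemma meas_pow_cos (k : ℕ) (y : ℝ) : Continuous (fun x : ℝ => x ^ (2 * k) * Real.cos (y * x)) :=
  (continuous_pow _).mul (Real.continuous_cos.comp (continuous_const.mul continuous_id))

private lemma int_pow_cos {μ : Measure ℝ} {k : ℕ} (hk : Integrable (fun x : ℝ => x ^ (2 * k)) μ) (y : ℝ) :
    Integrable (fun x : ℝ => x ^ (2 * k) * Real.cos (y * x)) μ := by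
  refine Integrable.mono' hk (meas_pow_cos k y).aestronglyMeasurable (Eventually.of_forall fun x => ?_)
  have h0 : 0 ≤ x ^ (2 * k) := by rw [pow_mul]; positivity
  rw [Real.norm_eq_abs, abs_mul, abs_of_nonneg h0]
  have := Real.abs_cos_le_one (y * x)
  nlinarith

private lemma meas_kern (k : ℕ) (y t : ℝ) :
    Continuous (fun x : ℝ => x ^ (2 * (k + 1)) * Real.cos (y * x) * Real.sinc (t * x / 2) ^ 2) := by
  refine (meas_pow_cos (k + 1) y).mul ?_
  refine (Real.continuous_sinc.comp ?_).pow 2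
  exact (continuous_const.mul continuous_id).div_const 2

/-- the second difference of the transform -/
private lemma second_diff {μ : Measure ℝ} {k : ℕ} (hk : Integrable (fun x : ℝ => x ^ (2 * k)) μ) (y t : ℝ) (ht : t ≠ 0) :
    (Integrable (fun x : ℝ => x ^ (2 * (k + 1)) * Real.cos (y * x) * Real.sinc (t * x / 2) ^ 2) μ) ∧
    ∫ x, x ^ (2 * (k + 1)) * Real.cos (y * x) * Real.sinc (t * x / 2) ^ 2 ∂μ =
      (2 * ∫ x, x ^ (2 * k) * Real.cos (y * x) ∂μ) / t ^ 2 - (∫ x, x ^ (2 * k) * Real.cos ((y + t) * x) ∂μ) / t ^ 2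
        - (∫ x, x ^ (2 * k) * Real.cos ((y - t) * x) ∂μ) / t ^ 2 := by
  have he : (fun x : ℝ => x ^ (2 * (k + 1)) * Real.cos (y * x) * Real.sinc (t * x / 2) ^ 2) =
      fun x => ((2 * (x ^ (2 * k) * Real.cos (y * x))) / t ^ 2 - (x ^ (2 * k) * Real.cos ((y + t) * x)) / t ^ 2)
        - (x ^ (2 * k) * Real.cos ((y - t) * x)) / t ^ 2 := by
    funext x
    have h := cos_second x y t ht
    have e : x ^ (2 * (k + 1)) * Real.cos (y * x) * Real.sinc (t * x / 2) ^ 2 =
        x ^ (2 * k) * (x ^ 2 * Real.cos (y * x) * Real.sinc (t * x / 2) ^ 2) := by ring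
    rw [e, h]; ring
  have i1 : Integrable (fun x : ℝ => (2 * (x ^ (2 * k) * Real.cos (y * x))) / t ^ 2) μ :=
    ((int_pow_cos hk y).const_mul 2).div_const _
  have i2 : Integrable (fun x : ℝ => (x ^ (2 * k) * Real.cos ((y + t) * x)) / t ^ 2) μ :=
    (int_pow_cos hk (y + t)).div_const _
  have i3 : Integrable (fun x : ℝ => (x ^ (2 * k) * Real.cos ((y - t) * x)) / t ^ 2) μ :=
    (int_pow_cos hk (y - t)).div_const _
  constructor
  · rw [he]; exact (i1.sub i2).sub i3
  · rw [he]
    have a1 := integral_sub (i1.sub i2) i3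
    have a2 := integral_sub i1 i2
    simp only [Pi.sub_apply] at a1
    rw [a1, a2, integral_div, integral_div, integral_div, integral_const_mul]

private lemma sinc_tendsto {t : ℕ → ℝ} (x : ℝ) (ht : Tendsto t atTop (𝓝 0)) :
    Tendsto (fun n => Real.sinc (t n * x / 2) ^ 2) atTop (𝓝 1) := by
  have h1 : Tendsto (fun n => t n * x / 2) atTop (𝓝 0) := by
    have := (ht.mul_const x).div_const 2
    simpa using this
  have h2 := ((Real.continuous_sinc.tendsto 0).comp h1).pow 2
  simpa [Function.comp_def] using h2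

private lemma sinc_sq_le (u : ℝ) : Real.sinc u ^ 2 ≤ 1 := by
  have := Real.abs_sinc_le_one u
  rw [← sq_abs]
  nlinarith [abs_nonneg (Real.sinc u)]

private lemma even_pow_nonneg (x : ℝ) (k : ℕ) : 0 ≤ x ^ (2 * k) := by rw [pow_mul]; positivity

/-- the limit of the second differences -/
private lemma diff_lim {μ : Measure ℝ} {k : ℕ} (hk1 : Integrable (fun x : ℝ => x ^ (2 * (k + 1))) μ) (y : ℝ)
    {t : ℕ → ℝ} (ht : Tendsto t atTop (𝓝 0)) :
    Tendsto (fun n => ∫ x, x ^ (2 * (k + 1)) * Real.cos (y * x) * Real.sinc (t n * x / 2) ^ 2 ∂μ) atTop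
      (𝓝 (∫ x, x ^ (2 * (k + 1)) * Real.cos (y * x) ∂μ)) := by
  refine tendsto_integral_of_dominated_convergence (fun x => x ^ (2 * (k + 1)))
    (fun n => (meas_kern k y (t n)).aestronglyMeasurable) hk1 (fun n => Eventually.of_forall fun x => ?_)
    (Eventually.of_forall fun x => ?_)
  · have h0 := even_pow_nonneg x (k + 1)
    rw [Real.norm_eq_abs, abs_mul, abs_mul, abs_of_nonneg h0, abs_of_nonneg (sq_nonneg (Real.sinc (t n * x / 2)))]
    have h1 := Real.abs_cos_le_one (y * x)
    have h2 := sinc_sq_le (t n * x / 2)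
    have h3 : |Real.cos (y * x)| * Real.sinc (t n * x / 2) ^ 2 ≤ 1 := by
      nlinarith [abs_nonneg (Real.cos (y * x)), sq_nonneg (Real.sinc (t n * x / 2))]
    rw [mul_assoc]
    nlinarith
  · have := (sinc_tendsto x ht).const_mul (x ^ (2 * (k + 1)) * Real.cos (y * x))
    simpa using this

private lemma int_pow_exp {σ : Measure ℝ} {c : ℝ} (hc : 0 < c)
    (hexp : Integrable (fun x => Real.exp (c * |x|)) σ) (k : ℕ) : Integrable (fun x : ℝ => x ^ (2 * k)) σ := by
  refine Integrable.mono' (hexp.const_mul ((2 * k).factorial / c ^ (2 * k))) (continuous_pow _).aestronglyMeasurable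
    (Eventually.of_forall fun x => ?_)
  have h0 := even_pow_nonneg x k
  rw [Real.norm_eq_abs, abs_of_nonneg h0]
  have h1 := Real.pow_div_factorial_le_exp (c * |x|) (by positivity) (2 * k)
  have hf : (0 : ℝ) < (2 * k).factorial := by exact_mod_cast Nat.factorial_pos _
  rw [div_le_iff₀ hf] at h1
  have h2 : (c * |x|) ^ (2 * k) = c ^ (2 * k) * x ^ (2 * k) := by
    rw [mul_pow, pow_mul |x|, sq_abs, ← pow_mul]
  rw [h2] at h1
  have hcp : 0 < c ^ (2 * k) := by positivity
  calc x ^ (2 * k) = (c ^ (2 * k) * x ^ (2 * k)) / c ^ (2 * k) := by field_simp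
    _ ≤ (Real.exp (c * |x|) * (2 * k).factorial) / c ^ (2 * k) := by gcongr
    _ = (2 * k).factorial / c ^ (2 * k) * Real.exp (c * |x|) := by ring

/-- integrability by Fatou -/
private lemma fatou_step {ν : Measure ℝ} {k : ℕ} {B : ℝ} {t : ℕ → ℝ} (ht : Tendsto t atTop (𝓝 0))
    (hi : ∀ n, Integrable (fun x : ℝ => x ^ (2 * (k + 1)) * Real.sinc (t n * x / 2) ^ 2) ν)
    (hb : ∀ n, ∫ x, x ^ (2 * (k + 1)) * Real.sinc (t n * x / 2) ^ 2 ∂ν ≤ B) :
    Integrable (fun x : ℝ => x ^ (2 * (k + 1))) ν := by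
  have hc : Continuous (fun x : ℝ => x ^ (2 * (k + 1))) := continuous_pow _
  refine ⟨hc.aestronglyMeasurable, ?_⟩
  rw [hasFiniteIntegral_iff_ofReal (Eventually.of_forall fun x => even_pow_nonneg x (k + 1))]
  have hnn : ∀ n x, 0 ≤ x ^ (2 * (k + 1)) * Real.sinc (t n * x / 2) ^ 2 := fun n x =>
    mul_nonneg (even_pow_nonneg x (k + 1)) (sq_nonneg _)
  have hcn : ∀ n, Continuous (fun x : ℝ => x ^ (2 * (k + 1)) * Real.sinc (t n * x / 2) ^ 2) := fun n =>
    (continuous_pow _).mul ((Real.continuous_sinc.comp ((continuous_const.mul continuous_id).div_const 2)).pow 2)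
  have h1 : ∀ x : ℝ, ENNReal.ofReal (x ^ (2 * (k + 1))) =
      liminf (fun n => ENNReal.ofReal (x ^ (2 * (k + 1)) * Real.sinc (t n * x / 2) ^ 2)) atTop := by
    intro x
    symm
    apply Tendsto.liminf_eq
    apply ENNReal.tendsto_ofReal
    have := (sinc_tendsto x ht).const_mul (x ^ (2 * (k + 1)))
    simpa using this
  calc ∫⁻ x, ENNReal.ofReal (x ^ (2 * (k + 1))) ∂ν
      = ∫⁻ x, liminf (fun n => ENNReal.ofReal (x ^ (2 * (k + 1)) * Real.sinc (t n * x / 2) ^ 2)) atTop ∂ν :=
        lintegral_congr h1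
    _ ≤ liminf (fun n => ∫⁻ x, ENNReal.ofReal (x ^ (2 * (k + 1)) * Real.sinc (t n * x / 2) ^ 2) ∂ν) atTop :=
        lintegral_liminf_le fun n => (hcn n).measurable.ennreal_ofReal
    _ ≤ liminf (fun _ : ℕ => ENNReal.ofReal B) atTop := by
        refine liminf_le_liminf (Eventually.of_forall fun n => ?_)
        show ∫⁻ x, ENNReal.ofReal (x ^ (2 * (k + 1)) * Real.sinc (t n * x / 2) ^ 2) ∂ν ≤ ENNReal.ofReal B
        rw [← ofReal_integral_eq_lintegral_ofReal (hi n) (Eventually.of_forall (hnn n))]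
        exact ENNReal.ofReal_le_ofReal (hb n)
    _ = ENNReal.ofReal B := liminf_const _
    _ < ⊤ := ENNReal.ofReal_lt_top

/-- the moments by induction -/
private lemma moments {ν σ : Measure ℝ} [IsFiniteMeasure ν] [IsFiniteMeasure σ] {c δ : ℝ} (hc : 0 < c) (hδ : 0 < δ)
    (hexp : Integrable (fun x => Real.exp (c * |x|)) σ)
    (h : ∀ y : ℝ, |y| < δ → ∫ x, Real.cos (y * x) ∂ν = ∫ x, Real.cos (y * x) ∂σ) (k : ℕ) :
    Integrable (fun x : ℝ => x ^ (2 * k)) ν ∧
      ∀ y : ℝ, |y| < δ → ∫ x, x ^ (2 * k) * Real.cos (y * x) ∂ν = ∫ x, x ^ (2 * k) * Real.cos (y * x) ∂σ := by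
  induction k with
  | zero =>
    refine ⟨by simp, fun y hy => ?_⟩
    simpa using h y hy
  | succ k ih =>
    obtain ⟨ihi, ihe⟩ := ih
    have hσk := int_pow_exp hc hexp k
    have hσk1 := int_pow_exp hc hexp (k + 1)
    -- the sequences
    have hseq : ∀ y : ℝ, |y| < δ → ∃ t : ℕ → ℝ, Tendsto t atTop (𝓝 0) ∧ (∀ n, t n ≠ 0) ∧
        (∀ n, |y + t n| < δ) ∧ (∀ n, |y - t n| < δ) := by
      intro y hy
      refine ⟨fun n => (δ - |y|) * (1 / ((n : ℝ) + 1 + 1)), ?_, fun n => ?_, fun n => ?_, fun n => ?_⟩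
      · have h1 : Tendsto (fun n : ℕ => 1 / ((n : ℝ) + 1 + 1)) atTop (𝓝 0) := by
          have := (tendsto_one_div_add_atTop_nhds_zero_nat (𝕜 := ℝ)).comp (tendsto_add_atTop_nat 1)
          refine this.congr fun n => ?_
          simp
        have := h1.const_mul (δ - |y|)
        simpa using this
      · have : 0 < δ - |y| := by linarith
        positivity
      all_goals
        have h0 : 0 < δ - |y| := by linarith
        have hlt : 1 / ((n : ℝ) + 1 + 1) < 1 := by
          rw [div_lt_one (by positivity)]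
          have : (0 : ℝ) ≤ n := Nat.cast_nonneg n
          linarith
        have hp : 0 < 1 / ((n : ℝ) + 1 + 1) := by positivity
        have hs : (δ - |y|) * (1 / ((n : ℝ) + 1 + 1)) < δ - |y| := by nlinarith
        have hs0 : 0 < (δ - |y|) * (1 / ((n : ℝ) + 1 + 1)) := by positivity
        have hy1 := neg_abs_le y
        have hy2 := le_abs_self y
        rw [abs_lt]
        constructor <;> linarith
    -- the second differences agree
    have hdiff : ∀ y t : ℝ, |y| < δ → t ≠ 0 → |y + t| < δ → |y - t| < δ →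
        ∫ x, x ^ (2 * (k + 1)) * Real.cos (y * x) * Real.sinc (t * x / 2) ^ 2 ∂ν =
        ∫ x, x ^ (2 * (k + 1)) * Real.cos (y * x) * Real.sinc (t * x / 2) ^ 2 ∂σ := by
      intro y t hy ht h1 h2
      rw [(second_diff ihi y t ht).2, (second_diff hσk y t ht).2, ihe y hy, ihe _ h1, ihe _ h2]
    have hint : Integrable (fun x : ℝ => x ^ (2 * (k + 1))) ν := by
      obtain ⟨t, ht0, htn, ht1, ht2⟩ := hseq 0 (by simpa using hδ)
      refine fatou_step (B := ∫ x, x ^ (2 * (k + 1)) ∂σ) ht0 (fun n => ?_) (fun n => ?_)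
      · have := (second_diff ihi 0 (t n) (htn n)).1
        simpa using this
      · have h1 := hdiff 0 (t n) (by simpa using hδ) (htn n) (ht1 n) (ht2 n)
        simp only [zero_mul, Real.cos_zero, mul_one] at h1
        rw [h1]
        refine integral_mono ?_ hσk1 fun x => ?_
        · have := (second_diff hσk 0 (t n) (htn n)).1
          simpa using this
        · have h0 := even_pow_nonneg x (k + 1)
          have h2 := sinc_sq_le (t n * x / 2)
          show x ^ (2 * (k + 1)) * Real.sinc (t n * x / 2) ^ 2 ≤ x ^ (2 * (k + 1))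
          nlinarith
    refine ⟨hint, fun y hy => ?_⟩
    obtain ⟨t, ht0, htn, ht1, ht2⟩ := hseq y hy
    have l1 := diff_lim hint y ht0
    have l2 := diff_lim hσk1 y ht0
    refine tendsto_nhds_unique l1 (l2.congr fun n => ?_)
    exact (hdiff y (t n) hy (htn n) (ht1 n) (ht2 n)).symm

theorem uniq_exp {ν σ : Measure ℝ} [IsFiniteMeasure ν] [IsFiniteMeasure σ] {c δ : ℝ} (hc : 0 < c) (hδ : 0 < δ)
    (hexp : Integrable (fun x => Real.exp (c * |x|)) σ)
    (h : ∀ y : ℝ, |y| < δ → ∫ x, Real.cos (y * x) ∂ν = ∫ x, Real.cos (y * x) ∂σ) :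
    Integrable (fun x => Real.exp (c * |x|)) ν := by
  have hm := moments hc hδ hexp h
  have hcosh : ∀ μ : Measure ℝ, (∀ k : ℕ, Integrable (fun x : ℝ => x ^ (2 * k)) μ) →
      ∫⁻ x, ENNReal.ofReal (Real.cosh (c * x)) ∂μ =
        ∑' k : ℕ, ENNReal.ofReal (c ^ (2 * k) / (2 * k).factorial * ∫ x, x ^ (2 * k) ∂μ) := by
    intro μ hμ
    have h1 : ∀ x : ℝ, ENNReal.ofReal (Real.cosh (c * x)) =
        ∑' k : ℕ, ENNReal.ofReal (c ^ (2 * k) / (2 * k).factorial * x ^ (2 * k)) := by
      intro x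
      have hs := Real.hasSum_cosh (c * x)
      rw [← hs.tsum_eq, ENNReal.ofReal_tsum_of_nonneg _ hs.summable]
      · refine tsum_congr fun k => ?_
        congr 1
        rw [mul_pow]; ring
      · intro k
        have := even_pow_nonneg (c * x) k
        positivity
    simp_rw [h1]
    rw [lintegral_tsum]
    · refine tsum_congr fun k => ?_
      rw [← integral_const_mul, ofReal_integral_eq_lintegral_ofReal ((hμ k).const_mul _)]
      exact Eventually.of_forall fun x => mul_nonneg (by have := even_pow_nonneg c k; positivity) (even_pow_nonneg x k)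
    · intro k
      exact (((continuous_pow (2 * k)).measurable.const_mul _).ennreal_ofReal).aemeasurable
  have e1 := hcosh ν fun k => (hm k).1
  have e2 := hcosh σ fun k => int_pow_exp hc hexp k
  have e3 : ∫⁻ x, ENNReal.ofReal (Real.cosh (c * x)) ∂ν = ∫⁻ x, ENNReal.ofReal (Real.cosh (c * x)) ∂σ := by
    rw [e1, e2]
    refine tsum_congr fun k => ?_
    have := (hm k).2 0 (by simpa using hδ)
    simp only [zero_mul, Real.cos_zero, mul_one] at this
    rw [this]
  have hch : Continuous (fun x : ℝ => Real.cosh (c * x)) := Real.continuous_cosh.comp (continuous_const.mul continuous_id)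
  have hnn : ∀ x : ℝ, 0 ≤ Real.cosh (c * x) := fun x => (Real.cosh_pos _).le
  have iσ : Integrable (fun x => Real.cosh (c * x)) σ := by
    refine Integrable.mono' hexp hch.aestronglyMeasurable (Eventually.of_forall fun x => ?_)
    rw [Real.norm_eq_abs, abs_of_nonneg (hnn x), Real.cosh_eq]
    have h1 : c * x ≤ c * |x| := mul_le_mul_of_nonneg_left (le_abs_self x) hc.le
    have h2 : -(c * x) ≤ c * |x| := by
      have := mul_le_mul_of_nonneg_left (neg_abs_le x) hc.le
      linarith
    have := Real.exp_le_exp.2 h1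
    have := Real.exp_le_exp.2 h2
    linarith
  have iν : Integrable (fun x => Real.cosh (c * x)) ν := by
    refine ⟨hch.aestronglyMeasurable, ?_⟩
    rw [hasFiniteIntegral_iff_ofReal (Eventually.of_forall hnn), e3,
      ← hasFiniteIntegral_iff_ofReal (Eventually.of_forall hnn)]
    exact iσ.2
  refine Integrable.mono' (iν.const_mul 2) ?_ (Eventually.of_forall fun x => ?_)
  · exact (Real.continuous_exp.comp (continuous_const.mul continuous_abs)).aestronglyMeasurable
  · rw [Real.norm_eq_abs, abs_of_pos (Real.exp_pos _), Real.cosh_eq]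
    have h3 := Real.exp_pos (c * x)
    have h4 := Real.exp_pos (-(c * x))
    rcases abs_cases x with ⟨h5, _⟩ | ⟨h5, _⟩
    · rw [h5]; linarith
    · rw [h5, mul_neg]; linarith

end Pool.Agent.Helper92.RG
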