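import Pool.Agent.Helper92.RG.Basic

/-!
# RG-YVar
Uniformly bounded variance at all scales, for the kernels without depth `Yf (ZT T) X t = ∑ mx ρ * gs X 0 (t - γ)`, `X = log T / B`
(all in `Helper57/M/E.lean`).

`YT_sq`: `∫ Y² <= T (B² + C)`; `Yf_integral`: `∫ Y = (2π B / log T) NT T`, and `NT T ~ T log T / (2π)`, so `∫ Y = B T (1 + o(1))`; outside `[0, T]` both
`∫ Y` and `∫ Y²` are `o(T)` (`Yf_le_log`, `compl_region`, `KS_compl`, `Kd_integrable`: the kernel decays like `1 / (X w)²` and the zeros are in `[0, T]`).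
So `∫_[0,T] (Y - B)² <= T (B² + C) - 2B (B T - T/B) + B² T <= (C + 2) T`.
-/

open MeasureTheory Set Filter Topology
open Pool.Agent.Helper57.Zeta Pool.Agent.Helper57.PC Pool.Agent.Helper57.LH
open Pool.Agent.Helper78.SG
open Pool.Agent.Helper4.PC (CT)
open Pool.Agent.Helper57.LS (Yf_integrable Yf_integral)
open Pool.Agent.Helper57.UV (NL_ex KS KS_integrable KS_compl Yf_q)
open scoped ContDiff ENNReal

namespace Pool.Agent.Helper92.RG

theorem yf_var : ∃ C : ℝ, 0 < C ∧ ∀ B : ℝ, 9600 ≤ B → ∀ᶠ T : ℝ in atTop,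
    ∫ t in Icc 0 T, (Yf (ZT T) (Real.log T / B) t - B) ^ 2 ≤ C * T ∧
    ∫ t in (Icc 0 T)ᶜ, Yf (ZT T) (Real.log T / B) t ^ 2 ≤ C * T := by
  obtain ⟨C0, hC0, hsq⟩ := YT_sq
  obtain ⟨C2, hC2, hNT⟩ := NL_ex
  refine ⟨C0 + 3, by linarith, fun B hB => ?_⟩
  have hB0 : 0 < B := by linarith only [hB]
  have hCLA := CLA_pos
  have hC1 := C1_nonneg
  have hl := Real.tendsto_log_atTop
  filter_upwards [hsq B hB, hNT, NT_le_ev, eventually_ge_atTop (3:ℝ), hl.eventually_ge_atTop (14 * B ^ 2 + 1), hl.eventually_ge_atTop B,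
    log_pow_le (4 * Real.pi * B ^ 2 * C2) 0 (s := 15/16) (by norm_num), log_pow_le (160 * B * CLA) 1 (s := 1/2) (by norm_num),
    log_pow_le (80 * B * C1) 1 (s := 5/8) (by norm_num), log_pow_le (1600 * CLA ^ 2) 2 (s := 1/2) (by norm_num),
    log_pow_le (800 * CLA * C1) 2 (s := 5/8) (by norm_num)] with T g1 g2 g3 g4 g5 g6 g7 g8 g9 g10 g11
  have hT0 : 0 < T := by linarith only [g4]
  obtain ⟨L, hL⟩ : ∃ L, L = Real.log T := ⟨_, rfl⟩
  obtain ⟨X, hX⟩ : ∃ X, X = L / B := ⟨_, rfl⟩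
  rw [← hL] at g1 g3 g5 g6 g7 g8 g9 g10 g11 ⊢
  rw [← hX] at g1 ⊢
  have hL0 : 0 < L := by linarith only [hB, g6]
  have hL1 : 1 ≤ L := by linarith only [hB, g6]
  have hX1 : 1 ≤ X := by rw [hX, le_div_iff₀ hB0]; linarith only [g6]
  have hX0 : 0 < X := by linarith only [hX1]
  have hpi := Real.pi_pos
  have hZT : ∀ ρ ∈ ZT T, 0 ≤ (ρ:ℂ).im ∧ (ρ:ℂ).im ≤ T := fun ρ hρ => mem_ZT.mp hρ
  have hsT : Real.sqrt T = T ^ (1/2 : ℝ) := Real.sqrt_eq_rpow T
  have hsT1 : 1 ≤ Real.sqrt T := by rw [Real.one_le_sqrt]; linarith only [g4]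
  have hYi : Integrable (Yf (ZT T) X) := Yf_integrable _ hX0
  have hYi2 : Integrable (fun t => Yf (ZT T) X t ^ 2) := Yf_sq_integrable _ hX1
  have hNT0 : 0 ≤ NT T := by
    rw [← sum_ZT_mx]
    exact Finset.sum_nonneg fun ρ _ => mx_nonneg _
  have r1 : Real.sqrt T ^ (-(3/4) : ℝ) = T ^ (-(3/8) : ℝ) := by
    rw [hsT, ← Real.rpow_mul hT0.le]
    norm_num
  have hp : 0 < T ^ (-(3/8) : ℝ) := Real.rpow_pos_of_pos hT0 _
  have r6 : T * T ^ (-(3/8) : ℝ) = T ^ (5/8 : ℝ) := by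
    nth_rewrite 1 [← Real.rpow_one T]
    rw [← Real.rpow_add hT0]
    norm_num
  -- first moment outside
  have hc1 : ∫ t in (Icc 0 T)ᶜ, Yf (ZT T) X t ≤ T / (2 * B) := by
    have h1 : ∫ t in (Icc 0 T)ᶜ, Yf (ZT T) X t ≤ ∫ t in (Icc 0 T)ᶜ, 5 * KS (ZT T) t := by
      apply setIntegral_mono_on hYi.integrableOn ((KS_integrable _).const_mul 5).integrableOn measurableSet_Icc.compl
      intro t _
      have := Yf_q (F := ZT T) (X := X) (q := 1) hX0 le_rfl (by nlinarith only [hX1]) t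
      linarith only [this]
    rw [integral_const_mul] at h1
    have h2 := KS_compl (T := T) (a := 0) (b := T) (M := Real.sqrt T) g4 hsT1 le_rfl le_rfl hZT
    rw [sum_ZT_mx, ← hL, r1] at h2
    have h3 : 4 * T ^ (-(3/8) : ℝ) * NT T * C1 ≤ 4 * C1 * L * T ^ (5/8 : ℝ) := by
      calc 4 * T ^ (-(3/8) : ℝ) * NT T * C1 ≤ 4 * T ^ (-(3/8) : ℝ) * (T * L) * C1 := by gcongr
        _ = 4 * C1 * L * (T * T ^ (-(3/8) : ℝ)) := by ring
        _ = _ := by rw [r6]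
    have h4 : (4 * CLA * L) * (0 + (T - T) + 2 * Real.sqrt T) = 8 * CLA * L * T ^ (1/2 : ℝ) := by
      rw [hsT]; ring
    rw [le_div_iff₀ (by positivity)]
    rw [h4] at h2
    have h5 : (∫ t in (Icc 0 T)ᶜ, Yf (ZT T) X t) ≤ 5 * (8 * CLA * L * T ^ (1/2 : ℝ) + 4 * C1 * L * T ^ (5/8 : ℝ)) := by
      linarith only [h1, h2, h3]
    have h6 : (∫ t in (Icc 0 T)ᶜ, Yf (ZT T) X t) * (2 * B) ≤ 5 * (8 * CLA * L * T ^ (1/2 : ℝ) + 4 * C1 * L * T ^ (5/8 : ℝ)) * (2 * B) := by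
      gcongr
    rw [pow_one] at g8 g9
    linarith only [h6, g8, g9]
  -- second moment outside
  have hc2 : ∫ t in (Icc 0 T)ᶜ, Yf (ZT T) X t ^ 2 ≤ T := by
    have h2 := compl_region (T := T) (X := X) (a := 0) (M := Real.sqrt T) g4 hX1 hsT1 le_rfl hZT
    rw [sum_ZT_mx, ← hL, r1] at h2
    have h3 : 400 * CLA * L * T ^ (-(3/8) : ℝ) * NT T * C1 ≤ 400 * CLA * C1 * L ^ 2 * T ^ (5/8 : ℝ) := by
      calc 400 * CLA * L * T ^ (-(3/8) : ℝ) * NT T * C1 ≤ 400 * CLA * L * T ^ (-(3/8) : ℝ) * (T * L) * C1 := by gcongr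
        _ = 400 * CLA * C1 * L ^ 2 * (T * T ^ (-(3/8) : ℝ)) := by ring
        _ = _ := by rw [r6]
    have h4 : (20 * CLA * L) ^ 2 * (0 + 2 * Real.sqrt T) = 800 * CLA ^ 2 * L ^ 2 * T ^ (1/2 : ℝ) := by
      rw [hsT]; ring
    rw [h4] at h2
    linarith only [h2, h3, g10, g11]
  refine ⟨?_, by nlinarith only [hc2, hC0, hT0]⟩
  -- the mean
  have hmean : B * T - T / B ≤ ∫ t in Icc 0 T, Yf (ZT T) X t := by
    have s1 := integral_add_compl (μ := volume) (s := Icc 0 T) measurableSet_Icc hYi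
    rw [Yf_integral T hX0] at s1
    have h1 := (abs_le.mp g2).1
    have h2 : Real.log (T / (2 * Real.pi)) = L - Real.log (2 * Real.pi) := by
      rw [Real.log_div hT0.ne' (by positivity), ← hL]
    have h3 : Real.log (2 * Real.pi) ≤ 2 * Real.pi - 1 := Real.log_le_sub_one_of_pos (by positivity)
    have hpi4 := Real.pi_lt_d2
    have h4 : L - 7 ≤ Real.log (T / (2 * Real.pi)) - 1 := by rw [h2]; linarith only [h3, hpi4]
    have h5 : T / (2 * Real.pi) * (L - 7) ≤ T / (2 * Real.pi) * (Real.log (T / (2 * Real.pi)) - 1) := by gcongr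
    have h6 : T / (2 * Real.pi) * (L - 7) - C2 * T ^ (15/16 : ℝ) ≤ NT T := by linarith only [h1, h5]
    have h7 : 2 * Real.pi / X * (T / (2 * Real.pi) * (L - 7) - C2 * T ^ (15/16 : ℝ)) ≤ 2 * Real.pi / X * NT T := by gcongr
    have h8 : 2 * Real.pi / X * (T / (2 * Real.pi) * (L - 7) - C2 * T ^ (15/16 : ℝ)) = B * T - B * (7 * T + 2 * Real.pi * C2 * T ^ (15/16 : ℝ)) / L := by
      rw [hX]
      field_simp
      ring
    have h9 : B * (7 * T + 2 * Real.pi * C2 * T ^ (15/16 : ℝ)) / L ≤ T / (2 * B) := by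
      have hpow : 0 ≤ T ^ (15/16 : ℝ) := by positivity
      have k1 : 4 * Real.pi * B ^ 2 * C2 * T ^ (15/16 : ℝ) ≤ T := by simpa using g7
      rw [div_le_div_iff₀ hL0 (by positivity)]
      have k2 : T * (14 * B ^ 2 + 1) ≤ T * L := by gcongr
      linarith only [k1, k2]
    have h10 : T / B = T / (2 * B) + T / (2 * B) := by field_simp; norm_num
    linarith only [s1, h7, h8, h9, h10, hc1]
  have e1 : ∫ t in Icc 0 T, (Yf (ZT T) X t - B) ^ 2 = (∫ t in Icc 0 T, Yf (ZT T) X t ^ 2) - 2 * B * (∫ t in Icc 0 T, Yf (ZT T) X t) + B ^ 2 * T := by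
    have q1 : ∀ t, (Yf (ZT T) X t - B) ^ 2 = Yf (ZT T) X t ^ 2 - (2 * B * Yf (ZT T) X t - B ^ 2) := fun t => by ring
    simp_rw [q1]
    have i3 : IntegrableOn (fun _ : ℝ => B ^ 2) (Icc 0 T) := integrableOn_const (by simp)
    have i4 : IntegrableOn (fun t => 2 * B * Yf (ZT T) X t - B ^ 2) (Icc 0 T) := (hYi.integrableOn.const_mul (2 * B)).sub i3
    have s2 : ∫ t in Icc 0 T, (Yf (ZT T) X t ^ 2 - (2 * B * Yf (ZT T) X t - B ^ 2)) =
        (∫ t in Icc 0 T, Yf (ZT T) X t ^ 2) - ∫ t in Icc 0 T, (2 * B * Yf (ZT T) X t - B ^ 2) := integral_sub hYi2.integrableOn i4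
    have s3 : ∫ t in Icc 0 T, (2 * B * Yf (ZT T) X t - B ^ 2) = (∫ t in Icc 0 T, 2 * B * Yf (ZT T) X t) - ∫ t in Icc 0 T, B ^ 2 :=
      integral_sub (hYi.integrableOn.const_mul (2 * B)) i3
    rw [s2, s3, integral_const_mul, setIntegral_const, Real.volume_real_Icc_of_le hT0.le, smul_eq_mul]
    ring
  have h2 : ∫ t in Icc 0 T, Yf (ZT T) X t ^ 2 ≤ T * (B ^ 2 + C0) :=
    (setIntegral_le_integral hYi2 (Eventually.of_forall fun t => sq_nonneg _)).trans g1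
  rw [e1]
  have h3 : 2 * B * (B * T - T / B) ≤ 2 * B * (∫ t in Icc 0 T, Yf (ZT T) X t) := by gcongr
  have h4 : 2 * B * (B * T - T / B) = 2 * B ^ 2 * T - 2 * T := by field_simp
  nlinarith only [h2, h3, h4, hT0]

end Pool.Agent.Helper92.RG
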